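import Pool.Agent.MST.StA

/-!
MST module FEQ (helper3): closure properties of finite equivalence relations.
-/

set_option autoImplicit false

namespace Pool.Agent.MST

open FirstOrder.Language Set
open scoped FirstOrder
open Pool.Agent.WOM (tp Mon IsEl IsoM Fam)

private theorem FEQ_fin {L : FirstOrder.Language.{0, 0}} {M : Type} [L.Structure M] {α S : Type}
    (E : L.Formula (α ⊕ α)) (κ : (α → M) → S) (hS : (range κ).Finite)
    (h : ∀ x y, κ x = κ y → er E x y) :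
    ∃ F : Set (α → M), F.Finite ∧ ∀ x, ∃ y ∈ F, er E x y := by
  have h1 : ∀ s : range κ, ∃ x, κ x = s := fun s => s.2
  choose g hg using h1
  have _ : Finite (range κ) := hS.to_subtype
  refine ⟨range g, finite_range g, fun x => ⟨g ⟨κ x, mem_range_self x⟩, mem_range_self _, ?_⟩⟩
  exact h _ _ (hg ⟨κ x, mem_range_self x⟩).symm

/-- a class map of a finite equivalence relation -/
private theorem FEQ_cls {L : FirstOrder.Language.{0, 0}} {M : Type} [L.Structure M] {α : Type}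
    {E : L.Formula (α ⊕ α)} (hE : FE M E) :
    ∃ (F : Set (α → M)) (r : (α → M) → α → M), F.Finite ∧ (∀ x, r x ∈ F) ∧
      (∀ x, er E x (r x)) ∧ ∀ x y, r x = r y → er E x y := by
  obtain ⟨F, hF, h⟩ := hE.fin
  choose r hr hr' using h
  refine ⟨F, r, hF, hr, hr', fun x y hxy => hE.trans _ _ _ (hr' x) ?_⟩
  rw [hxy]
  exact hE.symm _ _ (hr' y)

/-- [FEQ] closure properties of finite equivalence relations -/
theorem thm_FEQ : St_FEQ := by
  intro L M _
  refine ⟨fun α E E' hE hE' => ?_, fun α β f E hE => ?_, fun α φ => ?_, fun α β _ E hE => ?_⟩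
  · refine ⟨fun x => ?_, fun x y => ?_, fun x y z => ?_, ?_⟩
    · rw [er_inf]
      exact ⟨hE.refl x, hE'.refl x⟩
    · rw [er_inf, er_inf]
      exact fun h => ⟨hE.symm _ _ h.1, hE'.symm _ _ h.2⟩
    · rw [er_inf, er_inf, er_inf]
      exact fun h h' => ⟨hE.trans _ _ _ h.1 h'.1, hE'.trans _ _ _ h.2 h'.2⟩
    · obtain ⟨F, r, hF, hr, -, hr2⟩ := FEQ_cls hE
      obtain ⟨F', r', hF', hr', -, hr2'⟩ := FEQ_cls hE'
      refine FEQ_fin _ (fun x => (r x, r' x)) ((hF.prod hF').subset ?_) ?_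
      · rintro _ ⟨x, rfl⟩
        exact ⟨hr x, hr' x⟩
      · intro x y hxy
        rw [er_inf]
        exact ⟨hr2 x y (congrArg Prod.fst hxy), hr2' x y (congrArg Prod.snd hxy)⟩
  · refine ⟨fun x => ?_, fun x y => ?_, fun x y z => ?_, ?_⟩
    · rw [er_pbE]
      exact hE.refl _
    · rw [er_pbE, er_pbE]
      exact hE.symm _ _
    · rw [er_pbE, er_pbE, er_pbE]
      exact hE.trans _ _ _
    · obtain ⟨F, r, hF, hr, -, hr2⟩ := FEQ_cls hE
      refine FEQ_fin _ (fun x => r (x ∘ f)) (hF.subset ?_) ?_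
      · rintro _ ⟨x, rfl⟩
        exact hr _
      · intro x y hxy
        rw [er_pbE]
        exact hr2 _ _ hxy
  · refine ⟨fun x => ?_, fun x y => ?_, fun x y z => ?_, ?_⟩
    · rw [er_fmE]
    · rw [er_fmE, er_fmE]
      exact Iff.symm
    · rw [er_fmE, er_fmE, er_fmE]
      exact Iff.trans
    · refine FEQ_fin _ (fun x => φ.Realize x) (toFinite _) ?_
      intro x y hxy
      rw [er_fmE]
      exact iff_of_eq hxy
  · refine ⟨fun x => ?_, fun x y => ?_, fun x y z => ?_, ?_⟩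
    · rw [er_prE]
      exact ⟨fun y => ⟨y, hE.refl _⟩, fun y => ⟨y, hE.refl _⟩⟩
    · rw [er_prE, er_prE]
      rintro ⟨h1, h2⟩
      refine ⟨fun z => ?_, fun z => ?_⟩
      · obtain ⟨w, hw⟩ := h2 z
        exact ⟨w, hE.symm _ _ hw⟩
      · obtain ⟨w, hw⟩ := h1 z
        exact ⟨w, hE.symm _ _ hw⟩
    · rw [er_prE, er_prE, er_prE]
      rintro ⟨h1, h2⟩ ⟨h3, h4⟩
      refine ⟨fun a => ?_, fun a => ?_⟩
      · obtain ⟨b, hb⟩ := h1 a
        obtain ⟨c, hc⟩ := h3 b
        exact ⟨c, hE.trans _ _ _ hb hc⟩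
      · obtain ⟨b, hb⟩ := h4 a
        obtain ⟨c, hc⟩ := h2 b
        exact ⟨c, hE.trans _ _ _ hc hb⟩
    · obtain ⟨F, r, hF, hr, hr1, hr2⟩ := FEQ_cls hE
      have key : ∀ x x' : α → M, {y | y ∈ F ∧ ∃ z : β → M, er E (Sum.elim x z) y} =
          {y | y ∈ F ∧ ∃ z : β → M, er E (Sum.elim x' z) y} → ∀ y : β → M, ∃ y' : β → M,
            er E (Sum.elim x y) (Sum.elim x' y') := by
        intro x x' h y
        have h1 : r (Sum.elim x y) ∈ {y | y ∈ F ∧ ∃ z : β → M, er E (Sum.elim x z) y} :=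
          ⟨hr _, y, hr1 _⟩
        rw [h] at h1
        obtain ⟨-, z, hz⟩ := h1
        exact ⟨z, hE.trans _ _ _ (hr1 _) (hE.symm _ _ hz)⟩
      refine FEQ_fin _ (fun x => {y | y ∈ F ∧ ∃ z : β → M, er E (Sum.elim x z) y})
        (hF.finite_subsets.subset ?_) ?_
      · rintro _ ⟨x, rfl⟩
        exact fun y hy => hy.1
      · intro x x' h
        rw [er_prE]
        refine ⟨key x x' h, fun y' => ?_⟩
        obtain ⟨y, hy⟩ := key x' x h.symm y'
        exact ⟨y, hE.symm _ _ hy⟩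

end Pool.Agent.MST
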