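import Pool.Agent.MST.StA

/-!
MST, module SAU: saturation and homogeneity for finite tuples (helper36)
-/

set_option autoImplicit false

namespace Pool.Agent.MST

open FirstOrder.Language Set
open scoped FirstOrder
open Pool.Agent.WOM (tp Mon)

private theorem SAU_fin {A B : Type} (f : A → B) (F : Set A) (G' : Set B) (h : G' ⊆ f '' F)
    (hf : G'.Finite) : ∃ G ⊆ F, G.Finite ∧ ∀ y ∈ G', ∃ x ∈ G, f x = y := by
  classical
  rcases F.eq_empty_or_nonempty with rfl | ⟨x₀, hx₀⟩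
  · refine ⟨∅, Subset.rfl, finite_empty, fun y hy => ?_⟩
    obtain ⟨x, hx, -⟩ := h hy
    exact absurd hx (notMem_empty x)
  · have h1 : ∀ y : B, ∃ x ∈ F, y ∈ G' → f x = y := by
      intro y
      by_cases hy : y ∈ G'
      · obtain ⟨x, hx, hxy⟩ := h hy
        exact ⟨x, hx, fun _ => hxy⟩
      · exact ⟨x₀, hx₀, fun h => absurd h hy⟩
    choose g hg hg' using h1
    refine ⟨g '' G', ?_, hf.image g, fun y hy => ⟨g y, mem_image_of_mem g hy, hg' y hy⟩⟩
    rintro _ ⟨y, -, rfl⟩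
    exact hg y

section

variable {L : FirstOrder.Language.{0, 0}} {U : Type} [L.Structure U]

/-- finite conjunctions -/
private theorem SAU_conj {γ : Type} (G : Set (L.Formula γ)) (hG : G.Finite) :
    ∃ ψ : L.Formula γ, ∀ v : γ → U, ψ.Realize v ↔ ∀ φ ∈ G, φ.Realize v := by
  induction G, hG using Set.Finite.induction_on with
  | empty => exact ⟨⊤, fun v => by simp⟩
  | @insert φ G _ _ ih =>
    obtain ⟨ψ, hψ⟩ := ih
    refine ⟨φ ⊓ ψ, fun v => ?_⟩
    rw [FirstOrder.Language.Formula.realize_inf, hψ]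
    simp

/-- the projections are definable -/
private theorem SAU_def {k : ℕ} {β : Type} [Finite β] (b : β → U)
    (G : Set (L.Formula (Fin (k + 1) ⊕ β))) (hG : G.Finite) :
    (range b).Definable₁ L {x : U | ∃ x' : Fin k → U, ∀ φ ∈ G,
      φ.Realize (Sum.elim (Fin.cons x x' : Fin (k + 1) → U) b)} := by
  obtain ⟨ψ, hψ⟩ := SAU_conj (U := U) G hG
  unfold Set.Definable₁
  rw [definable_iff_exists_formula_sum]
  refine ⟨(ψ.relabel (Sum.elim (Fin.cons (Sum.inl (Sum.inr 0)) (fun i => Sum.inr i))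
    (fun i => Sum.inl (Sum.inl ⟨b i, i, rfl⟩)) :
      Fin (k + 1) ⊕ β → (range b ⊕ Fin 1) ⊕ Fin k)).iExs (Fin k), ?_⟩
  ext v
  rw [mem_ofPred_eq, mem_ofPred_eq, mem_ofPred_eq, FirstOrder.Language.Formula.realize_iExs]
  refine exists_congr fun x' => ?_
  rw [FirstOrder.Language.Formula.realize_relabel, ← hψ]
  have h : (fun a => Sum.elim (Sum.elim (fun x : range b => (x : U)) v) x' a) ∘
      (Sum.elim (Fin.cons (Sum.inl (Sum.inr 0)) (fun i => Sum.inr i))
        (fun i => Sum.inl (Sum.inl ⟨b i, i, rfl⟩)) :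
          Fin (k + 1) ⊕ β → (range b ⊕ Fin 1) ⊕ Fin k) =
      Sum.elim (Fin.cons (v 0) x' : Fin (k + 1) → U) b := by
    funext z
    rcases z with z | z
    · refine Fin.cases ?_ (fun i => ?_) z <;> rfl
    · rfl
  rw [h]

private theorem SAU_aux (hM : Mon L U) (k : ℕ) : ∀ (β : Type) [Finite β] (b : β → U)
    (F : Set (L.Formula (Fin k ⊕ β))),
      (∀ G ⊆ F, G.Finite → ∃ x : Fin k → U, ∀ φ ∈ G, φ.Realize (Sum.elim x b)) →
      ∃ x : Fin k → U, ∀ φ ∈ F, φ.Realize (Sum.elim x b) := by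
  induction k with
  | zero =>
    intro β _ b F hF
    refine ⟨Fin.elim0, fun φ hφ => ?_⟩
    obtain ⟨x, hx⟩ := hF {φ} (singleton_subset_iff.2 hφ) (finite_singleton φ)
    have h := hx φ rfl
    rwa [Subsingleton.elim x Fin.elim0] at h
  | succ k ih =>
    intro β _ b F hF
    set pr : Set (L.Formula (Fin (k + 1) ⊕ β)) → Set U := fun G =>
      {x : U | ∃ x' : Fin k → U, ∀ φ ∈ G,
        φ.Realize (Sum.elim (Fin.cons x x' : Fin (k + 1) → U) b)} with hpr
    obtain ⟨x₀, hx₀⟩ := hM.sat (range b) (finite_range b) {s | ∃ G ⊆ F, G.Finite ∧ s = pr G}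
      (by
        rintro s ⟨G, -, hG, rfl⟩
        exact SAU_def b G hG)
      (by
        intro 𝒢 h𝒢 h𝒢f
        have h1 : ∀ s : Set U, ∃ G : Set (L.Formula (Fin (k + 1) ⊕ β)), s ∈ 𝒢 →
            G ⊆ F ∧ G.Finite ∧ s = pr G := by
          intro s
          by_cases hs : s ∈ 𝒢
          · obtain ⟨G, h2, h3, h4⟩ := h𝒢 hs
            exact ⟨G, fun _ => ⟨h2, h3, h4⟩⟩
          · exact ⟨∅, fun h => absurd h hs⟩
        choose g hg' using h1
        have hg : ∀ s ∈ 𝒢, g s ⊆ F := fun s hs => (hg' s hs).1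
        have hgf : ∀ s ∈ 𝒢, (g s).Finite := fun s hs => (hg' s hs).2.1
        have hgs : ∀ s ∈ 𝒢, s = pr (g s) := fun s hs => (hg' s hs).2.2
        obtain ⟨x, hx⟩ := hF (⋃ s ∈ 𝒢, g s) (iUnion₂_subset fun s hs => hg s hs)
          (h𝒢f.biUnion fun s hs => hgf s hs)
        refine ⟨x 0, fun s hs => ?_⟩
        rw [hgs s hs]
        refine ⟨Fin.tail x, fun φ hφ => ?_⟩
        rw [Fin.cons_self_tail]
        exact hx φ (mem_biUnion hs hφ))
    set r : Fin (k + 1) ⊕ β → Fin k ⊕ (β ⊕ Unit) :=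
      Sum.elim (Fin.cons (Sum.inr (Sum.inr ())) (fun i => Sum.inl i))
        (fun i => Sum.inr (Sum.inl i)) with hr
    have hc : ∀ x' : Fin k → U, (Sum.elim x' (Sum.elim b (fun _ : Unit => x₀))) ∘ r =
        Sum.elim (Fin.cons x₀ x' : Fin (k + 1) → U) b := by
      intro x'
      funext z
      rcases z with z | z
      · refine Fin.cases ?_ (fun i => ?_) z <;> rfl
      · rfl
    obtain ⟨x', hx'⟩ := ih (β ⊕ Unit) (Sum.elim b (fun _ => x₀))
      ((fun φ : L.Formula (Fin (k + 1) ⊕ β) => φ.relabel r) '' F) (by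
        intro G' hG' hG'f
        obtain ⟨G, hG, hGf, hGG'⟩ := SAU_fin _ F G' hG' hG'f
        obtain ⟨x', hx'⟩ := hx₀ (pr G) ⟨G, hG, hGf, rfl⟩
        refine ⟨x', fun φ' hφ' => ?_⟩
        obtain ⟨φ, hφ, rfl⟩ := hGG' φ' hφ'
        show (φ.relabel r).Realize _
        rw [FirstOrder.Language.Formula.realize_relabel, hc]
        exact hx' φ hφ)
    refine ⟨Fin.cons x₀ x', fun φ hφ => ?_⟩
    have h := hx' (φ.relabel r) ⟨φ, hφ, rfl⟩
    rwa [FirstOrder.Language.Formula.realize_relabel, hc] at h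

end

/-- [SAU] -/
theorem thm_SAU : St_SAU := by
  intro L U _ hM
  refine ⟨?_, ?_⟩
  · intro α β _ _ b F hF
    obtain ⟨k, ⟨e⟩⟩ := Finite.exists_equiv_fin α
    set r : α ⊕ β → Fin k ⊕ β := Sum.map e id with hr
    have hc : ∀ x' : Fin k → U, (Sum.elim x' b) ∘ r = Sum.elim (x' ∘ e) b := by
      intro x'
      funext z
      rcases z with z | z <;> rfl
    obtain ⟨x', hx'⟩ := SAU_aux hM k β b ((fun φ : L.Formula (α ⊕ β) => φ.relabel r) '' F) (by
        intro G' hG' hG'f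
        obtain ⟨G, hG, hGf, hGG'⟩ := SAU_fin _ F G' hG' hG'f
        obtain ⟨x, hx⟩ := hF G hG hGf
        refine ⟨x ∘ e.symm, fun φ' hφ' => ?_⟩
        obtain ⟨φ, hφ, rfl⟩ := hGG' φ' hφ'
        have h1 : (x ∘ e.symm) ∘ e = x := by
          funext i
          simp
        show (φ.relabel r).Realize _
        rw [FirstOrder.Language.Formula.realize_relabel, hc, h1]
        exact hx φ hφ)
    refine ⟨x' ∘ e, fun φ hφ => ?_⟩
    have h := hx' (φ.relabel r) ⟨φ, hφ, rfl⟩
    rwa [FirstOrder.Language.Formula.realize_relabel, hc] at h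
  · intro α _ a b hab
    obtain ⟨k, ⟨e⟩⟩ := Finite.exists_equiv_fin α
    obtain ⟨g, hg⟩ := hM.hom k (a ∘ e.symm) (b ∘ e.symm) (by
      ext φ
      have h := hab (φ.relabel e.symm)
      rwa [FirstOrder.Language.Formula.realize_relabel,
        FirstOrder.Language.Formula.realize_relabel] at h)
    refine ⟨g, fun i => ?_⟩
    have h := hg (e i)
    simpa using h

end Pool.Agent.MST
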