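import Pool.Agent.MST.StC
import Pool.Agent.WOM.PULL
import Pool.Agent.WOM.DEF1
import Pool.Agent.WOM.DEFF

/-!
MST, module CMS (helper71): countable elementary submodels as structures on `ℕ`.
-/

set_option autoImplicit false

namespace Pool.Agent.MST

open FirstOrder.Language Set
open scoped FirstOrder
open Pool.Agent.WOM (tp Mon IsEl IsoM Fam CtT PerfT ThS)

/-- Countable elementary submodels as structures on `ℕ`. -/
theorem thm_CMS (hELX : St_ELX) : St_CMS := by
  intro L hL V _ hV X hX
  obtain ⟨-, -, h3, -, -, h6⟩ := hELX L V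
  obtain ⟨M, hXM, hMc, hMel⟩ := h6 hL X hX
  have hMi : M.Infinite := h3 hV M hMel
  have hc : Countable M := hMc.to_subtype
  have hinf : Infinite M := hMi.to_subtype
  obtain ⟨e⟩ : Nonempty (ℕ ≃ M) := nonempty_equiv_of_countable
  have hr : range (fun n => ((e n : M) : V)) = M := by
    ext x
    constructor
    · rintro ⟨n, rfl⟩
      exact (e n).2
    · intro hx
      exact ⟨e.symm ⟨x, hx⟩, by simp⟩
  have hi : Function.Injective (fun n => ((e n : M) : V)) :=
    Subtype.val_injective.comp e.injective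
  have hel : IsEl L (range (fun n => ((e n : M) : V))) := by
    rw [hr]
    exact hMel
  obtain ⟨S, hS⟩ := WOM.thm_PULL (WOM.thm_DEF1 WOM.thm_DEFF) L V (fun n => ((e n : M) : V)) hi hel
  have key : ∀ (α : Type) [Finite α] (φ : L.Formula α) (v : α → ℕ),
      @FirstOrder.Language.Formula.Realize L ℕ S α φ v ↔
        φ.Realize ((fun n => ((e n : M) : V)) ∘ v) := by
    intro α _ φ v
    obtain ⟨n, ⟨f⟩⟩ := Finite.exists_equiv_fin α
    have h := hS n (v ∘ f.symm)
    have h2 : φ.relabel f ∈ @tp L ℕ S n (v ∘ f.symm) ↔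
        φ.relabel f ∈ tp (L := L) ((fun n => ((e n : M) : V)) ∘ (v ∘ f.symm)) := by rw [h]
    have h4 : (v ∘ f.symm) ∘ f = v := by
      funext x
      simp
    have h5 : ((fun n => ((e n : M) : V)) ∘ (v ∘ f.symm)) ∘ f =
        (fun n => ((e n : M) : V)) ∘ v := by
      funext x
      simp
    have h6 : φ.relabel f ∈ @tp L ℕ S n (v ∘ f.symm) ↔
        @FirstOrder.Language.Formula.Realize L ℕ S α φ v := by
      change @FirstOrder.Language.Formula.Realize L ℕ S (Fin n) (φ.relabel f) (v ∘ f.symm) ↔ _
      rw [@FirstOrder.Language.Formula.realize_relabel L ℕ S, h4]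
    have h7 : φ.relabel f ∈ tp (L := L) ((fun n => ((e n : M) : V)) ∘ (v ∘ f.symm)) ↔
        φ.Realize ((fun n => ((e n : M) : V)) ∘ v) := by
      change FirstOrder.Language.Formula.Realize (φ.relabel f) _ ↔ _
      rw [FirstOrder.Language.Formula.realize_relabel, h5]
    rw [← h6, h2, h7]
  refine ⟨S, fun n => ((e n : M) : V), hi, ?_, hel, ?_, key⟩
  · rw [hr]
    exact hXM
  · refine @FirstOrder.Language.Theory.Model.mk L ℕ S _ fun φ hφ => ?_
    have h7 : V ⊨ φ := hφ
    have h8 : ∀ v : Empty → ℕ, @FirstOrder.Language.Formula.Realize L ℕ S Empty φ v := by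
      intro v
      refine (key Empty φ v).2 ?_
      have h9 : ∀ w : Empty → V, FirstOrder.Language.Formula.Realize φ w := by
        intro w
        rw [Subsingleton.elim w (@default (Empty → V) Unique.instInhabited)]
        exact h7
      exact h9 _
    exact h8 _

end Pool.Agent.MST
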