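import Pool.Agent.MST.StA

/-!
MST, module ELX: elementary submodels (helper38)
-/

set_option autoImplicit false

namespace Pool.Agent.MST

open FirstOrder.Language Set
open scoped FirstOrder
open Pool.Agent.WOM (tp Mon IsEl IsoM Fam)

section elx

variable {L : FirstOrder.Language.{0, 0}} {V : Type} [L.Structure V]

/-- sets defined by a formula with parameters in `M` -/
private theorem ELX_def {M : Set V} {γ : Type} (φ : L.Formula (Unit ⊕ γ)) (m : γ → V)
    (hm : ∀ i, m i ∈ M) : M.Definable₁ L {x | φ.Realize (Sum.elim (fun _ => x) m)} := by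
  unfold Set.Definable₁
  rw [definable_iff_exists_formula_sum]
  refine ⟨φ.relabel (Sum.elim (fun _ => Sum.inr 0) (fun i => Sum.inl ⟨m i, hm i⟩) :
    Unit ⊕ γ → M ⊕ Fin 1), ?_⟩
  ext v
  rw [mem_ofPred_eq, mem_ofPred_eq, mem_ofPred_eq, FirstOrder.Language.Formula.realize_relabel]
  have h : (Sum.elim (fun a : M => (a : V)) v : M ⊕ Fin 1 → V) ∘
      (Sum.elim (fun _ => Sum.inr 0) (fun i => Sum.inl ⟨m i, hm i⟩) : Unit ⊕ γ → M ⊕ Fin 1) =
      Sum.elim (fun _ => v 0) m := by
    funext x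
    rcases x with x | x <;> rfl
  rw [h]

private theorem ELX_one {M : Set V} {s : Set V} (hs : M.Definable₁ L s) :
    ∃ (n : ℕ) (φ : L.Formula (Unit ⊕ Fin n)) (m : Fin n → V), (∀ i, m i ∈ M) ∧
      s = {x | φ.Realize (Sum.elim (fun _ => x) m)} := by
  classical
  unfold Set.Definable₁ at hs
  rw [definable_iff_finitely_definable] at hs
  obtain ⟨A₀, hA, hd⟩ := hs
  rw [definable_iff_exists_formula_sum] at hd
  obtain ⟨ψ, hψ⟩ := hd
  refine ⟨A₀.card, ψ.relabel (Sum.elim (fun a => Sum.inr (A₀.equivFin a))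
    (fun _ => Sum.inl ()) : (A₀ : Set V) ⊕ Fin 1 → Unit ⊕ Fin A₀.card),
    fun i => (A₀.equivFin.symm i : V), fun i => hA (A₀.equivFin.symm i).2, ?_⟩
  ext x
  have h1 := Set.ext_iff.1 hψ (fun _ => x)
  rw [mem_ofPred_eq, mem_ofPred_eq] at h1
  rw [h1, mem_ofPred_eq, FirstOrder.Language.Formula.realize_relabel]
  have h : (Sum.elim (fun _ => x) (fun i => (A₀.equivFin.symm i : V)) :
      Unit ⊕ Fin A₀.card → V) ∘ (Sum.elim (fun a => Sum.inr (A₀.equivFin a))
      (fun _ => Sum.inl ()) : (A₀ : Set V) ⊕ Fin 1 → Unit ⊕ Fin A₀.card) =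
      Sum.elim (fun a : (A₀ : Set V) => (a : V)) (fun _ => x) := by
    funext t
    rcases t with t | t
    · show ((A₀.equivFin.symm (A₀.equivFin t) : A₀) : V) = t
      rw [Equiv.symm_apply_apply]
    · rfl
  rw [h]

private theorem ELX_el {M : Set V} (hM : IsEl L M) {γ : Type} (φ : L.Formula (Unit ⊕ γ))
    (m : γ → V) (hm : ∀ i, m i ∈ M) (h : ∃ x : V, φ.Realize (Sum.elim (fun _ => x) m)) :
    ∃ x ∈ M, φ.Realize (Sum.elim (fun _ => x) m) := by
  obtain ⟨x, h1, h2⟩ := hM _ (ELX_def φ m hm) h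
  exact ⟨x, h2, h1⟩

private theorem ELX_fin {M : Set V} (hM : IsEl L M) (k : ℕ) : ∀ (γ : Type)
    (φ : L.Formula (Fin k ⊕ γ)) (m : γ → V), (∀ i, m i ∈ M) →
    (∃ x : Fin k → V, φ.Realize (Sum.elim x m)) →
    ∃ x : Fin k → V, (∀ i, x i ∈ M) ∧ φ.Realize (Sum.elim x m) := by
  induction k with
  | zero =>
    rintro γ φ m _ ⟨x, hx⟩
    exact ⟨x, fun i => i.elim0, hx⟩
  | succ k ih =>
    rintro γ φ m hm ⟨x, hx⟩
    have e1 : ∀ (x₀ : V) (x' : Fin k → V),
        (fun a => Sum.elim (Sum.elim (fun _ => x₀) m) x' a) ∘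
          (Sum.elim (Fin.cases (Sum.inl (Sum.inl ())) (fun i => Sum.inr i))
            (fun c => Sum.inl (Sum.inr c)) : Fin (k + 1) ⊕ γ → (Unit ⊕ γ) ⊕ Fin k) =
          Sum.elim (Fin.cons x₀ x' : Fin (k + 1) → V) m := by
      intro x₀ x'
      funext t
      rcases t with t | t
      · refine Fin.cases ?_ (fun i => ?_) t
        · rfl
        · rfl
      · rfl
    obtain ⟨x₀, hx₀, h0⟩ := ELX_el hM ((φ.relabel
      (Sum.elim (Fin.cases (Sum.inl (Sum.inl ())) (fun i => Sum.inr i))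
        (fun c => Sum.inl (Sum.inr c)) : Fin (k + 1) ⊕ γ → (Unit ⊕ γ) ⊕ Fin k)).iExs (Fin k)) m hm
      ⟨x 0, by
        rw [FirstOrder.Language.Formula.realize_iExs]
        refine ⟨fun i => x i.succ, ?_⟩
        rw [FirstOrder.Language.Formula.realize_relabel, e1]
        have h2 : (Fin.cons (x 0) (fun i : Fin k => x i.succ) : Fin (k + 1) → V) = x :=
          Fin.cons_self_tail x
        rw [h2]
        exact hx⟩
    rw [FirstOrder.Language.Formula.realize_iExs] at h0
    obtain ⟨x', hx'⟩ := h0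
    rw [FirstOrder.Language.Formula.realize_relabel, e1] at hx'
    have e2 : ∀ x' : Fin k → V, (Sum.elim x' (Sum.elim (fun _ => x₀) m) :
        Fin k ⊕ (Unit ⊕ γ) → V) ∘
          (Sum.elim (Fin.cases (Sum.inr (Sum.inl ())) (fun i => Sum.inl i))
            (fun c => Sum.inr (Sum.inr c)) : Fin (k + 1) ⊕ γ → Fin k ⊕ (Unit ⊕ γ)) =
          Sum.elim (Fin.cons x₀ x' : Fin (k + 1) → V) m := by
      intro x'
      funext t
      rcases t with t | t
      · refine Fin.cases ?_ (fun i => ?_) t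
        · rfl
        · rfl
      · rfl
    obtain ⟨x'', h3, h4⟩ := ih (Unit ⊕ γ) (φ.relabel
      (Sum.elim (Fin.cases (Sum.inr (Sum.inl ())) (fun i => Sum.inl i))
        (fun c => Sum.inr (Sum.inr c)) : Fin (k + 1) ⊕ γ → Fin k ⊕ (Unit ⊕ γ)))
      (Sum.elim (fun _ => x₀) m) (by
        rintro (t | t)
        · exact hx₀
        · exact hm t) ⟨x', by
          rw [FirstOrder.Language.Formula.realize_relabel, e2]
          exact hx'⟩
    rw [FirstOrder.Language.Formula.realize_relabel, e2] at h4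
    refine ⟨Fin.cons x₀ x'', fun i => ?_, h4⟩
    refine Fin.cases ?_ (fun i => ?_) i
    · exact hx₀
    · exact h3 i

private theorem ELX_crit (M : Set V) (h : ∀ (n : ℕ) (φ : L.Formula (Unit ⊕ Fin n))
    (m : Fin n → V), (∀ i, m i ∈ M) → ∀ x : V, φ.Realize (Sum.elim (fun _ => x) m) →
      ∃ x ∈ M, φ.Realize (Sum.elim (fun _ => x) m)) : IsEl L M := by
  intro s hs hne
  obtain ⟨n, φ, m, hm, rfl⟩ := ELX_one hs
  obtain ⟨x, hx⟩ := hne
  obtain ⟨y, hy, hy'⟩ := h n φ m hm x hx
  exact ⟨y, hy', hy⟩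

private theorem ELX_emb (U : Type) [L.Structure U] (j : U ↪ₑ[L] V) : IsEl L (range j) := by
  refine ELX_crit _ fun n φ m hm x hx => ?_
  choose b hb using hm
  have hb' : (j ∘ b : Fin n → V) = m := funext hb
  obtain ⟨y, hy⟩ := emb_ex j φ b ⟨fun _ => x, by rw [hb']; exact hx⟩
  refine ⟨j (y ()), ⟨_, rfl⟩, ?_⟩
  have h1 := (emb_real j φ (Sum.elim y b)).2 hy
  rw [comp_elim, hb'] at h1
  exact h1

end elx

/-- [ELX] Elementary submodels. -/
theorem thm_ELX : St_ELX := by
  classical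
  intro L V _
  refine ⟨?_, ELX_crit, ?_, fun U _ j => ELX_emb U j, ?_, ?_⟩
  · rintro M hM β γ _ _ φ m hm ⟨x, hx⟩
    obtain ⟨k, ⟨e⟩⟩ := Finite.exists_equiv_fin β
    have e1 : ∀ y : Fin k → V, (Sum.elim y m : Fin k ⊕ γ → V) ∘ (Sum.map e id) =
        Sum.elim (y ∘ e) m := by
      intro y
      funext t
      rcases t with t | t <;> rfl
    obtain ⟨y, hy, hy'⟩ := ELX_fin hM k γ (φ.relabel (Sum.map e id)) m hm ⟨x ∘ e.symm, by
      rw [FirstOrder.Language.Formula.realize_relabel, e1]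
      have h2 : (x ∘ e.symm) ∘ e = x := by
        funext t
        show x (e.symm (e t)) = x t
        rw [Equiv.symm_apply_apply]
      rw [h2]
      exact hx⟩
    rw [FirstOrder.Language.Formula.realize_relabel, e1] at hy'
    exact ⟨y ∘ e, fun i => hy (e i), hy'⟩
  · intro hV M hM hfin
    have h1 : M.Definable₁ L M := by
      have := hfin.to_subtype
      have h2 : M.Definable L (⋃ a : M, {x : Fin 1 → V | x 0 ∈ ({(a : V)} : Set V)}) :=
        definable_iUnion_of_finite fun a => Definable.singleton_of_mem L a.2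
      have h3 : (⋃ a : M, {x : Fin 1 → V | x 0 ∈ ({(a : V)} : Set V)}) =
          {x : Fin 1 → V | x 0 ∈ M} := by
        ext x
        simp
      rw [h3] at h2
      exact h2
    have h2 : M.Definable₁ L Mᶜ := h1.compl
    obtain ⟨x, hx, hx'⟩ := hM _ h2 hfin.infinite_compl.nonempty
    exact hx hx'
  · intro M hmono hM
    refine ELX_crit _ fun n φ m hm x hx => ?_
    have h1 : ∀ i, ∃ k, m i ∈ M k := fun i => mem_iUnion.1 (hm i)
    choose k hk using h1
    obtain ⟨y, hy, hy'⟩ := ELX_el (hM (Finset.univ.sup k)) φ m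
      (fun i => hmono (Finset.le_sup (Finset.mem_univ i)) (hk i)) ⟨x, hx⟩
    exact ⟨y, mem_iUnion.2 ⟨_, hy⟩, hy'⟩
  · intro hL X hX
    by_cases hV : Countable V
    · exact ⟨univ, subset_univ _, countable_univ, fun s _ hs => by rwa [inter_univ]⟩
    · have h4 : Cardinal.aleph0 ≤ Cardinal.mk V := by
        rw [← not_lt]
        intro h5
        exact hV (Cardinal.mk_le_aleph0_iff.1 h5.le)
      obtain ⟨S, hS, hS'⟩ := L.exists_elementarySubstructure_card_eq X Cardinal.aleph0.{0} le_rfl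
        (by simpa using hX) (by
          have : L.card ≤ Cardinal.aleph0 := Cardinal.mk_le_aleph0_iff.2 hL
          simpa using this) (by simpa using h4)
      refine ⟨S, hS, ?_, ?_⟩
      · have : Cardinal.mk S = Cardinal.aleph0 := by simpa using hS'
        exact Cardinal.mk_le_aleph0_iff.1 this.le
      · have h6 := ELX_emb S S.subtype
        have h7 : range (S.subtype : S → V) = S := by
          ext x
          constructor
          · rintro ⟨y, rfl⟩
            exact y.2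
          · intro hx
            exact ⟨⟨x, hx⟩, rfl⟩
        rw [h7] at h6
        exact h6

end Pool.Agent.MST
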