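import Pool.Agent.MST.StA

/-!
MST module SAW (helper21): saturated elementary extensions via ultrapowers.
-/

set_option autoImplicit false

namespace Pool.Agent.MST

open FirstOrder.Language Set
open scoped FirstOrder
open Pool.Agent.WOM (tp Mon IsEl IsoM Fam)

/-- the ultrapower of `U` for the hyperfilter -/
private abbrev SAW_V (U : Type) : Type :=
  ((Filter.hyperfilter ℕ : Ultrafilter ℕ) : Filter ℕ).Product (fun _ : ℕ => U)

private theorem SAW_elim {U ι κ : Type} (x' : ι → ℕ → U) (c' : κ → ℕ → U) :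
    (Sum.elim (fun i => ((x' i : ℕ → U) : SAW_V U)) (fun i => ((c' i : ℕ → U) : SAW_V U)) :
      ι ⊕ κ → SAW_V U) =
      fun i => (((Sum.elim x' c' : ι ⊕ κ → ℕ → U) i : ℕ → U) : SAW_V U) := by
  funext i
  rcases i with i | i <;> rfl

private theorem SAW_elim' {U ι κ : Type} (x' : ι → ℕ → U) (c' : κ → ℕ → U) (m : ℕ) :
    (fun i => (Sum.elim x' c' : ι ⊕ κ → ℕ → U) i m) =
      (Sum.elim (fun i => x' i m) (fun i => c' i m) : ι ⊕ κ → U) := by
  funext i
  rcases i with i | i <;> rfl

/-- [SAW] saturated elementary extensions -/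
theorem thm_SAW : St_SAW := by
  classical
  intro L hL U _ hU
  have _ : Countable L.Symbols := hL
  refine ⟨SAW_V U, inferInstance, ?_, ⟨⟨fun u => ((fun _ : ℕ => u : ℕ → U) : SAW_V U), ?_⟩⟩⟩
  · intro ι κ _ _ c F hF
    rcases F.eq_empty_or_nonempty with rfl | hne
    · obtain ⟨c⟩ : Nonempty (SAW_V U) := inferInstance
      exact ⟨fun _ => c, fun φ hφ => absurd hφ (notMem_empty φ)⟩
    have hcF : Countable (L.Formula (ι ⊕ κ)) := inferInstance
    obtain ⟨φ, hφ⟩ := (F.to_countable).exists_eq_range hne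
    have hrep : ∀ i, ∃ a' : ℕ → U, ((a' : ℕ → U) : SAW_V U) = c i := fun i =>
      Quotient.exists_rep (c i)
    choose c' hc' using hrep
    obtain rfl : (fun i => ((c' i : ℕ → U) : SAW_V U)) = c := funext hc'
    set Y : ℕ → ℕ → Prop := fun k m => ∃ x : ι → U, ∀ j ≤ k,
      (φ j).Realize (Sum.elim x (fun i => c' i m) : ι ⊕ κ → U) with hY
    have hYu : ∀ k, ∀ᶠ m in ((Filter.hyperfilter ℕ : Ultrafilter ℕ) : Filter ℕ), Y k m := by
      intro k
      obtain ⟨x, hx⟩ := hF (φ '' Iic k) (by rintro _ ⟨j, -, rfl⟩; rw [hφ]; exact mem_range_self j)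
        ((finite_Iic k).image φ)
      have hrep : ∀ i, ∃ a' : ℕ → U, ((a' : ℕ → U) : SAW_V U) = x i := fun i =>
        Quotient.exists_rep (x i)
      choose x' hx' using hrep
      obtain rfl : (fun i => ((x' i : ℕ → U) : SAW_V U)) = x := funext hx'
      have h1 : ∀ᶠ m in ((Filter.hyperfilter ℕ : Ultrafilter ℕ) : Filter ℕ), ∀ j ∈ Iic k,
          (φ j).Realize (Sum.elim (fun i => x' i m) (fun i => c' i m) : ι ⊕ κ → U) := by
        rw [Filter.eventually_all_finite (finite_Iic k)]
        intro j hj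
        have h2 := hx (φ j) (mem_image_of_mem φ hj)
        rw [SAW_elim] at h2
        have h6 := (FirstOrder.Language.Ultraproduct.realize_formula_cast (M := fun _ : ℕ => U)
          (u := Filter.hyperfilter ℕ) (φ j) (Sum.elim x' c' : ι ⊕ κ → ℕ → U)).1 h2
        filter_upwards [h6] with m hm
        rw [SAW_elim'] at hm
        exact hm
      filter_upwards [h1] with m hm
      exact ⟨fun i => x' i m, fun j hj => hm j hj⟩
    have hbig : ∀ k, ∀ᶠ m in ((Filter.hyperfilter ℕ : Ultrafilter ℕ) : Filter ℕ), k ≤ m := by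
      intro k
      have h1 : ∀ᶠ m in Filter.cofinite, k ≤ m := by
        rw [Nat.cofinite_eq_atTop]
        exact Filter.eventually_ge_atTop k
      exact h1.filter_mono Filter.hyperfilter_le_cofinite
    let x' : ι → ℕ → U := fun i m =>
      if h : Y (Nat.findGreatest (fun k => Y k m) m) m then Classical.choose h i
      else Classical.choice hU
    refine ⟨fun i => ((x' i : ℕ → U) : SAW_V U), ?_⟩
    intro ψ hψ
    rw [hφ] at hψ
    obtain ⟨k, rfl⟩ := hψ
    rw [SAW_elim]
    refine (FirstOrder.Language.Ultraproduct.realize_formula_cast (M := fun _ : ℕ => U)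
          (u := Filter.hyperfilter ℕ) (φ k) (Sum.elim x' c' : ι ⊕ κ → ℕ → U)).2 ?_
    filter_upwards [hYu k, hbig k] with m hm hkm
    rw [SAW_elim']
    have h3 : Y (Nat.findGreatest (fun k => Y k m) m) m :=
      Nat.findGreatest_spec (P := fun k => Y k m) hkm hm
    have h4 : k ≤ Nat.findGreatest (fun k => Y k m) m := Nat.le_findGreatest hkm hm
    have h5 : (fun i => x' i m) = Classical.choose h3 := funext fun i => by
      change (if h : Y (Nat.findGreatest (fun k => Y k m) m) m then Classical.choose h i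
        else Classical.choice hU) = _
      rw [dif_pos h3]
    rw [h5]
    exact Classical.choose_spec h3 k h4
  · intro n φ x
    have h1 := FirstOrder.Language.Ultraproduct.realize_formula_cast (M := fun _ : ℕ => U)
      (u := Filter.hyperfilter ℕ) φ (fun i _ => x i)
    rw [Filter.eventually_const] at h1
    exact h1

end Pool.Agent.MST
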