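import Pool.Agent.MST.StB

/-!
MST: statements of the third part (helper47), with proofs in the docstrings: atoms of models, the
count of the models, transfer.
-/

set_option autoImplicit false

namespace Pool.Agent.MST

open FirstOrder.Language Set
open scoped FirstOrder
open Pool.Agent.WOM (tp Mon IsEl IsoM Fam CtT PerfT ThS)

section defs

variable {L : FirstOrder.Language.{0, 0}} {U V : Type} [L.Structure U] [L.Structure V]

/-- image of a subset of `M` under a bijection of `M` and `M'` -/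
def img {M M' : Set V} (e : M ≃ M') (X : Set V) : Set V :=
  {y | ∃ x : M, (x : V) ∈ X ∧ ((e x : M') : V) = y}

/-- the finite multiplicities of the nontrivial atoms -/
def FM (j : U ↪ₑ[L] V) (M : Set V) : Set ℕ :=
  {n | ∃ K ∈ At j M, NTr j K ∧ mul j M K = (n : ℕ∞)}

end defs

/-! ### Trivial elements and atoms -/

/-- [BAS] (2h; DEF, FEV, BDE, RXT, FRB, TEN, FRS) Trivial elements.
PROOF.  `b : Unit → V`, `b () = x`; `Fr j b b` (FRS (5)).  `φ` = the formula `x = y` in `Unit ⊕ Unit`; `φ(b, b)`, so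
`rs U φ ∈ fr j (b b) = ten (fr j b) (fr j b)`, i.e. `D = fib (fr j b) (rs U φ) ∈ fr j b`.  `D` is not empty; for
`u ∈ D` the set `{v | v = u} = {u}` is in `fr j b` (functions `Unit → U`), so `D = {u}` (two such singletons
meet).  BDE: `D` is invariant for some `E`, so `E(y, u)` implies `y = u` in `U`.  FEV: `u'` with `E(b, j u')`;
`{y | E(y, u')} ∈ fr j b` meets `{u}`, so `E(b, j u)`.  The formula `∀ y (E(y, z) → y = z)` holds for `u`, so for
`j u`: `b = j u`.  An elementary submodel `M` contains `m` with `E(b, m)` (FEV), so `m = j u = b`.  If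
`Sq b y` then `E(b, y)`, so `y = b`.  `{x} | Y`: let `c` be a tuple; `Fr j b c`: `s ∈ fr j (b c)`; also
`{v | v ∘ inl = u} ∈ fr j (b c)` (RXT, FRB: the marginal is `fr j b`), so `s ∩ {v | v ∘ inl = u}`, which is contained
in `{v | v ∘ inr ∈ s_u}`, `s_u = {y | (u, y) ∈ s}`; so `s_u ∈ fr j c` and `s_u ⊆ fib (fr j b) s`, which is
definable (DEF): `s ∈ ten (fr j b) (fr j c)`.  Both are types (FRB, TEN), `IsTy.eq_of_subset`.  A tuple in
`{x}` is `b ∘ f`. -/
def St_BAS : Prop :=
  ∀ (L : FirstOrder.Language.{0, 0}) (U V : Type) [L.Structure U] [L.Structure V] (j : U ↪ₑ[L] V),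
    Cx L U V → ∀ x : V, Trv j x →
      (∀ M : Set V, IsEl L M → x ∈ M) ∧ (∀ Y : Set V, FrS j {x} Y) ∧
      (∀ y : V, Sq L (fun _ : Unit => x) (fun _ : Unit => y) → y = x)

/-- [ATM] (1.5h; FRS) Atoms.
PROOF.  Let `D(M)` = the `X ⊆ M` with `X | M \ X`.  It is closed under complements in `M` (FRS (1)), and
under intersections: `X1 ∩ X2 | X1 \ X2` (from `X2 | M \ X2`) and `X1 | M \ X1`, so
`X1 ∩ X2 | (X1 \ X2) ∪ (M \ X1)` (FRS (3)); under arbitrary intersections `⋂ X_i` (nonempty family): a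
finite tuple of elements outside lies outside a finite intersection (definition of `FrS`).  For `x ∈ M`
let `K` be the intersection of all `X ∈ D(M)` with `x ∈ X`.  If `X ⊆ K` and `X | K \ X` then `X ∈ D(M)`:
`X | K \ X` and `X ∪ (K \ X) = K | M \ K`, so `X | (K \ X) ∪ (M \ K)`; likewise `K \ X ∈ D(M)`; one of them
contains `x`, so it is `K`.  Third statement: `K ∩ X | K \ X` (FRS (2)), so `K ∩ X` is empty or `K`.
Second statement: the third with `X = K'`. -/
def St_ATM : Prop :=
  ∀ (L : FirstOrder.Language.{0, 0}) (U V : Type) [L.Structure U] [L.Structure V] (j : U ↪ₑ[L] V),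
    Cx L U V → ∀ M : Set V,
    (∀ x ∈ M, ∃ K ∈ At j M, x ∈ K) ∧
    (∀ K ∈ At j M, ∀ K' ∈ At j M, (K ∩ K').Nonempty → K = K') ∧
    (∀ X ⊆ M, FrS j X (M \ X) → ∀ K ∈ At j M, K ⊆ X ∨ Disjoint K X)

/-- [APQ] (1.5h; CAL, SQI, FRS) Equality of the strong types of sets.
PROOF.  SQI (6), (7).  A tuple `k'` in `K'` is the image of the tuple `k` of preimages, and `Sq k k'`; for
two tuples together `Fr j k l ↔ Fr j k' l'` by CAL (5).  So for `X' ⊆ K'` and `X` = the preimage of `X'`,
`X | K \ X` iff `X' | K' \ X'`, and `x` is trivial iff its image is. -/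
def St_APQ : Prop :=
  ∀ (L : FirstOrder.Language.{0, 0}) (U V : Type) [L.Structure U] [L.Structure V] (j : U ↪ₑ[L] V),
    Cx L U V →
    (∀ K : Set V, App L K K) ∧ (∀ K K' : Set V, App L K K' → App L K' K) ∧
    (∀ K K' K'' : Set V, App L K K' → App L K' K'' → App L K K'') ∧
    (∀ K K' : Set V, App L K K' → (Idc j K → Idc j K') ∧ (NTr j K → NTr j K') ∧
      (K.Countable → K'.Countable))

/-- [ISA] (1.5h; INV, FRS, SQI) Isomorphisms map atoms to atoms.
PROOF.  For tuples `a`, `b` in `M` with images `a'`, `b'`: the tuple `(a, b)` has the same type as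
`(a', b')` (reindex `Fin m ⊕ Fin n`), so `Fr j a b ↔ Fr j a' b'` (INV); hence `X | Y ↔ img e X | img e Y` for
`X, Y ⊆ M`, and every subset of `M'` is `img e X` for some `X ⊆ M`.  (3) if `f : K ≃ K'` preserves
strong types, transport it to `img e K ≃ img e K'`: `Sq k (f k)` says `E(k, f k)` for all `E` with `FE V E`, a
property of the type of `(k, f k)`. (4) restrict `e`. -/
def St_ISA : Prop :=
  ∀ (L : FirstOrder.Language.{0, 0}) (U V : Type) [L.Structure U] [L.Structure V] (j : U ↪ₑ[L] V),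
    Cx L U V → ∀ (M M' : Set V) (e : M ≃ M'),
    (∀ (n : ℕ) (a : Fin n → M),
      tp (L := L) (fun i => ((a i : M) : V)) = tp (fun i => ((e (a i) : M') : V))) →
    (∀ K ∈ At j M, img e K ∈ At j M') ∧ (∀ K ∈ At j M, NTr j K → NTr j (img e K)) ∧
    (∀ K K' : Set V, K ⊆ M → K' ⊆ M → App L K K' → App L (img e K) (img e K'))

/-- [FMI] (0.8h; ISA) The set of the finite multiplicities is an isomorphism invariant.
PROOF.  ISA for the isomorphism `e` and its inverse: `K ↦ img e K` is a bijection of `At j M` and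
`At j M'` (inverse `img e.symm`) which preserves and reflects `NTr` and `App`, so `mul j M K =
mul j M' (img e K)` (`Set.InjOn.encard_image`). -/
def St_FMI : Prop :=
  ∀ (L : FirstOrder.Language.{0, 0}) (U V : Type) [L.Structure U] [L.Structure V] (j : U ↪ₑ[L] V),
    Cx L U V → ∀ M M' : Set V, IsoM L M M' → FM j M = FM j M'

/-! ### Adding copies of atoms -/

/-- [MOD] (1h; ELX, COH, FRS) Submodels given by sets of atoms.
PROOF.  (1) Criterion ELX (2): `φ(b, m)` holds in `V`, `m` in `X`; by ELX (1) for `N` we may take `b ∈ N`.  If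
`b ∈ X`, done.  Otherwise `b | X` (FRS (1), (2)), so COH for `M`, `a := b`, `k := m` (no further parameters,
`γ = Empty`) gives such an element of `M ⊆ X`.  (2) `N = M ∪ M'` is an elementary submodel (`UN`), `X = M ∪ K`;
`N \ X ⊆ M' \ K`.  `K | M' \ K` and `K ∪ (M' \ K) = M' | M`: `M' \ K | K` and `(M' \ K) ∪ K | M`, so
`M' \ K | K ∪ M` (FRS).  Apply (1). -/
def St_MOD : Prop :=
  ∀ (L : FirstOrder.Language.{0, 0}) (U V : Type) [L.Structure U] [L.Structure V] (j : U ↪ₑ[L] V),
    Cx L U V →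
    (∀ M X N : Set V, M ⊆ X → X ⊆ N → IsEl L M → IsEl L N → FrS j X (N \ X) → IsEl L X) ∧
    (UN j → ∀ M M' K : Set V, CM L M → CM L M' → FrS j M M' → K ⊆ M' → FrS j K (M' \ K) →
      CM L (M ∪ K))

/-- [ADJ] (2h; ELX, SQI, SQJ, ELS, SEQ, FRS, MOD) Adding independent copies of atoms.
PROOF.  `K n ∈ At j (N n)`, `CM L (N n)`.  SEQ with `B = M`, `ι n = N n`, `A n = Subtype.val`: `A' n`,
`N' n = range (A' n)`, an elementary submodel, `A' n` injective (ELS).  `K' n` = the image of `K n` under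
`A' n`; the restriction of `A' n` shows `App L (K n) (K' n)` (SQI (6)).  `K' n | N' n \ K' n` by SQJ (2) for the
families of the elements of `K n` and of `N n \ K n`.  `FrS j (K' n) (M ∪ ⋃ k < n, K' k)`: FRS (2).
For `J` let `P n = M ∪ ⋃ k ∈ J, k < n, K' k`; by induction `CM L (P n)`: if `n ∈ J` then `P (n+1) = P n ∪ K' n`, and
MOD (2) applies to `P n`, `N' n`, `K' n` (`P n | N' n` by FRS (1), (2)).  The union is an elementary submodel
(ELX (5)), countable. -/
def St_ADJ : Prop :=
  ∀ (L : FirstOrder.Language.{0, 0}) (U V : Type) [L.Structure U] [L.Structure V] (j : U ↪ₑ[L] V),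
    Cx L U V → UN j → ∀ M : Set V, CM L M → ∀ K : ℕ → Set V, (∀ n, K n ∈ Tau j) →
    ∃ K' : ℕ → Set V, (∀ n, App L (K n) (K' n)) ∧
      (∀ n, FrS j (K' n) (M ∪ ⋃ k ∈ {k | k < n}, K' k)) ∧
      ∀ J : Set ℕ, CM L (M ∪ ⋃ n ∈ J, K' n)

/-- [ADK] (1.5h; FRS, IND, ATM) The atoms of the enlarged model.
PROOF.  An element of `K' n ∩ M` or `K' n ∩ K' m`, `m < n`, would be trivial (FRS (2)).  `P = M ∪ ⋃ n ∈ J, K' n`.
(⊇) `K ∈ At j M`: `K | M \ K` and `K ∪ (M \ K) = M | ⋃ n ∈ J, K' n` (IND with `B = M`, second index set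
empty), so `K | (M \ K) ∪ ⋃ n ∈ J, K' n ⊇ P \ K` (FRS (3)).  For `n ∈ J`, `K' n | M ∪ ⋃ m ∈ J \ {n}, K' m` (IND).
(⊆) Let `K ∈ At j P`, `x ∈ K`; if `x ∈ M` then `x` is in some `K0 ∈ At j M ⊆ At j P` (ATM), so `K = K0` (ATM);
if `x ∈ K' n`, `n ∈ J`, then `K = K' n`. -/
def St_ADK : Prop :=
  ∀ (L : FirstOrder.Language.{0, 0}) (U V : Type) [L.Structure U] [L.Structure V] (j : U ↪ₑ[L] V),
    Cx L U V → ∀ (M : Set V) (K' : ℕ → Set V),
    (∀ n, FrS j (K' n) (M ∪ ⋃ k ∈ {k | k < n}, K' k)) → (∀ n, Idc j (K' n)) → (∀ n, NTr j (K' n)) →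
    (∀ n, Disjoint (K' n) M) ∧ (∀ m n, m ≠ n → Disjoint (K' m) (K' n)) ∧
    ∀ J : Set ℕ, At j (M ∪ ⋃ n ∈ J, K' n) = At j M ∪ K' '' J

/-- [MLA] (1h; ADK) The multiplicities in the enlarged model.
PROOF.  By ADK the atoms `K''` of the union with `App L K K''` are the atoms of `M` with this property
and the `K' n`, `n ∈ J`, `App L K (K' n)`: a disjoint union (`K' n` is not empty and disjoint from `M`), and
`K'` is injective (disjoint nonempty sets): `Set.encard_union_eq`, `Function.Injective.encard_image`. -/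
def St_MLA : Prop :=
  ∀ (L : FirstOrder.Language.{0, 0}) (U V : Type) [L.Structure U] [L.Structure V] (j : U ↪ₑ[L] V),
    Cx L U V → ∀ (M : Set V) (K' : ℕ → Set V),
    (∀ n, FrS j (K' n) (M ∪ ⋃ k ∈ {k | k < n}, K' k)) → (∀ n, Idc j (K' n)) → (∀ n, NTr j (K' n)) →
    ∀ (J : Set ℕ) (K : Set V),
      mul j (M ∪ ⋃ n ∈ J, K' n) K = mul j M K + {n ∈ J | App L K (K' n)}.encard

/-! ### Gluing -/

/-- [GLM] (2h; CAL, FRS, SQI, ATM) Gluing of the atoms.
PROOF.  For `K ∈ At j M` choose `f_K : K ≃ F K` with `SqI`.  Every `x ∈ M` is in exactly one atom `K(x)`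
(ATM), `e x := f_(K(x)) x`; `e` is a bijection of `M` and `M'` (every `y ∈ M'` is in exactly one atom of `M'`).
Claim: for a finite set `S` of atoms of `M` and a finite tuple `a` in `⋃ S` (index type any finite type):
`Sq a (e a)`.  Induction on `S`: for `S ∪ {K}`, split the index type of `a` into the `i` with
`a i ∈ K` and the others; `K | ⋃ S` (as `⋃ S ⊆ M \ K`), and the same in `M'` for the images; CAL (4), FRS
(5), SQI (2), (4).  So `Sq a (e a)` for all finite tuples, and the types are equal (SQI (3)). -/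
def St_GLM : Prop :=
  ∀ (L : FirstOrder.Language.{0, 0}) (U V : Type) [L.Structure U] [L.Structure V] (j : U ↪ₑ[L] V),
    Cx L U V → ∀ (M M' : Set V) (F : At j M ≃ At j M'),
    (∀ K : At j M, App L ((K : At j M) : Set V) ((F K : At j M') : Set V)) → IsoM L M M'

/-- [GLU] (2h; ATM, APQ, BAS, SQI, GLM) Models with the same multiplicities are isomorphic.
PROOF.  `At j M` is countable (disjoint nonempty subsets of a countable set, ATM).  Let `C` be the
quotient of `Set V` by `App` (an equivalence relation, APQ).  For every class `γ` the sets of the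
atoms of `M` in `γ` and of the atoms of `M'` in `γ` have the same `encard`: if `γ` contains an atom `K` of
`M` without trivial elements, then `K ∈ Tau j` and this is the hypothesis; if it contains an atom `K` of
`M` with a trivial element `x` then `{x}` is an atom of `M` (`{x} | M \ {x}` by BAS), `K = {x}` (ATM), `{x}` is
an atom of `M'` (`x ∈ M'` by BAS), and a set `K'` with `App L {x} K'` is `{x}` (BAS), so both numbers are `1`;
the same for atoms of `M'`; if there is none, both are `0`.  Countable sets with the same `encard` are in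
bijection; `Equiv.sigmaFiberEquiv` gives a bijection `F` of `At j M` and `At j M'` with `App L K (F K)`.
GLM. -/
def St_GLU : Prop :=
  ∀ (L : FirstOrder.Language.{0, 0}) (U V : Type) [L.Structure U] [L.Structure V] (j : U ↪ₑ[L] V),
    Cx L U V → ∀ M M' : Set V, CM L M → CM L M' →
    (∀ K ∈ Tau j, mul j M K = mul j M' K) → IsoM L M M'

/-! ### Counting -/

/-- [ENU] (1h) Continuous enumeration of a family of subsets.
PROOF.  `N` is infinite; enumerate it: a bijection `w : ℕ → N`.  `u f n` = the `n`-th element of `M f` in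
this enumeration (`w (Nat.nth (fun k => w k ∈ M f) n)`).  `u f n = v` depends on the truth values of
`w k ∈ M f` for finitely many `k` (`k ≤ w⁻¹ v`); each of these conditions is clopen.  (The fields of `WOM.Fam`:
`inj`, `el`, `cont`; compare `Pool/Agent/UNE` or `Pool/Agent/WOM` for similar lemmas.) -/
def St_ENU : Prop :=
  ∀ (L : FirstOrder.Language.{0, 0}) (V : Type) [L.Structure V] (N : Set V) (M : (ℕ → Bool) → Set V),
    N.Countable → (∀ f, M f ⊆ N) → (∀ f, (M f).Infinite) → (∀ f, IsEl L (M f)) →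
    (∀ v ∈ N, IsClopen {f | v ∈ M f}) →
    ∃ u : (ℕ → Bool) → ℕ → V, Fam L u ∧ ∀ f, range (u f) = M f

/-- [ECL] (0.7h) Representatives of infinitely many classes.
PROOF.  The set of the `r`-classes of elements of `A` is countable and infinite: enumerate it
bijectively and choose representatives. -/
def St_ECL : Prop :=
  ∀ (X : Type) (A : Set X) (r : X → X → Prop), A.Countable → Equivalence r →
    (∃ K : ℕ → X, (∀ n, K n ∈ A) ∧ ∀ m n, m ≠ n → ¬ r (K m) (K n)) →
    ∃ K : ℕ → X, (∀ n, K n ∈ A) ∧ (∀ m n, m ≠ n → ¬ r (K m) (K n)) ∧ ∀ a ∈ A, ∃ n, r a (K n)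

/-- [PRA] (3h; APQ, ATM, ADJ, ADK, MLA, ECL) A perfect family of models with prescribed finite
multiplicities.
PROOF.  `A` = the set of the `K ∈ At j M` with `NTr j K` and `mul j M K ≠ ⊤` (countable: disjoint nonempty
subsets of `M`, ATM).  ECL with `r = App L` (APQ): `K_n ∈ A`, one for each class.  `mul j M (K_n) = m_n ≥ 1`
(`App L K K`).  `i n = n + Σ k ≤ n, m_k`: strictly increasing, `m_n ≤ 2 i n`.  ADJ for the family
`k ↦ K_((Nat.unpair k).1)` (`K_n ∈ Tau j`): `K'_k`; `Idc`, `NTr` by APQ.  For `f : ℕ → Bool` let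
`J_f = {k | (unpair k).2 < 2 * i n + (f n).toNat - m_n, n = (unpair k).1}`, `X f = M ∪ ⋃ k ∈ J_f, K'_k`,
`N = M ∪ ⋃ k, K'_k`.  `v ∈ X f` depends on one value of `f` at most (ADK: the `K'_k` are disjoint; or: `v ∈ M`, or
`v ∈ K'_k` for a unique `k`).  `App L (K_n) (K'_k)` iff `(unpair k).1 = n`.  MLA: `mul j (X f) (K_n) = m_n +
(2 * i n + (f n).toNat - m_n) = 2 * i n + (f n).toNat`.  `FM`: `⊇` `K_n ∈ At j M ⊆ At j (X f)` (ADK).  `⊆`: let
`K ∈ At j (X f)`, `NTr`, `mul` finite.  If `K ∈ At j M` then `mul j M K ≤ mul j (X f) K` (MLA) is finite, so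
`K ∈ A`, `App L K (K_n)` for some `n`, and `mul j (X f) K = mul j (X f) (K_n)` (`mul` only depends on the class:
APQ).  If `K = K'_k`: `App L (K_n) K` for `n = (unpair k).1`. -/
def St_PRA : Prop :=
  ∀ (L : FirstOrder.Language.{0, 0}) (U V : Type) [L.Structure U] [L.Structure V] (j : U ↪ₑ[L] V),
    Cx L U V → UN j → ∀ M : Set V, CM L M →
    (∃ K : ℕ → Set V, (∀ n, K n ∈ At j M ∧ NTr j (K n) ∧ mul j M (K n) ≠ ⊤) ∧
      ∀ m n, m ≠ n → ¬ App L (K m) (K n)) →
    ∃ (N : Set V) (X : (ℕ → Bool) → Set V) (i : ℕ → ℕ), StrictMono i ∧ N.Countable ∧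
      (∀ f, X f ⊆ N ∧ CM L (X f)) ∧ (∀ v ∈ N, IsClopen {f | v ∈ X f}) ∧
      ∀ f, FM j (X f) = {m | ∃ n, m = 2 * i n + (f n).toNat}

/-- [PRF] (1h; ELX, FMI, ENU, PRA) Infinitely many finite multiplicities give perfectly many models.
PROOF.  PRA, then ENU (the models are infinite: ELX (3), `V` is infinite because of `j` and `Mon.inf`).
If `X f`, `X g` are isomorphic then `FM` is the same (FMI), and for every `n`: `f n = true` iff
`2 * i n + 1` is in it (parity and injectivity of `i`), so `f = g`. -/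
def St_PRF : Prop :=
  ∀ (L : FirstOrder.Language.{0, 0}) (U V : Type) [L.Structure U] [L.Structure V] (j : U ↪ₑ[L] V),
    Cx L U V → UN j → ∀ M : Set V, CM L M →
    (∃ K : ℕ → Set V, (∀ n, K n ∈ At j M ∧ NTr j (K n) ∧ mul j M (K n) ≠ ⊤) ∧
      ∀ m n, m ≠ n → ¬ App L (K m) (K n)) → PfV L V

/-- [CNB] (1.5h; APQ, ADJ, ADK, MLA) Almost all multiplicities are infinite.
PROOF.  Suppose `K n ∈ Tau j`, `mul j M (K n) ≠ ⊤`, pairwise not `App`.  If `mul j M (K n) ≠ 0` for infinitely
many `n`, choose for these `n` atoms `K'' n ∈ At j M` with `App L (K n) (K'' n)`; `NTr j (K'' n)` (APQ;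
`K n ∈ Tau j`), `mul j M (K'' n) = mul j M (K n)` (APQ): contradiction to the hypothesis for `M`.
Otherwise `mul j M (K n) = 0` for infinitely many `n`; pass to a subsequence: for all `n`.  ADJ: `K' n`, and
`M' = M ∪ ⋃ n, K' n` (`J = univ`) is a countable elementary submodel; `K' n ∈ At j M'` (ADK; `Idc`, `NTr` by
APQ), and `mul j M' (K' n) = mul j M' (K n) = 0 + 1` (MLA; `App L (K n) (K' m)` iff `n = m`): contradiction to the
hypothesis for `M'`. -/
def St_CNB : Prop :=
  ∀ (L : FirstOrder.Language.{0, 0}) (U V : Type) [L.Structure U] [L.Structure V] (j : U ↪ₑ[L] V),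
    Cx L U V → UN j →
    (∀ M : Set V, CM L M → ¬ ∃ K : ℕ → Set V,
      (∀ n, K n ∈ At j M ∧ NTr j (K n) ∧ mul j M (K n) ≠ ⊤) ∧ ∀ m n, m ≠ n → ¬ App L (K m) (K n)) →
    ∀ M : Set V, CM L M → ¬ ∃ K : ℕ → Set V,
      (∀ n, K n ∈ Tau j ∧ mul j M (K n) ≠ ⊤) ∧ ∀ m n, m ≠ n → ¬ App L (K m) (K n)

/-- [CNA] (2h) Abstract counting.
PROOF.  Let `Q` be the quotient of `T` (as a type) by `r`.  Take `M0` in `𝔐`: the classes with
`μ M0 ≠ 0` are countably many, those with `μ M0 = 0 ≠ ⊤` finitely many (otherwise choose a sequence of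
pairwise inequivalent ones): `Q` is countable.  For `M ∈ 𝔐` let `c_M : Q → ℕ∞`, `c_M [K] = μ M K`; it is `⊤` on all
but finitely many classes.  There are countably many such functions (a finite subset of `Q` and the
values on it: `Finsupp`, or `Finset (Q × ℕ∞)`).  For each of them which occurs choose one `M ∈ 𝔐`. -/
def St_CNA : Prop :=
  ∀ (X Y : Type) (𝔐 : Set X) (T : Set Y) (r : Y → Y → Prop) (μ : X → Y → ℕ∞), 𝔐.Nonempty →
    Equivalence r → (∀ M K K', r K K' → μ M K = μ M K') →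
    (∀ M ∈ 𝔐, ¬ ∃ K : ℕ → Y, (∀ n, K n ∈ T ∧ μ M (K n) ≠ ⊤) ∧ ∀ m n, m ≠ n → ¬ r (K m) (K n)) →
    (∀ M ∈ 𝔐, ∃ k : ℕ → Y, ∀ K ∈ T, μ M K ≠ 0 → ∃ n, r K (k n)) →
    ∃ g : ℕ → X, (∀ n, g n ∈ 𝔐) ∧ ∀ M ∈ 𝔐, ∃ n, ∀ K ∈ T, μ M K = μ (g n) K

/-- [CNT] (1.2h; ELX, ATM, APQ, GLU, PRF, CNB, CNA) The dichotomy for `V`.
PROOF.  If some `M` with `CM L M` satisfies the hypothesis of PRF: the second alternative.  Otherwise
CNB, and CNA with `𝔐 = {M | CM L M}` (not empty: ELX (6) with `X = ∅`), `T = Tau j`, `r = App L` (APQ), `μ = mul j`;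
the atoms of `M` are countably many (ATM), so the last hypothesis of CNA holds (enumerate them; if there
are none take any sequence).  GLU. -/
def St_CNT : Prop :=
  ∀ (L : FirstOrder.Language.{0, 0}) (U V : Type) [L.Structure U] [L.Structure V] (j : U ↪ₑ[L] V),
    Cx L U V → UN j → CtV L V ∨ PfV L V

/-! ### Transfer -/

/-- [CMS] (1h; ELX) Countable elementary submodels as structures on `ℕ`.
PROOF.  ELX (6), (3): a countable infinite `M ⊇ X` with `IsEl L M`; an injective enumeration `i` of `M`;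
`WOM.St_PULL` (proved: `Pool/Agent/WOM/PULL.lean`) gives `S` with the same types of tuples; for a finite
index type `α` reindex to `Fin n`.  `α = Empty` gives the sentences. -/
def St_CMS : Prop :=
  ∀ (L : FirstOrder.Language.{0, 0}), Countable L.Symbols → ∀ (V : Type) [L.Structure V],
    Infinite V → ∀ X : Set V, X.Countable → ∃ (S : L.Structure ℕ) (i : ℕ → V),
      Function.Injective i ∧ X ⊆ range i ∧ IsEl L (range i) ∧
      @FirstOrder.Language.Theory.Model L ℕ S (L.completeTheory V) ∧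
      ∀ (α : Type) [Finite α] (φ : L.Formula α) (v : α → ℕ),
        @FirstOrder.Language.Formula.Realize L ℕ S α φ v ↔ φ.Realize (i ∘ v)

/-- [HYP] (2h; ELX, NDV, FRS, CMS) Transfer of the hypotheses to `V`.
PROOF.  (1) a ladder in `V` lies in some `range i` of CMS (`X` = the set of all entries).  (2) an array
`a`, `b`, `c` in `V` against `NC`: CMS with `X` = all entries, pull back to `S`, `P = {c l h | l < h}`; then
`∃ z ∈ P, φ(a_i, b_k, z)` iff `i < k`.  (3) Let `M`, `N` be countable elementary submodels of `V` with `M | N`;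
CMS with `X = M ∪ N`: `S`, `i`; `M0 = i⁻¹ M`, `N0 = i⁻¹ N` are elementary submodels of `S` (criterion ELX (2) in
`S`, ELX (1) in `V`) and independent there: if `φ(a, b)` holds, `a` in `M0`, `b` in `N0`, and `Div φ b` in `S`, then
`Div φ (i b)` in `V` (the witnesses `c` are mapped by `i`; if `x` in `V` satisfies all `φ(x, i c_l)`, `l ∈ I`, then so
does some `x` in `range i`, ELX (1)), which contradicts NDV.  By `FUn` the union `M0 ∪ N0` is an elementary
submodel of `S`, so `M ∪ N` is one of `V` (ELX (2): `φ(x, m)` solvable in `V` is solvable in `range i`). -/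
def St_HYP : Prop :=
  ∀ (L : FirstOrder.Language.{0, 0}), Countable L.Symbols → ∀ (V : Type) [L.Structure V],
    Infinite V →
    ((∀ S : L.Structure ℕ, @FirstOrder.Language.Theory.Model L ℕ S (L.completeTheory V) →
      @Stb L ℕ S) → Stb L V) ∧
    ((∀ S : L.Structure ℕ, @FirstOrder.Language.Theory.Model L ℕ S (L.completeTheory V) →
      @MSt L ℕ S) → NC L V) ∧
    (∀ (U : Type) [L.Structure U] (j : U ↪ₑ[L] V), Cx L U V →
      (∀ S : L.Structure ℕ, @FirstOrder.Language.Theory.Model L ℕ S (L.completeTheory V) →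
        @FUn L ℕ S) → UN j)

/-- [MAT] (1.5h; ELX) From `V` to structures on `ℕ`.
PROOF.  (1) It is enough to show `WOM.CtU L U` (`WOM.thm_TRC`, `WOM.thm_EMB`).  For `M ⊆ U` with `IsEl L M` the
set `j '' M` is a countable elementary submodel of `V`, and `IsoM (j '' M) (j '' M')` implies `IsoM M M'`.
Let `g` be the sequence of `CtV`; for every `n` choose, if possible, `M_n` with `IsEl L M_n` and
`IsoM L (j '' M_n) (g n)`.  (2) The proof of `WOM.thm_TRP` (`Pool/Agent/WOM/TRP.lean`, it does not use `Mon`)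
for `V` in place of `U`; `WOM.thm_PULL`; `V` and `S` have the same complete theory. -/
def St_MAT : Prop :=
  ∀ (L : FirstOrder.Language.{0, 0}) (U V : Type) [L.Structure U] [L.Structure V] (j : U ↪ₑ[L] V),
    Mon L U → ∀ S : L.Structure ℕ, U ⊨ ThS L S →
    (CtV L V → CtT L (ThS L S)) ∧ (PfV L V → PerfT L (ThS L S))

end Pool.Agent.MST
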