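import Pool.Agent.MST.StC

/-!
MST, module ADJ: adding independent copies of atoms.
-/

set_option autoImplicit false

namespace Pool.Agent.MST

open FirstOrder.Language Set
open scoped FirstOrder
open Pool.Agent.WOM (tp Mon IsEl IsoM Fam CtT PerfT ThS)

/-- [ADJ] -/
theorem thm_ADJ (hX : St_ELX) (hQ : St_SQI) (hQJ : St_SQJ) (hE : St_ELS) (hS : St_SEQ)
    (hF : St_FRS) (hD : St_MOD) : St_ADJ := by
  intro L U V _ _ j hC hU M hM K hK
  have hK' : ∀ n, ∃ N : Set V, CM L N ∧ K n ∈ At j N := by
    intro n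
    obtain ⟨N, h1, h2, -⟩ := hK n
    exact ⟨N, h1, h2⟩
  choose N hN hKN using hK'
  have hcN : ∀ n, Countable (N n) := fun n => (hN n).1.to_subtype
  obtain ⟨A', hA1, hA2⟩ := hS L U V j hC M hM.1 (fun n => N n) (fun n x => (x : V))
  obtain ⟨f1, f2, f3, f4, f5⟩ := hF L U V j hC
  obtain ⟨q1, q2, q3, q4, q5, q6, q7⟩ := hQ L V
  have hr : ∀ n, range (fun x : N n => (x : V)) = N n := fun n => Subtype.range_coe
  have hel : ∀ n, IsEl L (range (A' n)) := fun n =>
    (hE L V (N n) _ _ (hA1 n)).1 (by rw [hr]; exact (hN n).2)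
  have hinj : ∀ n, Function.Injective (A' n) := fun n =>
    (hE L V (N n) _ _ (hA1 n)).2 Subtype.val_injective
  have hKs : ∀ n, K n ⊆ N n := fun n => (hKN n).1
  let K' : ℕ → Set V := fun n => {v | ∃ x : N n, (x : V) ∈ K n ∧ A' n x = v}
  have hK's : ∀ n, K' n ⊆ range (A' n) := by
    rintro n _ ⟨x, -, rfl⟩
    exact ⟨x, rfl⟩
  -- the copies are independent of the rest
  have hind : ∀ n, FrS j (K' n) (range (A' n) \ K' n) := by
    intro n
    let i1 : {x : N n // (x : V) ∈ K n} → N n := Subtype.val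
    let i2 : {x : N n // (x : V) ∉ K n} → N n := Subtype.val
    have h1 : SqI L (Sum.elim (fun x => ((i1 x : N n) : V)) (fun x => ((i2 x : N n) : V)))
        (Sum.elim (fun x => A' n (i1 x)) (fun x => A' n (i2 x))) := by
      have h2 := q6 (N n) _ _ _ (Sum.elim i1 i2) (hA1 n)
      rw [comp_elim, comp_elim] at h2
      exact h2
    have h3 : range (fun x => ((i1 x : N n) : V)) = K n := by
      ext v
      constructor
      · rintro ⟨x, rfl⟩
        exact x.2
      · intro hv
        exact ⟨⟨⟨v, hKs n hv⟩, hv⟩, rfl⟩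
    have h4 : range (fun x => ((i2 x : N n) : V)) = N n \ K n := by
      ext v
      constructor
      · rintro ⟨x, rfl⟩
        exact ⟨x.1.2, x.2⟩
      · rintro ⟨hv, hv'⟩
        exact ⟨⟨⟨v, hv⟩, hv'⟩, rfl⟩
    have h5 : range (fun x => A' n (i1 x)) = K' n := by
      ext v
      constructor
      · rintro ⟨x, rfl⟩
        exact ⟨x.1, x.2, rfl⟩
      · rintro ⟨x, hx, rfl⟩
        exact ⟨⟨x, hx⟩, rfl⟩
    have h6 : range (fun x => A' n (i2 x)) = range (A' n) \ K' n := by
      ext v
      constructor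
      · rintro ⟨x, rfl⟩
        refine ⟨⟨x.1, rfl⟩, ?_⟩
        rintro ⟨y, hy, hxy⟩
        have h7 : y = i2 x := hinj n hxy
        rw [h7] at hy
        exact x.2 hy
      · rintro ⟨⟨x, rfl⟩, hv'⟩
        exact ⟨⟨x, fun hx => hv' ⟨x, hx, rfl⟩⟩, rfl⟩
    have h7 := (hQJ L U V j hC).2 _ _ _ _ _ _ h1 (by rw [h3, h4]; exact (hKN n).2.1)
    rw [h5, h6] at h7
    exact h7
  have happ : ∀ n, App L (K n) (K' n) := by
    intro n
    let f : K n → K' n := fun k => ⟨A' n ⟨k, hKs n k.2⟩, ⟨k, hKs n k.2⟩, k.2, rfl⟩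
    have hf : Function.Bijective f := by
      constructor
      · intro x y hxy
        have h1 := congrArg Subtype.val hxy
        have h2 := hinj n h1
        exact Subtype.ext (Subtype.mk.inj h2)
      · rintro ⟨_, x, hx, rfl⟩
        exact ⟨⟨x, hx⟩, rfl⟩
    refine ⟨Equiv.ofBijective f hf, ?_⟩
    exact q6 (N n) _ _ _ (fun k : K n => (⟨k, hKs n k.2⟩ : N n)) (hA1 n)
  have hsub : ∀ n, (⋃ k ∈ {k | k < n}, K' k) ⊆ ⋃ k ∈ {k | k < n}, range (A' k) := fun n =>
    iUnion₂_mono fun k _ => hK's k
  refine ⟨K', happ, fun n => ?_, fun J => ?_⟩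
  · exact f2 _ _ _ _ (hK's n) (union_subset_union_right M (hsub n)) (hA2 n)
  · let P : ℕ → Set V := fun n => M ∪ ⋃ k ∈ {k | k ∈ J ∧ k < n}, K' k
    have hP : ∀ n, CM L (P n) := by
      intro n
      induction n with
      | zero =>
        have h1 : P 0 = M := by
          ext v
          simp [P]
        rw [h1]
        exact hM
      | succ n ih =>
        by_cases hn : n ∈ J
        · have h1 : P (n + 1) = P n ∪ K' n := by
            ext v
            simp only [P, mem_union, mem_iUnion, mem_ofPred_eq, exists_prop]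
            constructor
            · rintro (h | ⟨k, ⟨hk, hkn⟩, h⟩)
              · exact Or.inl (Or.inl h)
              · rcases Nat.lt_succ_iff_lt_or_eq.1 hkn with h4 | h4
                · exact Or.inl (Or.inr ⟨k, ⟨hk, h4⟩, h⟩)
                · subst h4
                  exact Or.inr h
            · rintro ((h | ⟨k, ⟨hk, hkn⟩, h⟩) | h)
              · exact Or.inl h
              · exact Or.inr ⟨k, ⟨hk, by omega⟩, h⟩
              · exact Or.inr ⟨n, ⟨hn, by omega⟩, h⟩
          rw [h1]
          refine (hD L U V j hC).2 hU (P n) (range (A' n)) (K' n) ih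
            ⟨countable_range _, hel n⟩ (f1 _ _ (f2 _ _ _ _ Subset.rfl ?_ (hA2 n))) (hK's n) (hind n)
          refine union_subset_union_right M ?_
          refine Subset.trans ?_ (hsub n)
          refine biUnion_subset_biUnion_left ?_
          rintro k ⟨-, hk⟩
          exact hk
        · have h1 : P (n + 1) = P n := by
            ext v
            simp only [P, mem_union, mem_iUnion, mem_ofPred_eq, exists_prop]
            constructor
            · rintro (h | ⟨k, ⟨hk, hkn⟩, h⟩)
              · exact Or.inl h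
              · rcases Nat.lt_succ_iff_lt_or_eq.1 hkn with h4 | h4
                · exact Or.inr ⟨k, ⟨hk, h4⟩, h⟩
                · subst h4
                  exact absurd hk hn
            · rintro (h | ⟨k, ⟨hk, hkn⟩, h⟩)
              · exact Or.inl h
              · exact Or.inr ⟨k, ⟨hk, by omega⟩, h⟩
          rw [h1]
          exact ih
    have hmono : Monotone P := by
      intro m n hmn
      refine union_subset_union_right M (biUnion_subset_biUnion_left ?_)
      rintro k ⟨hk, hkm⟩
      exact ⟨hk, lt_of_lt_of_le hkm hmn⟩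
    have h1 : (M ∪ ⋃ n ∈ J, K' n) = ⋃ n, P n := by
      ext v
      simp only [P, mem_union, mem_iUnion, mem_ofPred_eq, exists_prop]
      constructor
      · rintro (h | ⟨k, hk, h⟩)
        · exact ⟨0, Or.inl h⟩
        · exact ⟨k + 1, Or.inr ⟨k, ⟨hk, by omega⟩, h⟩⟩
      · rintro ⟨n, h | ⟨k, ⟨hk, -⟩, h⟩⟩
        · exact Or.inl h
        · exact Or.inr ⟨k, hk, h⟩
    rw [h1]
    exact ⟨countable_iUnion fun n => (hP n).1,
      (hX L V).2.2.2.2.1 P hmono fun n => (hP n).2⟩

end Pool.Agent.MST
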