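import Pool.Agent.MST.StC

/-!
MST, module ADK (helper71): the atoms of the enlarged model.
-/

set_option autoImplicit false

namespace Pool.Agent.MST

open FirstOrder.Language Set
open scoped FirstOrder
open Pool.Agent.WOM (tp Mon IsEl IsoM Fam CtT PerfT ThS)

/-- The atoms of the enlarged model. -/
theorem thm_ADK (hFRS : St_FRS) (hIND : St_IND) (hATM : St_ATM) : St_ADK := by
  intro L U V _ _ j hC M K' hK hI hN
  obtain ⟨hsymm, hmono, htr, -, -⟩ := hFRS L U V j hC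
  have hind := hIND L U V j hC M K' hK
  have hKM : ∀ n, Disjoint (K' n) M := by
    intro n
    rw [Set.disjoint_left]
    intro x hx hxM
    exact hN n x hx (hmono _ _ _ _ (singleton_subset_iff.2 hx)
      (singleton_subset_iff.2 (Or.inl hxM)) (hK n))
  have hlt : ∀ m n, m < n → Disjoint (K' m) (K' n) := by
    intro m n hmn
    rw [Set.disjoint_left]
    intro x hxm hxn
    refine hN n x hxn (hmono _ _ _ _ (singleton_subset_iff.2 hxn)
      (singleton_subset_iff.2 (Or.inr ?_)) (hK n))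
    exact mem_iUnion₂.2 ⟨m, hmn, hxm⟩
  refine ⟨hKM, fun m n hmn => ?_, fun J => ?_⟩
  · rcases lt_or_gt_of_ne hmn with h | h
    · exact hlt m n h
    · exact (hlt n m h).symm
  · have h1 : ∀ K ∈ At j M, K ∈ At j (M ∪ ⋃ n ∈ J, K' n) := by
      rintro K ⟨hKs, hKf, hKi⟩
      refine ⟨hKs.trans subset_union_left, ?_, hKi⟩
      have h2 : FrS j (⋃ n ∈ J, K' n) M := by
        refine hmono _ _ _ _ Subset.rfl subset_union_left
          (hind J ∅ (disjoint_empty J))
      have h3 : FrS j (K ∪ (M \ K)) (⋃ n ∈ J, K' n) := by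
        rw [union_sdiff_cancel hKs]
        exact hsymm _ _ h2
      refine hmono _ _ _ _ Subset.rfl ?_ (htr _ _ _ hKf h3)
      rintro x ⟨hx | hx, hxK⟩
      · exact Or.inl ⟨hx, hxK⟩
      · exact Or.inr hx
    have h2 : ∀ n ∈ J, K' n ∈ At j (M ∪ ⋃ n ∈ J, K' n) := by
      intro n hn
      refine ⟨fun x hx => Or.inr (mem_iUnion₂.2 ⟨n, hn, hx⟩), ?_, hI n⟩
      have h3 : FrS j (⋃ m ∈ ({n} : Set ℕ), K' m) (M ∪ ⋃ m ∈ J \ {n}, K' m) :=
        hind {n} (J \ {n}) disjoint_sdiff_right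
      refine hmono _ _ _ _ ?_ ?_ h3
      · intro x hx
        exact mem_iUnion₂.2 ⟨n, rfl, hx⟩
      · rintro x ⟨hx | hx, hxK⟩
        · exact Or.inl hx
        · obtain ⟨m, hm, hxm⟩ := mem_iUnion₂.1 hx
          refine Or.inr (mem_iUnion₂.2 ⟨m, ⟨hm, ?_⟩, hxm⟩)
          rintro rfl
          exact hxK hxm
    obtain ⟨hA1, -, -⟩ := hATM L U V j hC M
    obtain ⟨-, hB2, -⟩ := hATM L U V j hC (M ∪ ⋃ n ∈ J, K' n)
    ext K
    constructor
    · intro hKP
      obtain ⟨x, hx⟩ := hKP.2.2.1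
      rcases hKP.1 hx with hxM | hxJ
      · obtain ⟨K0, hK0, hxK0⟩ := hA1 x hxM
        have h3 := hB2 K hKP K0 (h1 K0 hK0) ⟨x, hx, hxK0⟩
        rw [h3]
        exact Or.inl hK0
      · obtain ⟨n, hn, hxn⟩ := mem_iUnion₂.1 hxJ
        have h3 := hB2 K hKP (K' n) (h2 n hn) ⟨x, hx, hxn⟩
        rw [h3]
        exact Or.inr ⟨n, hn, rfl⟩
    · rintro (hKM | ⟨n, hn, rfl⟩)
      · exact h1 K hKM
      · exact h2 n hn

end Pool.Agent.MST
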