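import Pool.Agent.MST.StC

/-!
MST, module APQ: equality of the strong types of sets.
-/

set_option autoImplicit false

namespace Pool.Agent.MST

open FirstOrder.Language Set
open scoped FirstOrder

section APQ

variable {L : FirstOrder.Language.{0, 0}} {U V : Type} [L.Structure U] [L.Structure V]
  {j : U ↪ₑ[L] V}

private theorem APQ_symm (hSQI : St_SQI) {K K' : Set V} (f : K ≃ K')
    (h : SqI L (fun k : K => (k : V)) (fun k : K => ((f k : K') : V))) :
    SqI L (fun k : K' => (k : V)) (fun k : K' => ((f.symm k : K) : V)) := by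
  obtain ⟨-, -, -, -, -, h6, h7⟩ := hSQI L V
  have h1 := h6 K K' _ _ f.symm h
  have h2 : (fun k : K => ((f k : K') : V)) ∘ f.symm = fun k : K' => (k : V) := by
    funext k
    simp
  rw [h2] at h1
  exact (h7 K' _ _ (fun k : K' => (k : V))).2.1 h1

private theorem APQ_fr (hCAL : St_CAL) (hSQI : St_SQI) (hC : Cx L U V) {K K' : Set V}
    (f : K ≃ K') (h : SqI L (fun k : K => (k : V)) (fun k : K => ((f k : K') : V)))
    {X0 Y0 X Y : Set V} (hX : X ⊆ K') (hY : Y ⊆ K')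
    (hX0 : ∀ v (hv : v ∈ K'), v ∈ X → ((f.symm ⟨v, hv⟩ : K) : V) ∈ X0)
    (hY0 : ∀ v (hv : v ∈ K'), v ∈ Y → ((f.symm ⟨v, hv⟩ : K) : V) ∈ Y0)
    (hF : FrS j X0 Y0) : FrS j X Y := by
  intro m n a b ha hb
  have h1 := hF m n (fun i => ((f.symm ⟨a i, hX (ha i)⟩ : K) : V))
    (fun i => ((f.symm ⟨b i, hY (hb i)⟩ : K) : V)) (fun i => hX0 _ _ (ha i))
    (fun i => hY0 _ _ (hb i))
  have h2 := (hSQI L V).2.2.2.1 K _ _ h (Fin m ⊕ Fin n)
    (Sum.elim (fun i => f.symm ⟨a i, hX (ha i)⟩) fun i => f.symm ⟨b i, hY (hb i)⟩)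
  have e1 : (fun k : K => (k : V)) ∘ (Sum.elim (fun i => f.symm ⟨a i, hX (ha i)⟩)
      fun i => f.symm ⟨b i, hY (hb i)⟩ : Fin m ⊕ Fin n → K) =
      Sum.elim (fun i => ((f.symm ⟨a i, hX (ha i)⟩ : K) : V))
        (fun i => ((f.symm ⟨b i, hY (hb i)⟩ : K) : V)) := by
    funext x
    rcases x with x | x <;> rfl
  have e2 : (fun k : K => ((f k : K') : V)) ∘ (Sum.elim (fun i => f.symm ⟨a i, hX (ha i)⟩)
      fun i => f.symm ⟨b i, hY (hb i)⟩ : Fin m ⊕ Fin n → K) = Sum.elim a b := by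
    funext x
    rcases x with x | x <;> simp
  rw [e1, e2] at h2
  exact (hCAL L U V j hC).2.2.2.2 (Fin m) (Fin n) _ _ _ _ h2 h1

end APQ

theorem thm_APQ (h1 : St_CAL) (h2 : St_SQI) (h3 : St_FRS) : St_APQ := by
  intro L U V _ _ j hC
  obtain ⟨-, -, -, -, -, q6, q7⟩ := h2 L V
  refine ⟨fun K => ⟨Equiv.refl K, ?_⟩, ?_, ?_, ?_⟩
  · exact (q7 K _ (fun k : K => (k : V)) (fun k : K => (k : V))).1
  · rintro K K' ⟨f, hf⟩
    exact ⟨f.symm, APQ_symm h2 f hf⟩
  · rintro K K' K'' ⟨f, hf⟩ ⟨g, hg⟩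
    refine ⟨f.trans g, ?_⟩
    have h4 := q6 K' K _ _ f hg
    exact (q7 K _ (fun k : K => ((f k : K') : V)) _).2.2 hf h4
  · rintro K K' ⟨f, hf⟩
    have hf' := APQ_symm h2 f hf
    refine ⟨?_, ?_, ?_⟩
    · rintro ⟨⟨v, hv⟩, hI⟩
      refine ⟨⟨_, (f ⟨v, hv⟩).2⟩, fun X' hX' hF => ?_⟩
      let X : Set V := {v | ∃ h : v ∈ K, ((f ⟨v, h⟩ : K') : V) ∈ X'}
      have hXK : X ⊆ K := fun v hv => hv.1
      have hX : FrS j X (K \ X) := by
        refine APQ_fr h1 h2 hC f.symm hf' hXK diff_subset (fun v hv hvX => ?_)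
          (fun v hv hvX => ?_) hF
        · exact hvX.2
        · refine ⟨(f.symm.symm ⟨v, hv⟩).2, fun h => hvX.2 ⟨hv, h⟩⟩
      rcases hI X hXK hX with h0 | h0
      · left
        rw [eq_empty_iff_forall_notMem]
        intro v hv
        have h5 : ((f.symm ⟨v, hX' hv⟩ : K) : V) ∈ X := by
          refine ⟨(f.symm ⟨v, hX' hv⟩).2, ?_⟩
          rw [Subtype.coe_eta, Equiv.apply_symm_apply]
          exact hv
        rw [h0] at h5
        exact h5
      · right
        refine subset_antisymm hX' fun v hv => ?_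
        have h5 : ((f.symm ⟨v, hv⟩ : K) : V) ∈ X := by
          rw [h0]
          exact (f.symm ⟨v, hv⟩).2
        obtain ⟨h6, h7⟩ := h5
        rw [Subtype.coe_eta, Equiv.apply_symm_apply] at h7
        exact h7
    · intro hN x hx hT
      refine hN _ (f.symm ⟨x, hx⟩).2 ?_
      refine APQ_fr h1 h2 hC f.symm hf' (X0 := {x}) (Y0 := {x}) ?_ ?_ ?_ ?_ hT
      · rw [singleton_subset_iff]
        exact (f.symm ⟨x, hx⟩).2
      · rw [singleton_subset_iff]
        exact (f.symm ⟨x, hx⟩).2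
      · intro v hv h
        rw [mem_singleton_iff] at h
        subst h
        simp
      · intro v hv h
        rw [mem_singleton_iff] at h
        subst h
        simp
    · intro hK
      have : Countable K := hK.to_subtype
      exact countable_coe_iff.1 f.symm.injective.countable

end Pool.Agent.MST
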