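import Pool.Agent.MST.StB

/-!
MST: arrays of copies.
-/

set_option autoImplicit false

namespace Pool.Agent.MST

open FirstOrder.Language Set
open scoped FirstOrder
open Pool.Agent.WOM (tp Mon IsEl IsoM Fam)

theorem thm_ARR (hFRS : St_FRS) (hSQI : St_SQI) (hSQJ : St_SQJ) (hEXT : St_EXT)
    (hSEQ : St_SEQ) (hIND : St_IND) : St_ARR := by
  intro L U V _ _ j hC M N hM hN hMN b
  have : Countable M := hM.to_subtype
  have : Countable N := hN.to_subtype
  set val : M ⊕ N → V := Sum.elim (fun x : M => (x : V)) (fun x : N => (x : V)) with hval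
  obtain ⟨A', hA1, hA2⟩ := hSEQ L U V j hC ∅ countable_empty (fun _ => M ⊕ N) (fun _ => val)
  have hind := hIND L U V j hC ∅ (fun n => range (A' n)) hA2
  obtain ⟨-, f2, -, -, -⟩ := hFRS L U V j hC
  obtain ⟨-, -, -, -, -, s6, -⟩ := hSQI L V
  set A : ℕ → M → V := fun i => A' (2 * i) ∘ Sum.inl with hA
  set B : ℕ → N → V := fun k => A' (2 * k + 1) ∘ Sum.inr with hB
  have hAr : ∀ i, range (A i) ⊆ range (A' (2 * i)) := by
    rintro i _ ⟨x, rfl⟩
    exact ⟨Sum.inl x, rfl⟩
  have hBr : ∀ k, range (B k) ⊆ range (A' (2 * k + 1)) := by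
    rintro k _ ⟨x, rfl⟩
    exact ⟨Sum.inr x, rfl⟩
  set O : ℕ → ℕ → Set V := fun i k =>
    {v | (∃ l, l ≠ i ∧ v ∈ range (A l)) ∨ (∃ h, h ≠ k ∧ v ∈ range (B h))} with hO
  have hOc : ∀ i k, (O i k).Countable := by
    intro i k
    have h1 : (⋃ n, range (A' n)).Countable := countable_iUnion fun n => countable_range _
    refine h1.mono ?_
    rintro v (⟨l, -, hv⟩ | ⟨h, -, hv⟩)
    · exact mem_iUnion.2 ⟨_, hAr l hv⟩
    · exact mem_iUnion.2 ⟨_, hBr h hv⟩
  have h1 : ∀ i k, FrS j (range (A i)) (range (B k)) := by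
    intro i k
    have hd : Disjoint ({2 * i} : Set ℕ) {2 * k + 1} := by
      rw [disjoint_singleton]
      omega
    refine f2 _ _ _ _ ?_ ?_ (hind {2 * i} {2 * k + 1} hd)
    · intro v hv
      exact mem_biUnion (mem_singleton _) (hAr i hv)
    · intro v hv
      exact Or.inr (mem_biUnion (mem_singleton _) (hBr k hv))
  have h2 : ∀ i k, FrS j (range (A i) ∪ range (B k)) (O i k) := by
    intro i k
    refine f2 _ _ _ _ ?_ ?_ (hind {2 * i, 2 * k + 1} {2 * i, 2 * k + 1}ᶜ
      disjoint_compl_right)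
    · rintro v (hv | hv)
      · exact mem_biUnion (mem_insert _ _) (hAr i hv)
      · exact mem_biUnion (mem_insert_of_mem _ (mem_singleton _)) (hBr k hv)
    · rintro v (⟨l, hl, hv⟩ | ⟨h, hh, hv⟩)
      · refine Or.inr (mem_biUnion (x := 2 * l) ?_ (hAr l hv))
        simp only [mem_compl_iff, mem_insert_iff, mem_singleton_iff, not_or]
        omega
      · refine Or.inr (mem_biUnion (x := 2 * h + 1) ?_ (hBr h hv))
        simp only [mem_compl_iff, mem_insert_iff, mem_singleton_iff, not_or]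
        omega
  have h3 : ∀ i, SqI L (fun x : M => (x : V)) (A i) := fun i =>
    s6 _ _ _ _ Sum.inl (hA1 (2 * i))
  have h4 : ∀ k, SqI L (fun x : N => (x : V)) (B k) := fun k =>
    s6 _ _ _ _ Sum.inr (hA1 (2 * k + 1))
  have h5 : ∀ i k, SqI L val (Sum.elim (A i) (B k)) := by
    intro i k
    refine (hSQJ L U V j hC).1 _ _ _ _ _ _ (h3 i) (h4 k) ?_ (h1 i k)
    rw [Subtype.range_coe, Subtype.range_coe]
    exact hMN
  have h6 : ∀ i k, ∃ C' : Unit → V,
      SqI L (Sum.elim val (fun _ : Unit => b)) (Sum.elim (Sum.elim (A i) (B k)) C') ∧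
      FrS j (range (Sum.elim (Sum.elim (A i) (B k)) C')) (O i k) := by
    intro i k
    refine hEXT L U V j hC (M ⊕ N) Unit val (Sum.elim (A i) (B k)) (fun _ => b) (O i k)
      (hOc i k) (h5 i k) ?_
    rw [Sum.elim_range]
    exact h2 i k
  choose d hd1 hd2 using h6
  refine ⟨A, B, fun i k => d i k (), fun i k => hd1 i k, fun i k => ?_⟩
  have h7 := hd2 i k
  have h8 : range (d i k) = {d i k ()} := by
    ext v
    simp only [mem_range, mem_singleton_iff]
    constructor
    · rintro ⟨x, rfl⟩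
      rfl
    · rintro rfl
      exact ⟨(), rfl⟩
  rw [Sum.elim_range, Sum.elim_range, h8] at h7
  exact h7

end Pool.Agent.MST
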