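import Pool.Agent.MST.StC

/-!
MST, module ATM: atoms.
-/

set_option autoImplicit false

namespace Pool.Agent.MST

open FirstOrder.Language Set
open scoped FirstOrder

section ATM

variable {L : FirstOrder.Language.{0, 0}} {U V : Type} [L.Structure U] [L.Structure V]
  {j : U ↪ₑ[L] V}

private theorem ATM_inter (hC : Cx L U V) (hFRS : St_FRS) (M X Y : Set V) (hX : X ⊆ M)
    (h1 : FrS j X (M \ X)) (h2 : FrS j Y (M \ Y)) : FrS j (X ∩ Y) (M \ (X ∩ Y)) := by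
  obtain ⟨_, hmono, htrans, _, _⟩ := hFRS L U V j hC
  have h3 : FrS j (X ∩ Y) (X \ Y) :=
    hmono Y (M \ Y) (X ∩ Y) (X \ Y) inter_subset_right (fun v hv => ⟨hX hv.1, hv.2⟩) h2
  have h4 : FrS j ((X ∩ Y) ∪ (X \ Y)) (M \ X) := by
    rw [inter_union_sdiff]
    exact h1
  have h5 := htrans _ _ _ h3 h4
  refine hmono _ _ _ _ subset_rfl ?_ h5
  intro v hv
  by_cases hx : v ∈ X
  · exact Or.inl ⟨hx, fun hy => hv.2 ⟨hx, hy⟩⟩
  · exact Or.inr ⟨hv.1, hx⟩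

private theorem ATM_sInter (hC : Cx L U V) (hFRS : St_FRS) (M : Set V) (F : Set (Set V))
    (hne : F.Nonempty) (hF : ∀ X ∈ F, X ⊆ M ∧ FrS j X (M \ X)) :
    FrS j (⋂₀ F) (M \ ⋂₀ F) := by
  intro m n a b ha hb
  have key : ∀ s : Finset (Fin n), ∃ W : Set V, (W ⊆ M ∧ FrS j W (M \ W)) ∧ ⋂₀ F ⊆ W ∧
      ∀ i ∈ s, b i ∉ W := by
    intro s
    induction s using Finset.induction_on with
    | empty =>
      obtain ⟨X, hX⟩ := hne
      exact ⟨X, hF X hX, sInter_subset_of_mem hX, by simp⟩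
    | insert i s _ ih =>
      obtain ⟨W, ⟨hW1, hW2⟩, hW3, hW4⟩ := ih
      have hbi := (hb i).2
      rw [mem_sInter] at hbi
      push Not at hbi
      obtain ⟨X, hX, hbX⟩ := hbi
      refine ⟨W ∩ X, ⟨inter_subset_left.trans hW1, ATM_inter hC hFRS M W X hW1 hW2 (hF X hX).2⟩,
        subset_inter hW3 (sInter_subset_of_mem hX), ?_⟩
      intro k hk hkW
      rcases Finset.mem_insert.1 hk with rfl | hk
      · exact hbX hkW.2
      · exact hW4 k hk hkW.1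
  obtain ⟨W, ⟨_, hW2⟩, hW3, hW4⟩ := key Finset.univ
  exact hW2 m n a b (fun i => hW3 (ha i)) (fun i => ⟨(hb i).1, hW4 i (Finset.mem_univ i)⟩)

private theorem ATM_third (hC : Cx L U V) (hFRS : St_FRS) (M X : Set V) (_hX : X ⊆ M)
    (h : FrS j X (M \ X)) (K : Set V) (hK : K ∈ At j M) : K ⊆ X ∨ Disjoint K X := by
  obtain ⟨_, hmono, _, _, _⟩ := hFRS L U V j hC
  obtain ⟨hKM, _, _, hKi⟩ := hK
  have h1 : FrS j (K ∩ X) (K \ (K ∩ X)) :=
    hmono X (M \ X) (K ∩ X) (K \ (K ∩ X)) inter_subset_right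
      (fun v hv => ⟨hKM hv.1, fun hx => hv.2 ⟨hv.1, hx⟩⟩) h
  rcases hKi _ inter_subset_left h1 with h2 | h2
  · exact Or.inr (disjoint_iff_inter_eq_empty.2 h2)
  · exact Or.inl (inter_eq_left.1 h2)

private theorem ATM_first (hC : Cx L U V) (hFRS : St_FRS) (M : Set V) (x : V) (hx : x ∈ M) :
    ∃ K ∈ At j M, x ∈ K := by
  obtain ⟨hsymm, hmono, htrans, hempty, _⟩ := hFRS L U V j hC
  have hMM : FrS j M (M \ M) := by
    rw [sdiff_self]
    exact hsymm _ _ (hempty M)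
  have hK := ATM_sInter (j := j) hC hFRS M {X | (X ⊆ M ∧ FrS j X (M \ X)) ∧ x ∈ X}
    ⟨M, ⟨subset_rfl, hMM⟩, hx⟩ (fun X hX => hX.1)
  set K : Set V := ⋂₀ {X | (X ⊆ M ∧ FrS j X (M \ X)) ∧ x ∈ X} with hKdef
  have hKM : K ⊆ M := sInter_subset_of_mem ⟨⟨subset_rfl, hMM⟩, hx⟩
  have hxK : x ∈ K := fun X hX => hX.2
  have hsub : ∀ X ⊆ K, FrS j X (K \ X) → FrS j X (M \ X) := by
    intro X hX h
    have h1 : FrS j (X ∪ (K \ X)) (M \ K) := by
      rw [union_sdiff_cancel hX]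
      exact hK
    refine hmono _ _ _ _ subset_rfl ?_ (htrans _ _ _ h h1)
    intro v hv
    by_cases hvK : v ∈ K
    · exact Or.inl ⟨hvK, hv.2⟩
    · exact Or.inr ⟨hv.1, hvK⟩
  refine ⟨K, ⟨hKM, hK, ⟨x, hxK⟩, ?_⟩, hxK⟩
  intro X hX h
  by_cases hxX : x ∈ X
  · refine Or.inr (subset_antisymm hX ?_)
    exact sInter_subset_of_mem ⟨⟨hX.trans hKM, hsub X hX h⟩, hxX⟩
  · left
    have h2 : FrS j (K \ X) (K \ (K \ X)) := by
      rw [sdiff_sdiff_cancel_left hX]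
      exact hsymm _ _ h
    have h3 : K ⊆ K \ X :=
      sInter_subset_of_mem ⟨⟨sdiff_subset.trans hKM, hsub _ sdiff_subset h2⟩, ⟨hxK, hxX⟩⟩
    exact eq_empty_of_forall_notMem fun v hv => (h3 (hX hv)).2 hv

end ATM

/-- [ATM] Atoms. -/
theorem thm_ATM (hFRS : St_FRS) : St_ATM := by
  intro L U V _ _ j hC M
  refine ⟨fun x hx => ATM_first hC hFRS M x hx, ?_, fun X hX h K hK =>
    ATM_third hC hFRS M X hX h K hK⟩
  intro K hK K' hK' hne
  refine subset_antisymm ?_ ?_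
  · rcases ATM_third hC hFRS M K' hK'.1 hK'.2.1 K hK with h | h
    · exact h
    · exact absurd h (not_disjoint_iff_nonempty_inter.2 hne)
  · rcases ATM_third hC hFRS M K hK.1 hK.2.1 K' hK' with h | h
    · exact h
    · rw [inter_comm] at hne
      exact absurd h (not_disjoint_iff_nonempty_inter.2 hne)

end Pool.Agent.MST
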