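import Pool.Agent.MST.StC

/-!
MST: trivial elements (helper2).
-/

set_option autoImplicit false

namespace Pool.Agent.MST

open FirstOrder.Language Set
open scoped FirstOrder
open Pool.Agent.WOM (IsEl)

section BAS

variable {L : FirstOrder.Language.{0, 0}}

/-- the singleton of a constant tuple is definable -/
private theorem dfp_sing {M : Type} [L.Structure M] {α : Type} [Finite α] (u : Unit → M)
    (hu : Dfp L ({u} : Set (Unit → M))) : Dfp L ({fun _ : α => u ()} : Set (α → M)) := by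
  have h1 : Dfp L (⋃ i ∈ (Set.univ : Set α), {v : α → M | v ∘ (fun _ : Unit => i) ∈
      ({u} : Set (Unit → M))ᶜ}) :=
    Dfp.biUnion (Set.toFinite _) (fun i _ => hu.compl.pre (fun _ : Unit => i))
  have h2 := h1.compl
  have h3 : (⋃ i ∈ (Set.univ : Set α), {v : α → M | v ∘ (fun _ : Unit => i) ∈
      ({u} : Set (Unit → M))ᶜ})ᶜ = ({fun _ : α => u ()} : Set (α → M)) := by
    ext v
    constructor
    · intro h
      rw [mem_singleton_iff]
      funext i
      by_contra h4
      refine h (mem_iUnion₂.2 ⟨i, mem_univ i, ?_⟩)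
      intro h5
      exact h4 (congrFun h5 ())
    · intro h h4
      obtain ⟨i, -, h5⟩ := mem_iUnion₂.1 h4
      refine h5 ?_
      rw [mem_singleton_iff] at h
      rw [mem_singleton_iff, h]
      rfl
  rw [h3] at h2
  exact h2

/-- a realized type is independent from every tuple -/
private theorem fr_of_sing (h1 : St_DEF) (h5 : St_FRB) (h6 : St_TEN)
    {U V : Type} [L.Structure U] [L.Structure V] (j : U ↪ₑ[L] V) (hC : Cx L U V)
    {α β : Type} [Finite α] [Finite β] (a : α → V) (c : β → V) (w : α → U)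
    (hw : ({w} : Set (α → U)) ∈ fr j a) : Fr j a c := by
  have hst : Stb L U := hC.cu.stb
  have F := h5 L U V j hC
  obtain ⟨PB, -, -, -, -, PX⟩ := F (α ⊕ β) (Sum.elim a c)
  obtain ⟨aB, -, -, -, -, -⟩ := F α a
  obtain ⟨cB, -, -, -, -, -⟩ := F β c
  have ea : fr j a = rx L (Sum.inl : α → α ⊕ β) (fr j (Sum.elim a c)) := PX α Sum.inl
  have ec : fr j c = rx L (Sum.inr : β → α ⊕ β) (fr j (Sum.elim a c)) := PX β Sum.inr
  refine IsTy.eq_of_subset PB.ty ((h6 L U hst α β (fr j a) (fr j c)).1 aB.ty cB.ty) ?_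
  intro s hs
  have hsD : Dfp L s := PB.ty.dfn s hs
  refine ⟨hsD, ?_⟩
  have k1 : {v : α ⊕ β → U | v ∘ Sum.inl ∈ ({w} : Set (α → U))} ∈ fr j (Sum.elim a c) := by
    have h := hw
    rw [ea] at h
    exact h.2
  have k2 := PB.ty.inter _ hs _ k1
  have k3 : Dfp L {y : β → U | Sum.elim w y ∈ s} := hsD.snd w
  have k4 : {v : α ⊕ β → U | v ∘ Sum.inr ∈ {y : β → U | Sum.elim w y ∈ s}} ∈
      fr j (Sum.elim a c) := by
    refine PB.ty.mono k2 ?_ (k3.pre Sum.inr)
    rintro v ⟨v1, v2⟩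
    have v3 : v ∘ Sum.inl = w := v2
    have v4 : Sum.elim w (v ∘ Sum.inr) = v := by
      rw [← v3]
      funext t
      rcases t with t | t <;> rfl
    change Sum.elim w (v ∘ Sum.inr) ∈ s
    rw [v4]
    exact v1
  have k5 : {y : β → U | Sum.elim w y ∈ s} ∈ fr j c := by
    rw [ec]
    exact ⟨k3, k4⟩
  refine cB.ty.mono k5 ?_ (h1 L U hst α β (fr j a) aB.ty s hsD)
  intro y hy
  refine aB.ty.mono hw ?_ (hsD.fst y)
  rintro _ rfl
  exact hy

theorem thm_BAS (h1 : St_DEF) (h2 : St_FEV) (h3 : St_BDE) (_h4 : St_RXT) (h5 : St_FRB)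
    (h6 : St_TEN) (h7 : St_FRS) : St_BAS := by
  intro L U V _ _ j hC x hT
  have F := h5 L U V j hC
  obtain ⟨-, -, -, -, S5⟩ := h7 L U V j hC
  obtain ⟨pB, pH, -, -, -, pX⟩ := F Unit (fun _ => x)
  obtain ⟨-, -, -, qR, -, -⟩ := F (Unit ⊕ Unit) (Sum.elim (fun _ => x) (fun _ => x))
  have hbb : Fr j (fun _ : Unit => x) (fun _ : Unit => x) :=
    S5 {x} {x} hT Unit Unit _ _ (fun _ => rfl) (fun _ => rfl)
  -- the formula `x = y`
  obtain ⟨φ, hφV, hφU⟩ : ∃ φ : L.Formula (Unit ⊕ Unit),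
      (∀ v w : Unit → V, φ.Realize (Sum.elim v w) ↔ v = w) ∧
      (∀ v w : Unit → U, φ.Realize (Sum.elim v w) ↔ v = w) := by
    refine ⟨FirstOrder.Language.Term.equal (FirstOrder.Language.Term.var (Sum.inl ()))
      (FirstOrder.Language.Term.var (Sum.inr ())), fun v w => ?_, fun v w => ?_⟩
    · rw [FirstOrder.Language.Formula.realize_equal]
      exact ⟨fun h => funext fun _ => h, fun h => congrFun h ()⟩
    · rw [FirstOrder.Language.Formula.realize_equal]
      exact ⟨fun h => funext fun _ => h, fun h => congrFun h ()⟩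
  have d1 : rs U φ ∈ fr j (Sum.elim (fun _ : Unit => x) (fun _ : Unit => x)) :=
    (qR φ).2 ((hφV _ _).2 rfl)
  have hbb' : fr j (Sum.elim (fun _ : Unit => x) (fun _ : Unit => x)) =
      ten L (fr j (fun _ : Unit => x)) (fr j (fun _ : Unit => x)) := hbb
  rw [hbb'] at d1
  have hD : ∀ u : Unit → U, u ∈ fib (fr j (fun _ : Unit => x)) (rs U φ) →
      ({u} : Set (Unit → U)) ∈ fr j (fun _ : Unit => x) := by
    intro u hu
    have e1 : {a : Unit → U | Sum.elim a u ∈ rs U φ} = {u} := by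
      ext v
      exact hφU v u
    rw [mem_fib, e1] at hu
    exact hu
  obtain ⟨u, hu⟩ := pB.ty.nonempty d1.2
  have su := hD u hu
  obtain ⟨E, EU, EI⟩ := h3 L U hC.cu Unit Unit (fr j (fun _ : Unit => x)) pB φ
  have E1 : ∀ y : Unit → U, er E y u → y = u := by
    intro y hy
    have sy := hD y ((EI y u hy).2 hu)
    obtain ⟨z, z1, z2⟩ := pB.ty.nonempty (pB.ty.inter _ sy _ su)
    have z3 : z = y := z1
    have z4 : z = u := z2
    rw [← z3, z4]
  obtain ⟨f1, f2, f3⟩ := h2 L U V j Unit E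
  have EV : FE V E := f1.1 EU
  have E2 : ∀ y : Unit → V, er E y (j ∘ u) → y = j ∘ u := by
    intro y hy
    by_contra hne
    obtain ⟨z, hz⟩ := emb_ex j (E ⊓ φ.not) u ⟨y, by
      rw [FirstOrder.Language.Formula.realize_inf, FirstOrder.Language.Formula.realize_not]
      exact ⟨hy, fun h => hne ((hφV _ _).1 h)⟩⟩
    rw [FirstOrder.Language.Formula.realize_inf, FirstOrder.Language.Formula.realize_not] at hz
    exact hz.2 ((hφU _ _).2 (E1 z hz.1))
  have E3 : (fun _ : Unit => x) = j ∘ u := by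
    obtain ⟨u', hu'⟩ := f2 EV (fun _ : Unit => x)
    have g1 := pH E EU u' hu'
    obtain ⟨z, z1, z2⟩ := pB.ty.nonempty (pB.ty.inter _ g1 _ su)
    have z3 : z = u := z2
    have z4 : er E u u' := by
      rw [← z3]
      exact z1
    have z5 : er E (j ∘ u : Unit → V) (j ∘ u') := (emb_er j E u u').2 z4
    exact E2 _ (EV.trans _ _ _ hu' (EV.symm _ _ z5))
  have E4 : ∀ y : Unit → V, er E y (fun _ : Unit => x) → y = fun _ : Unit => x := by
    intro y hy
    rw [E3] at hy ⊢
    exact E2 y hy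
  refine ⟨fun M hM => ?_, fun Y => ?_, fun y hy => ?_⟩
  · obtain ⟨m, m1, m2⟩ := f3 EV M hM (fun _ : Unit => x)
    have m3 := E4 m (EV.symm _ _ m2)
    have m4 : m () = x := congrFun m3 ()
    rw [← m4]
    exact m1 ()
  · intro m n a c ha _
    have ea : a = (fun _ : Unit => x) ∘ (fun _ : Fin m => ()) := by
      funext i
      exact ha i
    refine fr_of_sing h1 h5 h6 j hC a c (fun _ => u ()) ?_
    have e2 : fr j a = rx L (fun _ : Fin m => ()) (fr j (fun _ : Unit => x)) := by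
      rw [ea]
      exact pX (Fin m) (fun _ : Fin m => ())
    rw [e2]
    have hd : Dfp L ({fun _ : Fin m => u ()} : Set (Fin m → U)) :=
      dfp_sing u (pB.ty.dfn _ su)
    refine ⟨hd, pB.ty.mono su ?_ (hd.pre _)⟩
    rintro _ rfl
    rfl
  · exact congrFun (E4 (fun _ => y) (EV.symm _ _ (hy E EV))) ()

end BAS

end Pool.Agent.MST
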