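import Pool.Agent.MST.StA

/-!
MST: module BDE (helper58).  The definition schemes of a bounded type are invariant under finite
equivalence relations.
-/

set_option autoImplicit false

namespace Pool.Agent.MST

open FirstOrder.Language Set
open scoped FirstOrder
open Pool.Agent.WOM (tp Mon IsEl IsoM Fam)

section bde

variable {L : FirstOrder.Language.{0, 0}} {U : Type} [L.Structure U] {β : Type} [Finite β]

/-- the set defined by `δ(y, w)` -/
private def dw {n : ℕ} (δ : L.Formula (β ⊕ Fin n)) (w : Fin n → U) : Set (β → U) :=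
  {y | δ.Realize (Sum.elim y w)}

/-- the formula `∃ y ¬ (δ(y, x_i) ↔ δ(y, x_l))` -/
private noncomputable def nf {n k : ℕ} (δ : L.Formula (β ⊕ Fin n)) (i l : Fin k) :
    L.Formula ((Fin k × Fin n) ⊕ Empty) :=
  (((δ.relabel (Sum.elim (fun b => Sum.inr b) (fun m => Sum.inl (Sum.inl (i, m)))) :
      L.Formula (((Fin k × Fin n) ⊕ Empty) ⊕ β)).iff
    (δ.relabel (Sum.elim (fun b => Sum.inr b) (fun m => Sum.inl (Sum.inl (l, m)))))).not).iExs β

private lemma real_nf {n k : ℕ} (δ : L.Formula (β ⊕ Fin n)) (i l : Fin k)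
    (x : Fin k × Fin n → U) (e : Empty → U) :
    (nf δ i l).Realize (Sum.elim x e) ↔
      dw δ (fun m => x (i, m)) ≠ dw δ (fun m => x (l, m)) := by
  unfold nf
  rw [FirstOrder.Language.Formula.realize_iExs]
  have h : ∀ (y : β → U) (i : Fin k),
      (δ.relabel (Sum.elim (fun b => Sum.inr b) (fun m => Sum.inl (Sum.inl (i, m)))) :
      L.Formula (((Fin k × Fin n) ⊕ Empty) ⊕ β)).Realize (Sum.elim (Sum.elim x e) y) ↔
      y ∈ dw δ (fun m => x (i, m)) := by
    intro y i
    rw [FirstOrder.Language.Formula.realize_relabel]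
    have h1 : (Sum.elim (Sum.elim x e) y : ((Fin k × Fin n) ⊕ Empty) ⊕ β → U) ∘
        (Sum.elim (fun b => Sum.inr b) (fun m => Sum.inl (Sum.inl (i, m)))) =
        Sum.elim y (fun m => x (i, m)) := by
      funext z
      rcases z with z | z <;> rfl
    rw [h1]
    rfl
  have h2 : ∀ y : β → U, ((((δ.relabel (Sum.elim (fun b => Sum.inr b)
      (fun m => Sum.inl (Sum.inl (i, m)))) : L.Formula (((Fin k × Fin n) ⊕ Empty) ⊕ β)).iff
      (δ.relabel (Sum.elim (fun b => Sum.inr b)
        (fun m => Sum.inl (Sum.inl (l, m)))))).not).Realize (Sum.elim (Sum.elim x e) y)) ↔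
      ¬ (y ∈ dw δ (fun m => x (i, m)) ↔ y ∈ dw δ (fun m => x (l, m))) := by
    intro y
    rw [FirstOrder.Language.Formula.realize_not, FirstOrder.Language.Formula.realize_iff, h, h]
  constructor
  · rintro ⟨y, hy⟩ he
    rw [h2] at hy
    exact hy (by rw [he])
  · intro hne
    by_contra hcon
    push Not at hcon
    apply hne
    ext y
    have h3 := hcon y
    rw [h2, not_not] at h3
    exact h3

/-- The definition schemes of a bounded type are invariant under finite equivalence relations. -/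
theorem thm_BDE (hDEF : St_DEF) (hSAU : St_SAU) : St_BDE := by
  classical
  intro L U _ hCU α β _ _ p hp φ
  obtain ⟨hsat, hhom⟩ := hSAU L U hCU.mon
  obtain ⟨n, δ, c, hD⟩ := hDEF L U hCU.stb α β p hp.ty (rs U φ) (Dfp.rs φ)
  have hDc : fib p (rs U φ) = dw δ c := by
    ext v
    exact hD v
  have hact : ∀ g : U ≃[L] U, act g (fib p (rs U φ)) = dw δ (fun m => g (c m)) := by
    intro g
    rw [hDc]
    exact act_of g δ c
  obtain ⟨S, hS⟩ : ∃ S : Set (Set (β → U)), S = {D | ∃ g : U ≃[L] U,
    D = act g (fib p (rs U φ))} := ⟨_, rfl⟩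
  have hSf : S.Finite := by
    rw [hS]
    exact hp.fin β φ
  -- the claim
  obtain ⟨ρ, hρ, hfin⟩ : ∃ ρ : L.Formula (Fin n), ρ.Realize c ∧
      {D : Set (β → U) | ∃ w : Fin n → U, ρ.Realize w ∧ D = dw δ w}.Finite := by
    by_contra hcon
    push Not at hcon
    obtain ⟨k, hk⟩ : ∃ k, k = S.ncard + 1 := ⟨_, rfl⟩
    obtain ⟨F, hF⟩ : ∃ F : Set (L.Formula ((Fin k × Fin n) ⊕ Empty)), F =
      {ψ | ∃ (ρ : L.Formula (Fin n)) (i : Fin k), ρ.Realize c ∧
        ψ = ρ.relabel (fun m => Sum.inl (i, m))} ∪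
      {ψ | ∃ i l : Fin k, i ≠ l ∧ ψ = nf δ i l} := ⟨_, rfl⟩
    have hreal : ∀ (ρ : L.Formula (Fin n)) (i : Fin k) (x : Fin k × Fin n → U) (e : Empty → U),
        (ρ.relabel (fun m => Sum.inl (i, m)) : L.Formula ((Fin k × Fin n) ⊕ Empty)).Realize
          (Sum.elim x e) ↔ ρ.Realize (fun m => x (i, m)) := by
      intro ρ i x e
      rw [FirstOrder.Language.Formula.realize_relabel]
      rfl
    obtain ⟨x, hx⟩ := hsat (Fin k × Fin n) Empty Empty.elim F (by
      intro G hG hGf
      have hGfin : Finite G := hGf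
      -- the conjunction
      let r : G → L.Formula (Fin n) := fun ψ =>
        if h : ∃ (ρ : L.Formula (Fin n)) (i : Fin k), ρ.Realize c ∧
          (ψ : L.Formula ((Fin k × Fin n) ⊕ Empty)) = ρ.relabel (fun m => Sum.inl (i, m))
        then h.choose else ⊤
      have hr : ∀ ψ, (r ψ).Realize c := by
        intro ψ
        by_cases h : ∃ (ρ : L.Formula (Fin n)) (i : Fin k), ρ.Realize c ∧
          (ψ : L.Formula ((Fin k × Fin n) ⊕ Empty)) = ρ.relabel (fun m => Sum.inl (i, m))
        · have h1 : r ψ = h.choose := dif_pos h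
          rw [h1]
          obtain ⟨i, h2, -⟩ := h.choose_spec
          exact h2
        · have h1 : r ψ = ⊤ := dif_neg h
          rw [h1]
          simp
      have hrc : (FirstOrder.Language.Formula.iInf r).Realize c := by
        rw [FirstOrder.Language.Formula.realize_iInf]
        exact hr
      have hinf := hcon _ hrc
      obtain ⟨t, ht, htk⟩ := Set.Infinite.exists_subset_card_eq hinf k
      let eq := t.equivFinOfCardEq htk
      have hw : ∀ i : Fin k, ∃ w : Fin n → U, (FirstOrder.Language.Formula.iInf r).Realize w ∧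
          ((eq.symm i : t) : Set (β → U)) = dw δ w := fun i => ht (eq.symm i).2
      choose w hw1 hw2 using hw
      refine ⟨fun q => w q.1 q.2, fun ψ hψ => ?_⟩
      by_cases h : ∃ (ρ : L.Formula (Fin n)) (i : Fin k), ρ.Realize c ∧
          ψ = ρ.relabel (fun m => Sum.inl (i, m))
      · have h1 : r ⟨ψ, hψ⟩ = h.choose := dif_pos h
        obtain ⟨i, -, h3⟩ := h.choose_spec
        rw [h3, hreal, ← h1]
        have h4 := hw1 i
        rw [FirstOrder.Language.Formula.realize_iInf] at h4
        exact h4 ⟨ψ, hψ⟩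
      · have h5 := hG hψ
        rw [hF] at h5
        rcases h5 with h5 | ⟨i, l, hil, h5⟩
        · exact absurd h5 h
        · rw [h5, real_nf]
          intro h6
          have h7 : dw δ (w i) = dw δ (w l) := h6
          rw [← hw2, ← hw2] at h7
          exact hil (eq.symm.injective (Subtype.ext h7)))
    -- the conjugates
    have hconj : ∀ i : Fin k, dw δ (fun m => x (i, m)) ∈ S := by
      intro i
      obtain ⟨g, hg⟩ := hhom (Fin n) c (fun m => x (i, m)) (by
        intro ρ
        have h1 : ∀ ρ : L.Formula (Fin n), ρ.Realize c → ρ.Realize (fun m => x (i, m)) := by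
          intro ρ hρ
          have h2 := hx (ρ.relabel (fun m => Sum.inl (i, m))) (by
            rw [hF]
            exact Or.inl ⟨ρ, i, hρ, rfl⟩)
          rwa [hreal] at h2
        refine ⟨h1 ρ, fun h2 => ?_⟩
        by_contra h3
        have h4 := h1 ρ.not (by rw [FirstOrder.Language.Formula.realize_not]; exact h3)
        rw [FirstOrder.Language.Formula.realize_not] at h4
        exact h4 h2)
      rw [hS]
      refine ⟨g, ?_⟩
      rw [hact]
      congr 1
      funext m
      exact (hg m).symm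
    have hinj : Function.Injective fun i : Fin k => dw δ (fun m => x (i, m)) := by
      intro i l h
      by_contra hne
      have h1 := hx (nf δ i l) (by
        rw [hF]
        exact Or.inr ⟨i, l, hne, rfl⟩)
      rw [real_nf] at h1
      exact h1 h
    have hcard : (Set.range fun i : Fin k => dw δ (fun m => x (i, m))).ncard = k := by
      rw [← Set.image_univ, Set.ncard_image_of_injective _ hinj, Set.ncard_univ,
        Nat.card_eq_fintype_card, Fintype.card_fin]
    have hle : (Set.range fun i : Fin k => dw δ (fun m => x (i, m))).ncard ≤ S.ncard := by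
      refine Set.ncard_le_ncard ?_ hSf
      rintro _ ⟨i, rfl⟩
      exact hconj i
    omega
  -- the equivalence relation
  obtain ⟨E, hE⟩ : ∃ E : L.Formula (β ⊕ β), ∀ y y' : β → U, er E y y' ↔
      ∀ w : Fin n → U, ρ.Realize w → (y ∈ dw δ w ↔ y' ∈ dw δ w) := by
    refine ⟨((ρ.relabel (fun m => Sum.inr m) : L.Formula ((β ⊕ β) ⊕ Fin n)).imp
      ((δ.relabel (Sum.elim (fun b => Sum.inl (Sum.inl b)) (fun m => Sum.inr m)) :
        L.Formula ((β ⊕ β) ⊕ Fin n)).iff
        (δ.relabel (Sum.elim (fun b => Sum.inl (Sum.inr b))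
          (fun m => Sum.inr m))))).iAlls (Fin n), fun y y' => ?_⟩
    unfold er
    rw [FirstOrder.Language.Formula.realize_iAlls]
    refine forall_congr' fun w => ?_
    rw [FirstOrder.Language.Formula.realize_imp, FirstOrder.Language.Formula.realize_iff,
      FirstOrder.Language.Formula.realize_relabel, FirstOrder.Language.Formula.realize_relabel,
      FirstOrder.Language.Formula.realize_relabel]
    have h1 : (Sum.elim (Sum.elim y y') w : (β ⊕ β) ⊕ Fin n → U) ∘
        (Sum.elim (fun b => Sum.inl (Sum.inl b)) (fun m => Sum.inr m)) = Sum.elim y w := by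
      funext z
      rcases z with z | z <;> rfl
    have h2 : (Sum.elim (Sum.elim y y') w : (β ⊕ β) ⊕ Fin n → U) ∘
        (Sum.elim (fun b => Sum.inl (Sum.inr b)) (fun m => Sum.inr m)) = Sum.elim y' w := by
      funext z
      rcases z with z | z <;> rfl
    rw [h1, h2]
    rfl
  refine ⟨E, ⟨fun x => ?_, fun x y h => ?_, fun x y z h h' => ?_, ?_⟩, fun y y' h => ?_⟩
  · rw [hE]
    exact fun w _ => Iff.rfl
  · rw [hE] at h ⊢
    exact fun w hw => (h w hw).symm
  · rw [hE] at h h' ⊢
    exact fun w hw => (h w hw).trans (h' w hw)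
  · obtain ⟨T, hT⟩ : ∃ T : Set (Set (β → U)), T = {D : Set (β → U) | ∃ w : Fin n → U,
      ρ.Realize w ∧ D = dw δ w} := ⟨_, rfl⟩
    let f : (β → U) → Set (Set (β → U)) := fun y => {D | D ∈ T ∧ y ∈ D}
    have hrf : (Set.range f).Finite := by
      have hTf : T.Finite := by
        rw [hT]
        exact hfin
      refine Set.Finite.subset hTf.finite_subsets ?_
      rintro _ ⟨y, rfl⟩
      exact fun D hD => hD.1
    have hrF : Finite (Set.range f) := hrf
    have hsec : ∀ q : Set.range f, ∃ y, f y = q := fun q => q.2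
    choose s hs using hsec
    refine ⟨Set.range s, Set.finite_range s, fun x => ⟨s ⟨f x, ⟨x, rfl⟩⟩, ⟨_, rfl⟩, ?_⟩⟩
    rw [hE]
    intro w hw
    have h1 : f (s ⟨f x, ⟨x, rfl⟩⟩) = f x := hs ⟨f x, ⟨x, rfl⟩⟩
    have h2 : dw δ w ∈ T := by
      rw [hT]
      exact ⟨w, hw, rfl⟩
    have h3 : ∀ z : β → U, z ∈ dw δ w ↔ dw δ w ∈ f z := fun z =>
      ⟨fun h => ⟨h2, h⟩, fun h => h.2⟩
    rw [h3, h3, h1]
  · rw [hDc]
    exact (hE y y').1 h c hρ

end bde

end Pool.Agent.MST
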