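import Pool.Agent.MST.StA

/-!
MST: BDX, bounded types exist (helper6).
-/

set_option autoImplicit false

namespace Pool.Agent.MST

open FirstOrder.Language Set
open scoped FirstOrder
open Pool.Agent.WOM (tp Mon IsEl IsoM Fam)

section BDX

variable {L : FirstOrder.Language.{0, 0}} {M : Type} [L.Structure M] {α β : Type}

/-- image of an ultrafilter under an automorphism -/
private noncomputable def BDX_mp (g : M ≃[L] M) (D : Ultrafilter (α → M)) :
    Ultrafilter (α → M) := D.map fun v i => g (v i)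

private theorem BDX_mem (g : M ≃[L] M) (D : Ultrafilter (α → M)) (s : Set (α → M)) :
    s ∈ BDX_mp g D ↔ {v : α → M | (fun i => g (v i)) ∈ s} ∈ D := Iff.rfl

private theorem BDX_comp (g h : M ≃[L] M) (D : Ultrafilter (α → M)) :
    BDX_mp g (BDX_mp h D) = BDX_mp (g.comp h) D := by
  ext s
  rfl

private theorem BDX_one (D : Ultrafilter (α → M)) :
    BDX_mp (FirstOrder.Language.Equiv.refl L M) D = D := by
  ext s
  rfl

private theorem BDX_cont (g : M ≃[L] M) :
    Continuous (BDX_mp g : Ultrafilter (α → M) → Ultrafilter (α → M)) :=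
  ultrafilterBasis_is_basis.continuous_iff.2 <| Set.forall_mem_range.mpr fun s =>
    ultrafilter_isOpen_basic {v : α → M | (fun i => g (v i)) ∈ s}

/-- the trace of an ultrafilter -/
private def BDX_Tr (φ : L.Formula (α ⊕ β)) (D : Ultrafilter (α → M)) : Set (β → M) :=
  {b | {a : α → M | φ.Realize (Sum.elim a b)} ∈ D}

private theorem BDX_Tr_mp (φ : L.Formula (α ⊕ β)) (g : M ≃[L] M) (D : Ultrafilter (α → M)) :
    BDX_Tr φ (BDX_mp g D) = act g (BDX_Tr φ D) := by
  ext b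
  have h : {v : α → M | φ.Realize (Sum.elim (fun i => g (v i)) b)} =
      {a : α → M | φ.Realize (Sum.elim a (fun i => g.symm (b i)))} := by
    ext v
    rw [mem_ofPred_eq, mem_ofPred_eq,
      ← realize_aut g φ (Sum.elim v (fun i => g.symm (b i)))]
    have h1 : (fun i => g ((Sum.elim v (fun i => g.symm (b i)) : α ⊕ β → M) i)) =
        Sum.elim (fun i => g (v i)) b := by
      funext x
      rcases x with x | x
      · rfl
      · exact g.apply_symm_apply (b x)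
    rw [h1]
  show {v : α → M | φ.Realize (Sum.elim (fun i => g (v i)) b)} ∈ D ↔
    {a : α → M | φ.Realize (Sum.elim a (fun i => g.symm (b i)))} ∈ D
  rw [h]

/-- the type of an ultrafilter -/
private def BDX_ty (L : FirstOrder.Language.{0, 0}) {M : Type} [L.Structure M] {α : Type}
    (D : Ultrafilter (α → M)) : Set (Set (α → M)) := {s | Dfp L s ∧ s ∈ D}

private theorem BDX_isTy (D : Ultrafilter (α → M)) : IsTy L (BDX_ty L D) where
  dfn _ hs := hs.1
  ne h := D.neBot'.ne (Filter.empty_mem_iff_bot.1 h.2)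
  inter _ hs _ ht := ⟨hs.1.inter ht.1, Filter.inter_mem hs.2 ht.2⟩
  em s hs := (D.mem_or_compl_mem s).imp (fun h => ⟨hs, h⟩) fun h => ⟨hs.compl, h⟩

private theorem BDX_fib [Finite β] (D : Ultrafilter (α → M)) (φ : L.Formula (α ⊕ β)) :
    fib (BDX_ty L D) (rs M φ) = BDX_Tr φ D := by
  ext b
  constructor
  · intro h
    exact h.2
  · intro h
    exact ⟨Dfp.of φ b, h⟩

/-- a minimal closed invariant set -/
private theorem BDX_min (c : α → M) : ∃ Y : Set (Ultrafilter (α → M)), IsClosed Y ∧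
    Y.Nonempty ∧ (∀ g : M ≃[L] M, ∀ D ∈ Y, BDX_mp g D ∈ Y) ∧
    (∀ D ∈ Y, ∀ φ : L.Formula α, φ.Realize c → rs M φ ∈ D) ∧
    ∀ Z : Set (Ultrafilter (α → M)), Z ⊆ Y → IsClosed Z → Z.Nonempty →
      (∀ g : M ≃[L] M, ∀ D ∈ Z, BDX_mp g D ∈ Z) → Z = Y := by
  obtain ⟨X, hX⟩ : ∃ X : Set (Ultrafilter (α → M)),
      X = {D | ∀ φ : L.Formula α, φ.Realize c → rs M φ ∈ D} := ⟨_, rfl⟩
  obtain ⟨S, hS⟩ : ∃ S : Set (Set (Ultrafilter (α → M))), S = {Y | IsClosed Y ∧ Y.Nonempty ∧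
      (∀ g : M ≃[L] M, ∀ D ∈ Y, BDX_mp g D ∈ Y) ∧ Y ⊆ X} := ⟨_, rfl⟩
  have hXS : X ∈ S := by
    rw [hS]
    refine ⟨?_, ⟨pure c, ?_⟩, ?_, subset_rfl⟩
    · rw [hX]
      have h : {D : Ultrafilter (α → M) | ∀ φ : L.Formula α, φ.Realize c → rs M φ ∈ D} =
          ⋂ φ : {φ : L.Formula α // φ.Realize c}, {D | rs M φ.1 ∈ D} := by
        ext D
        simp
      rw [h]
      exact isClosed_iInter fun φ => ultrafilter_isClosed_basic _
    · rw [hX]
      intro φ hφ
      exact hφ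
    · intro g D hD
      rw [hX] at hD ⊢
      intro φ hφ
      rw [BDX_mem]
      have h : {v : α → M | (fun i => g (v i)) ∈ rs M φ} = rs M φ := by
        ext v
        exact realize_aut g φ v
      rw [h]
      exact hD φ hφ
  have hz : ∀ C ⊆ S, IsChain (· ⊆ ·) C → C.Nonempty → ∃ lb ∈ S, ∀ s ∈ C, lb ⊆ s := by
    intro C hC hch hne
    have hC' : ∀ Y ∈ C, IsClosed Y ∧ Y.Nonempty ∧
        (∀ g : M ≃[L] M, ∀ D ∈ Y, BDX_mp g D ∈ Y) ∧ Y ⊆ X := by
      intro Y hY
      have := hC hY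
      rw [hS] at this
      exact this
    refine ⟨⋂₀ C, ?_, fun s hs => sInter_subset_of_mem hs⟩
    rw [hS]
    refine ⟨isClosed_sInter fun Y hY => (hC' Y hY).1, ?_, ?_, ?_⟩
    · have : Nonempty C := hne.to_subtype
      refine IsCompact.nonempty_sInter_of_directed_nonempty_isCompact_isClosed
        ?_ (fun Y hY => (hC' Y hY).2.1) (fun Y hY => (hC' Y hY).1.isCompact)
        fun Y hY => (hC' Y hY).1
      intro a ha b hb
      rcases hch.total ha hb with h | h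
      · exact ⟨a, ha, subset_rfl, h⟩
      · exact ⟨b, hb, h, subset_rfl⟩
    · intro g D hD Y hY
      exact (hC' Y hY).2.2.1 g D (hD Y hY)
    · obtain ⟨Y, hY⟩ := hne
      exact (sInter_subset_of_mem hY).trans (hC' Y hY).2.2.2
  obtain ⟨Y, -, hY⟩ := zorn_superset_nonempty S hz X hXS
  have h1 := hY.1
  rw [hS] at h1
  refine ⟨Y, h1.1, h1.2.1, h1.2.2.1, fun D hD => ?_, fun Z hZ hZc hZn hZi => ?_⟩
  · have h2 := h1.2.2.2 hD
    rw [hX] at h2
    exact h2
  · refine subset_antisymm hZ (hY.2 ?_ hZ)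
    rw [hS]
    exact ⟨hZc, hZn, hZi, hZ.trans h1.2.2.2⟩

/-- finitely many traces -/
private theorem BDX_fin (hCTD : St_CTD) (hDEF : St_DEF) (hct : Countable L.Symbols)
    [Countable M] (hst : Stb L M) [Finite α] [Finite β] (Y : Set (Ultrafilter (α → M)))
    (hYc : IsClosed Y) (hYn : Y.Nonempty) (hYi : ∀ g : M ≃[L] M, ∀ D ∈ Y, BDX_mp g D ∈ Y)
    (hmin : ∀ Z : Set (Ultrafilter (α → M)), Z ⊆ Y → IsClosed Z → Z.Nonempty →
      (∀ g : M ≃[L] M, ∀ D ∈ Z, BDX_mp g D ∈ Z) → Z = Y) (φ : L.Formula (α ⊕ β)) :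
    {T : Set (β → M) | ∃ D ∈ Y, T = BDX_Tr φ D}.Finite := by
  have hdef : ∀ D : Ultrafilter (α → M), Dfp L (BDX_Tr φ D) := by
    intro D
    rw [← BDX_fib]
    exact hDEF L M hst α β _ (BDX_isTy D) _ (Dfp.rs φ)
  have : Countable {T : Set (β → M) // Dfp L T} := (hCTD L hct).2 M β
  have : Nonempty Y := hYn.to_subtype
  have : CompactSpace Y := isCompact_iff_compactSpace.1 hYc.isCompact
  obtain ⟨T, D₀, hD₀⟩ := nonempty_interior_of_iUnion_of_closed
    (f := fun T : {T : Set (β → M) // Dfp L T} => {D : Y | BDX_Tr φ D.1 = T.1})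
    (fun T => by
      have h : {D : Y | BDX_Tr φ D.1 = T.1} = ⋂ b : β → M, {D : Y |
          {a : α → M | φ.Realize (Sum.elim a b)} ∈ D.1 ↔ b ∈ T.1} := by
        ext D
        rw [mem_iInter]
        exact Set.ext_iff
      rw [h]
      refine isClosed_iInter fun b => ?_
      by_cases hb : b ∈ T.1
      · simp only [hb, iff_true]
        exact (ultrafilter_isClosed_basic _).preimage continuous_subtype_val
      · simp only [hb, iff_false]
        exact (isOpen_compl_iff.1 (by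
          have h1 : ({D : Y | {a : α → M | φ.Realize (Sum.elim a b)} ∉ D.1} : Set Y)ᶜ =
              {D : Y | {a : α → M | φ.Realize (Sum.elim a b)} ∈ D.1} := by
            ext D
            simp
          rw [h1]
          exact (ultrafilter_isOpen_basic _).preimage continuous_subtype_val)))
    (by
      rw [eq_univ_iff_forall]
      intro D
      rw [mem_iUnion]
      exact ⟨⟨_, hdef D.1⟩, rfl⟩)
  obtain ⟨W, hW, hWT⟩ := isOpen_induced_iff.1
    (isOpen_interior (s := {D : Y | BDX_Tr φ D.1 = T.1}))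
  have hW0 : D₀.1 ∈ W := by
    have h : D₀ ∈ Subtype.val ⁻¹' W := by
      rw [hWT]
      exact hD₀
    exact h
  have hWY : ∀ D ∈ Y, D ∈ W → BDX_Tr φ D = T.1 := by
    intro D hD hDW
    have h : (⟨D, hD⟩ : Y) ∈ Subtype.val ⁻¹' W := hDW
    rw [hWT] at h
    have h2 := interior_subset h
    exact h2
  have hcov : ∀ D ∈ Y, ∃ g : M ≃[L] M, BDX_mp g D ∈ W := by
    by_contra hcon
    push Not at hcon
    obtain ⟨D, hD, hD'⟩ := hcon
    have h1 := hmin {D ∈ Y | ∀ g : M ≃[L] M, BDX_mp g D ∉ W} (sep_subset _ _) (by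
      have h : {D ∈ Y | ∀ g : M ≃[L] M, BDX_mp g D ∉ W} =
          Y ∩ ⋂ g : M ≃[L] M, (BDX_mp g ⁻¹' W)ᶜ := by
        ext D
        simp
      rw [h]
      exact hYc.inter (isClosed_iInter fun g =>
        ((hW.preimage (BDX_cont g)).isClosed_compl))) ⟨D, hD, hD'⟩
      (fun g D hD => ⟨hYi g D hD.1, fun h => by
        rw [BDX_comp]
        exact hD.2 _⟩)
    have h2 : D₀.1 ∈ {D ∈ Y | ∀ g : M ≃[L] M, BDX_mp g D ∉ W} := by
      rw [h1]
      exact D₀.2
    refine h2.2 (FirstOrder.Language.Equiv.refl L M) ?_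
    rw [BDX_one]
    exact hW0
  obtain ⟨G, hG⟩ := hYc.isCompact.elim_finite_subcover
    (fun g : M ≃[L] M => BDX_mp g ⁻¹' W) (fun g => hW.preimage (BDX_cont g))
    (fun D hD => by
      obtain ⟨g, hg⟩ := hcov D hD
      exact mem_iUnion.2 ⟨g, hg⟩)
  refine (G.finite_toSet.image fun g : M ≃[L] M => act g.symm T.1).subset ?_
  rintro _ ⟨D, hD, rfl⟩
  obtain ⟨g, hg, hgD⟩ := mem_iUnion₂.1 (hG hD)
  refine ⟨g, hg, ?_⟩
  have h1 := hWY _ (hYi g D hD) hgD
  rw [BDX_Tr_mp] at h1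
  show act g.symm T.1 = BDX_Tr φ D
  rw [← h1, act_symm_act]

end BDX

theorem thm_BDX (hCTD : St_CTD) (hDEF : St_DEF) : St_BDX := by
  intro L U _ hU α _ c
  have := hU.mon.ctb
  obtain ⟨Y, hYc, hYn, hYi, hYX, hmin⟩ := BDX_min (L := L) c
  obtain ⟨D, hD⟩ := id hYn
  refine ⟨BDX_ty L D, ⟨BDX_isTy D, fun β _ φ => ?_⟩, fun φ hφ => ⟨Dfp.rs φ, hYX D hD φ hφ⟩⟩
  refine (BDX_fin hCTD hDEF hU.ctL hU.stb Y hYc hYn hYi hmin φ).subset ?_
  rintro _ ⟨g, rfl⟩
  refine ⟨BDX_mp g D, hYi g D hD, ?_⟩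
  rw [BDX_fib, BDX_Tr_mp]

end Pool.Agent.MST
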