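import Pool.Agent.MST.StC

/-!
MST: abstract counting (CNA).
-/

set_option autoImplicit false

namespace Pool.Agent.MST

open Set

theorem thm_CNA : St_CNA := by
  intro X Y 𝔐 T r μ hne hr hμ h1 h2
  have hcE : Countable ℕ∞ := inferInstanceAs (Countable (Option ℕ))
  let s : Setoid Y := ⟨r, hr⟩
  have hexact : ∀ a b : Y, (Quotient.mk s a) = Quotient.mk s b → r a b := fun a b h =>
    Quotient.exact h
  obtain ⟨m, hm⟩ : ∃ m : X → Quotient s → ℕ∞, ∀ M K, m M (Quotient.mk s K) = μ M K :=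
    ⟨fun M => Quotient.lift (μ M) fun a b h => hμ M a b h, fun _ _ => rfl⟩
  -- the classes with finite values
  have hfin : ∀ M ∈ 𝔐, ((Quotient.mk s) '' {K | K ∈ T ∧ μ M K ≠ ⊤}).Finite := by
    intro M hM
    by_contra hinf
    apply h1 M hM
    have e := Set.Infinite.natEmbedding _ hinf
    choose K hK1 hK2 using fun n => (e n).2
    refine ⟨K, hK1, fun a b hab h => hab ?_⟩
    have h3 : Quotient.mk s (K a) = Quotient.mk s (K b) := Quotient.sound h
    rw [hK2, hK2] at h3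
    exact e.injective (Subtype.ext h3)
  have hcount : ((Quotient.mk s) '' T).Countable := by
    obtain ⟨M0, hM0⟩ := hne
    obtain ⟨k, hk⟩ := h2 M0 hM0
    refine ((hfin M0 hM0).countable.union
      (Set.countable_range fun n => Quotient.mk s (k n))).mono ?_
    rintro _ ⟨K, hK, rfl⟩
    by_cases h3 : μ M0 K = ⊤
    · right
      obtain ⟨n, hn⟩ := hk K hK (by
        rw [h3]
        exact ENat.top_ne_zero)
      exact ⟨n, (Quotient.sound hn).symm⟩
    · left
      exact ⟨K, ⟨hK, h3⟩, rfl⟩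
  obtain ⟨G, hG⟩ : ∃ G : X → Set (Quotient s × ℕ∞), ∀ M, G M = (fun q => (q, m M q)) ''
      ((Quotient.mk s) '' {K | K ∈ T ∧ μ M K ≠ ⊤}) := ⟨_, fun _ => rfl⟩
  have hGc : (G '' 𝔐).Countable := by
    refine (Set.countable_setOf_finite_subset
      (hcount.prod (Set.countable_univ (α := ℕ∞)))).mono ?_
    rintro _ ⟨M, hM, rfl⟩
    refine ⟨?_, ?_⟩
    · rw [hG]
      exact (hfin M hM).image _
    · rw [hG]
      rintro _ ⟨_, ⟨K, hK, rfl⟩, rfl⟩
      exact ⟨⟨K, hK.1, rfl⟩, mem_univ _⟩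
  obtain ⟨f, hf⟩ := hGc.exists_eq_range (hne.image G)
  have hfn : ∀ n, f n ∈ G '' 𝔐 := fun n => by
    rw [hf]
    exact mem_range_self n
  choose g hg1 hg2 using hfn
  have hmem : ∀ M K, K ∈ T → ((Quotient.mk s K, μ M K) ∈ G M ↔ μ M K ≠ ⊤) := by
    intro M K hK
    rw [hG]
    constructor
    · rintro ⟨_, ⟨K', hK', rfl⟩, h3⟩
      have h4 := congrArg Prod.snd h3
      have h5 : m M (Quotient.mk s K') = μ M K := h4
      rw [hm] at h5
      rw [← h5]
      exact hK'.2
    · intro h3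
      exact ⟨_, ⟨K, ⟨hK, h3⟩, rfl⟩, by
        show (Quotient.mk s K, m M (Quotient.mk s K)) = _
        rw [hm]⟩
  have hval : ∀ M K v, (Quotient.mk s K, v) ∈ G M → v = μ M K := by
    intro M K v hv
    rw [hG] at hv
    obtain ⟨_, ⟨K', hK', rfl⟩, h3⟩ := hv
    have h4 : Quotient.mk s K' = Quotient.mk s K := congrArg Prod.fst h3
    have h5 : m M (Quotient.mk s K') = v := congrArg Prod.snd h3
    rw [h4, hm] at h5
    exact h5.symm
  refine ⟨g, hg1, fun M hM => ?_⟩
  have h3 : G M ∈ range f := by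
    rw [← hf]
    exact ⟨M, hM, rfl⟩
  obtain ⟨n, hn⟩ := h3
  refine ⟨n, fun K hK => ?_⟩
  have h4 : G M = G (g n) := by rw [hg2, hn]
  by_cases h5 : μ M K = ⊤
  · by_cases h6 : μ (g n) K = ⊤
    · rw [h5, h6]
    · have h7 := (hmem (g n) K hK).2 h6
      rw [← h4] at h7
      exact (hval M K _ h7).symm
  · have h7 := (hmem M K hK).2 h5
    rw [h4] at h7
    exact hval (g n) K _ h7

end Pool.Agent.MST
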