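import Pool.Agent.MST.StC

/-!
MST, module CNB: almost all multiplicities are infinite.
-/

set_option autoImplicit false

namespace Pool.Agent.MST

open FirstOrder.Language Set
open scoped FirstOrder
open Pool.Agent.WOM (tp Mon IsEl IsoM Fam CtT PerfT ThS)

private theorem CNB_mul (hA : St_APQ) {L : FirstOrder.Language.{0, 0}} {U V : Type}
    [L.Structure U] [L.Structure V] (j : U ↪ₑ[L] V) (hC : Cx L U V) (M : Set V) {K K' : Set V}
    (h : App L K K') : mul j M K = mul j M K' := by
  obtain ⟨-, hs, ht, -⟩ := hA L U V j hC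
  unfold mul
  congr 1
  ext X
  simp only [mem_ofPred_eq]
  exact ⟨fun h1 => ⟨h1.1, ht _ _ _ (hs _ _ h) h1.2⟩, fun h1 => ⟨h1.1, ht _ _ _ h h1.2⟩⟩

/-- [CNB] -/
theorem thm_CNB (hA : St_APQ) (hJ : St_ADJ) (hK : St_ADK) (hM : St_MLA) : St_CNB := by
  intro L U V _ _ j hC hU hyp M hCM
  rintro ⟨K, hK1, hK2⟩
  obtain ⟨hr, hs, ht, hp⟩ := hA L U V j hC
  -- the two cases
  have key : ∀ e : ℕ → ℕ, Function.Injective e →
      ((∀ n, mul j M (K (e n)) ≠ 0) ∨ ∀ n, mul j M (K (e n)) = 0) → False := by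
    rintro e he (h0 | h0)
    · have h1 : ∀ n, ∃ K'' ∈ At j M, App L (K (e n)) K'' := by
        intro n
        have h2 := h0 n
        unfold mul at h2
        rw [encard_ne_zero] at h2
        obtain ⟨K'', h3, h4⟩ := h2
        exact ⟨K'', h3, h4⟩
      choose K'' h2 h3 using h1
      refine hyp M hCM ⟨K'', fun n => ⟨h2 n, ?_, ?_⟩, fun m n hmn h4 => ?_⟩
      · obtain ⟨⟨N, -, -, h4⟩, -⟩ := hK1 (e n)
        exact (hp _ _ (h3 n)).2.1 h4
      · rw [← CNB_mul hA j hC M (h3 n)]
        exact (hK1 (e n)).2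
      · exact hK2 (e m) (e n) (fun h5 => hmn (he h5))
          (ht _ _ _ (ht _ _ _ (h3 m) h4) (hs _ _ (h3 n)))
    · obtain ⟨K', g1, g2, g3⟩ := hJ L U V j hC hU M hCM (fun n => K (e n)) fun n => (hK1 (e n)).1
      have g4 : ∀ n, Idc j (K' n) := by
        intro n
        obtain ⟨⟨N, -, h4, -⟩, -⟩ := hK1 (e n)
        exact (hp _ _ (g1 n)).1 h4.2.2
      have g5 : ∀ n, NTr j (K' n) := by
        intro n
        obtain ⟨⟨N, -, -, h4⟩, -⟩ := hK1 (e n)
        exact (hp _ _ (g1 n)).2.1 h4
      obtain ⟨-, -, g6⟩ := hK L U V j hC M K' g2 g4 g5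
      have g7 : ∀ m n, App L (K (e n)) (K' m) → n = m := by
        intro m n h4
        by_contra hne
        exact hK2 (e n) (e m) (fun h5 => hne (he h5)) (ht _ _ _ h4 (hs _ _ (g1 m)))
      refine hyp _ (g3 Set.univ) ⟨K', fun n => ⟨?_, g5 n, ?_⟩, fun m n hmn h4 => ?_⟩
      · rw [g6 Set.univ]
        exact Or.inr ⟨n, mem_univ n, rfl⟩
      · rw [← CNB_mul hA j hC _ (g1 n), hM L U V j hC M K' g2 g4 g5 Set.univ, h0 n, zero_add]
        have g8 : {m ∈ (Set.univ : Set ℕ) | App L (K (e n)) (K' m)} = {n} := by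
          ext m
          simp only [mem_ofPred_eq, mem_univ, true_and, mem_singleton_iff]
          constructor
          · intro h5
            exact (g7 m n h5).symm
          · rintro rfl
            exact g1 m
        rw [g8, encard_singleton]
        exact ENat.one_ne_top
      · exact hmn (g7 n m (ht _ _ _ (g1 m) h4))
  by_cases hS : {n | mul j M (K n) ≠ 0}.Infinite
  · have := hS.to_subtype
    exact key (fun n => (Infinite.natEmbedding {n | mul j M (K n) ≠ 0} n : ℕ))
      (Subtype.val_injective.comp (Infinite.natEmbedding _).injective)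
      (Or.inl fun n => (Infinite.natEmbedding {n | mul j M (K n) ≠ 0} n).2)
  · rw [not_infinite] at hS
    have hS' : {n | mul j M (K n) = 0}.Infinite := by
      have h1 := hS.infinite_compl
      have h2 : {n | mul j M (K n) ≠ 0}ᶜ = {n | mul j M (K n) = 0} := by
        ext n
        simp
      rwa [h2] at h1
    have := hS'.to_subtype
    exact key (fun n => (Infinite.natEmbedding {n | mul j M (K n) = 0} n : ℕ))
      (Subtype.val_injective.comp (Infinite.natEmbedding _).injective)
      (Or.inr fun n => (Infinite.natEmbedding {n | mul j M (K n) = 0} n).2)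

end Pool.Agent.MST
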