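import Pool.Agent.MST.StC

/-!
MST [CNT] (helper97): the dichotomy for the countable elementary submodels of `V`.
-/

set_option autoImplicit false

namespace Pool.Agent.MST

open FirstOrder.Language Set
open scoped FirstOrder
open Pool.Agent.WOM (tp Mon IsEl IsoM Fam CtT PerfT ThS)

/-- pairwise disjoint nonempty subsets of a countable set are countably many -/
private theorem CNT_count {X : Type} (M : Set X) (hM : M.Countable) (A : Set (Set X))
    (hA : ∀ K ∈ A, K ⊆ M ∧ K.Nonempty)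
    (hd : ∀ K ∈ A, ∀ K' ∈ A, (K ∩ K').Nonempty → K = K') : A.Countable := by
  classical
  have hne : ∀ K : A, ∃ x : M, (x : X) ∈ (K : Set X) := fun K => by
    obtain ⟨x, hx⟩ := (hA K K.2).2
    exact ⟨⟨x, (hA K K.2).1 hx⟩, hx⟩
  choose c hc using hne
  have hinj : Function.Injective c := by
    intro K K' h
    apply Subtype.ext
    refine hd K K.2 K' K'.2 ⟨c K, hc K, ?_⟩
    rw [h]
    exact hc K'
  have : Countable M := hM.to_subtype
  exact Set.countable_coe_iff.1 hinj.countable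

/-- [CNT] -/
theorem thm_CNT (hELX : St_ELX) (hATM : St_ATM) (hAPQ : St_APQ) (hGLU : St_GLU) (hPRF : St_PRF)
    (hCNB : St_CNB) (hCNA : St_CNA) : St_CNT := by
  intro L U V _ _ j hC hU
  by_cases hE : ∃ M : Set V, CM L M ∧ ∃ K : ℕ → Set V,
      (∀ n, K n ∈ At j M ∧ NTr j (K n) ∧ mul j M (K n) ≠ ⊤) ∧ ∀ m n, m ≠ n → ¬ App L (K m) (K n)
  · obtain ⟨M, hM, hK⟩ := hE
    exact Or.inr (hPRF L U V j hC hU M hM hK)
  · left
    have hE' : ∀ M : Set V, CM L M → ¬ ∃ K : ℕ → Set V,
        (∀ n, K n ∈ At j M ∧ NTr j (K n) ∧ mul j M (K n) ≠ ⊤) ∧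
          ∀ m n, m ≠ n → ¬ App L (K m) (K n) := fun M hM h => hE ⟨M, hM, h⟩
    obtain ⟨hr, hs, ht, hP⟩ := hAPQ L U V j hC
    have hmul : ∀ M K K' : Set V, App L K K' → mul j M K = mul j M K' := by
      intro M K K' h
      unfold mul
      congr 1
      ext K''
      constructor
      · rintro ⟨h1, h2⟩
        exact ⟨h1, ht _ _ _ (hs _ _ h) h2⟩
      · rintro ⟨h1, h2⟩
        exact ⟨h1, ht _ _ _ h h2⟩
    have hne : {M : Set V | CM L M}.Nonempty := by
      obtain ⟨M, _, hM⟩ := (hELX L V).2.2.2.2.2 hC.cu.ctL ∅ countable_empty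
      exact ⟨M, hM⟩
    have hlast : ∀ M ∈ {M : Set V | CM L M}, ∃ k : ℕ → Set V, ∀ K ∈ Tau j,
        mul j M K ≠ 0 → ∃ n, App L K (k n) := by
      intro M hM
      have hct : (At j M).Countable := CNT_count M hM.1 (At j M)
        (fun K hK => ⟨hK.1, hK.2.2.1⟩) (fun K hK K' hK' h => (hATM L U V j hC M).2.1 K hK K' hK' h)
      by_cases h0 : (At j M).Nonempty
      · obtain ⟨k, hk⟩ := hct.exists_eq_range h0
        refine ⟨k, fun K _ hK => ?_⟩
        have h1 : {K' ∈ At j M | App L K K'}.Nonempty := by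
          rw [← Set.encard_ne_zero]
          exact hK
        obtain ⟨K', hK', h2⟩ := h1
        rw [hk] at hK'
        obtain ⟨n, rfl⟩ := hK'
        exact ⟨n, h2⟩
      · refine ⟨fun _ => ∅, fun K _ hK => ?_⟩
        exfalso
        apply hK
        unfold mul
        rw [Set.encard_eq_zero]
        ext K'
        constructor
        · rintro ⟨h1, _⟩
          exact h0 ⟨K', h1⟩
        · intro h
          exact h.elim
    obtain ⟨g, hg, hcov⟩ := hCNA (Set V) (Set V) {M : Set V | CM L M} (Tau j) (App L)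
      (fun M K => mul j M K) hne ⟨hr, fun {K K'} h => hs K K' h, fun {K K' K''} h h' =>
        ht K K' K'' h h'⟩ hmul (fun M hM => hCNB L U V j hC hU hE' M hM) hlast
    refine ⟨g, fun M hM => ?_⟩
    obtain ⟨n, hn⟩ := hcov M hM
    exact ⟨n, hGLU L U V j hC M (g n) hM (hg n) hn⟩

end Pool.Agent.MST
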