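import Pool.Agent.MST.StB

/-!
MST: coheirs (helper76).
-/

set_option autoImplicit false

namespace Pool.Agent.MST

open FirstOrder.Language Set
open scoped FirstOrder
open Pool.Agent.WOM (IsEl)

/-- one formula and a finite family of instances of another one -/
theorem COH_two {L : FirstOrder.Language.{0, 0}} {V : Type} [L.Structure V]
    (hE : ∀ M : Set V, IsEl L M → ∀ (β γ : Type) [Finite β] [Finite γ] (φ : L.Formula (β ⊕ γ))
      (m : γ → V), (∀ i, m i ∈ M) → (∃ x : β → V, φ.Realize (Sum.elim x m)) →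
      ∃ x : β → V, (∀ i, x i ∈ M) ∧ φ.Realize (Sum.elim x m))
    {M : Set V} (hM : IsEl L M) {β γ₀ γ₁ I : Type} [Finite β] [Finite γ₀] [Finite γ₁] [Finite I]
    (ψ₀ : L.Formula (β ⊕ γ₀)) (m₀ : γ₀ → V) (ψ₁ : L.Formula (β ⊕ γ₁)) (m₁ : I → γ₁ → V)
    (h₀ : ∀ i, m₀ i ∈ M) (h₁ : ∀ i c, m₁ i c ∈ M)
    (h : ∃ x : β → V, ψ₀.Realize (Sum.elim x m₀) ∧ ∀ i, ψ₁.Realize (Sum.elim x (m₁ i))) :
    ∃ x : β → V, (∀ i, x i ∈ M) ∧ ψ₀.Realize (Sum.elim x m₀) ∧
      ∀ i, ψ₁.Realize (Sum.elim x (m₁ i)) := by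
  have key : ∀ x : β → V, (ψ₀.relabel (Sum.map id Sum.inl) ⊓
      FirstOrder.Language.Formula.iInf (fun i : I => ψ₁.relabel
        (Sum.map id (fun c => Sum.inr (i, c)) : β ⊕ γ₁ → β ⊕ (γ₀ ⊕ I × γ₁))) :
        L.Formula (β ⊕ (γ₀ ⊕ I × γ₁))).Realize
      (Sum.elim x (Sum.elim m₀ fun p : I × γ₁ => m₁ p.1 p.2)) ↔
      ψ₀.Realize (Sum.elim x m₀) ∧ ∀ i, ψ₁.Realize (Sum.elim x (m₁ i)) := by
    intro x
    rw [FirstOrder.Language.Formula.realize_inf, FirstOrder.Language.Formula.realize_iInf,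
      FirstOrder.Language.Formula.realize_relabel]
    have e0 : (Sum.elim x (Sum.elim m₀ fun p : I × γ₁ => m₁ p.1 p.2) :
        β ⊕ (γ₀ ⊕ I × γ₁) → V) ∘ (Sum.map id Sum.inl) = Sum.elim x m₀ := by
      funext z
      rcases z with z | z <;> rfl
    rw [e0]
    refine and_congr Iff.rfl (forall_congr' fun i => ?_)
    rw [FirstOrder.Language.Formula.realize_relabel]
    have e1 : (Sum.elim x (Sum.elim m₀ fun p : I × γ₁ => m₁ p.1 p.2) :
        β ⊕ (γ₀ ⊕ I × γ₁) → V) ∘ (Sum.map id (fun c => Sum.inr (i, c))) =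
        Sum.elim x (m₁ i) := by
      funext z
      rcases z with z | z <;> rfl
    rw [e1]
  obtain ⟨x, hx⟩ := h
  obtain ⟨y, hy, hy1⟩ := hE M hM β (γ₀ ⊕ I × γ₁) _
    (Sum.elim m₀ fun p : I × γ₁ => m₁ p.1 p.2) (by
      rintro (i | i)
      · exact h₀ i
      · exact h₁ i.1 i.2) ⟨x, (key x).2 hx⟩
  exact ⟨y, hy, (key y).1 hy1⟩

theorem thm_COH (hE : St_ELX) (hL : St_LAD) (hF : St_FRS) (hD : St_DLT) : St_COH := by
  intro L U V _ _ j hc M hM α κ γ _ _ _ a k m hm hfr φ hφ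
  obtain ⟨n, δ, e, he, hδ⟩ := hD L U V j hc α (κ ⊕ γ) a φ M hM
  obtain ⟨-, -, -, -, hF5⟩ := hF L U V j hc
  obtain ⟨hE1, -⟩ := hE L V
  by_contra hno
  have hno1 : ∀ a' : α → V, (∀ i, a' i ∈ M) → ¬ φ.Realize (Sum.elim a' (Sum.elim k m)) :=
    fun a' h1 h2 => hno ⟨a', h1, h2⟩
  have h1 : ∀ k' : κ → V, (∀ i, k' i ∈ M ∪ range k) → Fr j a (Sum.elim k' m) := by
    intro k' hk'
    refine hF5 _ _ hfr α (κ ⊕ γ) a (Sum.elim k' m) (fun i => mem_range_self i) ?_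
    rintro (i | i)
    · exact hk' i
    · exact Or.inl (hm i)
  have h2 : δ.Realize (Sum.elim (Sum.elim k m) e) :=
    (hδ _ (h1 k fun i => Or.inr (mem_range_self i))).1 hφ
  -- relabelled formulas
  have h3 : ∀ k' : κ → V, (δ.relabel (Equiv.sumAssoc κ γ (Fin n))).Realize
      (Sum.elim k' (Sum.elim m e)) ↔ δ.Realize (Sum.elim (Sum.elim k' m) e) := by
    intro k'
    rw [FirstOrder.Language.Formula.realize_relabel]
    have h : (Sum.elim k' (Sum.elim m e) : κ ⊕ (γ ⊕ Fin n) → V) ∘ (Equiv.sumAssoc κ γ (Fin n)) =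
        Sum.elim (Sum.elim k' m) e := by
      funext x
      rcases x with (x | x) | x <;> rfl
    rw [h]
  have h4 : ∀ (a' : α → V) (k' : κ → V), (φ.not.relabel (Sum.elim (fun x => Sum.inr (Sum.inl x))
      (Sum.elim (fun x => Sum.inl x) (fun x => Sum.inr (Sum.inr x))) :
        α ⊕ (κ ⊕ γ) → κ ⊕ (α ⊕ γ))).Realize (Sum.elim k' (Sum.elim a' m)) ↔
      ¬ φ.Realize (Sum.elim a' (Sum.elim k' m)) := by
    intro a' k'
    rw [FirstOrder.Language.Formula.realize_relabel]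
    have h : (Sum.elim k' (Sum.elim a' m) : κ ⊕ (α ⊕ γ) → V) ∘
        (Sum.elim (fun x => Sum.inr (Sum.inl x))
          (Sum.elim (fun x => Sum.inl x) (fun x => Sum.inr (Sum.inr x))) :
          α ⊕ (κ ⊕ γ) → κ ⊕ (α ⊕ γ)) = Sum.elim a' (Sum.elim k' m) := by
      funext x
      rcases x with x | (x | x) <;> rfl
    rw [h, FirstOrder.Language.Formula.realize_not]
  obtain ⟨f, hf1, hf2⟩ := exists_seq_of_forall_finset_exists
    (fun x : (α → V) × (κ → V) => (∀ i, x.1 i ∈ M) ∧ (∀ i, x.2 i ∈ M) ∧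
      δ.Realize (Sum.elim (Sum.elim x.2 m) e) ∧ φ.Realize (Sum.elim x.1 (Sum.elim x.2 m)))
    (fun x y => ¬ φ.Realize (Sum.elim x.1 (Sum.elim y.2 m)) ∧
      φ.Realize (Sum.elim y.1 (Sum.elim x.2 m))) (by
    intro s hs
    obtain ⟨k', hk', hk1, hk2⟩ := COH_two hE1 hM (I := s)
      (δ.relabel (Equiv.sumAssoc κ γ (Fin n))) (Sum.elim m e)
      (φ.not.relabel (Sum.elim (fun x => Sum.inr (Sum.inl x))
        (Sum.elim (fun x => Sum.inl x) (fun x => Sum.inr (Sum.inr x))) :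
          α ⊕ (κ ⊕ γ) → κ ⊕ (α ⊕ γ))) (fun x => Sum.elim x.1.1 m)
      (by
        rintro (i | i)
        · exact hm i
        · exact he i)
      (by
        rintro x (i | i)
        · exact (hs x.1 x.2).1 i
        · exact hm i)
      ⟨k, (h3 k).2 h2, fun x => (h4 _ k).2 (hno1 _ (hs x.1 x.2).1)⟩
    have hk3 : δ.Realize (Sum.elim (Sum.elim k' m) e) := (h3 k').1 hk1
    obtain ⟨a', ha', ha1, ha2⟩ := COH_two hE1 hM (I := s) φ (Sum.elim k' m) φ
      (fun x => Sum.elim x.1.2 m)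
      (by
        rintro (i | i)
        · exact hk' i
        · exact hm i)
      (by
        rintro x (i | i)
        · exact (hs x.1 x.2).2.1 i
        · exact hm i)
      ⟨a, (hδ _ (h1 k' fun i => Or.inl (hk' i))).2 hk3,
        fun x => (hδ _ (h1 _ fun i => Or.inl ((hs x.1 x.2).2.1 i))).2 (hs x.1 x.2).2.2.1⟩
    refine ⟨(a', k'), ⟨ha', hk', hk3, ha1⟩, fun x hx => ⟨?_, ?_⟩⟩
    · exact (h4 _ k').1 (hk2 ⟨x, hx⟩)
    · exact ha2 ⟨x, hx⟩)
  have h5 : ∀ (a' : α → V) (k' : κ → V), (φ.relabel (Equiv.sumAssoc α κ γ).symm).Realize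
      (Sum.elim (Sum.elim a' k') m) ↔ φ.Realize (Sum.elim a' (Sum.elim k' m)) := by
    intro a' k'
    rw [FirstOrder.Language.Formula.realize_relabel]
    have h : (Sum.elim (Sum.elim a' k') m : (α ⊕ κ) ⊕ γ → V) ∘ (Equiv.sumAssoc α κ γ).symm =
        Sum.elim a' (Sum.elim k' m) := by
      funext x
      rcases x with x | (x | x) <;> rfl
    rw [h]
  refine (hL L V hc.stV α κ {v : α ⊕ κ → V | (φ.relabel (Equiv.sumAssoc α κ γ).symm).Realize
    (Sum.elim v m)} (Dfp.of _ m) (fun i => (f i).1) (fun i => (f i).2)).2.2.2 ?_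
  intro i l
  rw [mem_ofPred_eq, h5]
  constructor
  · intro h
    by_contra hlt
    exact (hf2 i l (not_le.1 hlt)).1 h
  · intro h
    rcases h.lt_or_eq with h | rfl
    · exact (hf2 l i h).2
    · exact (hf1 l).2.2.2

end Pool.Agent.MST
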