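import Pool.Agent.MST.StA

/-!
MST: countability of the formulas and of the definable sets (helper76).
-/

set_option autoImplicit false

namespace Pool.Agent.MST

open FirstOrder.Language Set
open scoped FirstOrder

theorem thm_CTD : St_CTD := by
  intro L hL
  have _ : Countable L.Symbols := hL
  have h1 : ∀ (α : Type) [Countable α], Countable (L.Formula α) := fun α _ => inferInstance
  refine ⟨h1, ?_⟩
  intro M _ _ α _
  have h2 : Countable (Σ n : ℕ, L.Formula (α ⊕ Fin n) × (Fin n → M)) := by
    have h3 : ∀ n : ℕ, Countable (L.Formula (α ⊕ Fin n) × (Fin n → M)) := by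
      intro n
      have h4 : Countable (L.Formula (α ⊕ Fin n)) := h1 _
      infer_instance
    infer_instance
  refine (countable_range fun t : Σ n : ℕ, L.Formula (α ⊕ Fin n) × (Fin n → M) =>
    {v : α → M | t.2.1.Realize (Sum.elim v t.2.2)}).mono ?_
  rintro s ⟨n, φ, b, h⟩
  refine ⟨⟨n, φ, b⟩, ?_⟩
  ext v
  exact (h v).symm

end Pool.Agent.MST
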