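import Pool.Agent.MST.StA

/-!
MST: types are definable.
-/

set_option autoImplicit false

namespace Pool.Agent.MST

open FirstOrder.Language Set
open scoped FirstOrder

section

variable {L : FirstOrder.Language.{0, 0}} {M : Type} [L.Structure M] {α β : Type}

/-- finite intersections of members of a type -/
private theorem DEF_int {p : Set (Set (α → M))} (hp : IsTy L p) {ι : Type} (F : Finset ι)
    (t : ι → Set (α → M)) (ht : ∀ i ∈ F, t i ∈ p) : {v | ∀ i ∈ F, v ∈ t i} ∈ p := by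
  classical
  induction F using Finset.induction_on with
  | empty =>
    have h : {v : α → M | ∀ i ∈ (∅ : Finset ι), v ∈ t i} = Set.univ := by
      ext v
      simp
    rw [h]
    exact hp.univ
  | insert a F _ ih =>
    have h : {v : α → M | ∀ i ∈ insert a F, v ∈ t i} = t a ∩ {v | ∀ i ∈ F, v ∈ t i} := by
      ext v
      simp
    rw [h]
    exact hp.inter _ (ht a (Finset.mem_insert_self _ _)) _
      (ih fun i hi => ht i (Finset.mem_insert_of_mem hi))

/-- if `D` is not definable then it is not decided by finitely many instances -/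
private theorem DEF_cell [Finite α] {s : Set (α ⊕ β → M)} (hs : Dfp L s) {D : Set (β → M)}
    (hD : ¬ Dfp L D) {ι : Type} (A : Finset ι) (a : ι → α → M) : ∃ b ∈ D, ∃ c, c ∉ D ∧
      ∀ i ∈ A, Sum.elim (a i) b ∈ s ↔ Sum.elim (a i) c ∈ s := by
  classical
  by_contra hcon
  push Not at hcon
  apply hD
  let C : Finset ι → Set (β → M) := fun t => {b | ∀ i ∈ A, (Sum.elim (a i) b ∈ s ↔ i ∈ t)}
  have hC : ∀ t, Dfp L (C t) := by
    intro t
    have h1 : C t = (⋃ i ∈ (A : Set ι), {b : β → M | ¬ (Sum.elim (a i) b ∈ s ↔ i ∈ t)})ᶜ := by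
      ext b
      simp only [C, mem_compl_iff, mem_iUnion, mem_ofPred_eq, not_exists, not_not]
      rfl
    rw [h1]
    refine (Dfp.biUnion A.finite_toSet fun i _ => ?_).compl
    by_cases hi : i ∈ t
    · have h2 : {b : β → M | ¬ (Sum.elim (a i) b ∈ s ↔ i ∈ t)} =
          {b : β → M | Sum.elim (a i) b ∈ s}ᶜ := by
        ext b
        simp [hi]
      rw [h2]
      exact (hs.snd (a i)).compl
    · have h2 : {b : β → M | ¬ (Sum.elim (a i) b ∈ s ↔ i ∈ t)} =
          {b : β → M | Sum.elim (a i) b ∈ s} := by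
        ext b
        simp [hi]
      rw [h2]
      exact hs.snd (a i)
  have h3 : D = ⋃ t ∈ ({t | t ⊆ A ∧ (C t ∩ D).Nonempty} : Set (Finset ι)), C t := by
    ext b
    simp only [mem_iUnion]
    constructor
    · intro hb
      have h4 : b ∈ C (A.filter fun i => Sum.elim (a i) b ∈ s) := by
        intro i hi
        rw [Finset.mem_filter]
        exact ⟨fun h => ⟨hi, h⟩, fun h => h.2⟩
      exact ⟨_, ⟨Finset.filter_subset _ _, ⟨b, h4, hb⟩⟩, h4⟩
    · rintro ⟨t, ⟨-, d, hd1, hd2⟩, hb⟩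
      by_contra hbD
      obtain ⟨i, hi, h5⟩ := hcon d hd2 b hbD
      have h6 := hd1 i hi
      have h7 := hb i hi
      rcases h5 with ⟨h8, h9⟩ | ⟨h8, h9⟩
      · exact h9 (h7.2 (h6.1 h8))
      · exact h8 (h6.2 (h7.1 h9))
  rw [h3]
  refine Dfp.biUnion ?_ fun t _ => hC t
  exact (A.powerset.finite_toSet).subset fun t ht => by
    rw [Finset.mem_coe, Finset.mem_powerset]
    exact ht.1

end

theorem thm_DEF (hL : St_LAD) : St_DEF := by
  classical
  intro L M _ hM α β _ _ p hp s hs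
  by_contra hD
  obtain ⟨f, hf1, hf2⟩ := exists_seq_of_forall_finset_exists
    (α := (β → M) × (β → M) × (α → M))
    (fun x => x.1 ∈ fib p s ∧ x.2.1 ∉ fib p s ∧ Sum.elim x.2.2 x.1 ∈ s ∧
      Sum.elim x.2.2 x.2.1 ∉ s)
    (fun x y => (Sum.elim x.2.2 y.1 ∈ s ↔ Sum.elim x.2.2 y.2.1 ∈ s) ∧
      Sum.elim y.2.2 x.1 ∈ s ∧ Sum.elim y.2.2 x.2.1 ∉ s) (by
    intro A hA
    obtain ⟨b, hb, c, hc, hbc⟩ := DEF_cell hs hD A fun x => x.2.2
    have h1 : {v : α → M | Sum.elim v b ∈ s} ∈ p := hb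
    have h2 : {v : α → M | Sum.elim v c ∈ s}ᶜ ∈ p := (hp.compl_mem (hs.fst c)).2 hc
    have h3 : {v : α → M | ∀ x ∈ A, v ∈ {v : α → M | Sum.elim v x.1 ∈ s} ∩
        {v : α → M | Sum.elim v x.2.1 ∈ s}ᶜ} ∈ p := DEF_int hp A _ fun x hx =>
      hp.inter _ (hA x hx).1 _ ((hp.compl_mem (hs.fst x.2.1)).2 (hA x hx).2.1)
    obtain ⟨a, ha⟩ := hp.nonempty (hp.inter _ (hp.inter _ h1 _ h2) _ h3)
    exact ⟨(b, c, a), ⟨hb, hc, ha.1.1, ha.1.2⟩, fun x hx =>
      ⟨hbc x hx, (ha.2 x hx).1, (ha.2 x hx).2⟩⟩)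
  obtain ⟨g, hg, hram⟩ := ram fun i k => Sum.elim (f i).2.2 (f k).1 ∈ s
  have h1 : ∀ i k, k ≤ i → Sum.elim (f (g i)).2.2 (f (g k)).1 ∈ s ∧
      Sum.elim (f (g i)).2.2 (f (g k)).2.1 ∉ s := by
    intro i k hki
    rcases hki.eq_or_lt with rfl | hlt
    · exact ⟨(hf1 _).2.2.1, (hf1 _).2.2.2⟩
    · exact (hf2 _ _ (hg hlt)).2
  rcases hram with h | h
  · refine (hL L M hM α β s hs (fun i => (f (g i)).2.2) (fun k => (f (g k)).2.1)).1
      fun i k => ⟨fun h2 => ?_, fun h2 => ?_⟩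
    · by_contra h3
      exact (h1 i k (not_lt.1 h3)).2 h2
    · exact (hf2 _ _ (hg h2)).1.1 (h i k h2)
  · refine (hL L M hM α β s hs (fun i => (f (g i)).2.2) (fun k => (f (g k)).1)).2.2.2
      fun i k => ⟨fun h2 => ?_, fun h2 => (h1 i k h2).1⟩
    by_contra h3
    exact h i k (not_le.1 h3) h2

end Pool.Agent.MST
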