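import Pool.Agent.MST.StB

/-!
MST, module DLT (helper71): definability over an elementary submodel for independent tuples.
-/

set_option autoImplicit false

namespace Pool.Agent.MST

open FirstOrder.Language Set
open scoped FirstOrder
open Pool.Agent.WOM (tp Mon IsEl IsoM Fam)

/-- the truth of `φ` for independent tuples in terms of the definition scheme -/
private theorem DLT_key (hDEF : St_DEF) (hFEV : St_FEV) (hFRB : St_FRB)
    (L : FirstOrder.Language.{0, 0}) (U V : Type) [L.Structure U] [L.Structure V] (j : U ↪ₑ[L] V)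
    (hC : Cx L U V) (α β : Type) [Finite α] [Finite β] (a : α → V) (φ : L.Formula (α ⊕ β))
    (E : L.Formula (β ⊕ β)) (hE : FE U E)
    (hinv : ∀ y y' : β → U, er E y y' →
      (y ∈ fib (fr j a) (rs U φ) ↔ y' ∈ fib (fr j a) (rs U φ)))
    (w : β → V) (hw : Fr j a w) :
    φ.Realize (Sum.elim a w) ↔ ∃ u ∈ fib (fr j a) (rs U φ), er E w (j ∘ u) := by
  have hBa := hFRB L U V j hC α a
  have hBw := hFRB L U V j hC β w
  have hD : Dfp L (fib (fr j a) (rs U φ)) :=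
    hDEF L U hC.cu.stb α β (fr j a) hBa.1.ty (rs U φ) (Dfp.rs φ)
  have h1 := (hFRB L U V j hC (α ⊕ β) (Sum.elim a w)).2.2.2.1 φ
  have hw' : fr j (Sum.elim a w) = ten L (fr j a) (fr j w) := hw
  rw [← h1, hw']
  constructor
  · rintro ⟨-, h2⟩
    obtain ⟨u, hu⟩ := (hFEV L U V j β E).2.1 ((hFEV L U V j β E).1.1 hE) w
    have h3 : {x : β → U | er E x u} ∈ fr j w := hBw.2.1 E hE u hu
    obtain ⟨x, hx1, hx2⟩ := hBw.1.ty.nonempty (hBw.1.ty.inter _ h2 _ h3)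
    exact ⟨u, (hinv x u hx2).1 hx1, hu⟩
  · rintro ⟨u, hu1, hu2⟩
    have h3 : {x : β → U | er E x u} ∈ fr j w := hBw.2.1 E hE u hu2
    exact ⟨Dfp.rs φ, hBw.1.ty.mono h3 (fun x hx => (hinv x u hx).2 hu1) hD⟩

/-- Definability over an elementary submodel for independent tuples. -/
theorem thm_DLT (hDEF : St_DEF) (_hFEQ : St_FEQ) (hFEV : St_FEV) (hBDE : St_BDE)
    (hFRB : St_FRB) : St_DLT := by
  intro L U V _ _ j hC α β _ _ a φ M hM
  have hBa := hFRB L U V j hC α a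
  obtain ⟨E, hE, hinv⟩ := hBDE L U hC.cu α β (fr j a) hBa.1 φ
  have hEV : FE V E := (hFEV L U V j β E).1.1 hE
  obtain ⟨F, hF, hF2⟩ := hE.fin
  set D := fib (fr j a) (rs U φ) with hDdef
  have hFin : Finite {y : β → U // y ∈ F ∧ y ∈ D} :=
    (hF.subset fun y hy => hy.1 : {y : β → U | y ∈ F ∧ y ∈ D}.Finite)
  have hm : ∀ y : {y : β → U // y ∈ F ∧ y ∈ D}, ∃ m : β → V, (∀ i, m i ∈ M) ∧
      er E (j ∘ y.1) m := fun y => (hFEV L U V j β E).2.2 hEV M hM (j ∘ y.1)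
  choose m hm1 hm2 using hm
  obtain ⟨n, ⟨e⟩⟩ := Finite.exists_equiv_fin ({y : β → U // y ∈ F ∧ y ∈ D} × β)
  refine ⟨n, Formula.iSup (fun y : {y : β → U // y ∈ F ∧ y ∈ D} =>
    E.relabel (Sum.elim Sum.inl (fun b => Sum.inr (e (y, b))) : β ⊕ β → β ⊕ Fin n)),
    fun i => m (e.symm i).1 (e.symm i).2, fun i => hm1 _ _, fun w hw => ?_⟩
  rw [DLT_key hDEF hFEV hFRB L U V j hC α β a φ E hE hinv w hw,
    FirstOrder.Language.Formula.realize_iSup]
  have h1 : ∀ y : {y : β → U // y ∈ F ∧ y ∈ D},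
      (E.relabel (Sum.elim Sum.inl (fun b => Sum.inr (e (y, b))) : β ⊕ β → β ⊕ Fin n)).Realize
        (Sum.elim w fun i => m (e.symm i).1 (e.symm i).2) ↔ er E w (m y) := by
    intro y
    rw [FirstOrder.Language.Formula.realize_relabel]
    have h2 : (Sum.elim w (fun i => m (e.symm i).1 (e.symm i).2) : β ⊕ Fin n → V) ∘
        (Sum.elim Sum.inl (fun b => Sum.inr (e (y, b))) : β ⊕ β → β ⊕ Fin n) =
        Sum.elim w (m y) := by
      funext x
      rcases x with x | x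
      · rfl
      · simp
    rw [h2]
    rfl
  constructor
  · rintro ⟨u, hu1, hu2⟩
    obtain ⟨y, hy1, hy2⟩ := hF2 u
    refine ⟨⟨y, hy1, (hinv u y hy2).1 hu1⟩, (h1 _).2 ?_⟩
    exact hEV.trans _ _ _ hu2 (hEV.trans _ _ _ ((emb_er j E u y).2 hy2)
      (hm2 ⟨y, hy1, (hinv u y hy2).1 hu1⟩))
  · rintro ⟨y, hy⟩
    exact ⟨y.1, y.2.2, hEV.trans _ _ _ ((h1 y).1 hy) (hEV.symm _ _ (hm2 y))⟩

end Pool.Agent.MST
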