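import Pool.Agent.MST.StC

/-!
MST: representatives of infinitely many classes (ECL).
-/

set_option autoImplicit false

namespace Pool.Agent.MST

open Set

theorem thm_ECL : St_ECL := by
  intro X A r hA hr hK
  obtain ⟨K0, hK0, hK1⟩ := hK
  let s : Setoid X := ⟨r, hr⟩
  have hexact : ∀ a b : X, (Quotient.mk s a) = Quotient.mk s b → r a b := fun a b h =>
    Quotient.exact h
  have hQc : ((Quotient.mk s) '' A).Countable := hA.image _
  have hQi : ((Quotient.mk s) '' A).Infinite := by
    have hinj : Function.Injective fun n => Quotient.mk s (K0 n) := by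
      intro m n h
      by_contra hne
      exact hK1 m n hne (hexact _ _ h)
    refine (Set.infinite_range_of_injective hinj).mono ?_
    rintro _ ⟨n, rfl⟩
    exact ⟨K0 n, hK0 n, rfl⟩
  have i1 : Countable ((Quotient.mk s) '' A) := hQc.to_subtype
  have i2 : Infinite ((Quotient.mk s) '' A) := hQi.to_subtype
  obtain ⟨e⟩ := nonempty_equiv_of_countable (α := ℕ) (β := ((Quotient.mk s) '' A))
  choose K hKA hKe using fun n => (e n).2
  refine ⟨K, hKA, fun m n hmn h => ?_, fun a ha => ?_⟩
  · apply hmn
    have h1 : Quotient.mk s (K m) = Quotient.mk s (K n) := Quotient.sound h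
    rw [hKe, hKe] at h1
    exact e.injective (Subtype.ext h1)
  · refine ⟨e.symm ⟨Quotient.mk s a, a, ha, rfl⟩, ?_⟩
    apply hexact
    rw [hKe, Equiv.apply_symm_apply]

end Pool.Agent.MST
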