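import Pool.Agent.MST.StB

/-!
MST, module ELS: strong types of elementary submodels (helper40)
-/

set_option autoImplicit false

namespace Pool.Agent.MST

open FirstOrder.Language Set
open scoped FirstOrder
open Pool.Agent.WOM (tp Mon IsEl IsoM Fam)

/-- [ELS] -/
theorem thm_ELS (hELX : St_ELX) (hSQI : St_SQI) : St_ELS := by
  intro L M _ ι A A' hA
  obtain ⟨hE1, hE2, -, -, -, -⟩ := hELX L M
  obtain ⟨-, -, h3, h4, -, -, -⟩ := hSQI L M
  -- finite formulas in the members of the families
  have key : ∀ (α : Type) [Finite α] (f : α → ι) (φ : L.Formula α),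
      φ.Realize (A ∘ f) ↔ φ.Realize (A' ∘ f) := fun α _ f φ => h3 α _ _ (h4 ι A A' hA α f) φ
  constructor
  · intro hEl
    refine hE2 (range A') fun n φ m hm x hx => ?_
    choose f hf using hm
    have hm' : m = A' ∘ f := funext fun i => (hf i).symm
    subst hm'
    have hψ : ∀ a : Fin n → M, ((φ.relabel Sum.swap : L.Formula (Fin n ⊕ Unit)).iExs Unit).Realize a ↔
        ∃ y : Unit → M, φ.Realize (Sum.elim y a) := by
      intro a
      rw [FirstOrder.Language.Formula.realize_iExs]
      refine exists_congr fun y => ?_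
      rw [FirstOrder.Language.Formula.realize_relabel]
      have e : Sum.elim a y ∘ Sum.swap = (Sum.elim y a : Unit ⊕ Fin n → M) := by
        funext i
        rcases i with i | i <;> rfl
      rw [e]
    have h5 : ∃ y : Unit → M, φ.Realize (Sum.elim y (A ∘ f)) := by
      rw [← hψ, key (Fin n) f, hψ]
      exact ⟨fun _ => x, hx⟩
    obtain ⟨y, hy, hφ⟩ := hE1 (range A) hEl Unit (Fin n) φ (A ∘ f) (fun i => ⟨f i, rfl⟩) h5
    obtain ⟨i0, hi0⟩ := hy ()
    refine ⟨A' i0, ⟨i0, rfl⟩, ?_⟩
    have e1 : (Sum.elim y (A ∘ f) : Unit ⊕ Fin n → M) = A ∘ Sum.elim (fun _ => i0) f := by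
      funext i
      rcases i with i | i
      · exact hi0.symm
      · rfl
    have e2 : (Sum.elim (fun _ => A' i0) (A' ∘ f) : Unit ⊕ Fin n → M) =
        A' ∘ Sum.elim (fun _ => i0) f := by
      funext i
      rcases i with i | i <;> rfl
    rw [e2, ← key]
    rwa [e1] at hφ
  · intro hinj i k hik
    apply hinj
    have h5 := key (Fin 2) ![i, k]
      (Term.equal (FirstOrder.Language.Term.var 0) (FirstOrder.Language.Term.var 1))
    rw [FirstOrder.Language.Formula.realize_equal, FirstOrder.Language.Formula.realize_equal] at h5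
    exact h5.2 hik

end Pool.Agent.MST
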