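import Pool.Agent.MST.StC

/-!
MST: continuous enumeration of a family of subsets (ENU).
-/

set_option autoImplicit false

namespace Pool.Agent.MST

open FirstOrder.Language Set
open Pool.Agent.WOM (tp Mon IsEl IsoM Fam CtT PerfT ThS)

open Classical in
private theorem ENU_count {p : (ℕ → Bool) → ℕ → Prop} (hp : ∀ k, IsClopen {f | p f k})
    (k : ℕ) : ∀ m, IsClopen {f | Nat.count (p f) k = m} := by
  induction k with
  | zero =>
    intro m
    rcases Nat.eq_zero_or_pos m with hm | hm
    · have h1 : {f : ℕ → Bool | Nat.count (p f) 0 = m} = univ := by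
        ext f
        simp [hm]
      rw [h1]
      exact isClopen_univ
    · have h1 : {f : ℕ → Bool | Nat.count (p f) 0 = m} = ∅ := by
        ext f
        simp only [Nat.count_zero, mem_setOf_eq, mem_empty_iff_false, iff_false]
        omega
      rw [h1]
      exact isClopen_empty
  | succ k ih =>
    intro m
    have h1 : {f : ℕ → Bool | Nat.count (p f) (k + 1) = m} =
        ({f | p f k} ∩ {f | Nat.count (p f) k + 1 = m}) ∪
          ({f | p f k}ᶜ ∩ {f | Nat.count (p f) k = m}) := by
      ext f
      simp only [mem_setOf_eq, mem_union, mem_inter_iff, mem_compl_iff, Nat.count_succ]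
      by_cases h : p f k
      · simp [h]
      · simp [h]
    rw [h1]
    refine ((hp k).inter ?_).union ((hp k).compl.inter (ih m))
    rcases m with _ | m
    · have h2 : {f : ℕ → Bool | Nat.count (p f) k + 1 = 0} = ∅ := by
        ext f
        simp
      rw [h2]
      exact isClopen_empty
    · have h2 : {f : ℕ → Bool | Nat.count (p f) k + 1 = m + 1} =
          {f | Nat.count (p f) k = m} := by
        ext f
        simp
      rw [h2]
      exact ih m

theorem thm_ENU : St_ENU := by
  classical
  intro L V _ N M hN hMN hMi hMe hMc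
  have hNi : N.Infinite := (hMi (fun _ => true)).mono (hMN _)
  have i1 : Countable N := hN.to_subtype
  have i2 : Infinite N := hNi.to_subtype
  obtain ⟨w⟩ := nonempty_equiv_of_countable (α := ℕ) (β := N)
  obtain ⟨p, hp⟩ : ∃ p : (ℕ → Bool) → ℕ → Prop, ∀ f k, p f k ↔ (w k : V) ∈ M f :=
    ⟨fun f k => (w k : V) ∈ M f, fun _ _ => Iff.rfl⟩
  have hinf : ∀ f, (Set.ofPred (p f)).Infinite := by
    intro f hfin
    refine hMi f ((hfin.image fun k => (w k : V)).subset ?_)
    intro v hv
    refine ⟨w.symm ⟨v, hMN f hv⟩, ?_, ?_⟩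
    · show p f _
      rw [hp, Equiv.apply_symm_apply]
      exact hv
    · show ((w (w.symm ⟨v, hMN f hv⟩) : N) : V) = v
      rw [Equiv.apply_symm_apply]
  have hr : ∀ f, range (fun n => (w (Nat.nth (p f) n) : V)) = M f := by
    intro f
    ext v
    constructor
    · rintro ⟨n, rfl⟩
      exact (hp f _).1 (Nat.nth_mem_of_infinite (hinf f) n)
    · intro hv
      have h1 : w.symm ⟨v, hMN f hv⟩ ∈ Set.ofPred (p f) := by
        show p f _
        rw [hp, Equiv.apply_symm_apply]
        exact hv
      rw [← Nat.range_nth_of_infinite (hinf f)] at h1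
      obtain ⟨n, hn⟩ := h1
      refine ⟨n, ?_⟩
      show ((w (Nat.nth (p f) n) : N) : V) = v
      rw [hn, Equiv.apply_symm_apply]
  refine ⟨fun f n => (w (Nat.nth (p f) n) : V), ⟨fun f => ?_, fun f => ?_, fun n v => ?_⟩, hr⟩
  · exact Subtype.val_injective.comp (w.injective.comp (Nat.nth_injective (hinf f)))
  · rw [hr f]
    exact hMe f
  · by_cases hv : v ∈ N
    · have h1 : {f : ℕ → Bool | (w (Nat.nth (p f) n) : V) = v} =
          {f | p f (w.symm ⟨v, hv⟩)} ∩ {f | Nat.count (p f) (w.symm ⟨v, hv⟩) = n} := by
        ext f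
        simp only [mem_setOf_eq, mem_inter_iff]
        have h2 : (w (Nat.nth (p f) n) : V) = v ↔ Nat.nth (p f) n = w.symm ⟨v, hv⟩ := by
          rw [Equiv.eq_symm_apply]
          exact ⟨fun h => Subtype.ext h, fun h => congrArg Subtype.val h⟩
        rw [h2]
        constructor
        · intro h3
          rw [← h3]
          exact ⟨Nat.nth_mem_of_infinite (hinf f) n, Nat.count_nth_of_infinite (hinf f) n⟩
        · rintro ⟨h3, h4⟩
          rw [← h4]
          exact Nat.nth_count h3
      rw [h1]
      have hpc : ∀ k, IsClopen {f | p f k} := by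
        intro k
        have h2 : {f | p f k} = {f | (w k : V) ∈ M f} := by
          ext f
          exact hp f k
        rw [h2]
        exact hMc _ (w k).2
      exact ((hpc _).inter (ENU_count hpc _ n)).isOpen
    · have h1 : {f : ℕ → Bool | (w (Nat.nth (p f) n) : V) = v} = ∅ := by
        ext f
        simp only [mem_setOf_eq, mem_empty_iff_false, iff_false]
        intro h2
        exact hv (h2 ▸ (w _).2)
      rw [h1]
      exact isOpen_empty

end Pool.Agent.MST
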