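import Pool.Agent.MST.StA

/-!
MST: every strong type has a bounded extension (helper76).
-/

set_option autoImplicit false

namespace Pool.Agent.MST

open FirstOrder.Language Set
open scoped FirstOrder

theorem EXF_rel {L : FirstOrder.Language.{0, 0}} {M : Type} [L.Structure M] {α : Type}
    (φ : L.Formula α) (x : α → M) (b : Fin 0 → M) :
    (φ.relabel (Sum.inl : α → α ⊕ Fin 0)).Realize (Sum.elim x b) ↔ φ.Realize x := by
  rw [FirstOrder.Language.Formula.realize_relabel]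
  rfl

theorem thm_EXF (hS : St_SAU) (hB : St_BDX) (hL : St_LIM) : St_EXF := by
  intro L U V _ _ j hc α _ a
  obtain ⟨h1, -⟩ := hS L U hc.cu.mon
  obtain ⟨c, hc1⟩ := h1 α (Fin 0) Fin.elim0
    {ψ | ∃ φ : L.Formula α, φ.Realize a ∧ ψ = φ.relabel Sum.inl} (by
      intro G hG hfin
      have _ : Finite G := hfin
      obtain ⟨x, hx⟩ := emb_ex j (FirstOrder.Language.Formula.iInf fun ψ : G =>
        (ψ : L.Formula (α ⊕ Fin 0))) Fin.elim0 (by
          refine ⟨a, ?_⟩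
          rw [FirstOrder.Language.Formula.realize_iInf]
          rintro ⟨ψ, hψ⟩
          obtain ⟨φ, hφ, rfl⟩ := hG hψ
          exact (EXF_rel φ a _).2 hφ)
      rw [FirstOrder.Language.Formula.realize_iInf] at hx
      exact ⟨x, fun φ hφ => hx ⟨φ, hφ⟩⟩)
  have hc2 : ∀ φ : L.Formula α, φ.Realize a → φ.Realize c := fun φ hφ =>
    (EXF_rel φ c _).1 (hc1 _ ⟨φ, hφ, rfl⟩)
  obtain ⟨p, hp1, hp2⟩ := hB L U hc.cu α c
  obtain ⟨r, hr1, hr2, -⟩ := hL L U V j hc α p a hp1 fun φ hφ => hp2 φ (hc2 φ hφ)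
  exact ⟨r, hr1, hr2⟩

end Pool.Agent.MST
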