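import Pool.Agent.MST.StB

/-!
MST: EXT, extension of strong types by independent ones (helper6).
-/

set_option autoImplicit false

namespace Pool.Agent.MST

open FirstOrder.Language Set
open scoped FirstOrder
open Pool.Agent.WOM (tp Mon IsEl IsoM Fam)

section EXT

variable {L : FirstOrder.Language.{0, 0}} {U V : Type} [L.Structure U] [L.Structure V]
  {j : U ↪ₑ[L] V}

/-- one class of a finite equivalence relation is in a type -/
private theorem EXT_cls {α : Type} [Finite α] {r : Set (Set (α → U))} (hr : IsTy L r)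
    {E : L.Formula (α ⊕ α)} (hE : FE U E) : ∃ u : α → U, {x | er E x u} ∈ r := by
  obtain ⟨F, hF, hF'⟩ := hE.fin
  have h1 : (⋃ u ∈ F, {x : α → U | er E x u}) = Set.univ := by
    rw [eq_univ_iff_forall]
    intro x
    obtain ⟨y, hy, hxy⟩ := hF' x
    exact mem_iUnion₂.2 ⟨y, hy, hxy⟩
  obtain ⟨u, -, hu⟩ := hr.biUnion_mem hF (s := fun u => {x : α → U | er E x u})
    (fun u _ => Dfp.er E u) (by rw [h1]; exact hr.univ)
  exact ⟨u, hu⟩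

/-- the finite case -/
private theorem EXT_fin (hFEQ : St_FEQ) (hFEV : St_FEV) (hRXT : St_RXT) (hFRB : St_FRB)
    (hTEN : St_TEN) (hTAL : St_TAL) (hx : Cx L U V) {ι κ β : Type} [Finite ι] [Finite κ]
    [Finite β] (a a' : ι → V) (c : κ → V) (b : β → V) (ha : Sq L a a') (hab : Fr j a' b)
    (E : L.Formula (((ι ⊕ κ) ⊕ β) ⊕ ((ι ⊕ κ) ⊕ β))) (hE : FE U E) (u : (ι ⊕ κ) ⊕ β → U)
    (hu : {x | er E x u} ∈ ten L (fr j (Sum.elim a c)) (fr j b)) :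
    ∃ c' : κ → V, er E (Sum.elim (Sum.elim a' c') b) (j ∘ u) := by
  have hac := hFRB L U V j hx (ι ⊕ κ) (Sum.elim a c)
  have hb := hFRB L U V j hx β b
  have hty : IsTy L (ten L (fr j (Sum.elim a c)) (fr j b)) :=
    (hTEN L U hx.cu.stb _ _ _ _).1 hac.1.ty hb.1.ty
  -- the marginal
  have h1 : fr j (Sum.elim a' b) = rx L (Sum.map Sum.inl id : ι ⊕ β → (ι ⊕ κ) ⊕ β)
      (ten L (fr j (Sum.elim a c)) (fr j b)) := by
    have h2 := ((hTAL L U hx.cu.stb _ _ _ _ hac.1.ty hb.1.ty).2.2.2.1 ι β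
      (Sum.inl : ι → ι ⊕ κ) (id : β → β)).symm
    rw [h2, (hRXT L U β β id (fr j b)).2.2.1 hb.1.ty, ← hac.2.2.2.2.2 ι Sum.inl]
    have h3 : (Sum.elim a c : ι ⊕ κ → V) ∘ Sum.inl = a := rfl
    rw [h3, (hFRB L U V j hx ι a).2.2.2.2.1 a' |>.1 ha]
    exact hab
  obtain ⟨e, he⟩ : ∃ e : (ι ⊕ κ) ⊕ β → (ι ⊕ β) ⊕ κ, e = Sum.elim
      (Sum.elim (fun i => Sum.inl (Sum.inl i)) Sum.inr) (fun i => Sum.inl (Sum.inr i)) :=
    ⟨_, rfl⟩
  have hE' : FE U (pbE e E) := (hFEQ L U).2.1 _ _ e E hE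
  have hE1 : FE U (prE (pbE e E)) := (hFEQ L U).2.2.2 _ _ _ hE'
  obtain ⟨v1, v2, -⟩ := hFEV L U V j (ι ⊕ β) (prE (pbE e E))
  have hE1V := v1.1 hE1
  have hEV : FE V E := (hFEV L U V j ((ι ⊕ κ) ⊕ β) E).1.1 hE
  obtain ⟨w, hw⟩ := v2 hE1V (Sum.elim a' b)
  have h4 := (hFRB L U V j hx (ι ⊕ β) (Sum.elim a' b)).2.1 _ hE1 w hw
  rw [h1] at h4
  obtain ⟨x₀, hx1, hx2⟩ := hty.nonempty (hty.inter _ h4.2 _ hu)
  have hx1' : er (prE (pbE e E)) (x₀ ∘ (Sum.map Sum.inl id : ι ⊕ β → (ι ⊕ κ) ⊕ β)) w := hx1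
  have h5 : er (prE (pbE e E)) (j ∘ (x₀ ∘ (Sum.map Sum.inl id : ι ⊕ β → (ι ⊕ κ) ⊕ β)) :
      ι ⊕ β → V) (Sum.elim a' b) :=
    hE1V.trans _ _ _ ((emb_er j _ _ _).2 hx1') (hE1V.symm _ _ hw)
  obtain ⟨c', hc'⟩ := ((er_prE _ _ _).1 h5).1 (fun k => j (x₀ (Sum.inl (Sum.inr k))))
  refine ⟨c', ?_⟩
  rw [er_pbE] at hc'
  have h6 : (Sum.elim (j ∘ (x₀ ∘ (Sum.map Sum.inl id : ι ⊕ β → (ι ⊕ κ) ⊕ β)) : ι ⊕ β → V)
      (fun k => j (x₀ (Sum.inl (Sum.inr k)))) : (ι ⊕ β) ⊕ κ → V) ∘ e = j ∘ x₀ := by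
    rw [he]
    funext z
    rcases z with (z | z) | z <;> rfl
  have h7 : (Sum.elim (Sum.elim a' b) c' : (ι ⊕ β) ⊕ κ → V) ∘ e =
      Sum.elim (Sum.elim a' c') b := by
    rw [he]
    funext z
    rcases z with (z | z) | z <;> rfl
  rw [h6, h7] at hc'
  exact hEV.trans _ _ _ (hEV.symm _ _ hc') ((emb_er j E x₀ u).2 hx2)

/-- the finite case, for subsets of the index sets -/
private theorem EXT_sub (hFEQ : St_FEQ) (hFEV : St_FEV) (hRXT : St_RXT) (hFRB : St_FRB)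
    (hTEN : St_TEN) (hTAL : St_TAL) (hFRS : St_FRS) (hSQI : St_SQI) (hx : Cx L U V)
    {ι κ : Type} (A A' : ι → V) (C : κ → V) (B : Set V) (hA : SqI L A A')
    (hB : FrS j (range A') B) (s : Set (ι ⊕ κ)) [Finite s] (T : Set B) [Finite T]
    (E : L.Formula ((s ⊕ T) ⊕ (s ⊕ T))) (hE : FE U E) (u : s ⊕ T → U)
    (hu : {x | er E x u} ∈ ten L (fr j (fun i : s => Sum.elim A C i.1))
      (fr j (fun i : T => (i.1.1 : V)))) :
    ∃ C' : κ → V, er E (Sum.elim (fun i : s => Sum.elim A' C' i.1)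
      (fun i : T => (i.1.1 : V))) (j ∘ u) := by
  classical
  obtain ⟨fwd, hfwd⟩ : ∃ fwd : s → {i : ι // Sum.inl i ∈ s} ⊕ {k : κ // Sum.inr k ∈ s},
      ∀ x : s, (∀ i h, x = ⟨Sum.inl i, h⟩ → fwd x = Sum.inl ⟨i, h⟩) ∧
        ∀ k h, x = ⟨Sum.inr k, h⟩ → fwd x = Sum.inr ⟨k, h⟩ := by
    refine ⟨fun x => match x with
      | ⟨Sum.inl i, h⟩ => Sum.inl ⟨i, h⟩
      | ⟨Sum.inr k, h⟩ => Sum.inr ⟨k, h⟩, fun x => ⟨?_, ?_⟩⟩
    · rintro i h rfl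
      rfl
    · rintro i h rfl
      rfl
  obtain ⟨bwd, hbwd⟩ : ∃ bwd : {i : ι // Sum.inl i ∈ s} ⊕ {k : κ // Sum.inr k ∈ s} → s,
      bwd = Sum.elim (fun i => ⟨Sum.inl i.1, i.2⟩) (fun k => ⟨Sum.inr k.1, k.2⟩) := ⟨_, rfl⟩
  have hbf : ∀ x, bwd (fwd x) = x := by
    rintro ⟨i | k, h⟩
    · rw [((hfwd ⟨Sum.inl i, h⟩).1 i h rfl), hbwd]
      rfl
    · rw [((hfwd ⟨Sum.inr k, h⟩).2 k h rfl), hbwd]
      rfl
  have hfi1 : Finite {i : ι // Sum.inl i ∈ s} :=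
    Finite.of_injective (fun i : {i : ι // Sum.inl i ∈ s} => (⟨Sum.inl i.1, i.2⟩ : s))
      (fun x y h => Subtype.ext (Sum.inl_injective (congrArg Subtype.val h)))
  have hfi2 : Finite {k : κ // Sum.inr k ∈ s} :=
    Finite.of_injective (fun i : {k : κ // Sum.inr k ∈ s} => (⟨Sum.inr i.1, i.2⟩ : s))
      (fun x y h => Subtype.ext (Sum.inr_injective (congrArg Subtype.val h)))
  have hAC : (fun i : s => (Sum.elim A C : ι ⊕ κ → V) i.1) =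
      (Sum.elim (fun i : {i : ι // Sum.inl i ∈ s} => A i.1)
        (fun k : {k : κ // Sum.inr k ∈ s} => C k.1)) ∘ fwd := by
    funext x
    obtain ⟨i | k, h⟩ := x
    · show A i = _
      rw [Function.comp_apply, ((hfwd ⟨Sum.inl i, h⟩).1 i h rfl)]
      rfl
    · show C k = _
      rw [Function.comp_apply, ((hfwd ⟨Sum.inr k, h⟩).2 k h rfl)]
      rfl
  have hp := hFRB L U V j hx _ (Sum.elim (fun i : {i : ι // Sum.inl i ∈ s} => A i.1)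
        (fun k : {k : κ // Sum.inr k ∈ s} => C k.1))
  have hq := hFRB L U V j hx _ (fun i : T => (i.1.1 : V))
  have h1 : ten L (fr j (fun i : s => (Sum.elim A C : ι ⊕ κ → V) i.1))
      (fr j (fun i : T => (i.1.1 : V))) = rx L (Sum.map fwd id)
      (ten L (fr j (Sum.elim (fun i : {i : ι // Sum.inl i ∈ s} => A i.1)
        (fun k : {k : κ // Sum.inr k ∈ s} => C k.1))) (fr j (fun i : T => (i.1.1 : V)))) := by
    rw [← (hTAL L U hx.cu.stb _ _ _ _ hp.1.ty hq.1.ty).2.2.2.1 _ _ fwd (id : T → T),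
      (hRXT L U _ _ id _).2.2.1 hq.1.ty, ← hp.2.2.2.2.2 _ fwd, hAC]
  rw [h1] at hu
  have hub : (u ∘ Sum.map bwd id) ∘ (Sum.map fwd id : s ⊕ T → _ ⊕ T) = u := by
    funext z
    rcases z with z | z
    · show u (Sum.inl (bwd (fwd z))) = _
      rw [hbf]
    · rfl
  have h2 : {x | er (pbE (Sum.map fwd id : s ⊕ T → _ ⊕ T) E) x (u ∘ Sum.map bwd id)} ∈
      (ten L (fr j (Sum.elim (fun i : {i : ι // Sum.inl i ∈ s} => A i.1)
        (fun k : {k : κ // Sum.inr k ∈ s} => C k.1))) (fr j (fun i : T => (i.1.1 : V)))) := by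
    have h3 : {x | er (pbE (Sum.map fwd id : s ⊕ T → _ ⊕ T) E) x (u ∘ Sum.map bwd id)} =
        {v | v ∘ (Sum.map fwd id : s ⊕ T → _ ⊕ T) ∈ {x | er E x u}} := by
      ext x
      show er _ _ _ ↔ er E _ u
      rw [er_pbE, hub]
    rw [h3]
    exact hu.2
  have hSq : Sq L (fun i : {i : ι // Sum.inl i ∈ s} => A i.1)
      (fun i : {i : ι // Sum.inl i ∈ s} => A' i.1) :=
    (hSQI L V).2.2.2.1 ι A A' hA _ (fun i : {i : ι // Sum.inl i ∈ s} => i.1)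
  have hFr : Fr j (fun i : {i : ι // Sum.inl i ∈ s} => A' i.1) (fun i : T => (i.1.1 : V)) :=
    (hFRS L U V j hx).2.2.2.2 _ _ hB _ _ _ _ (fun i => ⟨i.1, rfl⟩) fun i => i.1.2
  obtain ⟨c', hc'⟩ := EXT_fin hFEQ hFEV hRXT hFRB hTEN hTAL hx _ _ _ _ hSq hFr _
    ((hFEQ L U).2.1 _ _ (Sum.map fwd id : s ⊕ T → _ ⊕ T) E hE) _ h2
  refine ⟨fun k => if h : Sum.inr k ∈ s then c' ⟨k, h⟩ else C k, ?_⟩
  rw [er_pbE] at hc'
  have h4 : (j ∘ (u ∘ Sum.map bwd id)) ∘ (Sum.map fwd id : s ⊕ T → _ ⊕ T) = j ∘ u := by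
    rw [Function.comp_assoc, hub]
  have h5 : (Sum.elim (Sum.elim (fun i : {i : ι // Sum.inl i ∈ s} => A' i.1) c')
      (fun i : T => (i.1.1 : V))) ∘ (Sum.map fwd id : s ⊕ T → _ ⊕ T) =
      Sum.elim (fun i : s => (Sum.elim A' (fun k => if h : Sum.inr k ∈ s then c' ⟨k, h⟩
        else C k) : ι ⊕ κ → V) i.1) (fun i : T => (i.1.1 : V)) := by
    funext z
    rcases z with z | z
    · obtain ⟨i | k, h⟩ := z
      · show Sum.elim _ _ (fwd ⟨Sum.inl i, h⟩) = A' i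
        rw [((hfwd ⟨Sum.inl i, h⟩).1 i h rfl)]
        rfl
      · show Sum.elim _ _ (fwd ⟨Sum.inr k, h⟩) = if h : Sum.inr k ∈ s then c' ⟨k, h⟩ else C k
        rw [((hfwd ⟨Sum.inr k, h⟩).2 k h rfl), dif_pos h]
        rfl
    · rfl
  rw [h4, h5] at hc'
  exact hc'

/-- the conditions -/
private structure EXT_Cd (j : U ↪ₑ[L] V) {ι κ : Type} (A : ι → V) (C : κ → V) (B : Set V) where
  m : ℕ
  n : ℕ
  f : Fin m → ι ⊕ κ
  l : Fin n → B
  E : L.Formula ((Fin m ⊕ Fin n) ⊕ (Fin m ⊕ Fin n))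
  u : Fin m ⊕ Fin n → U
  fe : FE U E
  mem : {x | er E x u} ∈ ten L (fr j (Sum.elim A C ∘ f)) (fr j (fun i => (l i : V)))

/-- the formula of a condition -/
private noncomputable def EXT_Cd.fml {ι κ : Type} {A : ι → V} {C : κ → V} {B : Set V}
    (c : EXT_Cd j A C B) : L.Formula (κ ⊕ (ι ⊕ (B ⊕ U))) :=
  c.E.relabel (Sum.elim (Sum.elim
    (fun i => (Sum.elim (fun x => Sum.inr (Sum.inl x)) Sum.inl : ι ⊕ κ → κ ⊕ (ι ⊕ (B ⊕ U))) (c.f i))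
    (fun i => Sum.inr (Sum.inr (Sum.inl (c.l i)))))
    (fun i => Sum.inr (Sum.inr (Sum.inr (c.u i)))))

private theorem EXT_Cd.real {ι κ : Type} {A : ι → V} {C : κ → V} {B : Set V}
    (c : EXT_Cd j A C B) (A' : ι → V) (C' : κ → V) :
    c.fml.Realize (Sum.elim C' (Sum.elim A' (Sum.elim (fun b : B => (b : V)) j))) ↔
      er c.E (Sum.elim (Sum.elim A' C' ∘ c.f) (fun i => (c.l i : V))) (j ∘ c.u) := by
  unfold EXT_Cd.fml er
  rw [FirstOrder.Language.Formula.realize_relabel]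
  have h : (Sum.elim C' (Sum.elim A' (Sum.elim (fun b : B => (b : V)) j)) :
      κ ⊕ (ι ⊕ (B ⊕ U)) → V) ∘ (Sum.elim (Sum.elim
    (fun i => (Sum.elim (fun x => Sum.inr (Sum.inl x)) Sum.inl : ι ⊕ κ → κ ⊕ (ι ⊕ (B ⊕ U))) (c.f i))
    (fun i => Sum.inr (Sum.inr (Sum.inl (c.l i)))))
    (fun i => Sum.inr (Sum.inr (Sum.inr (c.u i))))) =
      Sum.elim (Sum.elim (Sum.elim A' C' ∘ c.f) (fun i => (c.l i : V))) (j ∘ c.u) := by
    funext z
    rcases z with (z | z) | z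
    · show (Sum.elim C' (Sum.elim A' (Sum.elim (fun b : B => (b : V)) j)) :
        κ ⊕ (ι ⊕ (B ⊕ U)) → V) ((Sum.elim (fun x => Sum.inr (Sum.inl x)) Sum.inl :
          ι ⊕ κ → κ ⊕ (ι ⊕ (B ⊕ U))) (c.f z)) = (Sum.elim A' C' : ι ⊕ κ → V) (c.f z)
      rcases c.f z with x | x <;> rfl
    · rfl
    · rfl
  rw [h]

/-- conjunction of conditions -/
private theorem EXT_conj (hFEQ : St_FEQ) {ι κ : Type} {A : ι → V} {C : κ → V} {B : Set V}
    (s : Set (ι ⊕ κ)) (T : Set B) (H : Set (EXT_Cd j A C B)) (hH : H.Finite) :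
    (∀ c ∈ H, ∀ i, c.f i ∈ s) → (∀ c ∈ H, ∀ i, c.l i ∈ T) →
    ∃ E : L.Formula ((s ⊕ T) ⊕ (s ⊕ T)), FE U E ∧ ∀ c ∈ H, ∃ (p : Fin c.m → s)
      (q : Fin c.n → T), (∀ i, (p i).1 = c.f i) ∧ (∀ i, (q i).1 = c.l i) ∧
      (∀ x y : s ⊕ T → U, er E x y → er c.E (x ∘ Sum.map p q) (y ∘ Sum.map p q)) ∧
      ∀ x y : s ⊕ T → V, er E x y → er c.E (x ∘ Sum.map p q) (y ∘ Sum.map p q) := by
  induction H, hH using Set.Finite.induction_on with
  | empty =>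
    intro _ _
    exact ⟨fmE ⊤, (hFEQ L U).2.2.1 _ _, fun c hc => absurd hc (notMem_empty _)⟩
  | @insert c H _ _ ih =>
    intro hs hT
    obtain ⟨E, hE, hE'⟩ := ih (fun d hd => hs d (mem_insert_of_mem _ hd))
      fun d hd => hT d (mem_insert_of_mem _ hd)
    have hc1 := hs c (mem_insert _ _)
    have hc2 := hT c (mem_insert _ _)
    refine ⟨E ⊓ pbE (Sum.map (fun i => (⟨c.f i, hc1 i⟩ : s)) (fun i => (⟨c.l i, hc2 i⟩ : T))) c.E,
      (hFEQ L U).1 _ _ _ hE ((hFEQ L U).2.1 _ _ _ _ c.fe), ?_⟩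
    intro d hd
    rcases mem_insert_iff.1 hd with rfl | hd
    · refine ⟨fun i => ⟨d.f i, hc1 i⟩, fun i => ⟨d.l i, hc2 i⟩, fun i => rfl, fun i => rfl, ?_, ?_⟩
      · intro x y h
        rw [er_inf, er_pbE] at h
        exact h.2
      · intro x y h
        rw [er_inf, er_pbE] at h
        exact h.2
    · obtain ⟨p, q, hp, hq, h1, h2⟩ := hE' d hd
      refine ⟨p, q, hp, hq, ?_, ?_⟩
      · intro x y h
        rw [er_inf] at h
        exact h1 x y h.1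
      · intro x y h
        rw [er_inf] at h
        exact h2 x y h.1

/-- finitely many conditions are satisfiable -/
private theorem EXT_sat (hFEQ : St_FEQ) (hFEV : St_FEV) (hRXT : St_RXT) (hFRB : St_FRB)
    (hTEN : St_TEN) (hTAL : St_TAL) (hFRS : St_FRS) (hSQI : St_SQI) (hx : Cx L U V)
    {ι κ : Type} (A A' : ι → V) (C : κ → V) (B : Set V) (hA : SqI L A A')
    (hB : FrS j (range A') B) (H : Set (EXT_Cd j A C B)) (hH : H.Finite) :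
    ∃ C' : κ → V, ∀ c ∈ H, er c.E (Sum.elim (Sum.elim A' C' ∘ c.f) (fun i => (c.l i : V)))
      (j ∘ c.u) := by
  obtain ⟨s, hs⟩ : ∃ s : Set (ι ⊕ κ), s = ⋃ c ∈ H, range c.f := ⟨_, rfl⟩
  obtain ⟨T, hT⟩ : ∃ T : Set B, T = ⋃ c ∈ H, range c.l := ⟨_, rfl⟩
  have hsf : Finite s := by
    rw [hs]
    exact (hH.biUnion fun c _ => Set.finite_range _).to_subtype
  have hTf : Finite T := by
    rw [hT]
    exact (hH.biUnion fun c _ => Set.finite_range _).to_subtype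
  obtain ⟨E, hE, hE'⟩ := EXT_conj hFEQ s T H hH
    (fun c hc i => by rw [hs]; exact mem_iUnion₂.2 ⟨c, hc, i, rfl⟩)
    (fun c hc i => by rw [hT]; exact mem_iUnion₂.2 ⟨c, hc, i, rfl⟩)
  have hp := hFRB L U V j hx _ (fun i : s => (Sum.elim A C : ι ⊕ κ → V) i.1)
  have hq := hFRB L U V j hx _ (fun i : T => (i.1.1 : V))
  have hr := (hTEN L U hx.cu.stb _ _ _ _).1 hp.1.ty hq.1.ty
  obtain ⟨u, hu⟩ := EXT_cls hr hE
  obtain ⟨C', hC'⟩ := EXT_sub hFEQ hFEV hRXT hFRB hTEN hTAL hFRS hSQI hx A A' C B hA hB s T E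
    hE u hu
  refine ⟨C', fun c hc => ?_⟩
  obtain ⟨p, q, hpc, hqc, h1, h2⟩ := hE' c hc
  have h3 : ten L (fr j (Sum.elim A C ∘ c.f)) (fr j (fun i => (c.l i : V))) =
      rx L (Sum.map p q) (ten L (fr j (fun i : s => (Sum.elim A C : ι ⊕ κ → V) i.1))
        (fr j (fun i : T => (i.1.1 : V)))) := by
    rw [← (hTAL L U hx.cu.stb _ _ _ _ hp.1.ty hq.1.ty).2.2.2.1 _ _ p q,
      ← hp.2.2.2.2.2 _ p, ← hq.2.2.2.2.2 _ q]
    have h4 : (fun i : s => (Sum.elim A C : ι ⊕ κ → V) i.1) ∘ p = Sum.elim A C ∘ c.f := by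
      funext i
      show (Sum.elim A C : ι ⊕ κ → V) (p i).1 = (Sum.elim A C : ι ⊕ κ → V) (c.f i)
      rw [hpc]
    have h5 : (fun i : T => (i.1.1 : V)) ∘ q = fun i => (c.l i : V) := by
      funext i
      show ((q i).1 : V) = _
      rw [hqc]
    rw [h4, h5]
  have h6 := c.mem
  rw [h3] at h6
  obtain ⟨x₀, hx1, hx2⟩ := hr.nonempty (hr.inter _ hu _ h6.2)
  have hx1' : er c.E (x₀ ∘ Sum.map p q) (u ∘ Sum.map p q) := h1 _ _ hx1
  have hx2' : er c.E (x₀ ∘ Sum.map p q) c.u := hx2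
  have h7 : er c.E (u ∘ Sum.map p q) c.u := c.fe.trans _ _ _ (c.fe.symm _ _ hx1') hx2'
  have h8 := h2 _ _ hC'
  have h9 : (Sum.elim (fun i : s => (Sum.elim A' C' : ι ⊕ κ → V) i.1)
      (fun i : T => (i.1.1 : V))) ∘ Sum.map p q =
      Sum.elim (Sum.elim A' C' ∘ c.f) (fun i => (c.l i : V)) := by
    funext z
    rcases z with z | z
    · show (Sum.elim A' C' : ι ⊕ κ → V) (p z).1 = (Sum.elim A' C' : ι ⊕ κ → V) (c.f z)
      rw [hpc]
    · show ((q z).1 : V) = _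
      rw [hqc]
      rfl
  rw [h9] at h8
  exact ((hFEV L U V j _ c.E).1.1 c.fe).trans _ _ _ h8 ((emb_er j c.E _ _).2 h7)

/-- the conditions determine the strong type -/
private theorem EXT_end (hFEV : St_FEV) (hFRB : St_FRB)
    (hTEN : St_TEN) (hTAL : St_TAL) (hx : Cx L U V)
    {ι κ : Type} (A A' : ι → V) (C C' : κ → V) (B : Set V)
    (h : ∀ c : EXT_Cd j A C B, er c.E (Sum.elim (Sum.elim A' C' ∘ c.f) (fun i => (c.l i : V)))
      (j ∘ c.u)) (m n : ℕ) (f : Fin m → ι ⊕ κ) (l : Fin n → B) :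
    Sq L (Sum.elim A C ∘ f) (Sum.elim A' C' ∘ f) ∧
      Fr j (Sum.elim A' C' ∘ f) (fun i => (l i : V)) := by
  have hp := hFRB L U V j hx _ (Sum.elim A C ∘ f)
  have hq := hFRB L U V j hx _ (fun i => (l i : V))
  have hr := (hTEN L U hx.cu.stb _ _ _ _).2 hp.1 hq.1
  have hp' := hFRB L U V j hx _ (Sum.elim A' C' ∘ f)
  have h0 := hFRB L U V j hx _ (Sum.elim (Sum.elim A' C' ∘ f) (fun i => (l i : V)))
  have h1 : fr j (Sum.elim (Sum.elim A' C' ∘ f) (fun i => (l i : V))) =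
      ten L (fr j (Sum.elim A C ∘ f)) (fr j (fun i => (l i : V))) := by
    refine h0.2.2.1 _ hr fun E hE w hw => ?_
    obtain ⟨u, hu⟩ := EXT_cls hr.ty hE
    have h2 := h ⟨m, n, f, l, E, u, hE, hu⟩
    have hEV := (hFEV L U V j _ E).1.1 hE
    have h3 : er E (j ∘ u : Fin m ⊕ Fin n → V) (j ∘ w) := hEV.trans _ _ _ (hEV.symm _ _ h2) hw
    rw [emb_er] at h3
    have h4 : {x | er E x w} = {x | er E x u} := by
      ext x
      exact ⟨fun h => hE.trans _ _ _ h (hE.symm _ _ h3), fun h => hE.trans _ _ _ h h3⟩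
    rw [h4]
    exact hu
  have h2 : fr j (Sum.elim A' C' ∘ f) = fr j (Sum.elim A C ∘ f) := by
    have h3 := h0.2.2.2.2.2 _ (Sum.inl : Fin m → Fin m ⊕ Fin n)
    rw [h1, (hTAL L U hx.cu.stb _ _ _ _ hp.1.ty hq.1.ty).2.1] at h3
    exact h3
  refine ⟨(hp.2.2.2.2.1 _).2 h2.symm, ?_⟩
  show fr j _ = _
  rw [h1, h2]

end EXT

theorem thm_EXT (hFEQ : St_FEQ) (hFEV : St_FEV) (_ : St_UNF) (hRXT : St_RXT)
    (hFRB : St_FRB) (hTEN : St_TEN) (hTAL : St_TAL) (hFRS : St_FRS) (hSQI : St_SQI) :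
    St_EXT := by
  intro L U V _ _ j hx ι κ _ _ A A' C B hBc hA hB
  have := hx.cu.mon.ctb
  have : Countable B := hBc.to_subtype
  obtain ⟨C', hC'⟩ := hx.sat κ (ι ⊕ (B ⊕ U)) (Sum.elim A' (Sum.elim (fun b : B => (b : V)) j))
    (range fun c : EXT_Cd j A C B => c.fml) (fun G hG hGf => by
      choose g hg using fun φ : G => hG φ.2
      have := hGf.to_subtype
      obtain ⟨C', hC'⟩ := EXT_sat hFEQ hFEV hRXT hFRB hTEN hTAL hFRS hSQI hx A A' C B hA hB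
        (range g) (Set.finite_range g)
      refine ⟨C', fun φ hφ => ?_⟩
      have h1 : (g ⟨φ, hφ⟩).fml = φ := hg ⟨φ, hφ⟩
      have h2 := (EXT_Cd.real _ A' C').2 (hC' _ ⟨⟨φ, hφ⟩, rfl⟩)
      rw [h1] at h2
      exact h2)
  have hC : ∀ c : EXT_Cd j A C B, er c.E (Sum.elim (Sum.elim A' C' ∘ c.f)
      (fun i => (c.l i : V))) (j ∘ c.u) := fun c =>
    (EXT_Cd.real c A' C').1 (hC' _ ⟨c, rfl⟩)
  refine ⟨C', fun n f => ?_, fun m n a b ha hb => ?_⟩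
  · exact (EXT_end hFEV hFRB hTEN hTAL hx A A' C C' B hC n 0 f Fin.elim0).1
  · choose f hf using ha
    have h1 := (EXT_end hFEV hFRB hTEN hTAL hx A A' C C' B hC m n f
      (fun i => ⟨b i, hb i⟩)).2
    have h2 : Sum.elim A' C' ∘ f = a := funext hf
    rw [h2] at h1
    exact h1

end Pool.Agent.MST
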