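import Pool.Agent.MST.StA

/-!
MST module FEV (helper21): finite equivalence relations in `U`, `V` and elementary submodels.
-/

set_option autoImplicit false

namespace Pool.Agent.MST

open FirstOrder.Language Set
open scoped FirstOrder
open Pool.Agent.WOM (tp Mon IsEl IsoM Fam)

variable {L : FirstOrder.Language.{0, 0}}

/-- `x` is not equivalent to any of the `y k` -/
private noncomputable def FEV_f {α : Type} (κ : Type) [Finite κ] (E : L.Formula (α ⊕ α)) :
    L.Formula (α ⊕ κ × α) :=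
  FirstOrder.Language.Formula.iInf fun k : κ =>
    (E.relabel (Sum.map id (fun i => (k, i)) : α ⊕ α → α ⊕ κ × α)).not

private theorem FEV_f_real {M α κ : Type} [L.Structure M] [Finite κ] (E : L.Formula (α ⊕ α))
    (x : α → M) (y : κ → α → M) :
    (FEV_f κ E).Realize (Sum.elim x (fun q : κ × α => y q.1 q.2)) ↔ ∀ k, ¬ er E x (y k) := by
  unfold FEV_f er
  rw [FirstOrder.Language.Formula.realize_iInf]
  refine forall_congr' fun k => ?_
  rw [FirstOrder.Language.Formula.realize_not, FirstOrder.Language.Formula.realize_relabel]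
  have h : (Sum.elim x (fun q : κ × α => y q.1 q.2) : α ⊕ κ × α → M) ∘
      (Sum.map id (fun i => (k, i)) : α ⊕ α → α ⊕ κ × α) = Sum.elim x (y k) := by
    funext z
    rcases z with z | z <;> rfl
  rw [h]

/-- transfer of universal statements -/
private theorem FEV_all {U V : Type} [L.Structure U] [L.Structure V] (j : U ↪ₑ[L] V) {δ : Type}
    [Finite δ] (ψ : L.Formula δ) : (∀ x : δ → U, ψ.Realize x) ↔ ∀ x : δ → V, ψ.Realize x := by
  constructor
  · intro h x
    by_contra hx
    obtain ⟨y, hy⟩ := emb_ex (β := Empty) j (ψ.not.relabel (Sum.inl : δ → δ ⊕ Empty)) Empty.elim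
      ⟨x, by
        rw [FirstOrder.Language.Formula.realize_relabel]
        exact hx⟩
    rw [FirstOrder.Language.Formula.realize_relabel] at hy
    exact hy (h y)
  · intro h x
    exact (emb_real j ψ x).1 (h _)

private theorem FEV_refl {M α : Type} [L.Structure M] (E : L.Formula (α ⊕ α)) :
    (∀ x : α → M, (E.relabel (Sum.elim id id : α ⊕ α → α)).Realize x) ↔
      ∀ x : α → M, er E x x := by
  refine forall_congr' fun x => ?_
  rw [FirstOrder.Language.Formula.realize_relabel]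
  have h : x ∘ (Sum.elim id id : α ⊕ α → α) = Sum.elim x x := by
    funext z
    rcases z with z | z <;> rfl
  rw [h]
  rfl

private theorem FEV_symm {M α : Type} [L.Structure M] (E : L.Formula (α ⊕ α)) :
    (∀ x : α ⊕ α → M, (E.imp (E.relabel Sum.swap)).Realize x) ↔
      ∀ x y : α → M, er E x y → er E y x := by
  constructor
  · intro h x y hxy
    have h1 := h (Sum.elim x y)
    rw [FirstOrder.Language.Formula.realize_imp, FirstOrder.Language.Formula.realize_relabel] at h1
    have h2 := h1 hxy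
    have h3 : (Sum.elim x y : α ⊕ α → M) ∘ Sum.swap = Sum.elim y x := by
      funext z
      rcases z with z | z <;> rfl
    rw [h3] at h2
    exact h2
  · intro h x
    rw [FirstOrder.Language.Formula.realize_imp, FirstOrder.Language.Formula.realize_relabel]
    intro h1
    have h2 : x = Sum.elim (x ∘ Sum.inl) (x ∘ Sum.inr) := by
      funext z
      rcases z with z | z <;> rfl
    have h3 : x ∘ Sum.swap = Sum.elim (x ∘ Sum.inr) (x ∘ Sum.inl) := by
      funext z
      rcases z with z | z <;> rfl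
    rw [h3]
    rw [h2] at h1
    exact h _ _ h1

/-- the formula for transitivity -/
private noncomputable def FEV_t {α : Type} (E : L.Formula (α ⊕ α)) : L.Formula (α ⊕ (α ⊕ α)) :=
  ((E.relabel (Sum.elim Sum.inl (fun i => Sum.inr (Sum.inl i)) : α ⊕ α → α ⊕ (α ⊕ α))) ⊓
    (E.relabel (Sum.elim (fun i => Sum.inr (Sum.inl i)) (fun i => Sum.inr (Sum.inr i)) :
      α ⊕ α → α ⊕ (α ⊕ α)))).imp
    (E.relabel (Sum.elim Sum.inl (fun i => Sum.inr (Sum.inr i)) : α ⊕ α → α ⊕ (α ⊕ α)))

private theorem FEV_t_real {M α : Type} [L.Structure M] (E : L.Formula (α ⊕ α))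
    (x y z : α → M) : (FEV_t E).Realize (Sum.elim x (Sum.elim y z)) ↔
      (er E x y ∧ er E y z → er E x z) := by
  unfold FEV_t er
  rw [FirstOrder.Language.Formula.realize_imp, FirstOrder.Language.Formula.realize_inf,
    FirstOrder.Language.Formula.realize_relabel, FirstOrder.Language.Formula.realize_relabel,
    FirstOrder.Language.Formula.realize_relabel]
  have h1 : (Sum.elim x (Sum.elim y z) : α ⊕ (α ⊕ α) → M) ∘
      (Sum.elim Sum.inl (fun i => Sum.inr (Sum.inl i)) : α ⊕ α → α ⊕ (α ⊕ α)) =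
      Sum.elim x y := by
    funext w
    rcases w with w | w <;> rfl
  have h2 : (Sum.elim x (Sum.elim y z) : α ⊕ (α ⊕ α) → M) ∘
      (Sum.elim (fun i => Sum.inr (Sum.inl i)) (fun i => Sum.inr (Sum.inr i)) :
        α ⊕ α → α ⊕ (α ⊕ α)) = Sum.elim y z := by
    funext w
    rcases w with w | w <;> rfl
  have h3 : (Sum.elim x (Sum.elim y z) : α ⊕ (α ⊕ α) → M) ∘
      (Sum.elim Sum.inl (fun i => Sum.inr (Sum.inr i)) : α ⊕ α → α ⊕ (α ⊕ α)) =
      Sum.elim x z := by
    funext w
    rcases w with w | w <;> rfl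
  rw [h1, h2, h3]

private theorem FEV_trans {M α : Type} [L.Structure M] (E : L.Formula (α ⊕ α)) :
    (∀ x : α ⊕ (α ⊕ α) → M, (FEV_t E).Realize x) ↔
      ∀ x y z : α → M, er E x y → er E y z → er E x z := by
  constructor
  · intro h x y z hxy hyz
    exact (FEV_t_real E x y z).1 (h _) ⟨hxy, hyz⟩
  · intro h x
    have h2 : x = Sum.elim (x ∘ Sum.inl) (Sum.elim (x ∘ Sum.inr ∘ Sum.inl)
        (x ∘ Sum.inr ∘ Sum.inr)) := by
      funext z
      rcases z with z | z | z <;> rfl
    rw [h2, FEV_t_real]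
    exact fun h3 => h _ _ _ h3.1 h3.2

/-- representatives in an elementary set of tuples -/
private theorem FEV_rep {M α : Type} [L.Structure M] {E : L.Formula (α ⊕ α)} (hE : FE M E)
    (P : Set (α → M)) (hP : ∀ (κ : Type) [Finite κ] (y : κ → α → M), (∀ k, y k ∈ P) →
      (∃ x : α → M, ∀ k, ¬ er E x (y k)) → ∃ x ∈ P, ∀ k, ¬ er E x (y k)) (v : α → M) :
    ∃ m ∈ P, er E v m := by
  by_contra hcon
  push Not at hcon
  obtain ⟨F, hF, hF1⟩ := hE.fin
  let κ : Type := {f : α → M // f ∈ F ∧ ∃ p ∈ P, er E p f}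
  have hκ : Finite κ := (hF.subset (fun f (hf : f ∈ F ∧ ∃ p ∈ P, er E p f) => hf.1)).to_subtype
  have hy : ∀ k : κ, ∃ p : α → M, p ∈ P ∧ er E p k.1 := fun k => k.2.2
  choose y hy1 hy2 using hy
  obtain ⟨x, hx, hx1⟩ := hP κ y hy1 ⟨v, fun k => hcon _ (hy1 k)⟩
  obtain ⟨f, hf, hxf⟩ := hF1 x
  exact hx1 ⟨f, hf, x, hx, hxf⟩ (hE.trans _ _ _ hxf (hE.symm _ _ (hy2 ⟨f, hf, x, hx, hxf⟩)))

/-- classes of the large model have representatives in the small model -/
private theorem FEV_emb {U V α : Type} [L.Structure U] [L.Structure V] [Finite α]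
    (j : U ↪ₑ[L] V) {E : L.Formula (α ⊕ α)} {F : Set (α → U)} (hF : F.Finite)
    (hF1 : ∀ x : α → U, ∃ y ∈ F, er E x y) (x : α → V) : ∃ y ∈ F, er E x (j ∘ y) := by
  by_contra hcon
  push Not at hcon
  have hκ : Finite F := hF.to_subtype
  obtain ⟨z, hz⟩ := emb_ex j (FEV_f F E) (fun q : F × α => (q.1 : α → U) q.2) ⟨x, by
    have h1 := (FEV_f_real (κ := F) E x (fun k => j ∘ (k : α → U))).2 fun k => hcon k.1 k.2
    exact h1⟩
  have h2 := (FEV_f_real (κ := F) E z (fun k => (k : α → U))).1 hz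
  obtain ⟨y, hy, hy1⟩ := hF1 z
  exact h2 ⟨y, hy⟩ hy1

/-- [FEV] finite equivalence relations in `U`, `V` and elementary submodels -/
theorem thm_FEV (hELX : St_ELX) : St_FEV := by
  intro L U V _ _ j α _ E
  have h1 : FE U E → FE V E := fun h =>
    { refl := (FEV_refl E).1 ((FEV_all j _).1 ((FEV_refl E).2 h.refl))
      symm := (FEV_symm E).1 ((FEV_all j _).1 ((FEV_symm E).2 h.symm))
      trans := (FEV_trans E).1 ((FEV_all j _).1 ((FEV_trans E).2 h.trans))
      fin := by
        obtain ⟨F, hF, hF1⟩ := h.fin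
        refine ⟨(fun y => j ∘ y) '' F, hF.image _, fun x => ?_⟩
        obtain ⟨y, hy, hy1⟩ := FEV_emb j hF hF1 x
        exact ⟨_, mem_image_of_mem _ hy, hy1⟩ }
  have h2 : FE V E → FE U E := fun h =>
    { refl := fun x => (emb_er j E x x).1 (h.refl _)
      symm := fun x y hxy => (emb_er j E y x).1 (h.symm _ _ ((emb_er j E x y).2 hxy))
      trans := fun x y z hxy hyz => (emb_er j E x z).1
        (h.trans _ _ _ ((emb_er j E x y).2 hxy) ((emb_er j E y z).2 hyz))
      fin := by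
        obtain ⟨F, hF, hF1⟩ := h.fin
        let κ : Type := {f : α → V // f ∈ F ∧ ∃ u : α → U, er E (j ∘ u) f}
        have hκ : Finite κ :=
          (hF.subset (fun f (hf : f ∈ F ∧ ∃ u : α → U, er E (j ∘ u) f) => hf.1)).to_subtype
        have hy : ∀ k : κ, ∃ u : α → U, er E (j ∘ u) k.1 := fun k => k.2.2
        choose u hu using hy
        refine ⟨range u, finite_range u, fun x => ?_⟩
        obtain ⟨f, hf, hxf⟩ := hF1 (j ∘ x)
        refine ⟨u ⟨f, hf, x, hxf⟩, mem_range_self _, ?_⟩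
        exact (emb_er j E x _).1 (h.trans _ _ _ hxf (h.symm _ _ (hu ⟨f, hf, x, hxf⟩))) }
  refine ⟨⟨h1, h2⟩, fun h v => ?_, fun h M hM v => ?_⟩
  · obtain ⟨F, hF, hF1⟩ := (h2 h).fin
    obtain ⟨y, hy, hy1⟩ := FEV_emb j hF hF1 v
    exact ⟨y, hy1⟩
  · obtain ⟨m, hm, hm1⟩ := FEV_rep h {x : α → V | ∀ i, x i ∈ M} (fun κ _ y hy hx => by
      obtain ⟨x, hx⟩ := hx
      obtain ⟨z, hz, hz1⟩ := (hELX L V).1 M hM α (κ × α) (FEV_f κ E)
        (fun q => y q.1 q.2) (fun q => hy q.1 q.2) ⟨x, (FEV_f_real E x y).2 hx⟩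
      exact ⟨z, hz, (FEV_f_real E z y).1 hz1⟩) v
    exact ⟨m, hm, hm1⟩

end Pool.Agent.MST
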