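import Pool.Agent.MST.StA

/-!
MST, module FRB: properties of `fr`.
-/

set_option autoImplicit false

namespace Pool.Agent.MST

open FirstOrder.Language Set
open scoped FirstOrder

/-- [FRB] Properties of `fr`. -/
theorem thm_FRB (hFEQ : St_FEQ) (hFEV : St_FEV) (hRXT : St_RXT) (hEXF : St_EXF)
    (hUNF : St_UNF) : St_FRB := by
  intro L U V _ _ j hC
  have huniq : ∀ (α : Type) [Finite α] (a : α → V) (p : Set (Set (α → U))), Bd L p → Hs j a p →
      fr j a = p := by
    intro α _ a p hp ha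
    ext s
    constructor
    · rintro ⟨p', hp', ha', hs⟩
      rwa [hUNF L U V j hC α a p p' hp hp' ha ha']
    · intro hs
      exact ⟨p, hp, ha, hs⟩
  intro α _ a
  obtain ⟨p₀, hp₀, ha₀⟩ := hEXF L U V j hC α a
  have hfr := huniq α a p₀ hp₀ ha₀
  have hBd : Bd L (fr j a) := by rw [hfr]; exact hp₀
  have hHs : Hs j a (fr j a) := by rw [hfr]; exact ha₀
  refine ⟨hBd, hHs, huniq α a, ?_, ?_, ?_⟩
  · -- formulas
    intro φ
    have hE : FE U (fmE φ) := (hFEQ L U).2.2.1 α φ
    obtain ⟨h1, h2, -⟩ := hFEV L U V j α (fmE φ)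
    obtain ⟨u, hu⟩ := h2 (h1.1 hE) a
    have h3 := hHs (fmE φ) hE u hu
    rw [er_fmE, emb_real] at hu
    constructor
    · intro h4
      by_contra h5
      obtain ⟨x, hx, hx'⟩ := hBd.ty.nonempty (hBd.ty.inter _ h3 _ h4)
      have h6 : er (fmE φ) x u := hx
      rw [er_fmE] at h6
      have h7 : φ.Realize x := hx'
      exact h5 (hu.2 (h6.1 h7))
    · intro h4
      refine hBd.ty.mono h3 (fun x hx => ?_) (Dfp.rs φ)
      have h6 : er (fmE φ) x u := hx
      rw [er_fmE] at h6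
      exact h6.2 (hu.1 h4)
  · -- strong types
    intro a'
    constructor
    · intro h
      refine (huniq α a' (fr j a) hBd fun E hE u hu => hHs E hE u ?_).symm
      have hEV : FE V E := (hFEV L U V j α E).1.1 hE
      exact hEV.trans _ _ _ (h E hEV) hu
    · intro h E hE
      obtain ⟨h1, h2, -⟩ := hFEV L U V j α E
      have hEU := h1.2 hE
      obtain ⟨u, hu⟩ := h2 hE a
      obtain ⟨u', hu'⟩ := h2 hE a'
      have h3 := hHs E hEU u hu
      obtain ⟨p₁, hp₁, ha₁⟩ := hEXF L U V j hC α a'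
      have hHs' : Hs j a' (fr j a') := by
        rw [huniq α a' p₁ hp₁ ha₁]
        exact ha₁
      have h4 := hHs' E hEU u' hu'
      rw [← h] at h4
      obtain ⟨x, hx, hx'⟩ := hBd.ty.nonempty (hBd.ty.inter _ h3 _ h4)
      have h5 : er E u u' := hEU.trans _ _ _ (hEU.symm _ _ hx) hx'
      have h6 := (emb_er j E u u').2 h5
      exact hE.trans _ _ _ hu (hE.trans _ _ _ h6 (hE.symm _ _ hu'))
  · -- reindexing
    intro β _ f
    have hR := (hRXT L U α β f (fr j a)).2.1 hBd
    refine huniq β (a ∘ f) _ hR fun E hE u hu => ⟨Dfp.er E u, ?_⟩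
    have hEV : FE V E := (hFEV L U V j β E).1.1 hE
    have hP : FE U (pbE f E) := (hFEQ L U).2.1 β α f E hE
    obtain ⟨h1, h2, -⟩ := hFEV L U V j α (pbE f E)
    obtain ⟨w, hw⟩ := h2 (h1.1 hP) a
    have h3 := hHs (pbE f E) hP w hw
    rw [er_pbE] at hw
    have h4 : er E (w ∘ f) u := by
      rw [← emb_er j]
      exact hEV.trans _ _ _ (hEV.symm _ _ hw) hu
    refine hBd.ty.mono h3 (fun x hx => ?_) ((Dfp.er E u).pre f)
    have h5 : er (pbE f E) x w := hx
    rw [er_pbE] at h5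
    exact hE.trans _ _ _ h5 h4

end Pool.Agent.MST
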