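import Pool.Agent.MST.Defs

/-!
MST: basic lemmas (helper47).
-/

set_option autoImplicit false

namespace Pool.Agent.MST

open FirstOrder.Language Set
open scoped FirstOrder
open Pool.Agent.WOM (tp Mon IsEl IsoM Fam)

variable {L : FirstOrder.Language.{0, 0}}

/-! ### Definable sets -/

section dfp

variable {M : Type} [L.Structure M] {α β γ : Type}

/-- parameters indexed by any finite type -/
theorem Dfp.of [Finite β] (φ : L.Formula (α ⊕ β)) (b : β → M) :
    Dfp L {v : α → M | φ.Realize (Sum.elim v b)} := by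
  obtain ⟨n, ⟨e⟩⟩ := Finite.exists_equiv_fin β
  refine ⟨n, φ.relabel (Sum.map id e), b ∘ e.symm, fun v => ?_⟩
  have h : (Sum.elim v (b ∘ e.symm) : α ⊕ Fin n → M) ∘ (Sum.map id e) = Sum.elim v b := by
    funext x
    rcases x with x | x
    · rfl
    · simp
  rw [FirstOrder.Language.Formula.realize_relabel, h]
  rfl

/-- sets definable without parameters -/
theorem Dfp.rs (φ : L.Formula α) : Dfp L (rs M φ) := by
  refine ⟨0, φ.relabel Sum.inl, Fin.elim0, fun v => ?_⟩
  rw [FirstOrder.Language.Formula.realize_relabel]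
  rfl

theorem Dfp.compl {s : Set (α → M)} (h : Dfp L s) : Dfp L sᶜ := by
  obtain ⟨n, φ, b, hφ⟩ := h
  refine ⟨n, φ.not, b, fun v => ?_⟩
  rw [FirstOrder.Language.Formula.realize_not, ← hφ]
  rfl

theorem Dfp.inter {s t : Set (α → M)} (hs : Dfp L s) (ht : Dfp L t) : Dfp L (s ∩ t) := by
  obtain ⟨m, φ, b, hφ⟩ := hs
  obtain ⟨n, ψ, c, hψ⟩ := ht
  have key := Dfp.of (L := L) (M := M) (α := α) (β := Fin m ⊕ Fin n)
    (φ.relabel (Sum.map id Sum.inl) ⊓ ψ.relabel (Sum.map id Sum.inr)) (Sum.elim b c)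
  have h : {v : α → M | (φ.relabel (Sum.map id Sum.inl) ⊓ ψ.relabel (Sum.map id Sum.inr) :
      L.Formula (α ⊕ (Fin m ⊕ Fin n))).Realize (Sum.elim v (Sum.elim b c))} = s ∩ t := by
    ext v
    have h1 : (Sum.elim v (Sum.elim b c) : α ⊕ (Fin m ⊕ Fin n) → M) ∘ (Sum.map id Sum.inl) =
        Sum.elim v b := by
      funext x
      rcases x with x | x <;> rfl
    have h2 : (Sum.elim v (Sum.elim b c) : α ⊕ (Fin m ⊕ Fin n) → M) ∘ (Sum.map id Sum.inr) =
        Sum.elim v c := by
      funext x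
      rcases x with x | x <;> rfl
    rw [mem_ofPred_eq, FirstOrder.Language.Formula.realize_inf,
      FirstOrder.Language.Formula.realize_relabel, FirstOrder.Language.Formula.realize_relabel,
      h1, h2, ← hφ, ← hψ]
    rfl
  rw [h] at key
  exact key

theorem Dfp.union {s t : Set (α → M)} (hs : Dfp L s) (ht : Dfp L t) : Dfp L (s ∪ t) := by
  have h := (hs.compl.inter ht.compl).compl
  rwa [compl_inter, compl_compl, compl_compl] at h

theorem Dfp.univ : Dfp L (Set.univ : Set (α → M)) := by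
  refine ⟨0, ⊤, Fin.elim0, fun v => ?_⟩
  simp

theorem Dfp.empty : Dfp L (∅ : Set (α → M)) := by
  have h := (Dfp.univ (L := L) (M := M) (α := α)).compl
  rwa [compl_univ] at h

/-- reindexing -/
theorem Dfp.pre {s : Set (α → M)} (hs : Dfp L s) (f : α → β) : Dfp L {v : β → M | v ∘ f ∈ s} := by
  obtain ⟨n, φ, b, hφ⟩ := hs
  refine ⟨n, φ.relabel (Sum.map f id), b, fun v => ?_⟩
  have h : (Sum.elim v b : β ⊕ Fin n → M) ∘ (Sum.map f id) = Sum.elim (v ∘ f) b := by
    funext x
    rcases x with x | x <;> rfl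
  rw [FirstOrder.Language.Formula.realize_relabel, h, ← hφ]
  rfl

theorem Dfp.fst [Finite β] {s : Set (α ⊕ β → M)} (hs : Dfp L s) (b : β → M) :
    Dfp L {a : α → M | Sum.elim a b ∈ s} := by
  obtain ⟨n, φ, c, hφ⟩ := hs
  have key := Dfp.of (L := L) (M := M) (α := α) (β := β ⊕ Fin n)
    (φ.relabel (Equiv.sumAssoc α β (Fin n))) (Sum.elim b c)
  have h : {v : α → M | (φ.relabel (Equiv.sumAssoc α β (Fin n)) :
      L.Formula (α ⊕ (β ⊕ Fin n))).Realize (Sum.elim v (Sum.elim b c))} =
      {a : α → M | Sum.elim a b ∈ s} := by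
    ext v
    have h1 : (Sum.elim v (Sum.elim b c) : α ⊕ (β ⊕ Fin n) → M) ∘ (Equiv.sumAssoc α β (Fin n)) =
        Sum.elim (Sum.elim v b) c := by
      funext x
      rcases x with (x | x) | x <;> rfl
    rw [mem_ofPred_eq, FirstOrder.Language.Formula.realize_relabel, h1, ← hφ]
    rfl
  rw [h] at key
  exact key

theorem Dfp.snd [Finite α] {s : Set (α ⊕ β → M)} (hs : Dfp L s) (a : α → M) :
    Dfp L {b : β → M | Sum.elim a b ∈ s} := by
  have h := (hs.pre (Sum.swap : α ⊕ β → β ⊕ α)).fst a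
  have h1 : {b : β → M | Sum.elim b a ∈ {v : β ⊕ α → M | v ∘ Sum.swap ∈ s}} =
      {b : β → M | Sum.elim a b ∈ s} := by
    ext b
    have h2 : (Sum.elim b a : β ⊕ α → M) ∘ Sum.swap = Sum.elim a b := by
      funext x
      rcases x with x | x <;> rfl
    simp only [mem_ofPred_eq, h2]
  rwa [h1] at h

/-- existential quantification over the first variables -/
theorem Dfp.ex [Finite α] {s : Set (α ⊕ β → M)} (hs : Dfp L s) :
    Dfp L {b : β → M | ∃ a : α → M, Sum.elim a b ∈ s} := by
  obtain ⟨n, φ, c, hφ⟩ := hs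
  refine ⟨n, (φ.relabel (Sum.elim (Sum.elim (fun a => Sum.inr a) (fun b => Sum.inl (Sum.inl b)))
    (fun c => Sum.inl (Sum.inr c)) : (α ⊕ β) ⊕ Fin n → (β ⊕ Fin n) ⊕ α)).iExs α, c, fun b => ?_⟩
  rw [FirstOrder.Language.Formula.realize_iExs]
  constructor
  · rintro ⟨a, ha⟩
    refine ⟨a, ?_⟩
    rw [FirstOrder.Language.Formula.realize_relabel]
    have h1 := (hφ _).1 ha
    have h2 : (fun x => Sum.elim (Sum.elim b c) a x) ∘ (Sum.elim (Sum.elim (fun a => Sum.inr a)
      (fun b => Sum.inl (Sum.inl b))) (fun c => Sum.inl (Sum.inr c)) :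
        (α ⊕ β) ⊕ Fin n → (β ⊕ Fin n) ⊕ α) = Sum.elim (Sum.elim a b) c := by
      funext x
      rcases x with (x | x) | x <;> rfl
    rw [h2]
    exact h1
  · rintro ⟨a, ha⟩
    refine ⟨a, (hφ _).2 ?_⟩
    rw [FirstOrder.Language.Formula.realize_relabel] at ha
    have h2 : (fun x => Sum.elim (Sum.elim b c) a x) ∘ (Sum.elim (Sum.elim (fun a => Sum.inr a)
      (fun b => Sum.inl (Sum.inl b))) (fun c => Sum.inl (Sum.inr c)) :
        (α ⊕ β) ⊕ Fin n → (β ⊕ Fin n) ⊕ α) = Sum.elim (Sum.elim a b) c := by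
      funext x
      rcases x with (x | x) | x <;> rfl
    rw [h2] at ha
    exact ha

theorem Dfp.biUnion {ι : Type} {F : Set ι} (hF : F.Finite) {s : ι → Set (α → M)}
    (hs : ∀ i ∈ F, Dfp L (s i)) : Dfp L (⋃ i ∈ F, s i) := by
  induction F, hF using Set.Finite.induction_on with
  | empty => simpa using (Dfp.empty (L := L) (M := M) (α := α))
  | @insert a F _ _ ih =>
    rw [biUnion_insert]
    exact (hs a (mem_insert _ _)).union (ih fun i hi => hs i (mem_insert_of_mem _ hi))

/-- sections of a formula -/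
theorem Dfp.er [Finite α] (E : L.Formula (α ⊕ α)) (u : α → M) : Dfp L {x : α → M | er E x u} :=
  Dfp.of E u

end dfp

/-! ### Automorphisms -/

section act

variable {M : Type} [L.Structure M] {α β γ : Type}

theorem mem_act (g : M ≃[L] M) (s : Set (α → M)) (v : α → M) :
    v ∈ act g s ↔ (fun i => g.symm (v i)) ∈ s := Iff.rfl

theorem realize_aut (g : M ≃[L] M) (φ : L.Formula α) (v : α → M) :
    φ.Realize (fun i => g (v i)) ↔ φ.Realize v :=
  FirstOrder.Language.StrongHomClass.realize_formula g φ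

theorem act_rs (g : M ≃[L] M) (φ : L.Formula α) : act g (rs M φ) = rs M φ := by
  ext v
  exact realize_aut g.symm φ v

theorem act_symm_act (g : M ≃[L] M) (s : Set (α → M)) : act g.symm (act g s) = s := by
  ext v
  have h : (fun i => g.symm (g.symm.symm (v i))) = v := by
    funext i
    exact g.symm_apply_apply (v i)
  rw [mem_act, mem_act, h]

theorem act_act_symm (g : M ≃[L] M) (s : Set (α → M)) : act g (act g.symm s) = s := by
  ext v
  have h : (fun i => g.symm.symm (g.symm (v i))) = v := by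
    funext i
    exact g.apply_symm_apply (v i)
  rw [mem_act, mem_act, h]

theorem act_inter (g : M ≃[L] M) (s t : Set (α → M)) : act g (s ∩ t) = act g s ∩ act g t := rfl

theorem act_compl (g : M ≃[L] M) (s : Set (α → M)) : act g sᶜ = (act g s)ᶜ := rfl

theorem Dfp.act {s : Set (α → M)} (hs : Dfp L s) (g : M ≃[L] M) : Dfp L (act g s) := by
  obtain ⟨n, φ, b, hφ⟩ := hs
  refine ⟨n, φ, fun i => g (b i), fun v => ?_⟩
  rw [mem_act, hφ, ← realize_aut g]
  have h : (fun i => g ((Sum.elim (fun i => g.symm (v i)) b : α ⊕ Fin n → M) i)) =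
      Sum.elim v (fun i => g (b i)) := by
    funext x
    rcases x with x | x
    · exact g.apply_symm_apply (v x)
    · rfl
  rw [h]

/-- explicit form of the image of a definable set -/
theorem act_of (g : M ≃[L] M) (φ : L.Formula (α ⊕ β)) (b : β → M) :
    MST.act g {v : α → M | φ.Realize (Sum.elim v b)} =
      {v : α → M | φ.Realize (Sum.elim v (fun i => g (b i)))} := by
  ext v
  rw [mem_act, mem_ofPred_eq, mem_ofPred_eq, ← realize_aut g]
  have h : (fun i => g ((Sum.elim (fun i => g.symm (v i)) b : α ⊕ β → M) i)) =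
      Sum.elim v (fun i => g (b i)) := by
    funext x
    rcases x with x | x
    · exact g.apply_symm_apply (v x)
    · rfl
  rw [h]

theorem IsTy.acT {p : Set (Set (α → M))} (hp : IsTy L p) (g : M ≃[L] M) : IsTy L (acT g p) where
  dfn s hs := by
    have h := (hp.dfn _ hs).act g
    rwa [act_act_symm] at h
  ne h := hp.ne h
  inter s hs t ht := hp.inter _ hs _ ht
  em s hs := hp.em _ (hs.act g.symm)

/-- the fibres of the image of a type -/
theorem fib_acT (g : M ≃[L] M) (p : Set (Set (α → M))) (s : Set (α ⊕ β → M)) :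
    fib (acT g p) (MST.act g s) = MST.act g (fib p s) := by
  ext b
  have h : MST.act g.symm {a : α → M | Sum.elim a b ∈ MST.act g s} =
      {a : α → M | Sum.elim a (fun i => g.symm (b i)) ∈ s} := by
    ext a
    rw [mem_act, mem_ofPred_eq, mem_ofPred_eq, mem_act]
    have h1 : (fun i => g.symm ((Sum.elim (fun i => g.symm.symm (a i)) b : α ⊕ β → M) i)) =
        Sum.elim a (fun i => g.symm (b i)) := by
      funext x
      rcases x with x | x
      · exact g.symm_apply_apply (a x)
      · rfl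
    rw [h1]
  change MST.act g.symm {a : α → M | Sum.elim a b ∈ MST.act g s} ∈ p ↔ _
  rw [h]
  rfl

theorem fib_acT_rs (g : M ≃[L] M) (p : Set (Set (α → M))) (φ : L.Formula (α ⊕ β)) :
    fib (acT g p) (rs M φ) = MST.act g (fib p (rs M φ)) := by
  have h := fib_acT g p (rs M φ)
  rwa [act_rs] at h

end act

/-! ### Types -/

section ty

variable {M : Type} [L.Structure M] {α β γ : Type} {p : Set (Set (α → M))}

theorem IsTy.univ (hp : IsTy L p) : Set.univ ∈ p := by
  rcases hp.em _ Dfp.univ with h | h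
  · exact h
  · rw [compl_univ] at h
    exact absurd h hp.ne

theorem IsTy.mono (hp : IsTy L p) {s t : Set (α → M)} (hs : s ∈ p) (h : s ⊆ t) (ht : Dfp L t) :
    t ∈ p := by
  rcases hp.em _ ht with h1 | h1
  · exact h1
  · have h2 := hp.inter _ hs _ h1
    have h3 : s ∩ tᶜ = ∅ := by
      rw [← disjoint_iff_inter_eq_empty]
      exact disjoint_compl_right.mono_left h
    rw [h3] at h2
    exact absurd h2 hp.ne

theorem IsTy.nonempty (hp : IsTy L p) {s : Set (α → M)} (hs : s ∈ p) : s.Nonempty := by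
  rw [nonempty_iff_ne_empty]
  rintro rfl
  exact hp.ne hs

theorem IsTy.compl_mem (hp : IsTy L p) {s : Set (α → M)} (hs : Dfp L s) : sᶜ ∈ p ↔ s ∉ p := by
  constructor
  · intro h h1
    have h2 := hp.inter _ h1 _ h
    rw [inter_compl_self] at h2
    exact hp.ne h2
  · intro h
    exact (hp.em _ hs).resolve_left h

theorem IsTy.inter_mem (hp : IsTy L p) {s t : Set (α → M)} (hs : Dfp L s) (ht : Dfp L t) :
    s ∩ t ∈ p ↔ s ∈ p ∧ t ∈ p :=
  ⟨fun h => ⟨hp.mono h inter_subset_left hs, hp.mono h inter_subset_right ht⟩,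
    fun h => hp.inter _ h.1 _ h.2⟩

theorem IsTy.union_mem (hp : IsTy L p) {s t : Set (α → M)} (hs : Dfp L s) (ht : Dfp L t) :
    s ∪ t ∈ p ↔ s ∈ p ∨ t ∈ p := by
  constructor
  · intro h
    by_contra h1
    rw [not_or] at h1
    have h2 := hp.inter _ ((hp.compl_mem hs).2 h1.1) _ ((hp.compl_mem ht).2 h1.2)
    rw [← compl_union] at h2
    exact (hp.compl_mem (hs.union ht)).1 h2 h
  · rintro (h | h)
    · exact hp.mono h subset_union_left (hs.union ht)
    · exact hp.mono h subset_union_right (hs.union ht)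

/-- a finite union in a type has a member in the type -/
theorem IsTy.biUnion_mem (hp : IsTy L p) {ι : Type} {F : Set ι} (hF : F.Finite)
    {s : ι → Set (α → M)} (hs : ∀ i ∈ F, Dfp L (s i)) (h : (⋃ i ∈ F, s i) ∈ p) :
    ∃ i ∈ F, s i ∈ p := by
  induction F, hF using Set.Finite.induction_on with
  | empty => simp only [mem_empty_iff_false, iUnion_of_empty, iUnion_empty] at h; exact absurd h hp.ne
  | @insert a F _ hF ih =>
    rw [biUnion_insert] at h
    rcases (hp.union_mem (hs a (mem_insert _ _))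
      (Dfp.biUnion hF fun i hi => hs i (mem_insert_of_mem _ hi))).1 h with h1 | h1
    · exact ⟨a, mem_insert _ _, h1⟩
    · obtain ⟨i, hi, h2⟩ := ih (fun i hi => hs i (mem_insert_of_mem _ hi)) h1
      exact ⟨i, mem_insert_of_mem _ hi, h2⟩

/-- two types, one contained in the other, are equal -/
theorem IsTy.eq_of_subset {q : Set (Set (α → M))} (hp : IsTy L p) (hq : IsTy L q) (h : p ⊆ q) :
    p = q := by
  refine subset_antisymm h fun s hs => ?_
  by_contra h1
  exact (hq.compl_mem (hq.dfn _ hs)).1 (h ((hp.compl_mem (hq.dfn _ hs)).2 h1)) hs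

theorem mem_fib {M α β : Type} (p : Set (Set (α → M))) (s : Set (α ⊕ β → M)) (b : β → M) :
    b ∈ fib p s ↔ {a | Sum.elim a b ∈ s} ∈ p := Iff.rfl

theorem mem_bfi {M α β : Type} (q : Set (Set (β → M))) (s : Set (α ⊕ β → M)) (a : α → M) :
    a ∈ bfi q s ↔ {b | Sum.elim a b ∈ s} ∈ q := Iff.rfl

theorem fib_inter [Finite β] (hp : IsTy L p) {s t : Set (α ⊕ β → M)} (hs : Dfp L s)
    (ht : Dfp L t) : fib p (s ∩ t) = fib p s ∩ fib p t := by
  ext b
  exact hp.inter_mem (hs.fst b) (ht.fst b)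

theorem fib_compl [Finite β] (hp : IsTy L p) {s : Set (α ⊕ β → M)} (hs : Dfp L s) :
    fib p sᶜ = (fib p s)ᶜ := by
  ext b
  exact hp.compl_mem (hs.fst b)

theorem fib_mono [Finite β] (hp : IsTy L p) {s t : Set (α ⊕ β → M)} (h : s ⊆ t)
    (ht : Dfp L t) : fib p s ⊆ fib p t :=
  fun b hb => hp.mono hb (fun _ ha => h ha) (ht.fst b)

end ty

/-! ### Equivalence relations -/

section er

variable {M : Type} [L.Structure M] {α β γ : Type}

theorem er_inf (E E' : L.Formula (α ⊕ α)) (x y : α → M) :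
    er (E ⊓ E') x y ↔ er E x y ∧ er E' x y := by
  unfold er
  rw [FirstOrder.Language.Formula.realize_inf]

theorem er_pbE (f : α → β) (E : L.Formula (α ⊕ α)) (x y : β → M) :
    er (pbE f E) x y ↔ er E (x ∘ f) (y ∘ f) := by
  unfold er pbE
  rw [FirstOrder.Language.Formula.realize_relabel]
  have h : (Sum.elim x y : β ⊕ β → M) ∘ (Sum.map f f) = Sum.elim (x ∘ f) (y ∘ f) := by
    funext z
    rcases z with z | z <;> rfl
  rw [h]

theorem er_fmE (φ : L.Formula α) (x y : α → M) :
    er (fmE φ) x y ↔ (φ.Realize x ↔ φ.Realize y) := by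
  unfold er fmE
  rw [FirstOrder.Language.Formula.realize_iff, FirstOrder.Language.Formula.realize_relabel,
    FirstOrder.Language.Formula.realize_relabel]
  rfl

theorem er_prE [Finite β] (E : L.Formula ((α ⊕ β) ⊕ (α ⊕ β))) (x x' : α → M) :
    er (prE E) x x' ↔ (∀ y : β → M, ∃ y' : β → M, er E (Sum.elim x y) (Sum.elim x' y')) ∧
      (∀ y' : β → M, ∃ y : β → M, er E (Sum.elim x y) (Sum.elim x' y')) := by
  unfold er prE
  rw [FirstOrder.Language.Formula.realize_inf, FirstOrder.Language.Formula.realize_iAlls,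
    FirstOrder.Language.Formula.realize_iAlls]
  refine and_congr (forall_congr' fun y => ?_) (forall_congr' fun y => ?_)
  · rw [FirstOrder.Language.Formula.realize_iExs]
    refine exists_congr fun y' => ?_
    rw [FirstOrder.Language.Formula.realize_relabel]
    have h : (fun a => Sum.elim (fun a => Sum.elim (Sum.elim x x') y a) y' a) ∘ (Sum.elim
      (Sum.elim (fun a => Sum.inl (Sum.inl (Sum.inl a))) (fun b => Sum.inl (Sum.inr b)))
      (Sum.elim (fun a => Sum.inl (Sum.inl (Sum.inr a))) (fun b => Sum.inr b)) :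
        (α ⊕ β) ⊕ (α ⊕ β) → ((α ⊕ α) ⊕ β) ⊕ β) =
        Sum.elim (Sum.elim x y) (Sum.elim x' y') := by
      funext z
      rcases z with (z | z) | (z | z) <;> rfl
    rw [h]
  · rw [FirstOrder.Language.Formula.realize_iExs]
    refine exists_congr fun y' => ?_
    rw [FirstOrder.Language.Formula.realize_relabel]
    have h : (fun a => Sum.elim (fun a => Sum.elim (Sum.elim x x') y a) y' a) ∘ (Sum.elim
      (Sum.elim (fun a => Sum.inl (Sum.inl (Sum.inl a))) (fun b => Sum.inr b))
      (Sum.elim (fun a => Sum.inl (Sum.inl (Sum.inr a))) (fun b => Sum.inl (Sum.inr b))) :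
        (α ⊕ β) ⊕ (α ⊕ β) → ((α ⊕ α) ⊕ β) ⊕ β) =
        Sum.elim (Sum.elim x y') (Sum.elim x' y) := by
      funext z
      rcases z with (z | z) | (z | z) <;> rfl
    rw [h]

theorem act_er [Finite α] (g : M ≃[L] M) (E : L.Formula (α ⊕ α)) (u : α → M) :
    act g {x : α → M | er E x u} = {x : α → M | er E x (fun i => g (u i))} :=
  act_of g E u

end er

/-! ### The embedding -/

section emb

variable {U V : Type} [L.Structure U] [L.Structure V] {α β γ : Type}

theorem comp_elim {γ δ : Type} (h : γ → δ) (x : α → γ) (y : β → γ) :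
    h ∘ (Sum.elim x y : α ⊕ β → γ) = Sum.elim (h ∘ x) (h ∘ y) := by
  funext z
  rcases z with z | z <;> rfl

theorem emb_real (j : U ↪ₑ[L] V) (φ : L.Formula α) (x : α → U) :
    φ.Realize (j ∘ x) ↔ φ.Realize x :=
  j.map_formula φ x

theorem emb_er (j : U ↪ₑ[L] V) (E : L.Formula (α ⊕ α)) (x y : α → U) :
    er E (j ∘ x : α → V) (j ∘ y) ↔ er E x y := by
  unfold er
  rw [← comp_elim, emb_real]

/-- elementary embeddings and existential quantification over finite tuples -/
theorem emb_ex (j : U ↪ₑ[L] V) [Finite α] (φ : L.Formula (α ⊕ β)) (b : β → U)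
    (h : ∃ x : α → V, φ.Realize (Sum.elim x (j ∘ b))) :
    ∃ x : α → U, φ.Realize (Sum.elim x b) := by
  have h1 : ((φ.relabel Sum.swap).iExs α).Realize (j ∘ b : β → V) := by
    rw [FirstOrder.Language.Formula.realize_iExs]
    obtain ⟨x, hx⟩ := h
    refine ⟨x, ?_⟩
    rw [FirstOrder.Language.Formula.realize_relabel]
    have h2 : (fun a => Sum.elim (j ∘ b) x a) ∘ Sum.swap = Sum.elim x (j ∘ b) := by
      funext z
      rcases z with z | z <;> rfl
    rw [h2]
    exact hx
  rw [emb_real, FirstOrder.Language.Formula.realize_iExs] at h1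
  obtain ⟨x, hx⟩ := h1
  refine ⟨x, ?_⟩
  rw [FirstOrder.Language.Formula.realize_relabel] at hx
  have h2 : (fun a => Sum.elim b x a) ∘ Sum.swap = Sum.elim x b := by
    funext z
    rcases z with z | z <;> rfl
  rw [h2] at hx
  exact hx

end emb

end Pool.Agent.MST
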