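import Pool.Agent.MST.StB
import Pool.Agent.MST.Base

/-!
MST, module FRS: the calculus of independence for sets.
-/

set_option autoImplicit false

namespace Pool.Agent.MST

open FirstOrder.Language Set
open scoped FirstOrder

section FRS

variable {L : FirstOrder.Language.{0, 0}} {U V : Type} [L.Structure U] [L.Structure V]
  {j : U ↪ₑ[L] V}

/-- reindexing to arbitrary finite types -/
private theorem FRS_five (hCAL : St_CAL) (hC : Cx L U V) (X Y : Set V) (h : FrS j X Y)
    (α β : Type) [Finite α] [Finite β] (a : α → V) (b : β → V)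
    (ha : ∀ i, a i ∈ X) (hb : ∀ i, b i ∈ Y) : Fr j a b := by
  obtain ⟨m, ⟨e⟩⟩ := Finite.exists_equiv_fin α
  obtain ⟨n, ⟨f⟩⟩ := Finite.exists_equiv_fin β
  have h1 := h m n (a ∘ e.symm) (b ∘ f.symm) (fun i => ha _) (fun i => hb _)
  have h2 := (hCAL L U V j hC).2.1 (Fin m) (Fin n) α β (a ∘ e.symm) (b ∘ f.symm) e f h1
  have e1 : (a ∘ e.symm) ∘ e = a := by
    funext i
    simp
  have e2 : (b ∘ f.symm) ∘ f = b := by
    funext i
    simp
  rwa [e1, e2] at h2

private theorem FRS_empty (hFRB : St_FRB) (hC : Cx L U V) {n : ℕ} (a : Fin 0 → V)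
    (b : Fin n → V) : Fr j a b := by
  unfold Fr
  obtain ⟨hP, -, -, -, -, hPr⟩ := hFRB L U V j hC (Fin 0 ⊕ Fin n) (Sum.elim a b)
  obtain ⟨hp, -⟩ := hFRB L U V j hC (Fin 0) a
  have hb : fr j b = rx L (Sum.inr : Fin n → Fin 0 ⊕ Fin n) (fr j (Sum.elim a b)) := by
    rw [← hPr (Fin n) Sum.inr]
    rfl
  have hfib : ∀ s : Set (Fin 0 ⊕ Fin n → U), Dfp L s →
      fib (fr j a) s = {w : Fin n → U | Sum.elim Fin.elim0 w ∈ s} := by
    intro s hs
    ext w
    have hx : ∀ x : Fin 0 → U, x = Fin.elim0 := fun x => funext fun i => i.elim0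
    rw [mem_fib, mem_ofPred_eq]
    constructor
    · intro h
      obtain ⟨x, hx1⟩ := hp.ty.nonempty h
      have h2 : Sum.elim x w ∈ s := hx1
      rwa [hx x] at h2
    · intro h
      have h3 : {x : Fin 0 → U | Sum.elim x w ∈ s} = Set.univ := by
        ext x
        constructor
        · intro _
          exact mem_univ _
        · intro _
          show Sum.elim x w ∈ s
          rw [hx x]
          exact h
      rw [h3]
      exact hp.ty.univ
  have hback : ∀ s : Set (Fin 0 ⊕ Fin n → U),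
      {v : Fin 0 ⊕ Fin n → U | v ∘ Sum.inr ∈ {w : Fin n → U | Sum.elim Fin.elim0 w ∈ s}} = s := by
    intro s
    ext v
    have h1 : (Sum.elim Fin.elim0 (v ∘ Sum.inr) : Fin 0 ⊕ Fin n → U) = v := by
      funext i
      rcases i with i | i
      · exact i.elim0
      · rfl
    rw [mem_ofPred_eq, mem_ofPred_eq, h1]
  ext s
  constructor
  · intro h
    have hd := hP.ty.dfn s h
    refine ⟨hd, ?_⟩
    rw [hfib s hd, hb]
    refine ⟨hd.snd _, ?_⟩
    rw [hback s]
    exact h
  · rintro ⟨hd, h⟩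
    rw [hfib s hd, hb] at h
    have h1 := h.2
    rw [hback s] at h1
    exact h1

end FRS

/-- [FRS] The calculus of independence for sets. -/
theorem thm_FRS (_ : St_RXT) (hFRB : St_FRB) (hCAL : St_CAL) : St_FRS := by
  intro L U V _ _ j hC
  refine ⟨?_, ?_, ?_, ?_, ?_⟩
  · intro X Y h m n a b ha hb
    exact (hCAL L U V j hC).1 _ _ b a (h n m b a hb ha)
  · intro X Y X' Y' hX hY h m n a b ha hb
    exact h m n a b (fun i => hX (ha i)) (fun i => hY (hb i))
  · intro X Y Z h1 h2 m n a d ha hd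
    have h3 : Fr j a (fun i : {i // d i ∈ Y} => d i) :=
      FRS_five hCAL hC X Y h1 _ _ a _ ha (fun i => i.2)
    have h4 : Fr j (Sum.elim a (fun i : {i // d i ∈ Y} => d i))
        (fun i : {i // ¬ d i ∈ Y} => d i) := by
      refine FRS_five hCAL hC (X ∪ Y) Z h2 _ _ _ _ ?_ ?_
      · rintro (i | i)
        · exact Or.inl (ha i)
        · exact Or.inr i.2
      · intro i
        exact (hd i).resolve_left i.2
    have h5 := (hCAL L U V j hC).2.2.1 _ _ _ _ _ _ h3 h4
    classical
    have h6 := (hCAL L U V j hC).2.1 _ _ (Fin m) (Fin n) _ _ id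
      (fun i => if h : d i ∈ Y then Sum.inl ⟨i, h⟩ else Sum.inr ⟨i, h⟩) h5
    have e1 : (Sum.elim (fun i : {i // d i ∈ Y} => d i) (fun i : {i // ¬ d i ∈ Y} => d i)) ∘
        (fun i => if h : d i ∈ Y then Sum.inl ⟨i, h⟩ else Sum.inr ⟨i, h⟩) = d := by
      funext i
      by_cases h : d i ∈ Y
      · simp [h]
      · simp [h]
    rw [e1] at h6
    exact h6
  · intro Y m n a b ha hb
    rcases Nat.eq_zero_or_pos m with rfl | hm
    · exact FRS_empty hFRB hC a b
    · exact absurd (ha ⟨0, hm⟩) (notMem_empty _)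
  · intro X Y h α β _ _ a b ha hb
    exact FRS_five hCAL hC X Y h α β a b ha hb

end Pool.Agent.MST
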