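import Pool.Agent.MST.StC
import Pool.Agent.MST.Base

/-!
MST: gluing of the atoms (helper73, for helper47).
-/

set_option autoImplicit false

namespace Pool.Agent.MST

open FirstOrder.Language Set
open scoped FirstOrder
open Pool.Agent.WOM (tp Mon IsEl IsoM Fam CtT PerfT ThS)

/-- the bijection glued from bijections of the atoms -/
private theorem GLM_glue {V : Type} {M M' : Set V} {P P' : Set (Set V)}
    (hP : ∀ x ∈ M, ∃ K ∈ P, x ∈ K) (hP' : ∀ x ∈ M', ∃ K ∈ P', x ∈ K)
    (hPM : ∀ K ∈ P, K ⊆ M) (hPM' : ∀ K ∈ P', K ⊆ M')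
    (hu : ∀ K ∈ P, ∀ K' ∈ P, (K ∩ K').Nonempty → K = K')
    (hu' : ∀ K ∈ P', ∀ K' ∈ P', (K ∩ K').Nonempty → K = K')
    (F : P ≃ P') (f : ∀ K : P, ((K : Set V) : Type) ≃ ((F K : Set V) : Type)) :
    ∃ e : M ≃ M', ∀ (K : P) (x : V) (hx : x ∈ (K : Set V)) (hM : x ∈ M),
      ((e ⟨x, hM⟩ : M') : V) = ((f K ⟨x, hx⟩ : (F K : Set V)) : V) := by
  classical
  choose kx hkx using fun x : M => hP x x.2
  have hkP : ∀ x, kx x ∈ P := fun x => (hkx x).1
  have hkm : ∀ x : M, (x : V) ∈ kx x := fun x => (hkx x).2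
  let k : M → P := fun x => ⟨kx x, hkP x⟩
  have hk : ∀ (K : P) (x : M), (x : V) ∈ (K : Set V) → k x = K := by
    intro K x hx
    exact Subtype.ext (hu _ (hkP x) _ K.2 ⟨x, hkm x, hx⟩)
  let e0 : M → M' := fun x => ⟨(f (k x) ⟨x, hkm x⟩ : (F (k x) : Set V)),
    hPM' _ (F (k x)).2 (f (k x) ⟨x, hkm x⟩).2⟩
  have he0 : ∀ (K : P) (x : V) (hx : x ∈ (K : Set V)) (hM : x ∈ M),
      ((e0 ⟨x, hM⟩ : M') : V) = ((f K ⟨x, hx⟩ : (F K : Set V)) : V) := by
    intro K x hx hM
    obtain rfl : k ⟨x, hM⟩ = K := hk K ⟨x, hM⟩ hx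
    rfl
  have hbij : Function.Bijective e0 := by
    constructor
    · intro x y hxy
      have h1 : (F (k x) : Set V) = F (k y) := by
        apply hu' _ (F (k x)).2 _ (F (k y)).2
        refine ⟨(e0 x : M'), (f (k x) ⟨x, hkm x⟩).2, ?_⟩
        rw [hxy]
        exact (f (k y) ⟨y, hkm y⟩).2
      have h2 : k x = k y := F.injective (Subtype.ext h1)
      have hy : (y : V) ∈ (k x : Set V) := by
        rw [h2]
        exact hkm y
      have h3 := he0 (k x) x (hkm x) x.2
      have h4 := he0 (k x) y hy y.2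
      have h5 : f (k x) ⟨x, hkm x⟩ = f (k x) ⟨y, hy⟩ := by
        apply Subtype.ext
        rw [← h3, ← h4]
        exact congrArg _ hxy
      exact Subtype.ext (congrArg (fun z : (k x : Set V) => (z : V)) ((f (k x)).injective h5))
    · intro y
      obtain ⟨K', hK', hy⟩ := hP' y y.2
      let K : P := F.symm ⟨K', hK'⟩
      have hFK : F K = ⟨K', hK'⟩ := F.apply_symm_apply _
      have hy' : (y : V) ∈ (F K : Set V) := by
        rw [hFK]
        exact hy
      refine ⟨⟨(f K).symm ⟨y, hy'⟩, hPM _ K.2 ((f K).symm ⟨y, hy'⟩).2⟩, Subtype.ext ?_⟩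
      rw [he0 K _ ((f K).symm ⟨y, hy'⟩).2]
      exact congrArg (fun z : (F K : Set V) => (z : V)) ((f K).apply_symm_apply ⟨y, hy'⟩)
  refine ⟨Equiv.ofBijective e0 hbij, he0⟩

theorem thm_GLM (hCAL : St_CAL) (hFRS : St_FRS) (hSQI : St_SQI) (hATM : St_ATM) : St_GLM := by
  classical
  intro L U V _ _ j hcx M M' F hF
  obtain ⟨a1, a2, -⟩ := hATM L U V j hcx M
  obtain ⟨b1, b2, -⟩ := hATM L U V j hcx M'
  obtain ⟨q1, q2, q3, q4, -, -, -⟩ := hSQI L V
  choose f hf using hF
  obtain ⟨e, he⟩ := GLM_glue a1 b1 (fun K hK => hK.1) (fun K hK => hK.1) a2 b2 F f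
  have key : ∀ S : Finset (At j M), ∀ (ι : Type) [Finite ι] (a : ι → M),
      (∀ i, ∃ K ∈ S, ((a i : M) : V) ∈ (K : Set V)) →
      Sq L (fun i => ((a i : M) : V)) (fun i => ((e (a i) : M') : V)) := by
    intro S
    induction S using Finset.induction_on with
    | empty =>
      intro ι _ a ha
      have : IsEmpty ι := ⟨fun i => by
        obtain ⟨K, hK, -⟩ := ha i
        simp at hK⟩
      have h1 : (fun i => ((a i : M) : V)) = (fun i => ((e (a i) : M') : V)) :=
        Subsingleton.elim _ _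
      rw [← h1]
      exact (q1 ι _ (fun i => ((a i : M) : V)) (fun i => ((a i : M) : V))).1
    | insert K S hKS ih =>
      intro ι _ a ha
      let α : Type := {i : ι // ((a i : M) : V) ∈ (K : Set V)}
      let β : Type := {i : ι // ¬ ((a i : M) : V) ∈ (K : Set V)}
      have s1 : Sq L (fun i : α => ((a i : M) : V)) (fun i : α => ((e (a i) : M') : V)) := by
        have h1 := q4 _ _ _ (hf K) α (fun i => ⟨((a i : M) : V), i.2⟩)
        have h2 : (fun k : (K : Set V) => ((f K k : (F K : Set V)) : V)) ∘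
            (fun i : α => (⟨((a i : M) : V), i.2⟩ : (K : Set V))) =
            fun i : α => ((e (a i) : M') : V) := by
          funext i
          exact (he K _ i.2 (a i).2).symm
        rw [h2] at h1
        exact h1
      have s2 : Sq L (fun i : β => ((a i : M) : V)) (fun i : β => ((e (a i) : M') : V)) := by
        apply ih β (fun i => a i)
        intro i
        obtain ⟨K', hK', hi⟩ := ha i
        rcases Finset.mem_insert.1 hK' with h | h
        · subst h
          exact absurd hi i.2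
        · exact ⟨K', h, hi⟩
      have t1 : Fr j (fun i : α => ((a i : M) : V)) (fun i : β => ((a i : M) : V)) :=
        (hFRS L U V j hcx).2.2.2.2 _ _ K.2.2.1 α β _ _ (fun i => i.2)
          (fun i => ⟨(a i).2, i.2⟩)
      have t2 : Fr j (fun i : α => ((e (a i) : M') : V)) (fun i : β => ((e (a i) : M') : V)) := by
        refine (hFRS L U V j hcx).2.2.2.2 _ _ (F K).2.2.1 α β _ _ (fun i => ?_)
          (fun i => ⟨(e (a i)).2, fun hmem => i.2 ?_⟩)
        · have h1 := he K _ i.2 (a i).2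
          have h2 : ((e (a i) : M') : V) = _ := h1
          rw [h2]
          exact (f K _).2
        · obtain ⟨K', hK', hi⟩ := a1 _ (a i).2
          have h1 := he ⟨K', hK'⟩ _ hi (a i).2
          have h2 : ((e (a i) : M') : V) ∈ (F ⟨K', hK'⟩ : Set V) := by
            have h3 : ((e (a i) : M') : V) = _ := h1
            rw [h3]
            exact (f _ _).2
          have h3 : F ⟨K', hK'⟩ = F K :=
            Subtype.ext (b2 _ (F ⟨K', hK'⟩).2 _ (F K).2 ⟨_, h2, hmem⟩)
          have h4 : (K : Set V) = K' := congrArg Subtype.val (F.injective h3).symm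
          exact (Set.ext_iff.1 h4 _).2 hi
      have u := (hCAL L U V j hcx).2.2.2.1 α β _ _ _ _ t1 t2 s1 s2
      let σ : ι → α ⊕ β := fun i =>
        if h : ((a i : M) : V) ∈ (K : Set V) then Sum.inl ⟨i, h⟩ else Sum.inr ⟨i, h⟩
      have hσ : ∀ (γ : Type) (g : ι → γ), Sum.elim (fun i : α => g i) (fun i : β => g i) ∘ σ = g := by
        intro γ g
        funext i
        by_cases h : ((a i : M) : V) ∈ (K : Set V)
        · simp only [σ, Function.comp_apply]
          rw [dif_pos h]
          rfl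
        · simp only [σ, Function.comp_apply]
          rw [dif_neg h]
          rfl
      have v := q2 _ _ _ _ σ u
      rw [hσ V (fun i => ((a i : M) : V)), hσ V (fun i => ((e (a i) : M') : V))] at v
      exact v
  refine ⟨e, fun n a => ?_⟩
  have h1 : Sq L (fun i => ((a i : M) : V)) (fun i => ((e (a i) : M') : V)) := by
    choose k hk hk' using fun i => a1 _ (a i).2
    refine key (Finset.univ.image fun i => (⟨k i, hk i⟩ : At j M)) (Fin n) a fun i => ?_
    exact ⟨⟨k i, hk i⟩, Finset.mem_image_of_mem _ (Finset.mem_univ i), hk' i⟩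
  ext φ
  exact q3 _ _ _ h1 φ

end Pool.Agent.MST
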