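import Pool.Agent.MST.StC

/-!
MST, module GLU: models with the same multiplicities are isomorphic.
-/

set_option autoImplicit false

namespace Pool.Agent.MST

open FirstOrder.Language Set
open scoped FirstOrder
open Pool.Agent.WOM (tp Mon IsEl IsoM Fam CtT PerfT ThS)

section glu

variable {L : FirstOrder.Language.{0, 0}} {U V : Type} [L.Structure U] [L.Structure V]
  {j : U ↪ₑ[L] V}

/-- the atoms of a countable set are countably many -/
private theorem GLU_ctb (h1 : St_ATM) (hC : Cx L U V) {M : Set V} (hM : M.Countable) :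
    (At j M).Countable := by
  classical
  have h : ∀ K : At j M, ∃ x : M, (x : V) ∈ (K : Set V) := by
    rintro ⟨K, hK, -, ⟨x, hx⟩, -⟩
    exact ⟨⟨x, hK hx⟩, hx⟩
  choose f hf using h
  have hinj : Function.Injective f := by
    intro K K' hKK
    apply Subtype.ext
    refine (h1 L U V j hC M).2.1 K K.2 K' K'.2 ⟨(f K : V), hf K, ?_⟩
    rw [hKK]
    exact hf K'
  have : Countable M := hM.to_subtype
  exact Set.countable_coe_iff.1 hinj.countable

/-- trivial atoms -/
private theorem GLU_trv (h1 : St_ATM) (h2 : St_APQ) (h3 : St_BAS) (h4 : St_SQI) (hC : Cx L U V)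
    {M M' K : Set V} (hM : CM L M) (hM' : CM L M') (hK : K ∈ At j M) (hT : ¬ NTr j K) :
    {K' ∈ At j M | App L K K'} = {K} ∧ {K' ∈ At j M' | App L K K'} = {K} := by
  classical
  have h5 : ∃ x ∈ K, Trv j x := by
    by_contra hcon
    exact hT fun x hx ht => hcon ⟨x, hx, ht⟩
  obtain ⟨x, hxK, hx⟩ := h5
  obtain ⟨b1, b2, b3⟩ := h3 L U V j hC x hx
  have hat : ∀ N : Set V, CM L N → {x} ∈ At j N := by
    intro N hN
    refine ⟨Set.singleton_subset_iff.2 (b1 N hN.2), b2 _, ⟨x, rfl⟩, fun X hX _ => ?_⟩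
    exact Set.subset_singleton_iff_eq.1 hX
  have hKx : K = {x} := (h1 L U V j hC M).2.1 K hK {x} (hat M hM) ⟨x, hxK, rfl⟩
  subst hKx
  have hone : ∀ N : Set V, CM L N → {K' ∈ At j N | App L {x} K'} = {{x}} := by
    intro N hN
    apply Set.Subset.antisymm
    · rintro K' ⟨hK', f, hf⟩
      show K' = {x}
      have h6 : ∀ k : K', (k : V) = x := by
        intro k
        have h7 : f.symm k = ⟨x, rfl⟩ := Subtype.ext (f.symm k).2
        have h8 : k = f ⟨x, rfl⟩ := by rw [← h7, Equiv.apply_symm_apply]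
        have h9 := (h4 L V).2.2.2.1 _ _ _ hf Unit fun _ => (⟨x, rfl⟩ : ({x} : Set V))
        rw [h8]
        exact b3 _ h9
      have h10 : (f ⟨x, rfl⟩ : V) ∈ K' := (f ⟨x, rfl⟩).2
      rw [h6] at h10
      ext y
      constructor
      · intro hy
        exact h6 ⟨y, hy⟩
      · rintro rfl
        exact h10
    · rintro K' rfl
      exact ⟨hat N hN, (h2 L U V j hC).1 _⟩
  exact ⟨hone M hM, hone M' hM'⟩

end glu

theorem thm_GLU (h1 : St_ATM) (h2 : St_APQ) (h3 : St_BAS) (h4 : St_SQI) (h5 : St_GLM) :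
    St_GLU := by
  classical
  intro L U V _ _ j hC M M' hM hM' hmul
  obtain ⟨a1, a2, a3, -⟩ := h2 L U V j hC
  let s : Setoid (Set V) := ⟨App L, ⟨a1, fun {x y} => a2 x y, fun {x y z} => a3 x y z⟩⟩
  have hcM := GLU_ctb (j := j) h1 hC hM.1
  have hcM' := GLU_ctb (j := j) h1 hC hM'.1
  -- the numbers of the atoms in a class
  have key : ∀ K : Set V, K ∈ At j M ∨ K ∈ At j M' →
      {K' ∈ At j M | App L K K'}.encard = {K' ∈ At j M' | App L K K'}.encard := by
    intro K hK
    by_cases hT : NTr j K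
    · refine hmul K ?_
      rcases hK with hK | hK
      · exact ⟨M, hM, hK, hT⟩
      · exact ⟨M', hM', hK, hT⟩
    · rcases hK with hK | hK
      · obtain ⟨e1, e2⟩ := GLU_trv h1 h2 h3 h4 hC hM hM' hK hT
        rw [e1, e2]
      · obtain ⟨e1, e2⟩ := GLU_trv h1 h2 h3 h4 hC hM' hM hK hT
        rw [e1, e2]
  let p : At j M → Quotient s := fun K => Quotient.mk s (K : Set V)
  let p' : At j M' → Quotient s := fun K => Quotient.mk s (K : Set V)
  have hB : ∀ γ : Quotient s, Nonempty ({K // p K = γ} ≃ {K // p' K = γ}) := by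
    intro γ
    induction γ using Quotient.inductionOn with
    | h K =>
      have e1 : ∀ (N : Set V), Nonempty ({K' : At j N // Quotient.mk s (K' : Set V) =
          Quotient.mk s K} ≃ {K' ∈ At j N | App L K K'}) := by
        intro N
        refine ⟨⟨fun K' => ⟨(K'.1 : Set V), K'.1.2, a2 _ _ (Quotient.exact K'.2)⟩,
          fun K' => ⟨⟨(K' : Set V), K'.2.1⟩, Quotient.sound (a2 _ _ K'.2.2)⟩, fun _ => rfl,
          fun _ => rfl⟩⟩
      obtain ⟨f⟩ := e1 M
      obtain ⟨f'⟩ := e1 M'
      have hen : {K' ∈ At j M | App L K K'}.encard = {K' ∈ At j M' | App L K K'}.encard := by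
        by_cases hne : {K' ∈ At j M | App L K K'}.Nonempty
        · obtain ⟨K', hK', hKK⟩ := hne
          have h6 := key K' (Or.inl hK')
          have h7 : ∀ N : Set V, {K'' ∈ At j N | App L K' K''} = {K'' ∈ At j N | App L K K''} := by
            intro N
            ext K''
            exact and_congr_right fun _ => ⟨fun h => a3 _ _ _ hKK h,
              fun h => a3 _ _ _ (a2 _ _ hKK) h⟩
          rwa [h7, h7] at h6
        · by_cases hne' : {K' ∈ At j M' | App L K K'}.Nonempty
          · obtain ⟨K', hK', hKK⟩ := hne'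
            have h6 := key K' (Or.inr hK')
            have h7 : ∀ N : Set V, {K'' ∈ At j N | App L K' K''} =
                {K'' ∈ At j N | App L K K''} := by
              intro N
              ext K''
              exact and_congr_right fun _ => ⟨fun h => a3 _ _ _ hKK h,
                fun h => a3 _ _ _ (a2 _ _ hKK) h⟩
            rwa [h7, h7] at h6
          · rw [Set.not_nonempty_iff_eq_empty.1 hne, Set.not_nonempty_iff_eq_empty.1 hne']
      have hc1 : {K' ∈ At j M | App L K K'}.Countable := hcM.mono fun _ h => h.1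
      have hc2 : {K' ∈ At j M' | App L K K'}.Countable := hcM'.mono fun _ h => h.1
      have h8 : Cardinal.mk {K' ∈ At j M | App L K K'} =
          Cardinal.mk {K' ∈ At j M' | App L K K'} :=
        Cardinal.toENat_injOn (Set.mem_Iic.2 hc1.le_aleph0) (Set.mem_Iic.2 hc2.le_aleph0) hen
      obtain ⟨g⟩ := Cardinal.eq.1 h8
      exact ⟨f.trans (g.trans f'.symm)⟩
  let e := fun γ => (hB γ).some
  let F : At j M ≃ At j M' := (Equiv.sigmaFiberEquiv p).symm.trans
    ((Equiv.sigmaCongrRight e).trans (Equiv.sigmaFiberEquiv p'))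
  refine h5 L U V j hC M M' F fun K => ?_
  have h6 : p' (F K) = p K := (e (p K) ⟨K, rfl⟩).2
  exact a2 _ _ (Quotient.exact h6)

end Pool.Agent.MST
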