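import Pool.Agent.MST.StA

/-!
MST, module HAR (helper71): symmetry of definable types (Harrington's lemma).
-/

set_option autoImplicit false

namespace Pool.Agent.MST

open FirstOrder.Language Set
open scoped FirstOrder
open Pool.Agent.WOM (tp Mon IsEl IsoM Fam)

section

variable {L : FirstOrder.Language.{0, 0}} {M : Type} [L.Structure M] {α β : Type}

/-- a finite intersection of members of a type is in the type -/
private theorem HAR_fin {q : Set (Set (β → M))} (hq : IsTy L q) {ι : Type} (F : Finset ι)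
    (t : ι → Set (β → M)) (ht : ∀ i ∈ F, t i ∈ q) : {x | ∀ i ∈ F, x ∈ t i} ∈ q := by
  classical
  induction F using Finset.induction_on with
  | empty =>
    have h : {x : β → M | ∀ i ∈ (∅ : Finset ι), x ∈ t i} = Set.univ := by
      ext x
      simp
    rw [h]
    exact hq.univ
  | @insert i F _ ih =>
    have h : {x : β → M | ∀ j ∈ insert i F, x ∈ t j} = t i ∩ {x | ∀ j ∈ F, x ∈ t j} := by
      ext x
      simp only [Finset.mem_insert, forall_eq_or_imp, mem_ofPred_eq, mem_inter_iff]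
    rw [h]
    exact hq.inter _ (ht i (Finset.mem_insert_self _ _)) _
      (ih fun j hj => ht j (Finset.mem_insert_of_mem hj))

private theorem HAR_swap (a : α → M) (b : β → M) :
    (Sum.elim b a : β ⊕ α → M) ∘ (Sum.swap : α ⊕ β → β ⊕ α) = Sum.elim a b := by
  funext x
  rcases x with x | x <;> rfl

private theorem HAR_bfi (q : Set (Set (β → M))) (s : Set (α ⊕ β → M)) :
    bfi q s = fib q {v : β ⊕ α → M | v ∘ (Sum.swap : α ⊕ β → β ⊕ α) ∈ s} := by
  ext a
  rw [mem_bfi, mem_fib]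
  have h : {b : β → M | Sum.elim b a ∈ {v : β ⊕ α → M | v ∘ (Sum.swap : α ⊕ β → β ⊕ α) ∈ s}} =
      {b : β → M | Sum.elim a b ∈ s} := by
    ext b
    simp only [mem_ofPred_eq, HAR_swap]
  rw [h]

private theorem HAR_bfi_compl [Finite α] {q : Set (Set (β → M))} (hq : IsTy L q)
    {s : Set (α ⊕ β → M)} (hs : Dfp L s) : bfi q sᶜ = (bfi q s)ᶜ := by
  ext a
  exact hq.compl_mem (hs.snd a)

private theorem HAR_one (hLAD : St_LAD) (hM : Stb L M) [Finite α] [Finite β]
    {p : Set (Set (α → M))} {q : Set (Set (β → M))} (hp : IsTy L p) (hq : IsTy L q)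
    {s : Set (α ⊕ β → M)} (hs : Dfp L s) (hb : Dfp L (bfi q s)) (h : fib p s ∈ q) :
    bfi q s ∈ p := by
  classical
  by_contra hn
  have hn' : (bfi q s)ᶜ ∈ p := (hp.compl_mem hb).2 hn
  obtain ⟨f, hf1, hf2⟩ := exists_seq_of_forall_finset_exists
    (fun z : (α → M) × (β → M) => z.1 ∉ bfi q s ∧ z.2 ∈ fib p s ∧ Sum.elim z.1 z.2 ∈ s)
    (fun z w => Sum.elim z.1 w.2 ∉ s ∧ Sum.elim w.1 z.2 ∈ s) (by
      intro F hF
      have h1 : {b : β → M | ∀ z ∈ F, b ∈ {b : β → M | Sum.elim z.1 b ∈ s}ᶜ} ∈ q :=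
        HAR_fin hq F (fun z => {b : β → M | Sum.elim z.1 b ∈ s}ᶜ) fun z hz =>
          (hq.compl_mem (hs.snd z.1)).2 (hF z hz).1
      obtain ⟨b, hb1, hb2⟩ := hq.nonempty (hq.inter _ h _ h1)
      have h2 : {a : α → M | ∀ z ∈ F, a ∈ {a : α → M | Sum.elim a z.2 ∈ s}} ∈ p :=
        HAR_fin hp F (fun z => {a : α → M | Sum.elim a z.2 ∈ s}) fun z hz => (hF z hz).2.1
      obtain ⟨a, ⟨ha1, ha2⟩, ha3⟩ :=
        hp.nonempty (hp.inter _ (hp.inter _ hn' _ h2) _ hb1)
      exact ⟨(a, b), ⟨ha1, hb1, ha3⟩, fun z hz => ⟨hb2 z hz, ha2 z hz⟩⟩)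
  refine (hLAD L M hM α β s hs (fun i => (f i).1) (fun k => (f k).2)).2.2.2 fun i k => ?_
  constructor
  · intro hik
    by_contra hlt
    exact (hf2 i k (not_le.1 hlt)).1 hik
  · intro hki
    rcases hki.lt_or_eq with hlt | rfl
    · exact (hf2 k i hlt).2
    · exact (hf1 k).2.2

end

/-- Symmetry (Harrington's lemma). -/
theorem thm_HAR (hLAD : St_LAD) (hDEF : St_DEF) : St_HAR := by
  intro L M _ hM α β _ _ p q hp hq s hs
  have hb : ∀ t : Set (α ⊕ β → M), Dfp L t → Dfp L (bfi q t) := by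
    intro t ht
    rw [HAR_bfi]
    exact hDEF L M hM β α q hq _ (ht.pre _)
  refine ⟨hb s hs, fun h => HAR_one hLAD hM hp hq hs (hb s hs) h, fun h => ?_⟩
  by_contra hn
  have h1 : fib p sᶜ ∈ q := by
    rw [fib_compl hp hs]
    exact (hq.compl_mem (hDEF L M hM α β p hp s hs)).2 hn
  have h2 := HAR_one hLAD hM hp hq hs.compl (hb _ hs.compl) h1
  rw [HAR_bfi_compl hq hs] at h2
  exact (hp.compl_mem (hb s hs)).1 h2 h

end Pool.Agent.MST
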