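import Pool.Agent.MST.StB

/-!
MST: heirs (helper76).
-/

set_option autoImplicit false

namespace Pool.Agent.MST

open FirstOrder.Language Set
open scoped FirstOrder
open Pool.Agent.WOM (IsEl)

theorem thm_HEI (hE : St_ELX) (hF : St_FRS) (hD : St_DLT) : St_HEI := by
  intro L U V _ _ j hc M hM α β γ _ _ _ c b m hm hfr φ hφ
  obtain ⟨n, δ, e, he, hδ⟩ := hD L U V j hc α (β ⊕ γ) c φ M hM
  obtain ⟨-, -, -, -, hF5⟩ := hF L U V j hc
  obtain ⟨hE1, -⟩ := hE L V
  have h1 : ∀ b' : β → V, (∀ i, b' i ∈ M ∪ range b) → Fr j c (Sum.elim b' m) := by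
    intro b' hb'
    refine hF5 _ _ hfr α (β ⊕ γ) c (Sum.elim b' m) (fun i => mem_range_self i) ?_
    rintro (i | i)
    · exact hb' i
    · exact Or.inl (hm i)
  have h2 : δ.Realize (Sum.elim (Sum.elim b m) e) :=
    (hδ _ (h1 b fun i => Or.inr (mem_range_self i))).1 hφ
  have h3 : ∀ b' : β → V, (δ.relabel (Equiv.sumAssoc β γ (Fin n))).Realize
      (Sum.elim b' (Sum.elim m e)) ↔ δ.Realize (Sum.elim (Sum.elim b' m) e) := by
    intro b'
    rw [FirstOrder.Language.Formula.realize_relabel]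
    have h : (Sum.elim b' (Sum.elim m e) : β ⊕ (γ ⊕ Fin n) → V) ∘ (Equiv.sumAssoc β γ (Fin n)) =
        Sum.elim (Sum.elim b' m) e := by
      funext x
      rcases x with (x | x) | x <;> rfl
    rw [h]
  obtain ⟨b', hb', h4⟩ := hE1 M hM β (γ ⊕ Fin n) (δ.relabel (Equiv.sumAssoc β γ (Fin n)))
    (Sum.elim m e) (by
      rintro (i | i)
      · exact hm i
      · exact he i) ⟨b, (h3 b).2 h2⟩
  exact ⟨b', hb', (hδ _ (h1 b' fun i => Or.inl (hb' i))).2 ((h3 b').1 h4)⟩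

end Pool.Agent.MST
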