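import Pool.Agent.MST.StC

/-!
MST, module HYP: transfer of the hypotheses to `V` (helper36)
-/

set_option autoImplicit false

namespace Pool.Agent.MST

open FirstOrder.Language Set
open scoped FirstOrder
open Pool.Agent.WOM (IsEl)

section

variable {L : FirstOrder.Language.{0, 0}} {V : Type} [L.Structure V] {W : Type} [L.Structure W]
  (i : W → V)

/-- `i` preserves the formulas in finitely many variables -/
private def HYP_pr : Prop :=
  ∀ (α : Type) [Finite α] (φ : L.Formula α) (v : α → W), φ.Realize v ↔ φ.Realize (i ∘ v)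

variable {i}

private theorem HYP_stb (hi : HYP_pr (L := L) i) (hS : Stb L W) {m n : ℕ}
    (φ : L.Formula (Fin m ⊕ Fin n)) (a : ℕ → Fin m → V) (b : ℕ → Fin n → V)
    (ha : ∀ k l, a k l ∈ range i) (hb : ∀ k l, b k l ∈ range i) :
    ¬ ∀ k l, φ.Realize (Sum.elim (a k) (b l)) ↔ k < l := by
  intro h
  choose a' ha' using ha
  choose b' hb' using hb
  refine hS m n φ a' b' fun k l => ?_
  rw [hi, comp_elim, ← h k l]
  have h1 : i ∘ a' k = a k := funext fun t => ha' k t
  have h2 : i ∘ b' l = b l := funext fun t => hb' l t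
  rw [h1, h2]

private theorem HYP_nc (hi : HYP_pr (L := L) i) (hS : MSt L W) {m n : ℕ}
    (φ : L.Formula ((Fin m ⊕ Fin n) ⊕ Unit)) (a : ℕ → Fin m → V) (b : ℕ → Fin n → V)
    (c : ℕ → ℕ → V) (ha : ∀ k l, a k l ∈ range i) (hb : ∀ k l, b k l ∈ range i)
    (hc : ∀ k l, c k l ∈ range i) :
    ¬ ∀ x y l h, φ.Realize (Sum.elim (Sum.elim (a x) (b y)) (fun _ => c l h)) ↔
      (x = l ∧ y = h) := by
  intro h
  choose a' ha' using ha
  choose b' hb' using hb
  choose c' hc' using hc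
  have key : ∀ x y l h', φ.Realize (Sum.elim (Sum.elim (a' x) (b' y)) (fun _ : Unit => c' l h')) ↔
      (x = l ∧ y = h') := by
    intro x y l h'
    rw [hi, comp_elim, comp_elim, ← h x y l h']
    have h1 : i ∘ a' x = a x := funext fun t => ha' x t
    have h2 : i ∘ b' y = b y := funext fun t => hb' y t
    have h3 : i ∘ (fun _ : Unit => c' l h') = fun _ => c l h' := funext fun t => hc' l h'
    rw [h1, h2, h3]
  refine hS {z | ∃ l h', l < h' ∧ z = c' l h'} m n φ a' b' fun x y => ?_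
  constructor
  · rintro ⟨z, ⟨l, h', hlh, rfl⟩, hz⟩
    obtain ⟨rfl, rfl⟩ := (key x y l h').1 hz
    exact hlh
  · intro hxy
    exact ⟨c' x y, ⟨x, y, hxy, rfl⟩, (key x y x y).2 ⟨rfl, rfl⟩⟩

/-- elementary submodels of `V` in the range of `i` -/
private theorem HYP_down (hELX : St_ELX) (hi : HYP_pr (L := L) i) {M : Set V} (hM : IsEl L M)
    (hMi : M ⊆ range i) : IsEl L (i ⁻¹' M) := by
  refine (hELX L W).2.1 _ fun n φ m hm x hx => ?_
  rw [hi, comp_elim] at hx
  obtain ⟨y, hy, hy'⟩ := (hELX L V).1 M hM Unit (Fin n) φ (i ∘ m) (fun k => hm k) ⟨_, hx⟩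
  obtain ⟨x', hx'⟩ := hMi (hy ())
  refine ⟨x', ?_, ?_⟩
  · show i x' ∈ M
    rw [hx']
    exact hy ()
  · rw [hi, comp_elim]
    have h1 : i ∘ (fun _ : Unit => x') = y := funext fun _ => hx'
    rw [h1]
    exact hy'

private theorem HYP_up (hELX : St_ELX) (hi : HYP_pr (L := L) i) (hel : IsEl L (range i))
    {M : Set V} (hMi : M ⊆ range i) (hM : IsEl L (i ⁻¹' M)) : IsEl L M := by
  refine (hELX L V).2.1 _ fun n φ m hm x hx => ?_
  choose m' hm' using fun k => hMi (hm k)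
  have h1 : i ∘ m' = m := funext hm'
  obtain ⟨y, hy, hy'⟩ := (hELX L V).1 _ hel Unit (Fin n) φ m (fun k => hMi (hm k)) ⟨_, hx⟩
  choose y' hy'' using hy
  have h2 : i ∘ y' = y := funext hy''
  rw [← h1, ← h2, ← comp_elim, ← hi] at hy'
  obtain ⟨z, hz, hz'⟩ := (hELX L W).1 _ hM Unit (Fin n) φ m' (fun k => by
    show i (m' k) ∈ M
    rw [hm']
    exact hm k) ⟨y', hy'⟩
  rw [hi, comp_elim, h1] at hz'
  exact ⟨i (z ()), hz (), hz'⟩

private theorem HYP_conj {γ ι : Type} (I : Finset ι) (f : ι → L.Formula γ) :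
    ∃ ψ : L.Formula γ, ∀ (M : Type) [L.Structure M] (v : γ → M), ψ.Realize v ↔
      ∀ l ∈ I, (f l).Realize v := by
  classical
  induction I using Finset.induction_on with
  | empty => exact ⟨⊤, fun M _ v => by simp⟩
  | @insert a I _ ih =>
    obtain ⟨ψ, hψ⟩ := ih
    refine ⟨f a ⊓ ψ, fun M _ v => ?_⟩
    rw [FirstOrder.Language.Formula.realize_inf, hψ]
    simp

private theorem HYP_div (hELX : St_ELX) (hi : HYP_pr (L := L) i) (hel : IsEl L (range i))
    {m n : ℕ} (φ : L.Formula (Fin m ⊕ Fin n)) (b : Fin n → W) (h : Div φ b) : Div φ (i ∘ b) := by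
  obtain ⟨k, hk⟩ := h
  refine ⟨k, fun θ hθ N => ?_⟩
  obtain ⟨c, hc, hc'⟩ := hk θ ((hi _ θ b).2 hθ) N
  refine ⟨fun l => i ∘ c l, fun l => (hi _ θ (c l)).1 (hc l), fun I hI hx => ?_⟩
  obtain ⟨x, hx⟩ := hx
  apply hc' I hI
  obtain ⟨ψ, hψ⟩ := HYP_conj (L := L) I (fun l => (φ.relabel
    (Sum.map id (fun t => (l, t)) : Fin m ⊕ Fin n → Fin m ⊕ (Fin N × Fin n))))
  have h1 : ∀ (M : Type) [L.Structure M] (x : Fin m → M) (d : Fin N → Fin n → M),
      ψ.Realize (Sum.elim x (fun p : Fin N × Fin n => d p.1 p.2)) ↔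
        ∀ l ∈ I, φ.Realize (Sum.elim x (d l)) := by
    intro M _ x d
    rw [hψ]
    refine forall_congr' fun l => forall_congr' fun _ => ?_
    rw [FirstOrder.Language.Formula.realize_relabel]
    have h2 : (Sum.elim x (fun p : Fin N × Fin n => d p.1 p.2)) ∘
        (Sum.map id (fun t => (l, t)) : Fin m ⊕ Fin n → Fin m ⊕ (Fin N × Fin n)) =
        Sum.elim x (d l) := by
      funext z
      rcases z with z | z <;> rfl
    rw [h2]
  obtain ⟨y, hy, hy'⟩ := (hELX L V).1 _ hel (Fin m) (Fin N × Fin n) ψ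
    (fun p : Fin N × Fin n => i (c p.1 p.2)) (fun p => mem_range_self _)
    ⟨x, (h1 V x (fun l => i ∘ c l)).2 hx⟩
  choose y' hy'' using hy
  have h2 : i ∘ y' = y := funext hy''
  refine ⟨y', fun l hl => ?_⟩
  have h3 := (h1 V y (fun l => i ∘ c l)).1 hy' l hl
  rw [hi, comp_elim, h2]
  exact h3

end

/-- [HYP] -/
theorem thm_HYP (hELX : St_ELX) (hNDV : St_NDV) (hFRS : St_FRS) (hCMS : St_CMS) : St_HYP := by
  intro L hL V _ hV
  refine ⟨?_, ?_, ?_⟩
  · intro hS m n φ a b
    obtain ⟨S, i, hinj, hX, hel, hmod, hi⟩ := hCMS L hL V hV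
      ((⋃ k, range (a k)) ∪ ⋃ k, range (b k))
      ((countable_iUnion fun k => countable_range _).union
        (countable_iUnion fun k => countable_range _))
    let _ := S
    exact HYP_stb (i := i) hi (hS S hmod) φ a b
      (fun k l => hX (Or.inl (mem_iUnion.2 ⟨k, l, rfl⟩)))
      (fun k l => hX (Or.inr (mem_iUnion.2 ⟨k, l, rfl⟩)))
  · intro hS m n φ a b c
    obtain ⟨S, i, hinj, hX, hel, hmod, hi⟩ := hCMS L hL V hV
      (((⋃ k, range (a k)) ∪ ⋃ k, range (b k)) ∪ ⋃ k, range (c k))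
      (((countable_iUnion fun k => countable_range _).union
        (countable_iUnion fun k => countable_range _)).union
        (countable_iUnion fun k => countable_range _))
    let _ := S
    exact HYP_nc (i := i) hi (hS S hmod) φ a b c
      (fun k l => hX (Or.inl (Or.inl (mem_iUnion.2 ⟨k, l, rfl⟩))))
      (fun k l => hX (Or.inl (Or.inr (mem_iUnion.2 ⟨k, l, rfl⟩))))
      (fun k l => hX (Or.inr (mem_iUnion.2 ⟨k, l, rfl⟩)))
  · intro U _ j hCx hS M N hMc hNc hM hN hMN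
    obtain ⟨S, i, hinj, hX, hel, hmod, hi⟩ := hCMS L hL V hV (M ∪ N) (hMc.union hNc)
    let _ := S
    have hi' : HYP_pr (L := L) i := hi
    have hM0 := HYP_down hELX hi' hM (subset_union_left.trans hX)
    have hN0 := HYP_down hELX hi' hN (subset_union_right.trans hX)
    refine HYP_up hELX hi' hel hX ?_
    have h := hS S hmod (i ⁻¹' M) (i ⁻¹' N) hM0 hN0 (by
      intro m n φ a b ha hb hab hdiv
      refine hNDV L U V j hCx m n φ (i ∘ a) (i ∘ b) (hMN m n _ _ ha hb) ?_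
        (HYP_div hELX hi' hel φ b hdiv)
      rw [← comp_elim, ← hi']
      exact hab)
    exact h

end Pool.Agent.MST
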