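import Pool.Agent.MST.StB

/-!
MST: [IND] independent sequences are jointly independent (helper75).
-/

set_option autoImplicit false

namespace Pool.Agent.MST

open FirstOrder.Language Set
open scoped FirstOrder

/-- [IND] -/
theorem thm_IND (h : St_FRS) : St_IND := by
  intro L U V _ _ j hcx B X hX I J hIJ
  obtain ⟨hsymm, hmono, htr, hemp, -⟩ := h L U V j hcx
  -- the finite unions
  have key : ∀ N : ℕ, ∀ I J : Set ℕ, Disjoint I J → (∀ k ∈ I, k < N) → (∀ k ∈ J, k < N) →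
      FrS j (⋃ n ∈ I, X n) (B ∪ ⋃ n ∈ J, X n) := by
    intro N
    induction N with
    | zero =>
      intro I J _ hI _
      have e : (⋃ n ∈ I, X n) = ∅ := by
        refine Set.eq_empty_iff_forall_notMem.2 fun x hx => ?_
        obtain ⟨k, hk, -⟩ := Set.mem_iUnion₂.1 hx
        exact absurd (hI k hk) (Nat.not_lt_zero k)
      rw [e]
      exact hemp _
    | succ N ih =>
      intro I J hd hI hJ
      have hI' : ∀ k ∈ I \ {N}, k < N := fun k hk =>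
        lt_of_le_of_ne (Nat.lt_succ_iff.1 (hI k hk.1)) hk.2
      have hJ' : ∀ k ∈ J \ {N}, k < N := fun k hk =>
        lt_of_le_of_ne (Nat.lt_succ_iff.1 (hJ k hk.1)) hk.2
      have h1 : FrS j (⋃ n ∈ I \ {N}, X n) (B ∪ ⋃ n ∈ J \ {N}, X n) :=
        ih _ _ (hd.mono Set.sdiff_subset Set.sdiff_subset) hI' hJ'
      have e1 : ∀ I : Set ℕ, (∀ k ∈ I, k < N) →
          (⋃ n ∈ I, X n) ⊆ B ∪ ⋃ k ∈ {k | k < N}, X k := by
        intro I hI x hx
        obtain ⟨k, hk, hx⟩ := Set.mem_iUnion₂.1 hx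
        exact Or.inr (Set.mem_iUnion₂.2 ⟨k, hI k hk, hx⟩)
      have e2 : ∀ I : Set ℕ, N ∈ I → (⋃ n ∈ I, X n) = (⋃ n ∈ I \ {N}, X n) ∪ X N := by
        intro I hN
        ext x
        simp only [Set.mem_iUnion, Set.mem_union, Set.mem_sdiff, Set.mem_singleton_iff, exists_prop]
        constructor
        · rintro ⟨k, hk, hx⟩
          by_cases hkN : k = N
          · exact Or.inr (hkN ▸ hx)
          · exact Or.inl ⟨k, ⟨hk, hkN⟩, hx⟩
        · rintro (⟨k, ⟨hk, -⟩, hx⟩ | hx)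
          · exact ⟨k, hk, hx⟩
          · exact ⟨N, hN, hx⟩
      have e3 : ∀ I : Set ℕ, N ∉ I → I \ {N} = I := fun I hN =>
        Set.sdiff_singleton_eq_self hN
      have h2 : FrS j (X N) ((⋃ n ∈ I \ {N}, X n) ∪ (B ∪ ⋃ n ∈ J \ {N}, X n)) :=
        hmono _ _ _ _ (le_refl _) (Set.union_subset (e1 _ hI')
          (Set.union_subset Set.subset_union_left (e1 _ hJ'))) (hX N)
      by_cases hNI : N ∈ I
      · have hNJ : N ∉ J := fun hNJ => Set.disjoint_left.1 hd hNI hNJ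
        rw [e3 J hNJ] at h1 h2
        rw [e2 I hNI]
        refine hsymm _ _ (htr _ _ _ (hsymm _ _ h1) ?_)
        rw [Set.union_comm (B ∪ ⋃ n ∈ J, X n)]
        exact hsymm _ _ h2
      · rw [e3 I hNI] at h1 h2
        by_cases hNJ : N ∈ J
        · rw [e2 J hNJ, ← Set.union_assoc]
          exact htr _ _ _ h1 (hsymm _ _ h2)
        · rw [e3 J hNJ] at h1
          exact h1
  -- finite tuples
  intro m n a b ha hb
  have ha' : ∀ i, ∃ l : ℕ, a i ∈ ⋃ n ∈ I ∩ {k | k < l}, X n := by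
    intro i
    obtain ⟨k, hk, hx⟩ := Set.mem_iUnion₂.1 (ha i)
    exact ⟨k + 1, Set.mem_iUnion₂.2 ⟨k, ⟨hk, Nat.lt_succ_self k⟩, hx⟩⟩
  have hb' : ∀ i, ∃ l : ℕ, b i ∈ B ∪ ⋃ n ∈ J ∩ {k | k < l}, X n := by
    intro i
    rcases hb i with hx | hx
    · exact ⟨0, Or.inl hx⟩
    · obtain ⟨k, hk, hx⟩ := Set.mem_iUnion₂.1 hx
      exact ⟨k + 1, Or.inr (Set.mem_iUnion₂.2 ⟨k, ⟨hk, Nat.lt_succ_self k⟩, hx⟩)⟩
  choose la hla using ha'
  choose lb hlb using hb'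
  obtain ⟨Na, hNa⟩ := Finite.exists_le la
  obtain ⟨Nb, hNb⟩ := Finite.exists_le lb
  have hm : ∀ (I : Set ℕ) (l : ℕ), l ≤ max Na Nb →
      (⋃ n ∈ I ∩ {k | k < l}, X n) ⊆ ⋃ n ∈ I ∩ {k | k < max Na Nb}, X n := by
    intro I l hl x hx
    obtain ⟨k, hk, hx⟩ := Set.mem_iUnion₂.1 hx
    exact Set.mem_iUnion₂.2 ⟨k, ⟨hk.1, lt_of_lt_of_le hk.2 hl⟩, hx⟩
  refine key (max Na Nb) (I ∩ {k | k < max Na Nb}) (J ∩ {k | k < max Na Nb})
    (hIJ.mono Set.inter_subset_left Set.inter_subset_left) (fun k hk => hk.2) (fun k hk => hk.2)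
    m n a b (fun i => hm I _ ((hNa i).trans (le_max_left _ _)) (hla i)) (fun i => ?_)
  rcases hlb i with hx | hx
  · exact Or.inl hx
  · exact Or.inr (hm J _ ((hNb i).trans (le_max_right _ _)) hx)

end Pool.Agent.MST
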