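import Pool.Agent.MST.StB

/-!
MST: independence depends only on the type over the empty set (helper2).
-/

set_option autoImplicit false

namespace Pool.Agent.MST

open FirstOrder.Language Set
open scoped FirstOrder

variable {L : FirstOrder.Language.{0, 0}}

/-- realization of a formula relabelled along the associativity of sums -/
private theorem real_assoc {M : Type} [L.Structure M] {α β γ : Type}
    (φ : L.Formula ((α ⊕ β) ⊕ γ)) (x : α → M) (y : β → M) (z : γ → M) :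
    (φ.relabel (Equiv.sumAssoc α β γ) : L.Formula (α ⊕ (β ⊕ γ))).Realize
      (Sum.elim x (Sum.elim y z)) ↔ φ.Realize (Sum.elim (Sum.elim x y) z) := by
  have h : (Sum.elim x (Sum.elim y z) : α ⊕ (β ⊕ γ) → M) ∘ (Equiv.sumAssoc α β γ) =
      Sum.elim (Sum.elim x y) z := by
    funext t
    rcases t with (t | t) | t <;> rfl
  rw [FirstOrder.Language.Formula.realize_relabel, h]

/-- fibres of the instances of a formula -/
private theorem mem_fib_inst {M : Type} [L.Structure M] {α β γ : Type}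
    (p : Set (Set (α → M))) (φ : L.Formula ((α ⊕ β) ⊕ γ)) (z : γ → M) (y : β → M) :
    y ∈ fib p {v : α ⊕ β → M | φ.Realize (Sum.elim v z)} ↔
      Sum.elim y z ∈ fib p (rs M (φ.relabel (Equiv.sumAssoc α β γ) :
        L.Formula (α ⊕ (β ⊕ γ)))) := by
  have h : {x : α → M | Sum.elim x y ∈ {v : α ⊕ β → M | φ.Realize (Sum.elim v z)}} =
      {x : α → M | Sum.elim x (Sum.elim y z) ∈ rs M (φ.relabel (Equiv.sumAssoc α β γ) :
        L.Formula (α ⊕ (β ⊕ γ)))} := by
    ext x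
    exact (real_assoc φ x y z).symm
  rw [mem_fib, mem_fib, h]

theorem thm_INV (h1 : St_DEF) (h2 : St_LIM) (h3 : St_RXT) (h4 : St_FRB) (h5 : St_TEN)
    (_h6 : St_TAL) : St_INV := by
  intro L U V _ _ j hC α β _ _ a a' b b' hab hF
  have hst : Stb L U := hC.cu.stb
  have F := h4 L U V j hC
  -- the types of the two pairs
  obtain ⟨rB, -, -, rR, -, rX⟩ := F (α ⊕ β) (Sum.elim a b)
  obtain ⟨-, -, rU', -, -, rX'⟩ := F (α ⊕ β) (Sum.elim a' b')
  obtain ⟨pB, -, -, -, -, -⟩ := F α a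
  obtain ⟨pB', -, -, -, -, -⟩ := F α a'
  obtain ⟨qB, -, -, -, -, -⟩ := F β b
  obtain ⟨qB', -, -, -, -, -⟩ := F β b'
  obtain ⟨r', rB', rH', hr'⟩ := h2 L U V j hC (α ⊕ β) (fr j (Sum.elim a b)) (Sum.elim a' b') rB
    (fun φ hφ => (rR φ).2 ((hab φ).2 hφ))
  have er' : fr j (Sum.elim a' b') = r' := rU' r' rB' rH'
  -- the marginals
  have ep : fr j a = rx L (Sum.inl : α → α ⊕ β) (fr j (Sum.elim a b)) := rX α Sum.inl
  have eq : fr j b = rx L (Sum.inr : β → α ⊕ β) (fr j (Sum.elim a b)) := rX β Sum.inr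
  have ep' : fr j a' = rx L (Sum.inl : α → α ⊕ β) r' := by
    have h := rX' α Sum.inl
    rw [er'] at h
    exact h
  have eq' : fr j b' = rx L (Sum.inr : β → α ⊕ β) r' := by
    have h := rX' β Sum.inr
    rw [er'] at h
    exact h
  have hF' : fr j (Sum.elim a b) = ten L (fr j a) (fr j b) := hF
  change fr j (Sum.elim a' b') = ten L (fr j a') (fr j b')
  rw [er']
  refine (IsTy.eq_of_subset ((h5 L U hst α β (fr j a') (fr j b')).1 pB'.ty qB'.ty) rB'.ty
    ?_).symm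
  rintro s ⟨⟨n, φ, u, hφ⟩, hs⟩
  have hsS : s = {v : α ⊕ β → U | φ.Realize (Sum.elim v u)} := by
    ext v
    exact hφ v
  -- the definition of `fib p φ'`
  obtain ⟨k, δ, e, hδ⟩ := h1 L U hst α (β ⊕ Fin n) (fr j a) pB.ty
    (rs U (φ.relabel (Equiv.sumAssoc α β (Fin n)) : L.Formula (α ⊕ (β ⊕ Fin n)))) (Dfp.rs _)
  have hD : fib (fr j a) (rs U (φ.relabel (Equiv.sumAssoc α β (Fin n)) :
      L.Formula (α ⊕ (β ⊕ Fin n)))) = {w : β ⊕ Fin n → U | δ.Realize (Sum.elim w e)} := by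
    ext w
    exact hδ w
  -- the common automorphism
  obtain ⟨g, g1, g2, g3⟩ := hr' (Fin n) (β ⊕ Fin n) (Fin n ⊕ Fin k) φ
    ((φ.relabel (Equiv.sumAssoc α β (Fin n)) : L.Formula (α ⊕ (β ⊕ Fin n))).relabel
      (Sum.map Sum.inl id))
    ((δ.relabel (Equiv.sumAssoc β (Fin n) (Fin k)) : L.Formula (β ⊕ (Fin n ⊕ Fin k))).relabel
      (Sum.map Sum.inr id))
  have RX := h3 L U (α ⊕ β)
  have a1 := (RX α (Sum.inl : α → α ⊕ β) (fr j (Sum.elim a b))).2.2.2.2 rB.ty (β ⊕ Fin n)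
    (φ.relabel (Equiv.sumAssoc α β (Fin n)))
  have a2 := (RX α (Sum.inl : α → α ⊕ β) r').2.2.2.2 rB'.ty (β ⊕ Fin n)
    (φ.relabel (Equiv.sumAssoc α β (Fin n)))
  have a3 := (RX β (Sum.inr : β → α ⊕ β) (fr j (Sum.elim a b))).2.2.2.2 rB.ty (Fin n ⊕ Fin k)
    (δ.relabel (Equiv.sumAssoc β (Fin n) (Fin k)))
  have a4 := (RX β (Sum.inr : β → α ⊕ β) r').2.2.2.2 rB'.ty (Fin n ⊕ Fin k)
    (δ.relabel (Equiv.sumAssoc β (Fin n) (Fin k)))
  rw [← ep] at a1
  rw [← ep'] at a2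
  rw [← eq] at a3
  rw [← eq'] at a4
  have G2 : fib (fr j a') (rs U (φ.relabel (Equiv.sumAssoc α β (Fin n)) :
      L.Formula (α ⊕ (β ⊕ Fin n)))) =
      {w : β ⊕ Fin n → U | δ.Realize (Sum.elim w (fun i => g (e i)))} := by
    rw [a2, g2, ← a1, hD, act_of]
  have G3 : fib (fr j b') (rs U (δ.relabel (Equiv.sumAssoc β (Fin n) (Fin k)) :
      L.Formula (β ⊕ (Fin n ⊕ Fin k)))) =
      act g (fib (fr j b) (rs U (δ.relabel (Equiv.sumAssoc β (Fin n) (Fin k)) :
      L.Formula (β ⊕ (Fin n ⊕ Fin k))))) := by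
    rw [a4, g3, ← a3]
  -- the chain of equivalences
  have c1 : fib (fr j a') s =
      {y : β → U | Sum.elim y (Sum.elim u (fun i => g (e i))) ∈
        rs U (δ.relabel (Equiv.sumAssoc β (Fin n) (Fin k)) :
          L.Formula (β ⊕ (Fin n ⊕ Fin k)))} := by
    ext y
    rw [hsS, mem_fib_inst, G2]
    exact (real_assoc δ y u (fun i => g (e i))).symm
  rw [c1] at hs
  have c2 : Sum.elim u (fun i => g (e i)) ∈ fib (fr j b')
      (rs U (δ.relabel (Equiv.sumAssoc β (Fin n) (Fin k)) :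
        L.Formula (β ⊕ (Fin n ⊕ Fin k)))) := hs
  rw [G3, mem_act] at c2
  have c3 : (fun i => g.symm ((Sum.elim u (fun i => g (e i)) : Fin n ⊕ Fin k → U) i)) =
      Sum.elim (fun i => g.symm (u i)) e := by
    funext x
    rcases x with x | x
    · rfl
    · exact g.symm_apply_apply (e x)
  rw [c3, mem_fib] at c2
  have c4 : {y : β → U | Sum.elim y (Sum.elim (fun i => g.symm (u i)) e) ∈
        rs U (δ.relabel (Equiv.sumAssoc β (Fin n) (Fin k)) :
          L.Formula (β ⊕ (Fin n ⊕ Fin k)))} =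
      fib (fr j a) {v : α ⊕ β → U | φ.Realize (Sum.elim v (fun i => g.symm (u i)))} := by
    ext y
    rw [mem_fib_inst, hD]
    exact real_assoc δ y (fun i => g.symm (u i)) e
  rw [c4] at c2
  have c5 : {v : α ⊕ β → U | φ.Realize (Sum.elim v (fun i => g.symm (u i)))} ∈
      fr j (Sum.elim a b) := by
    rw [hF']
    exact ⟨Dfp.of φ _, c2⟩
  have c6 : u ∈ act g (fib (fr j (Sum.elim a b)) (rs U φ)) := c5
  rw [← g1] at c6
  rw [hsS]
  exact c6

end Pool.Agent.MST
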