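import Pool.Agent.MST.StC

/-!
MST, module ISA: isomorphisms map atoms to atoms.
-/

set_option autoImplicit false

namespace Pool.Agent.MST

open FirstOrder.Language Set
open scoped FirstOrder
open Pool.Agent.WOM (tp Mon IsEl IsoM Fam CtT PerfT ThS)

section ISA

variable {L : FirstOrder.Language.{0, 0}} {U V : Type} [L.Structure U] [L.Structure V]
  {j : U ↪ₑ[L] V} {M M' : Set V} {e : M ≃ M'}

private theorem ISA_form (he : ∀ (n : ℕ) (a : Fin n → M),
      tp (L := L) (fun i => ((a i : M) : V)) = tp (fun i => ((e (a i) : M') : V)))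
    (α : Type) [Finite α] (c : α → M) (φ : L.Formula α) :
    φ.Realize (fun i => ((c i : M) : V)) ↔ φ.Realize (fun i => ((e (c i) : M') : V)) := by
  obtain ⟨n, ⟨q⟩⟩ := Finite.exists_equiv_fin α
  have h := he n (c ∘ q.symm)
  have h1 : φ.relabel q ∈ tp (L := L) (fun i => (((c ∘ q.symm) i : M) : V)) ↔
      φ.relabel q ∈ tp (L := L) (fun i => ((e ((c ∘ q.symm) i) : M') : V)) := by
    rw [h]
  have h2 : ∀ d : α → V, (φ.relabel q).Realize (d ∘ q.symm) ↔ φ.Realize d := by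
    intro d
    rw [FirstOrder.Language.Formula.realize_relabel]
    have : (d ∘ q.symm) ∘ q = d := by
      funext i
      simp
    rw [this]
  have h3 := h2 (fun i => ((c i : M) : V))
  have h4 := h2 (fun i => ((e (c i) : M') : V))
  rw [← h3, ← h4]
  exact h1

private theorem ISA_symm (he : ∀ (n : ℕ) (a : Fin n → M),
      tp (L := L) (fun i => ((a i : M) : V)) = tp (fun i => ((e (a i) : M') : V)))
    (n : ℕ) (a : Fin n → M') :
      tp (L := L) (fun i => ((a i : M') : V)) = tp (fun i => ((e.symm (a i) : M) : V)) := by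
  have h := he n (fun i => e.symm (a i))
  simp only [Equiv.apply_symm_apply] at h
  exact h.symm

private theorem ISA_fr (hINV : St_INV) (hC : Cx L U V) (he : ∀ (n : ℕ) (a : Fin n → M),
      tp (L := L) (fun i => ((a i : M) : V)) = tp (fun i => ((e (a i) : M') : V)))
    {X Y : Set V} (hF : FrS j X Y) : FrS j (img e X) (img e Y) := by
  intro m n a b ha hb
  choose x hx hxa using ha
  choose y hy hyb using hb
  have h1 := hF m n (fun i => ((x i : M) : V)) (fun i => ((y i : M) : V)) hx hy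
  refine hINV L U V j hC (Fin m) (Fin n) _ _ _ _ ?_ h1
  intro φ
  have h2 := ISA_form he (Fin m ⊕ Fin n) (Sum.elim x y) φ
  have e1 : (fun i => (((Sum.elim x y : Fin m ⊕ Fin n → M) i : M) : V)) =
      Sum.elim (fun i => ((x i : M) : V)) (fun i => ((y i : M) : V)) := by
    funext i
    rcases i with i | i <;> rfl
  have e2 : (fun i => ((e ((Sum.elim x y : Fin m ⊕ Fin n → M) i) : M') : V)) =
      Sum.elim a b := by
    funext i
    rcases i with i | i
    · exact hxa i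
    · exact hyb i
  rw [e1, e2] at h2
  exact h2

private theorem ISA_mem {X : Set V} {x : V} (hx : x ∈ M) (h : x ∈ X) :
    ((e ⟨x, hx⟩ : M') : V) ∈ img e X := ⟨⟨x, hx⟩, h, rfl⟩

private theorem ISA_of_mem {X : Set V} {x : V} (hx : x ∈ M) (h : ((e ⟨x, hx⟩ : M') : V) ∈ img e X) :
    x ∈ X := by
  obtain ⟨y, hy, h1⟩ := h
  have h2 : y = ⟨x, hx⟩ := e.injective (Subtype.ext h1)
  rw [h2] at hy
  exact hy

private theorem ISA_sub (X : Set V) : img e X ⊆ M' := by
  rintro y ⟨x, -, rfl⟩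
  exact (e x).2

private theorem ISA_idc (hINV : St_INV) (hFRS : St_FRS) (hC : Cx L U V)
    (he : ∀ (n : ℕ) (a : Fin n → M),
      tp (L := L) (fun i => ((a i : M) : V)) = tp (fun i => ((e (a i) : M') : V)))
    {K : Set V} (hK : K ⊆ M) (hI : Idc j K) : Idc j (img e K) := by
  obtain ⟨⟨v, hv⟩, hI⟩ := hI
  refine ⟨⟨_, ISA_mem (hK hv) hv⟩, fun X' hX' hF => ?_⟩
  have hF' := ISA_fr hINV hC (ISA_symm he) hF
  have hXK : img e.symm X' ⊆ K := by
    rintro _ ⟨y, hy, rfl⟩
    obtain ⟨x, hx, h⟩ := hX' hy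
    have h1 : e x = y := Subtype.ext h
    rw [← h1, Equiv.symm_apply_apply]
    exact hx
  have hX : FrS j (img e.symm X') (K \ img e.symm X') := by
    refine (hFRS L U V j hC).2.1 _ _ _ _ subset_rfl ?_ hF'
    rintro x ⟨hxK, hxX⟩
    refine ⟨e ⟨x, hK hxK⟩, ⟨ISA_mem _ hxK, fun h => hxX ?_⟩, ?_⟩
    · exact ⟨e ⟨x, hK hxK⟩, h, by rw [Equiv.symm_apply_apply]⟩
    · rw [Equiv.symm_apply_apply]
  rcases hI _ hXK hX with h0 | h0
  · left
    rw [eq_empty_iff_forall_notMem] at h0 ⊢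
    intro y hy
    have hyM : y ∈ M' := ISA_sub K (hX' hy)
    exact h0 _ ⟨⟨y, hyM⟩, hy, rfl⟩
  · right
    refine subset_antisymm hX' ?_
    rintro _ ⟨x, hx, rfl⟩
    rw [← h0] at hx
    obtain ⟨y, hy, h1⟩ := hx
    have h2 : e.symm y = x := Subtype.ext h1
    rw [← h2, Equiv.apply_symm_apply]
    exact hy

/-- the bijection of a set and its image -/
private noncomputable def ISA_eq {K : Set V} (hK : K ⊆ M) : K ≃ img e K :=
  Equiv.ofBijective (fun k => ⟨((e ⟨k.1, hK k.2⟩ : M') : V), ISA_mem (hK k.2) k.2⟩) (by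
    constructor
    · intro k k' h
      have h1 : ((e ⟨k.1, hK k.2⟩ : M') : V) = ((e ⟨k'.1, hK k'.2⟩ : M') : V) :=
        congrArg (fun z : img e K => (z : V)) h
      have h2 := congrArg Subtype.val (e.injective (Subtype.ext h1))
      exact Subtype.ext h2
    · rintro ⟨_, x, hx, rfl⟩
      exact ⟨⟨x, hx⟩, rfl⟩)

private theorem ISA_eq_val {K : Set V} (hK : K ⊆ M) (k : K) :
    ((ISA_eq (e := e) hK k : img e K) : V) = ((e ⟨k.1, hK k.2⟩ : M') : V) := rfl

end ISA

theorem thm_ISA (h1 : St_INV) (h2 : St_FRS) (h3 : St_SQI) : St_ISA := by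
  intro L U V _ _ j hC M M' e he
  refine ⟨?_, ?_, ?_⟩
  · rintro K ⟨hKM, hKF, hKI⟩
    refine ⟨ISA_sub K, ?_, ISA_idc h1 h2 hC he hKM hKI⟩
    refine (h2 L U V j hC).2.1 _ _ _ _ subset_rfl ?_ (ISA_fr h1 hC he hKF)
    rintro y ⟨hyM, hyK⟩
    refine ⟨e.symm ⟨y, hyM⟩, ⟨(e.symm ⟨y, hyM⟩).2, fun h => hyK ?_⟩, ?_⟩
    · exact ⟨e.symm ⟨y, hyM⟩, h, by rw [Equiv.apply_symm_apply]⟩
    · rw [Equiv.apply_symm_apply]
  · rintro K ⟨hKM, -, -⟩ hN y ⟨x, hx, rfl⟩ hT
    refine hN _ hx ?_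
    have h4 := ISA_fr (j := j) h1 hC (ISA_symm he) hT
    refine (h2 L U V j hC).2.1 _ _ _ _ ?_ ?_ h4
    · rw [singleton_subset_iff]
      exact ⟨e x, rfl, by rw [Equiv.symm_apply_apply]⟩
    · rw [singleton_subset_iff]
      exact ⟨e x, rfl, by rw [Equiv.symm_apply_apply]⟩
  · rintro K K' hK hK' ⟨f, hf⟩
    refine ⟨(ISA_eq (e := e) hK).symm.trans (f.trans (ISA_eq (e := e) hK')), ?_⟩
    intro n g E hE
    obtain ⟨k, hk⟩ : ∃ k : Fin n → K, g = fun i => ISA_eq (e := e) hK (k i) :=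
      ⟨fun i => (ISA_eq (e := e) hK).symm (g i), by funext i; simp⟩
    have h4 := hf n k E hE
    unfold er at h4 ⊢
    have h5 := ISA_form he (Fin n ⊕ Fin n) (Sum.elim (fun i => (⟨(k i).1, hK (k i).2⟩ : M))
      fun i => (⟨(f (k i)).1, hK' (f (k i)).2⟩ : M)) E
    have e1 : (fun i => (((Sum.elim (fun i => (⟨(k i).1, hK (k i).2⟩ : M))
        fun i => (⟨(f (k i)).1, hK' (f (k i)).2⟩ : M) : Fin n ⊕ Fin n → M) i : M) : V)) =
        Sum.elim ((fun k : K => (k : V)) ∘ k) ((fun k : K => ((f k : K') : V)) ∘ k) := by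
      funext i
      rcases i with i | i <;> rfl
    have e2 : (fun i => ((e ((Sum.elim (fun i => (⟨(k i).1, hK (k i).2⟩ : M))
        fun i => (⟨(f (k i)).1, hK' (f (k i)).2⟩ : M) : Fin n ⊕ Fin n → M) i) : M') : V)) =
        Sum.elim ((fun k : img e K => (k : V)) ∘ g) ((fun k : img e K =>
          ((((ISA_eq (e := e) hK).symm.trans (f.trans (ISA_eq (e := e) hK'))) k : img e K') :
            V)) ∘ g) := by
      funext i
      rcases i with i | i
      · rw [hk]
        rfl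
      · rw [hk]
        simp only [Sum.elim_inr, Function.comp_apply, Equiv.trans_apply, Equiv.symm_apply_apply]
        rfl
    rw [e1, e2] at h5
    exact h5.1 h4

end Pool.Agent.MST
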