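import Pool.Agent.MST.StA

/-!
MST: ladders in sets definable with parameters.
-/

set_option autoImplicit false

namespace Pool.Agent.MST

open FirstOrder.Language Set
open scoped FirstOrder

private theorem LAD_lt (L : FirstOrder.Language.{0, 0}) (M : Type) [L.Structure M]
    (hM : Stb L M) (α β : Type) [Finite α] [Finite β] (s : Set (α ⊕ β → M)) (hs : Dfp L s)
    (a : ℕ → α → M) (b : ℕ → β → M) : ¬ ∀ i k, Sum.elim (a i) (b k) ∈ s ↔ i < k := by
  intro h
  obtain ⟨l, φ, c, hφ⟩ := hs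
  obtain ⟨m, ⟨e⟩⟩ := Finite.exists_equiv_fin α
  obtain ⟨n, ⟨e'⟩⟩ := Finite.exists_equiv_fin (β ⊕ Fin l)
  let f : (α ⊕ β) ⊕ Fin l → Fin m ⊕ Fin n :=
    Sum.elim (Sum.elim (fun x => Sum.inl (e x)) (fun y => Sum.inr (e' (Sum.inl y))))
      (fun z => Sum.inr (e' (Sum.inr z)))
  refine hM m n (φ.relabel f) (fun i => a i ∘ e.symm) (fun k => Sum.elim (b k) c ∘ e'.symm)
    fun i k => ?_
  rw [FirstOrder.Language.Formula.realize_relabel]
  have h1 : (Sum.elim (a i ∘ e.symm) (Sum.elim (b k) c ∘ e'.symm) : Fin m ⊕ Fin n → M) ∘ f =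
      Sum.elim (Sum.elim (a i) (b k)) c := by
    funext x
    rcases x with (x | x) | x
    · show a i (e.symm (e x)) = a i x
      rw [Equiv.symm_apply_apply]
    · show Sum.elim (b k) c (e'.symm (e' (Sum.inl x))) = b k x
      rw [Equiv.symm_apply_apply]
      rfl
    · show Sum.elim (b k) c (e'.symm (e' (Sum.inr x))) = c x
      rw [Equiv.symm_apply_apply]
      rfl
  rw [h1, ← hφ]
  exact h i k

private theorem LAD_le (L : FirstOrder.Language.{0, 0}) (M : Type) [L.Structure M]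
    (hM : Stb L M) (α β : Type) [Finite α] [Finite β] (s : Set (α ⊕ β → M)) (hs : Dfp L s)
    (a : ℕ → α → M) (b : ℕ → β → M) : ¬ ∀ i k, Sum.elim (a i) (b k) ∈ s ↔ i ≤ k := fun h =>
  LAD_lt L M hM α β s hs (fun i => a (i + 1)) b fun i k => (h (i + 1) k).trans Nat.succ_le_iff

theorem thm_LAD : St_LAD := by
  intro L M _ hM α β _ _ s hs a b
  refine ⟨LAD_lt L M hM α β s hs a b, LAD_le L M hM α β s hs a b, fun h => ?_, fun h => ?_⟩
  · refine LAD_le L M hM α β sᶜ hs.compl a b fun i k => ?_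
    rw [mem_compl_iff, h i k, not_lt]
  · refine LAD_lt L M hM α β sᶜ hs.compl a b fun i k => ?_
    rw [mem_compl_iff, h i k, not_le]

end Pool.Agent.MST
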