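import Pool.Agent.MST.StA

/-!
MST, [LIM]: limits of conjugates of a bounded type (helper96).
-/

set_option autoImplicit false

namespace Pool.Agent.MST

open FirstOrder.Language Set
open scoped FirstOrder
open Pool.Agent.WOM (tp Mon IsEl IsoM Fam)

variable {L : FirstOrder.Language.{0, 0}}

/-- the conjunction of finitely many formulas -/
private theorem LIM_conj {γ : Type} (G : Set (L.Formula γ)) (hG : G.Finite) :
    ∃ ψ : L.Formula γ, ∀ (M : Type) [L.Structure M] (x : γ → M),
      ψ.Realize x ↔ ∀ φ ∈ G, φ.Realize x := by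
  induction G, hG using Set.Finite.induction_on with
  | empty =>
    refine ⟨⊤, fun M _ x => ?_⟩
    rw [FirstOrder.Language.Formula.realize_top]
    exact ⟨fun _ φ hφ => absurd hφ (notMem_empty φ), fun _ => trivial⟩
  | @insert φ G _ _ ih =>
    obtain ⟨ψ, hψ⟩ := ih
    refine ⟨φ ⊓ ψ, fun M _ x => ?_⟩
    rw [FirstOrder.Language.Formula.realize_inf, hψ M x]
    constructor
    · rintro ⟨h1, h2⟩ χ hχ
      rcases hχ with rfl | hχ
      · exact h1
      · exact h2 χ hχ
    · intro h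
      exact ⟨h φ (mem_insert _ _), fun χ hχ => h χ (mem_insert_of_mem _ hχ)⟩

section real

variable {U V : Type} [L.Structure U] [L.Structure V] {α β : Type}

/-- the set of formulas used twice below -/
private def LIM_F (E : L.Formula (α ⊕ β)) (P : L.Formula α → Prop) : Set (L.Formula (α ⊕ β)) :=
  {χ | χ = E ∨ ∃ φ : L.Formula α, P φ ∧ χ = φ.relabel Sum.inl}

private theorem LIM_inl (φ : L.Formula α) (x : α → U) (w : β → U) :
    (φ.relabel Sum.inl : L.Formula (α ⊕ β)).Realize (Sum.elim x w) ↔ φ.Realize x := by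
  rw [FirstOrder.Language.Formula.realize_relabel]
  rfl

/-- realisation of a part of a type -/
private theorem LIM_real [Finite β] {r : Set (Set (α → U))} (hr : IsTy L r) (b : β → U)
    (G : Set (L.Formula (α ⊕ β))) (hG : G.Finite)
    (h : ∀ φ ∈ G, {x : α → U | φ.Realize (Sum.elim x b)} ∈ r) :
    ∃ x : α → U, ∀ φ ∈ G, φ.Realize (Sum.elim x b) := by
  have key : {x : α → U | ∀ φ ∈ G, φ.Realize (Sum.elim x b)} ∈ r := by
    induction G, hG using Set.Finite.induction_on with
    | empty =>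
      have h1 : {x : α → U | ∀ φ ∈ (∅ : Set (L.Formula (α ⊕ β))), φ.Realize (Sum.elim x b)} =
          Set.univ :=
        eq_univ_of_forall fun x φ hφ => absurd hφ (notMem_empty φ)
      rw [h1]
      exact hr.univ
    | @insert φ G _ _ ih =>
      have h1 := hr.inter _ (h φ (mem_insert _ _)) _
        (ih fun χ hχ => h χ (mem_insert_of_mem _ hχ))
      have h2 : {x : α → U | φ.Realize (Sum.elim x b)} ∩
          {x : α → U | ∀ φ ∈ G, φ.Realize (Sum.elim x b)} =
          {x : α → U | ∀ χ ∈ insert φ G, χ.Realize (Sum.elim x b)} := by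
        ext x
        constructor
        · rintro ⟨h3, h4⟩ χ hχ
          rcases hχ with rfl | hχ
          · exact h3
          · exact h4 χ hχ
        · intro h3
          exact ⟨h3 φ (mem_insert _ _), fun χ hχ => h3 χ (mem_insert_of_mem _ hχ)⟩
      rwa [h2] at h1
  exact hr.nonempty key

/-- one step of the construction -/
private theorem LIM_step (j : U ↪ₑ[L] V) [Finite α]
    (hS : ∀ (α β : Type) [Finite α] [Finite β] (b : β → U) (F : Set (L.Formula (α ⊕ β))),
      (∀ G ⊆ F, G.Finite → ∃ x : α → U, ∀ φ ∈ G, φ.Realize (Sum.elim x b)) →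
      ∃ x : α → U, ∀ φ ∈ F, φ.Realize (Sum.elim x b))
    (hH : ∀ (α : Type) [Finite α] (a b : α → U), (∀ φ : L.Formula α, φ.Realize a ↔ φ.Realize b) →
      ∃ g : U ≃[L] U, ∀ i, g (a i) = b i)
    (r : Set (Set (α → U))) (hr : IsTy L r) (a : α → V)
    (ha : ∀ φ : L.Formula α, φ.Realize a → rs U φ ∈ r)
    (E : L.Formula (α ⊕ α)) (hU : FE U E) (hV : FE V E) (hw : ∃ w : α → U, er E a (j ∘ w)) :
    ∃ (g : U ≃[L] U) (u : α → U), er E a (j ∘ u) ∧ {x : α → U | er E x u} ∈ acT g r := by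
  -- a class in `r`
  obtain ⟨F, hF, hF'⟩ := hU.fin
  have h1 : (⋃ w ∈ F, {x : α → U | er E x w}) = Set.univ := by
    refine eq_univ_of_forall fun x => ?_
    obtain ⟨y, hy, hxy⟩ := hF' x
    exact mem_biUnion hy hxy
  obtain ⟨w, _, hw1⟩ := hr.biUnion_mem hF (fun w _ => Dfp.er E w) (by rw [h1]; exact hr.univ)
  -- an element of this class of the type of `a`
  have h2 : ∃ v : α → U, er E v w ∧ ∀ φ : L.Formula α, φ.Realize a → φ.Realize v := by
    obtain ⟨v, hv⟩ := hS α α w (LIM_F E fun φ => φ.Realize a) (by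
      intro G hG hGf
      refine LIM_real hr w G hGf fun χ hχ => ?_
      rcases hG hχ with rfl | ⟨φ, hφ, rfl⟩
      · exact hw1
      · have h4 : {x : α → U | (φ.relabel Sum.inl : L.Formula (α ⊕ α)).Realize (Sum.elim x w)} =
            rs U φ := by
          ext x
          exact LIM_inl φ x w
        rw [h4]
        exact ha φ hφ)
    exact ⟨v, hv _ (Or.inl rfl), fun φ hφ => (LIM_inl φ v w).1 (hv _ (Or.inr ⟨φ, hφ, rfl⟩))⟩
  obtain ⟨v, hv, hva⟩ := h2
  have h3 : {x : α → U | er E x v} ∈ r :=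
    hr.mono hw1 (fun x hx => hU.trans _ _ _ hx (hU.symm _ _ hv)) (Dfp.er E v)
  -- an element of the class of `a`
  have h4 : ∃ u : α → U, er E a (j ∘ u) ∧ ∀ φ : L.Formula α, φ.Realize a → φ.Realize u := by
    obtain ⟨w', hw'⟩ := hw
    obtain ⟨u, hu⟩ := hS α α w' (LIM_F E fun φ => φ.Realize a) (by
      intro G hG hGf
      obtain ⟨ψ, hψ⟩ := LIM_conj G hGf
      obtain ⟨x, hx⟩ := emb_ex j ψ w' ⟨a, (hψ V _).2 fun χ hχ => by
        rcases hG hχ with rfl | ⟨φ, hφ, rfl⟩
        · exact hw'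
        · exact (LIM_inl φ a _).2 hφ⟩
      exact ⟨x, (hψ U _).1 hx⟩)
    refine ⟨u, ?_, fun φ hφ => (LIM_inl φ u w').1 (hu _ (Or.inr ⟨φ, hφ, rfl⟩))⟩
    have h5 : er E u w' := hu _ (Or.inl rfl)
    exact hV.trans _ _ _ hw' (hV.symm _ _ ((emb_er j E u w').2 h5))
  obtain ⟨u, hu, hua⟩ := h4
  -- homogeneity
  obtain ⟨g, hg⟩ := hH α v u fun φ => by
    by_cases h5 : φ.Realize a
    · exact iff_of_true (hva φ h5) (hua φ h5)
    · have h6 : φ.not.Realize a := h5
      exact iff_of_false (hva _ h6) (hua _ h6)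
  refine ⟨g, u, hu, ?_⟩
  have h5 := act_er g E v
  have h6 : (fun i => g (v i)) = u := funext hg
  rw [h6] at h5
  change act g.symm {x : α → U | er E x u} ∈ r
  rw [← h5, act_symm_act]
  exact h3

end real

/-! ### The limit -/

section lim

variable {U : Type} [L.Structure U] {α β : Type}

private def LIM_r (r : Set (Set (α → U))) (g : ℕ → (U ≃[L] U)) : Set (Set (α → U)) :=
  {s | Dfp L s ∧ ∀ᶠ n in (Filter.hyperfilter ℕ : Filter ℕ), s ∈ acT (g n) r}

private theorem LIM_ty {r : Set (Set (α → U))} (hr : IsTy L r) (g : ℕ → (U ≃[L] U)) :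
    IsTy L (LIM_r r g) where
  dfn s hs := hs.1
  ne h := by
    obtain ⟨n, hn⟩ := h.2.exists
    exact (hr.acT (g n)).ne hn
  inter s hs t ht := by
    refine ⟨hs.1.inter ht.1, ?_⟩
    filter_upwards [hs.2, ht.2] with n h1 h2
    exact (hr.acT (g n)).inter _ h1 _ h2
  em s hs := by
    rcases Ultrafilter.em (Filter.hyperfilter ℕ) (fun n => s ∈ acT (g n) r) with h | h
    · exact Or.inl ⟨hs, h⟩
    · refine Or.inr ⟨hs.compl, ?_⟩
      filter_upwards [h] with n hn
      exact ((hr.acT (g n)).em _ hs).resolve_left hn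

private theorem LIM_act_comp (g h : U ≃[L] U) (s : Set (α → U)) :
    act h (act g s) = act (h.comp g) s := by
  ext v
  rw [mem_act, mem_act, mem_act]
  have h1 : (fun i => g.symm (h.symm (v i))) = fun i => (h.comp g).symm (v i) := by
    funext i
    apply (h.comp g).injective
    rw [FirstOrder.Language.Equiv.comp_apply, g.apply_symm_apply, h.apply_symm_apply,
      (h.comp g).apply_symm_apply]
  rw [h1]

private theorem LIM_fib [Finite β] {r : Set (Set (α → U))} (hr : Bd L r) (g : ℕ → (U ≃[L] U))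
    (φ : L.Formula (α ⊕ β)) :
    ∀ᶠ n in (Filter.hyperfilter ℕ : Filter ℕ),
      fib (LIM_r r g) (rs U φ) = act (g n) (fib r (rs U φ)) := by
  have h1 := (Ultrafilter.eventually_exists_mem_iff (f := Filter.hyperfilter ℕ)
    (P := fun (D : Set (β → U)) n => act (g n) (fib r (rs U φ)) = D) (hr.fin β φ)).1
    (Filter.Eventually.of_forall fun n => ⟨_, ⟨g n, rfl⟩, rfl⟩)
  obtain ⟨D, _, hD⟩ := h1
  have h2 : fib (LIM_r r g) (rs U φ) = D := by
    ext b
    have h3 : b ∈ fib (LIM_r r g) (rs U φ) ↔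
        ∀ᶠ n in (Filter.hyperfilter ℕ : Filter ℕ), b ∈ act (g n) (fib r (rs U φ)) := by
      have h4 : Dfp L {a : α → U | Sum.elim a b ∈ rs U φ} := (Dfp.rs φ).fst b
      constructor
      · intro h
        filter_upwards [h.2] with n hn
        rw [← fib_acT_rs]
        exact hn
      · intro h
        refine ⟨h4, ?_⟩
        filter_upwards [h] with n hn
        rw [← fib_acT_rs] at hn
        exact hn
    rw [h3]
    constructor
    · intro h
      obtain ⟨n, hn, hn'⟩ := (h.and hD).exists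
      rw [hn'] at hn
      exact hn
    · intro h
      filter_upwards [hD] with n hn
      rw [hn]
      exact h
  filter_upwards [hD] with n hn
  rw [h2, hn]

private theorem LIM_bd {r : Set (Set (α → U))} (hr : Bd L r) (g : ℕ → (U ≃[L] U)) :
    Bd L (LIM_r r g) where
  ty := LIM_ty hr.ty g
  fin β _ φ := by
    obtain ⟨n, hn⟩ := (LIM_fib hr g φ).exists
    refine (hr.fin β φ).subset ?_
    rintro D ⟨h, rfl⟩
    rw [hn, LIM_act_comp]
    exact ⟨_, rfl⟩

end lim

theorem thm_LIM (hC : St_CTD) (hS : St_SAU) (hQ : St_FEQ) (hV : St_FEV) : St_LIM := by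
  intro L U V _ _ j hc α _ r a hr ha
  have hcL := hc.cu.ctL
  obtain ⟨hS1, hS2⟩ := hS L U hc.cu.mon
  obtain ⟨hQ1, -, hQ3, -⟩ := hQ L U
  have hct : Countable (L.Formula (α ⊕ α)) := (hC L hcL).1 (α ⊕ α)
  -- enumeration of the finite equivalence relations
  obtain ⟨F, hF⟩ := (Set.to_countable {E : L.Formula (α ⊕ α) | FE U E}).exists_eq_range
    ⟨fmE ⊤, hQ3 α ⊤⟩
  have hFE : ∀ n, FE U (F n) := by
    intro n
    have h1 : F n ∈ {E : L.Formula (α ⊕ α) | FE U E} := by
      rw [hF]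
      exact mem_range_self n
    exact h1
  obtain ⟨E, hE0, hE1⟩ : ∃ E : ℕ → L.Formula (α ⊕ α), E 0 = F 0 ∧
      ∀ n, E (n + 1) = E n ⊓ F (n + 1) :=
    ⟨fun n => Nat.rec (F 0) (fun n e => e ⊓ F (n + 1)) n, rfl, fun _ => rfl⟩
  have hEU : ∀ n, FE U (E n) := by
    intro n
    induction n with
    | zero =>
      rw [hE0]
      exact hFE 0
    | succ n ih =>
      rw [hE1]
      exact hQ1 α _ _ ih (hFE _)
  have hEF : ∀ (M : Type) [L.Structure M] (n i : ℕ), i ≤ n → ∀ x y : α → M,
      er (E n) x y → er (F i) x y := by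
    intro M _ n
    induction n with
    | zero =>
      intro i hi x y h
      obtain rfl : i = 0 := by omega
      rw [hE0] at h
      exact h
    | succ n ih =>
      intro i hi x y h
      rw [hE1, er_inf] at h
      rcases Nat.lt_or_ge n i with h1 | h1
      · obtain rfl : i = n + 1 := by omega
        exact h.2
      · exact ih i h1 x y h.1
  have hstep : ∀ n, ∃ (g : U ≃[L] U) (u : α → U), er (E n) a (j ∘ u) ∧
      {x : α → U | er (E n) x u} ∈ acT g r := by
    intro n
    obtain ⟨h1, h2, -⟩ := hV L U V j α (E n)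
    have h3 : FE V (E n) := h1.1 (hEU n)
    exact LIM_step j hS1 hS2 r hr.ty a ha (E n) (hEU n) h3 (h2 h3 a)
  choose g u hu hg using hstep
  refine ⟨LIM_r r g, LIM_bd hr g, ?_, ?_⟩
  · intro E' hE' w hw
    have h1 : E' ∈ {E : L.Formula (α ⊕ α) | FE U E} := hE'
    rw [hF] at h1
    obtain ⟨i, rfl⟩ := h1
    have hVi : FE V (F i) := (hV L U V j α (F i)).1.1 hE'
    refine ⟨Dfp.er _ _, ?_⟩
    have h2 : ∀ᶠ n in (Filter.atTop : Filter ℕ), {x : α → U | er (F i) x w} ∈ acT (g n) r := by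
      filter_upwards [Filter.eventually_ge_atTop i] with n hn
      have h3 : er (F i) (j ∘ w) (j ∘ u n) :=
        hVi.trans _ _ _ (hVi.symm _ _ hw) (hEF V n i hn _ _ (hu n))
      have h4 : er (F i) w (u n) := (emb_er j (F i) w (u n)).1 h3
      exact (hr.ty.acT (g n)).mono (hg n)
        (fun x hx => hE'.trans _ _ _ (hEF U n i hn _ _ hx) (hE'.symm _ _ h4)) (Dfp.er _ _)
    exact h2.filter_mono Nat.hyperfilter_le_atTop
  · intro β₁ β₂ β₃ _ _ _ φ₁ φ₂ φ₃
    obtain ⟨n, h1, h2, h3⟩ := ((LIM_fib hr g φ₁).and ((LIM_fib hr g φ₂).and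
      (LIM_fib hr g φ₃))).exists
    exact ⟨g n, h1, h2, h3⟩

end Pool.Agent.MST
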