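import Pool.Agent.MST.StC
import Pool.Agent.WOM.TRP
import Pool.Agent.WOM.TRC
import Pool.Agent.WOM.EMB
import Pool.Agent.WOM.PULL
import Pool.Agent.WOM.DEF1
import Pool.Agent.WOM.DEFF

/-!
MST [MAT]: from `V` to structures on `ℕ` (helper28).
-/

set_option autoImplicit false

namespace Pool.Agent.MST

open FirstOrder.Language Set
open scoped FirstOrder
open Pool.Agent.WOM (tp Mon IsEl IsoM Fam CtT PerfT ThS Small)

section

variable {L : FirstOrder.Language.{0, 0}} {U V : Type} [L.Structure U] [L.Structure V]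

private theorem MAT_symm {M M' : Set V} (h : IsoM L M M') : IsoM L M' M := by
  obtain ⟨e, he⟩ := h
  refine ⟨e.symm, fun n a => ?_⟩
  have h1 := he n (fun i => e.symm (a i))
  simp only [Equiv.apply_symm_apply] at h1
  exact h1.symm

private theorem MAT_trans {M M' M'' : Set V} (h : IsoM L M M') (h' : IsoM L M' M'') :
    IsoM L M M'' := by
  obtain ⟨e, he⟩ := h
  obtain ⟨e', he'⟩ := h'
  exact ⟨e.trans e', fun n a => (he n a).trans (he' n fun i => e (a i))⟩

private theorem MAT_tp (j : U ↪ₑ[L] V) {n : ℕ} (a : Fin n → U) :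
    tp (L := L) (fun i => j (a i)) = tp (L := L) a := by
  ext φ
  exact emb_real j φ a

private theorem MAT_pull (j : U ↪ₑ[L] V) {M M' : Set U} (h : IsoM L (j '' M) (j '' M')) :
    IsoM L M M' := by
  obtain ⟨e, he⟩ := h
  refine ⟨(Equiv.Set.image j M j.injective).trans
    (e.trans (Equiv.Set.image j M' j.injective).symm), fun n a => ?_⟩
  have h1 := he n (fun i => Equiv.Set.image j M j.injective (a i))
  have h2 : (fun i => ((Equiv.Set.image j M j.injective (a i) : j '' M) : V)) =
      fun i => j ((a i : M) : U) := rfl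
  have h3 : (fun i => ((e (Equiv.Set.image j M j.injective (a i)) : j '' M') : V)) =
      fun i => j (((((Equiv.Set.image j M j.injective).trans
        (e.trans (Equiv.Set.image j M' j.injective).symm)) (a i) : M') : U)) := by
    funext i
    have h4 := congrArg Subtype.val ((Equiv.Set.image j M' j.injective).apply_symm_apply
      (e (Equiv.Set.image j M j.injective (a i))))
    exact h4.symm
  rw [h2, h3, MAT_tp, MAT_tp] at h1
  exact h1

private theorem MAT_el (h : St_ELX) (j : U ↪ₑ[L] V) {M : Set U} (hM : IsEl L M) :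
    IsEl L (j '' M) := by
  obtain ⟨-, c2, -, -, -, -⟩ := h L V
  obtain ⟨d1, -, -, -, -, -⟩ := h L U
  refine c2 _ fun n φ m hm x hx => ?_
  choose m' hm' hjm using hm
  have e1 : m = j ∘ m' := funext fun i => (hjm i).symm
  subst e1
  obtain ⟨y, hy⟩ := emb_ex j φ m' ⟨fun _ => x, hx⟩
  obtain ⟨z, hzM, hz⟩ := d1 M hM Unit (Fin n) φ m' hm' ⟨y, hy⟩
  refine ⟨j (z ()), mem_image_of_mem _ (hzM ()), ?_⟩
  have h5 := (emb_real j φ (Sum.elim z m')).2 hz
  rw [comp_elim] at h5
  exact h5

/-- the transfer of perfect families (as `WOM.thm_TRP`, for any structure) -/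
private theorem MAT_perf (h1 : Pool.Agent.WOM.St_PULL) (hP : PfV L V) (S : L.Structure ℕ)
    (hS : V ⊨ ThS L S) : PerfT L (ThS L S) := by
  obtain ⟨u, hfam, hinj⟩ := hP
  choose f hf using fun x => h1 L V (u x) (hfam.inj x) (hfam.el x)
  refine ⟨f, fun x => ?_, fun x y hxy => ?_, fun n R a => ?_, fun n F a b => ?_⟩
  · rw [@FirstOrder.Language.Theory.model_iff L ℕ (f x)]
    intro φ hφ
    rw [FirstOrder.Language.Theory.model_iff] at hS
    exact (Pool.Agent.WOM.TRP_sent (f x) (u x) (hf x) φ).2 (hS φ hφ)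
  · obtain ⟨e⟩ := hxy
    exact hinj x y (Pool.Agent.WOM.TRP_iso (hfam.inj x) (hfam.inj y) (f x) (f y) (hf x) (hf y) e)
  · have h2 : {x : ℕ → Bool | @FirstOrder.Language.Structure.RelMap L ℕ (f x) n R a} =
        {x : ℕ → Bool | (R.formula (fun i : Fin n => (var i : L.Term (Fin n)))).Realize
          (u x ∘ a)} := by
      ext x
      rw [mem_ofPred_eq, mem_ofPred_eq, ← Pool.Agent.WOM.TRP_mem (f x) (u x) (hf x)]
      let _ : L.Structure ℕ := f x
      exact (FirstOrder.Language.Formula.realize_rel (L := L) (M := ℕ) (R := R)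
        (ts := fun i : Fin n => (var i : L.Term (Fin n))) (v := a)).symm
    rw [h2]
    exact Pool.Agent.WOM.TRP_clopen hfam.cont n a _
  · have h2 : {x : ℕ → Bool | @FirstOrder.Language.Structure.funMap L ℕ (f x) n F a = b} =
        {x : ℕ → Bool | (FirstOrder.Language.Formula.graph F).Realize
          (u x ∘ (Fin.cons b a : Fin (n + 1) → ℕ))} := by
      ext x
      rw [mem_ofPred_eq, mem_ofPred_eq, ← Pool.Agent.WOM.TRP_mem (f x) (u x) (hf x)]
      exact (@FirstOrder.Language.Formula.realize_graph L ℕ (f x) n F a b).symm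
    rw [h2]
    exact Pool.Agent.WOM.TRP_open hfam.cont (n + 1) (Fin.cons b a) _

end

/-- MAT. -/
theorem thm_MAT (h : St_ELX) : St_MAT := by
  classical
  intro L U V _ _ j hU S hS
  constructor
  · rintro ⟨g, hg⟩
    refine Pool.Agent.WOM.thm_TRC (Pool.Agent.WOM.thm_EMB
      (Pool.Agent.WOM.thm_DEF1 Pool.Agent.WOM.thm_DEFF)) L U hU ?_ S hS
    refine ⟨fun n => if hn : ∃ M : Set U, IsEl L M ∧ IsoM L (j '' M) (g n) then hn.choose else ∅,
      fun M hM => ?_⟩
    have hctb : Countable U := hU.ctb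
    obtain ⟨n, hn⟩ := hg (j '' M) ⟨(Set.to_countable M).image j, MAT_el h j hM⟩
    have hex : ∃ M : Set U, IsEl L M ∧ IsoM L (j '' M) (g n) := ⟨M, hM, hn⟩
    refine ⟨n, ?_⟩
    simp only [dif_pos hex]
    exact MAT_pull j (MAT_trans hn (MAT_symm hex.choose_spec.2))
  · intro hP
    refine MAT_perf (Pool.Agent.WOM.thm_PULL (Pool.Agent.WOM.thm_DEF1 Pool.Agent.WOM.thm_DEFF)) hP S ?_
    exact (j.theory_model_iff _).1 hS

end Pool.Agent.MST
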