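import Pool.Agent.MST.StC

/-!
MST, module MLA: the multiplicities in the enlarged model.
-/

set_option autoImplicit false

namespace Pool.Agent.MST

open FirstOrder.Language Set
open scoped FirstOrder
open Pool.Agent.WOM (tp Mon IsEl IsoM Fam CtT PerfT ThS)

/-- [MLA] -/
theorem thm_MLA (h : St_ADK) : St_MLA := by
  intro L U V _ _ j hC M K' h1 h2 h3 J K
  obtain ⟨hd, hdd, hAt⟩ := h L U V j hC M K' h1 h2 h3
  have hinj : Function.Injective K' := by
    intro m n hmn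
    by_contra hne
    have h4 := hdd m n hne
    rw [hmn, disjoint_self] at h4
    exact (h2 n).1.ne_empty h4
  have h5 : {K'' ∈ At j (M ∪ ⋃ n ∈ J, K' n) | App L K K''} =
      {K'' ∈ At j M | App L K K''} ∪ K' '' {n ∈ J | App L K (K' n)} := by
    rw [hAt J]
    ext K''
    simp only [mem_ofPred_eq, mem_union, mem_image]
    constructor
    · rintro ⟨h6 | ⟨n, hn, rfl⟩, h7⟩
      · exact Or.inl ⟨h6, h7⟩
      · exact Or.inr ⟨n, ⟨hn, h7⟩, rfl⟩
    · rintro (⟨h6, h7⟩ | ⟨n, ⟨hn, h7⟩, rfl⟩)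
      · exact ⟨Or.inl h6, h7⟩
      · exact ⟨Or.inr ⟨n, hn, rfl⟩, h7⟩
  have h6 : Disjoint {K'' ∈ At j M | App L K K''} (K' '' {n ∈ J | App L K (K' n)}) := by
    rw [Set.disjoint_left]
    rintro _ ⟨h7, -⟩ ⟨n, -, rfl⟩
    have h8 : K' n ⊆ M := h7.1
    obtain ⟨x, hx⟩ := (h2 n).1
    exact Set.disjoint_left.1 (hd n) hx (h8 hx)
  unfold mul
  rw [h5, encard_union_eq h6, hinj.encard_image]

end Pool.Agent.MST
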