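import Pool.Agent.MST.StC

/-!
MST, module MOD: submodels given by sets of atoms.
-/

set_option autoImplicit false

namespace Pool.Agent.MST

open FirstOrder.Language Set
open scoped FirstOrder
open Pool.Agent.WOM (tp Mon IsEl IsoM Fam CtT PerfT ThS)

theorem thm_MOD (h1 : St_ELX) (h2 : St_COH) (h3 : St_FRS) : St_MOD := by
  intro L U V _ _ j hC
  obtain ⟨f1, f2, f3, f4, f5⟩ := h3 L U V j hC
  obtain ⟨x1, x2, x3, x4, x5, x6⟩ := h1 L V
  have key : ∀ M X N : Set V, M ⊆ X → X ⊆ N → IsEl L M → IsEl L N → FrS j X (N \ X) →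
      IsEl L X := by
    intro M X N hMX hXN hM hN hF
    refine x2 X fun n φ m hm x hx => ?_
    obtain ⟨b, hbN, hb⟩ := x1 N hN Unit (Fin n) φ m (fun i => hXN (hm i)) ⟨fun _ => x, hx⟩
    have hbu : b = fun _ => b () := rfl
    by_cases hbX : b () ∈ X
    · exact ⟨b (), hbX, hb⟩
    · have hF2 : FrS j (range b) (M ∪ range m) := by
        refine f2 _ _ _ _ ?_ ?_ (f1 _ _ hF)
        · rintro _ ⟨i, rfl⟩
          exact ⟨hbN i, hbX⟩
        · exact union_subset hMX (range_subset_iff.2 hm)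
      have e1 : ∀ c : Unit → V, (φ.relabel (Sum.map id Sum.inl :
          Unit ⊕ Fin n → Unit ⊕ (Fin n ⊕ Empty))).Realize
          (Sum.elim c (Sum.elim m (Empty.elim : Empty → V))) ↔ φ.Realize (Sum.elim c m) := by
        intro c
        rw [FirstOrder.Language.Formula.realize_relabel]
        have : (Sum.elim c (Sum.elim m (Empty.elim : Empty → V)) :
            Unit ⊕ (Fin n ⊕ Empty) → V) ∘ (Sum.map id Sum.inl) = Sum.elim c m := by
          funext z
          rcases z with z | z <;> rfl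
        rw [this]
      obtain ⟨a', ha', h4⟩ := h2 L U V j hC M hM Unit (Fin n) Empty b m Empty.elim
        (fun i => i.elim) hF2 _ ((e1 b).2 hb)
      exact ⟨a' (), hMX (ha' ()), (e1 a').1 h4⟩
  refine ⟨key, ?_⟩
  intro hUN M M' K hM hM' hMM' hK hKF
  have hN := hUN M M' hM.1 hM'.1 hM.2 hM'.2 hMM'
  have h4 : FrS j (M' \ K ∪ K) M := by
    rw [diff_union_of_subset hK]
    exact f1 _ _ hMM'
  have h5 : FrS j (K ∪ M) (M' \ K) := f1 _ _ (f3 _ _ _ (f1 _ _ hKF) h4)
  refine ⟨hM.1.union (hM'.1.mono hK), key M (M ∪ K) (M ∪ M') subset_union_left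
    (union_subset_union_right M hK) hM.2 hN ?_⟩
  refine f2 _ _ _ _ (union_comm M K).subset ?_ h5
  rintro x ⟨hx | hx, hx'⟩
  · exact absurd (Or.inl hx) hx'
  · exact ⟨hx, fun h => hx' (Or.inr h)⟩

end Pool.Agent.MST
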