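import Pool.Agent.MST.StC
import Pool.Agent.WOM.TOP

/-!
MST: assembly of the theorem (helper47).
-/

set_option autoImplicit false

namespace Pool.Agent.MST

open FirstOrder.Language Set
open scoped FirstOrder
open Pool.Agent.WOM (tp Mon IsEl IsoM Fam CtT PerfT ThS Small)

variable {L : FirstOrder.Language.{0, 0}}

private theorem MTOP_cth {U V : Type} [L.Structure U] [L.Structure V] (j : U ↪ₑ[L] V) :
    L.completeTheory V = L.completeTheory U := by
  ext φ
  exact (j.map_sentence φ).symm

private theorem MTOP_ths (S : L.Structure ℕ) {U : Type} [L.Structure U]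
    (h : U ⊨ ThS L S) : L.completeTheory U = ThS L S := by
  ext φ
  constructor
  · intro h1
    by_contra h2
    have h3 : φ.not ∈ ThS L S := h2
    exact (h.realize_of_mem _ h3) h1
  · intro h1
    exact h.realize_of_mem _ h1

private theorem MTOP_stb {U V : Type} [L.Structure U] [L.Structure V] (j : U ↪ₑ[L] V)
    (h : Stb L V) : Stb L U := by
  intro m n φ a b hab
  refine h m n φ (fun i => j ∘ a i) (fun i => j ∘ b i) fun i k => ?_
  rw [← comp_elim, emb_real]
  exact hab i k

theorem thm_MTOP (hULT : WOM.St_ULT) (hSUBM : WOM.St_SUBM) (hHOMG : WOM.St_HOMG)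
    (hINC : WOM.St_INC) (hNSM : WOM.St_NSM) (hSAW : St_SAW) (hUNM : St_UNM) (hCNT : St_CNT)
    (hHYP : St_HYP) (hMAT : St_MAT) : St_MST := by
  intro L hL T hT
  refine hINC L hL T fun S hS => ?_
  by_cases hsm : Small L (ThS L S)
  · obtain ⟨V0, _, _, hV0, hsV0⟩ := hULT L hL S
    obtain ⟨U, _, hc, hi, hU, hsU⟩ := hSUBM L hL S hsm V0 hV0 hsV0
    have hM : Mon L U := hHOMG L U hc hi hsU
    obtain ⟨V, _, hW, ⟨j⟩⟩ := hSAW L hL U inferInstance
    have hiV : Infinite V := Infinite.of_injective j j.injective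
    have hth : L.completeTheory V = ThS L S := (MTOP_cth j).trans (MTOP_ths S hU)
    have hmod : ∀ S' : L.Structure ℕ,
        @FirstOrder.Language.Theory.Model L ℕ S' (L.completeTheory V) →
        @FirstOrder.Language.Theory.Model L ℕ S' T := by
      intro S' hS'
      rw [hth] at hS'
      exact @WOM.TOP_mono L T S hS ℕ S' hS'
    obtain ⟨hY1, hY2, hY3⟩ := hHYP L hL V hiV
    have hsV : Stb L V := hY1 fun S' hS' => (hT S' (hmod S' hS')).1
    have hX : Cx L U V := ⟨⟨hL, hM, MTOP_stb j hsV⟩, hsV, hW⟩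
    have hUN : UN j := by
      by_cases hm : ∀ S' : L.Structure ℕ,
          @FirstOrder.Language.Theory.Model L ℕ S' (L.completeTheory V) → @MSt L ℕ S'
      · exact hUNM L U V j hX (hY2 hm)
      · obtain ⟨S0, h0⟩ := not_forall.1 hm
        obtain ⟨hS0, h1⟩ := Classical.not_imp.1 h0
        have h2 := (hT S0 (hmod S0 hS0)).2.resolve_left h1
        refine hY3 U j hX fun S' hS' => h2 S' ?_
        have h3 : ThS L S0 = ThS L S := by
          have h4 := hS0
          rw [hth] at h4
          exact @MTOP_ths L S ℕ S0 h4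
        rw [h3, ← hth]
        exact hS'
    rcases hCNT L U V j hX hUN with h | h
    · exact Or.inl ((hMAT L U V j hM S hU).1 h)
    · exact Or.inr ((hMAT L U V j hM S hU).2 h)
  · exact Or.inr (hNSM L hL _ hsm)

end Pool.Agent.MST
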