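import Pool.Agent.MST.StB

/-!
MST [NDV]: independent tuples do not divide (helper28).
-/

set_option autoImplicit false

namespace Pool.Agent.MST

open FirstOrder.Language Set
open scoped FirstOrder
open Pool.Agent.WOM (tp Mon IsEl IsoM Fam)

section

variable {L : FirstOrder.Language.{0, 0}} {m n : ℕ}

/-- any `k` tuples in the class of `y` have a common solution of `φ` -/
private noncomputable def NDV_th (φ : L.Formula (Fin m ⊕ Fin n)) (E : L.Formula (Fin n ⊕ Fin n))
    (k : ℕ) : L.Formula (Fin n) :=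
  ((FirstOrder.Language.Formula.iInf fun i : Fin k => E.relabel (Sum.elim
      (fun t => Sum.inr (i, t)) (fun t => Sum.inl t) :
        Fin n ⊕ Fin n → Fin n ⊕ (Fin k × Fin n))).imp
    ((FirstOrder.Language.Formula.iInf fun i : Fin k => φ.relabel (Sum.elim
      (fun s => Sum.inr s) (fun t => Sum.inl (Sum.inr (i, t))) :
        Fin m ⊕ Fin n → (Fin n ⊕ (Fin k × Fin n)) ⊕ Fin m)).iExs (Fin m))).iAlls (Fin k × Fin n)

private theorem NDV_real {M : Type} [L.Structure M] (φ : L.Formula (Fin m ⊕ Fin n))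
    (E : L.Formula (Fin n ⊕ Fin n)) (k : ℕ) (y : Fin n → M) :
    (NDV_th φ E k).Realize y ↔ ∀ w : Fin k → Fin n → M, (∀ i, er E (w i) y) →
      ∃ x : Fin m → M, ∀ i, φ.Realize (Sum.elim x (w i)) := by
  unfold NDV_th
  rw [FirstOrder.Language.Formula.realize_iAlls]
  have key : ∀ w : Fin k × Fin n → M,
      (((FirstOrder.Language.Formula.iInf fun i : Fin k => E.relabel (Sum.elim
        (fun t => Sum.inr (i, t)) (fun t => Sum.inl t) :
          Fin n ⊕ Fin n → Fin n ⊕ (Fin k × Fin n))).imp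
      ((FirstOrder.Language.Formula.iInf fun i : Fin k => φ.relabel (Sum.elim
        (fun s => Sum.inr s) (fun t => Sum.inl (Sum.inr (i, t))) :
          Fin m ⊕ Fin n → (Fin n ⊕ (Fin k × Fin n)) ⊕ Fin m)).iExs (Fin m))).Realize
          (fun a => Sum.elim y w a)) ↔
      ((∀ i, er E (fun t => w (i, t)) y) →
        ∃ x : Fin m → M, ∀ i, φ.Realize (Sum.elim x (fun t => w (i, t)))) := by
    intro w
    rw [FirstOrder.Language.Formula.realize_imp, FirstOrder.Language.Formula.realize_iInf,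
      FirstOrder.Language.Formula.realize_iExs]
    refine imp_congr (forall_congr' fun i => ?_) (exists_congr fun x => ?_)
    · rw [FirstOrder.Language.Formula.realize_relabel]
      have h : (fun a => Sum.elim y w a) ∘ (Sum.elim (fun t => Sum.inr (i, t))
          (fun t => Sum.inl t) : Fin n ⊕ Fin n → Fin n ⊕ (Fin k × Fin n)) =
          Sum.elim (fun t => w (i, t)) y := by
        funext z
        rcases z with z | z <;> rfl
      rw [h]
      rfl
    · rw [FirstOrder.Language.Formula.realize_iInf]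
      refine forall_congr' fun i => ?_
      rw [FirstOrder.Language.Formula.realize_relabel]
      have h : (fun a => Sum.elim (fun a => Sum.elim y w a) x a) ∘ (Sum.elim
          (fun s => Sum.inr s) (fun t => Sum.inl (Sum.inr (i, t))) :
            Fin m ⊕ Fin n → (Fin n ⊕ (Fin k × Fin n)) ⊕ Fin m) =
          Sum.elim x (fun t => w (i, t)) := by
        funext z
        rcases z with z | z <;> rfl
      rw [h]
  constructor
  · intro h w hw
    exact (key (fun p => w p.1 p.2)).1 (h _) hw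
  · intro h w
    exact (key w).2 (h fun i t => w (i, t))

private theorem NDV_inter {M : Type} [L.Structure M] {p : Set (Set (Fin m → M))}
    (hp : IsTy L p) (k : ℕ) (s : Fin k → Set (Fin m → M)) (hs : ∀ i, s i ∈ p) :
    (⋂ i, s i) ∈ p := by
  induction k with
  | zero =>
    have h : (⋂ i, s i) = Set.univ := by
      ext v
      simp
    rw [h]
    exact hp.univ
  | succ k ih =>
    have h : (⋂ i, s i) = (⋂ i : Fin k, s i.castSucc) ∩ s (Fin.last k) := by
      ext v
      simp only [mem_iInter, mem_inter_iff]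
      exact Fin.forall_fin_succ'
    rw [h]
    exact hp.inter _ (ih _ fun i => hs _) _ (hs _)

end

/-- NDV. -/
theorem thm_NDV (h1 : St_FEV) (h2 : St_BDE) (h3 : St_FRB) : St_NDV := by
  classical
  intro L U V _ _ j hC m n φ a b hab hφ hdiv
  obtain ⟨pB, -, -, -, -, -⟩ := h3 L U V j hC (Fin m) a
  obtain ⟨qB, qH, -, -, -, -⟩ := h3 L U V j hC (Fin n) b
  obtain ⟨-, -, -, rR, -, -⟩ := h3 L U V j hC (Fin m ⊕ Fin n) (Sum.elim a b)
  have hD : fib (fr j a) (rs U φ) ∈ fr j b := by
    have h := (rR φ).2 hφ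
    have hab' : fr j (Sum.elim a b) = ten L (fr j a) (fr j b) := hab
    rw [hab'] at h
    exact h.2
  obtain ⟨E, hE, hinv⟩ := h2 L U hC.cu (Fin m) (Fin n) (fr j a) pB φ
  obtain ⟨f1, f2, -⟩ := h1 L U V j (Fin n) E
  have hEV : FE V E := f1.1 hE
  obtain ⟨u, hu⟩ := f2 hEV b
  have hcl : {x | er E x u} ∈ fr j b := qH E hE u hu
  obtain ⟨y, hy1, hy2⟩ := qB.ty.nonempty (qB.ty.inter _ hD _ hcl)
  have huD : u ∈ fib (fr j a) (rs U φ) := (hinv y u hy2).1 hy1
  obtain ⟨k, hk⟩ := hdiv
  have hθu : (NDV_th φ E k).Realize u := by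
    rw [NDV_real]
    intro w hw
    have h4 : ∀ i, {x : Fin m → U | Sum.elim x (w i) ∈ rs U φ} ∈ fr j a := fun i =>
      (hinv (w i) u (hw i)).2 huD
    obtain ⟨x, hx⟩ := pB.ty.nonempty (NDV_inter pB.ty k _ h4)
    refine ⟨x, fun i => ?_⟩
    exact (mem_iInter.1 hx) i
  have hθb : (NDV_th φ E k).Realize b := by
    have h5 : (NDV_th φ E k).Realize (j ∘ u : Fin n → V) := (emb_real j _ u).2 hθu
    rw [NDV_real] at h5 ⊢
    intro w hw
    exact h5 w fun i => hEV.trans _ _ _ (hw i) hu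
  obtain ⟨F, hF, hFc⟩ := hEV.fin
  choose y hyF hyE using hFc
  obtain ⟨c, hc1, hc2⟩ := hk _ hθb (hF.toFinset.card * k + 1)
  obtain ⟨y0, -, hy0⟩ := Finset.exists_lt_card_fiber_of_mul_lt_card_of_maps_to
    (s := (Finset.univ : Finset (Fin (hF.toFinset.card * k + 1)))) (t := hF.toFinset)
    (f := fun i => y (c i)) (n := k) (fun i _ => hF.mem_toFinset.2 (hyF (c i))) (by
      rw [Finset.card_univ, Fintype.card_fin]
      exact Nat.lt_succ_self _)
  obtain ⟨I, hI, hIc⟩ := Finset.exists_subset_card_eq hy0.le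
  obtain ⟨i0, hi0⟩ := Finset.card_pos.1 (lt_of_le_of_lt (Nat.zero_le k) hy0)
  have hcl : ∀ i ∈ Finset.univ.filter (fun i => y (c i) = y0), er E (c i) (c i0) := by
    intro i hi
    have e1 : y (c i) = y0 := (Finset.mem_filter.1 hi).2
    have e2 : y (c i0) = y0 := (Finset.mem_filter.1 hi0).2
    have e3 := hyE (c i)
    rw [e1, ← e2] at e3
    exact hEV.trans _ _ _ e3 (hEV.symm _ _ (hyE (c i0)))
  have h6 := (NDV_real φ E k (c i0)).1 (hc1 i0)
    (fun t => c ((I.equivFinOfCardEq hIc).symm t)) fun t =>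
      hcl _ (hI ((I.equivFinOfCardEq hIc).symm t).2)
  obtain ⟨x, hx⟩ := h6
  refine hc2 I hIc ⟨x, fun i hi => ?_⟩
  have h7 := hx (I.equivFinOfCardEq hIc ⟨i, hi⟩)
  rw [Equiv.symm_apply_apply] at h7
  exact h7

end Pool.Agent.MST
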