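import Pool.Agent.MST.StC

/-!
MST, [PRA]: a perfect family of models with prescribed finite multiplicities (helper96).
-/

set_option autoImplicit false

namespace Pool.Agent.MST

open FirstOrder.Language Set
open scoped FirstOrder
open Pool.Agent.WOM (tp Mon IsEl IsoM Fam CtT PerfT ThS)

/-- the index set for `f` -/
private def PRA_J (m i : ℕ → ℕ) (f : ℕ → Bool) : Set ℕ :=
  {k | (Nat.unpair k).2 <
    2 * i (Nat.unpair k).1 + (f (Nat.unpair k).1).toNat - m (Nat.unpair k).1}

private theorem PRA_card (m i : ℕ → ℕ) (f : ℕ → Bool) (n : ℕ) :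
    {k ∈ PRA_J m i f | (Nat.unpair k).1 = n}.encard =
      ((2 * i n + (f n).toNat - m n : ℕ) : ℕ∞) := by
  have h1 : {k ∈ PRA_J m i f | (Nat.unpair k).1 = n} =
      (fun l => Nat.pair n l) '' (Set.Iio (2 * i n + (f n).toNat - m n)) := by
    ext k
    constructor
    · rintro ⟨h2, rfl⟩
      exact ⟨(Nat.unpair k).2, h2, Nat.pair_unpair k⟩
    · rintro ⟨l, hl, rfl⟩
      refine ⟨?_, ?_⟩
      · change (Nat.unpair (Nat.pair n l)).2 < 2 * i (Nat.unpair (Nat.pair n l)).1 +
          (f (Nat.unpair (Nat.pair n l)).1).toNat - m (Nat.unpair (Nat.pair n l)).1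
        rw [Nat.unpair_pair]
        exact hl
      · change (Nat.unpair (Nat.pair n l)).1 = n
        rw [Nat.unpair_pair]
  rw [h1, Function.Injective.encard_image]
  · rw [← Finset.coe_Iio, Set.encard_coe_eq_coe_finsetCard, Nat.card_Iio]
  · intro a b hab
    have h2 := congrArg (fun x => (Nat.unpair x).2) hab
    simpa only [Nat.unpair_pair] using h2

theorem thm_PRA (hAPQ : St_APQ) (hATM : St_ATM) (hADJ : St_ADJ) (hADK : St_ADK)
    (hMLA : St_MLA) (hECL : St_ECL) : St_PRA := by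
  intro L U V _ _ j hc hUN M hM hK0
  obtain ⟨hA1, hA2, hA3, hA4⟩ := hAPQ L U V j hc
  obtain ⟨hT1, hT2, -⟩ := hATM L U V j hc M
  -- the atoms are countable
  have hAt : (At j M).Countable := by
    have h1 : ∀ x : V, ∃ K : Set V, x ∈ M → K ∈ At j M ∧ x ∈ K := by
      intro x
      by_cases hx : x ∈ M
      · obtain ⟨K, hK, hxK⟩ := hT1 x hx
        exact ⟨K, fun _ => ⟨hK, hxK⟩⟩
      · exact ⟨∅, fun h => absurd h hx⟩
    choose c hc' using h1
    refine (hM.1.image c).mono fun K hK => ?_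
    obtain ⟨x, hx⟩ := hK.2.2.1
    obtain ⟨h2, h3⟩ := hc' x (hK.1 hx)
    exact ⟨x, hK.1 hx, hT2 _ h2 _ hK ⟨x, h3, hx⟩⟩
  obtain ⟨A, hA⟩ : ∃ A : Set (Set V), A = {K | K ∈ At j M ∧ NTr j K ∧ mul j M K ≠ ⊤} := ⟨_, rfl⟩
  have hAc : A.Countable := hAt.mono fun K hK => by
    rw [hA] at hK
    exact hK.1
  have hmulc : ∀ (X K K' : Set V), App L K K' → mul j X K = mul j X K' := by
    intro X K K' h
    have h1 : {K'' ∈ At j X | App L K K''} = {K'' ∈ At j X | App L K' K''} := by
      ext K''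
      exact and_congr_right fun _ => ⟨fun h2 => hA3 _ _ _ (hA2 _ _ h) h2, fun h2 => hA3 _ _ _ h h2⟩
    unfold mul
    rw [h1]
  obtain ⟨K, hKA, hKne, hKall⟩ := hECL (Set V) A (App L) hAc
    ⟨hA1, fun {K K'} h => hA2 K K' h, fun {K K' K''} h h' => hA3 K K' K'' h h'⟩ (by
      obtain ⟨K, h1, h2⟩ := hK0
      refine ⟨K, fun n => ?_, h2⟩
      rw [hA]
      exact h1 n)
  rw [hA] at hKA hKall
  -- the multiplicities
  have hm : ∀ n, ∃ m : ℕ, mul j M (K n) = (m : ℕ∞) := fun n => by
    obtain ⟨m, hm⟩ := ENat.ne_top_iff_exists.1 (hKA n).2.2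
    exact ⟨m, hm.symm⟩
  choose m hm using hm
  obtain ⟨i, hi⟩ : ∃ i : ℕ → ℕ, i = fun n => n + ∑ k ∈ Finset.range (n + 1), m k := ⟨_, rfl⟩
  have hmi : ∀ n, m n ≤ 2 * i n := by
    intro n
    have h1 : m n ≤ ∑ k ∈ Finset.range (n + 1), m k :=
      Finset.single_le_sum (fun _ _ => Nat.zero_le _) (Finset.mem_range.2 (Nat.lt_succ_self n))
    rw [hi]
    dsimp only
    omega
  have himono : StrictMono i := by
    refine strictMono_nat_of_lt_succ fun n => ?_
    rw [hi]
    dsimp only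
    rw [Finset.sum_range_succ _ (n + 1)]
    omega
  -- the copies
  obtain ⟨K', hK1, hK2, hK3⟩ := hADJ L U V j hc hUN M hM (fun k => K (Nat.unpair k).1)
    fun k => ⟨M, hM, (hKA _).1, (hKA _).2.1⟩
  have hId : ∀ n, Idc j (K' n) := fun n => (hA4 _ _ (hK1 n)).1 (hKA _).1.2.2
  have hNT : ∀ n, NTr j (K' n) := fun n => (hA4 _ _ (hK1 n)).2.1 (hKA _).2.1
  obtain ⟨hD1, hD2, hD3⟩ := hADK L U V j hc M K' hK2 hId hNT
  have hML := hMLA L U V j hc M K' hK2 hId hNT
  have happ : ∀ n k, App L (K n) (K' k) ↔ (Nat.unpair k).1 = n := by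
    intro n k
    constructor
    · intro h
      by_contra h1
      exact hKne _ _ h1 (hA3 _ _ _ (hK1 k) (hA2 _ _ h))
    · rintro rfl
      exact hK1 k
  have hmul : ∀ (f : ℕ → Bool) (n : ℕ), mul j (M ∪ ⋃ k ∈ PRA_J m i f, K' k) (K n) =
      ((2 * i n + (f n).toNat : ℕ) : ℕ∞) := by
    intro f n
    have h1 : {k ∈ PRA_J m i f | App L (K n) (K' k)} =
        {k ∈ PRA_J m i f | (Nat.unpair k).1 = n} := by
      ext k
      exact and_congr_right fun _ => happ n k
    rw [hML, h1, PRA_card, hm, ← Nat.cast_add]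
    have h2 := hmi n
    congr 1
    omega
  refine ⟨M ∪ ⋃ k ∈ (Set.univ : Set ℕ), K' k, fun f => M ∪ ⋃ k ∈ PRA_J m i f, K' k, i, himono,
    (hK3 Set.univ).1, fun f => ⟨?_, hK3 _⟩, ?_, ?_⟩
  · exact Set.union_subset_union_right _ (Set.biUnion_subset_biUnion_left (Set.subset_univ _))
  · intro v hv
    by_cases hvM : v ∈ M
    · have h1 : {f : ℕ → Bool | v ∈ M ∪ ⋃ k ∈ PRA_J m i f, K' k} = Set.univ :=
        Set.eq_univ_of_forall fun f => Or.inl hvM
      rw [h1]
      exact isClopen_univ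
    · rcases hv with hv | hv
      · exact absurd hv hvM
      · rw [Set.mem_iUnion₂] at hv
        obtain ⟨k, -, hvk⟩ := hv
        have h1 : {f : ℕ → Bool | v ∈ M ∪ ⋃ k ∈ PRA_J m i f, K' k} =
            (fun f : ℕ → Bool => f (Nat.unpair k).1) ⁻¹' {b : Bool | (Nat.unpair k).2 <
              2 * i (Nat.unpair k).1 + b.toNat - m (Nat.unpair k).1} := by
          ext f
          constructor
          · rintro (h | h)
            · exact absurd h hvM
            · rw [Set.mem_iUnion₂] at h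
              obtain ⟨l, hl, hvl⟩ := h
              have h2 : l = k := by
                by_contra h3
                exact Set.disjoint_left.1 (hD2 l k h3) hvl hvk
              rw [h2] at hl
              exact hl
          · intro h
            refine Or.inr ?_
            rw [Set.mem_iUnion₂]
            exact ⟨k, h, hvk⟩
        rw [h1]
        exact (isClopen_discrete _).preimage (continuous_apply _)
  · intro f
    ext c
    constructor
    · rintro ⟨K₁, hK₁, hN, hmulK⟩
      have h1 : K₁ ∈ At j M ∪ K' '' PRA_J m i f := by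
        rw [← hD3]
        exact hK₁
      rcases h1 with h1 | ⟨k, hk, rfl⟩
      · have h2 : mul j M K₁ ≠ ⊤ := by
          intro h3
          rw [hML, h3, top_add] at hmulK
          exact ENat.natCast_ne_top c hmulK.symm
        obtain ⟨n, hn⟩ := hKall K₁ ⟨h1, hN, h2⟩
        refine ⟨n, ?_⟩
        rw [hmulc _ _ _ hn, hmul] at hmulK
        exact (Nat.cast_injective hmulK).symm
      · refine ⟨(Nat.unpair k).1, ?_⟩
        rw [← hmulc _ _ _ (hK1 k), hmul] at hmulK
        exact (Nat.cast_injective hmulK).symm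
    · rintro ⟨n, rfl⟩
      refine ⟨K n, ?_, (hKA n).2.1, hmul f n⟩
      rw [hD3]
      exact Or.inl (hKA n).1

end Pool.Agent.MST
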