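import Pool.Agent.MST.StC

/-!
MST [PRF] (helper97): infinitely many finite multiplicities of atoms give perfectly many models.
-/

set_option autoImplicit false

namespace Pool.Agent.MST

open FirstOrder.Language Set
open scoped FirstOrder
open Pool.Agent.WOM (tp Mon IsEl IsoM Fam CtT PerfT ThS)

/-- parity: the value `f n` can be read off the set of the numbers `2 * i n + f n` -/
private theorem PRF_read (i : ℕ → ℕ) (hi : StrictMono i) (f : ℕ → Bool) (n : ℕ) :
    f n = true ↔ 2 * i n + 1 ∈ {m | ∃ k, m = 2 * i k + (f k).toNat} := by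
  constructor
  · intro h
    exact ⟨n, by rw [h]; rfl⟩
  · rintro ⟨k, hk⟩
    have h1 : (f k).toNat = 0 ∨ (f k).toNat = 1 := by
      cases f k
      · exact Or.inl rfl
      · exact Or.inr rfl
    rcases h1 with h1 | h1
    · exfalso
      omega
    · have h2 : i n = i k := by omega
      have h3 : n = k := hi.injective h2
      rw [h3]
      cases h4 : f k
      · rw [h4] at h1
        exact absurd h1 (by decide)
      · rfl

/-- [PRF] -/
theorem thm_PRF (hELX : St_ELX) (hFMI : St_FMI) (hENU : St_ENU) (hPRA : St_PRA) : St_PRF := by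
  intro L U V _ _ j hC hU M hM hK
  obtain ⟨N, X, i, hi, hN, hX, hcl, hFM⟩ := hPRA L U V j hC hU M hM hK
  have hinfV : Infinite V := by
    have := hC.cu.mon.inf
    exact Infinite.of_injective j j.injective
  have hinf := (hELX L V).2.2.1 hinfV
  obtain ⟨u, hu, hr⟩ := hENU L V N X hN (fun f => (hX f).1) (fun f => hinf _ (hX f).2.2)
    (fun f => (hX f).2.2) hcl
  refine ⟨u, hu, fun x y hxy => ?_⟩
  rw [hr x, hr y] at hxy
  have h1 := hFMI L U V j hC (X x) (X y) hxy
  rw [hFM x, hFM y] at h1
  funext n
  have h2 : x n = true ↔ y n = true := by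
    rw [PRF_read i hi x n, PRF_read i hi y n, h1]
  cases hx : x n
  · cases hy : y n
    · rfl
    · rw [hx, hy] at h2
      exact absurd (h2.2 rfl) (by decide)
  · cases hy : y n
    · rw [hx, hy] at h2
      exact absurd (h2.1 rfl) (by decide)
    · rfl

end Pool.Agent.MST
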