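import Pool.Agent.MST.StA

/-!
MST, module RXT: reindexing of types.
-/

set_option autoImplicit false

namespace Pool.Agent.MST

open FirstOrder.Language Set
open scoped FirstOrder

section RXT

variable {L : FirstOrder.Language.{0, 0}} {M : Type} [L.Structure M] {α β γ : Type}

theorem RXT_ty (f : β → α) {p : Set (Set (α → M))} (hp : IsTy L p) : IsTy L (rx L f p) where
  dfn s hs := hs.1
  ne h := hp.ne h.2
  inter s hs t ht := ⟨hs.1.inter ht.1, hp.inter _ hs.2 _ ht.2⟩
  em s hs := by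
    rcases hp.em _ (hs.pre f) with h | h
    · exact Or.inl ⟨hs, h⟩
    · exact Or.inr ⟨hs.compl, h⟩

theorem RXT_fib [Finite γ] (f : β → α) {p : Set (Set (α → M))} (hp : IsTy L p)
    (φ : L.Formula (β ⊕ γ)) :
    fib (rx L f p) (rs M φ) = fib p (rs M (φ.relabel (Sum.map f id) : L.Formula (α ⊕ γ))) := by
  ext b
  have h : {v : α → M | v ∘ f ∈ {a : β → M | Sum.elim a b ∈ rs M φ}} =
      {v : α → M | Sum.elim v b ∈ rs M (φ.relabel (Sum.map f id) : L.Formula (α ⊕ γ))} := by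
    ext v
    rw [mem_ofPred_eq, mem_ofPred_eq, mem_ofPred_eq]
    change φ.Realize (Sum.elim (v ∘ f) b) ↔
      (φ.relabel (Sum.map f id) : L.Formula (α ⊕ γ)).Realize (Sum.elim v b)
    rw [FirstOrder.Language.Formula.realize_relabel]
    have h1 : (Sum.elim v b : α ⊕ γ → M) ∘ (Sum.map f id) = Sum.elim (v ∘ f) b := by
      funext x
      rcases x with x | x <;> rfl
    rw [h1]
  constructor
  · intro h1
    have h2 := h1.2
    rw [h] at h2
    exact h2
  · intro h1
    refine ⟨(Dfp.rs φ).fst b, ?_⟩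
    rw [h]
    exact h1

/-- [RXT] Reindexing of types. -/
theorem thm_RXT : St_RXT := by
  intro L M _ α β _ _ f p
  refine ⟨fun hp => RXT_ty f hp, fun hp => ⟨RXT_ty f hp.ty, ?_⟩, ?_, ?_, ?_⟩
  · intro γ _ φ
    rw [RXT_fib f hp.ty]
    exact hp.fin γ _
  · intro hp
    ext s
    exact ⟨fun h => h.2, fun h => ⟨hp.dfn s h, h⟩⟩
  · intro hp γ g
    ext s
    exact ⟨fun h => ⟨h.1, h.2.2⟩, fun h => ⟨h.1, h.1.pre g, h.2⟩⟩
  · intro hp γ _ φ
    exact RXT_fib f hp φ

end RXT

end Pool.Agent.MST
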