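import Pool.Agent.MST.StB

/-!
MST, module SEQ: sequences of independent copies.
-/

set_option autoImplicit false

namespace Pool.Agent.MST

open FirstOrder.Language Set
open scoped FirstOrder
open Pool.Agent.WOM (tp Mon IsEl IsoM Fam)

private theorem SEQ_one (h1 : St_EXT) (h2 : St_SQI) (h3 : St_FRS)
    {L : FirstOrder.Language.{0, 0}} {U V : Type} [L.Structure U] [L.Structure V] (j : U ↪ₑ[L] V)
    (hC : Cx L U V) {κ : Type} [Countable κ] (C : κ → V) (B : Set V) (hB : B.Countable) :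
    ∃ C' : κ → V, SqI L C C' ∧ FrS j (range C') B := by
  have hr : range (Empty.elim : Empty → V) = ∅ := range_eq_empty _
  obtain ⟨C', h4, h5⟩ := h1 L U V j hC Empty κ Empty.elim Empty.elim C B hB
    ((h2 L V).2.2.2.2.2.2 Empty Empty.elim Empty.elim Empty.elim).1
    (by rw [hr]; exact (h3 L U V j hC).2.2.2.1 B)
  refine ⟨C', ?_, ?_⟩
  · exact (h2 L V).2.2.2.2.2.1 (Empty ⊕ κ) κ _ _ Sum.inr h4
  · rw [Sum.elim_range, hr, empty_union] at h5
    exact h5

/-- [SEQ] -/
theorem thm_SEQ (h1 : St_EXT) (h2 : St_SQI) (h3 : St_FRS) : St_SEQ := by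
  intro L U V _ _ j hC B hB ι _ A
  have hex : ∀ (n : ℕ) (B' : {B' : Set V // B'.Countable}), ∃ C' : ι n → V,
      SqI L (A n) C' ∧ FrS j (range C') B' := fun n B' =>
    SEQ_one h1 h2 h3 j hC (A n) B'.1 B'.2
  choose G hG1 hG2 using hex
  let Bn : ℕ → {B' : Set V // B'.Countable} := fun n => Nat.rec ⟨B, hB⟩
    (fun n b => ⟨b.1 ∪ range (G n b), b.2.union (countable_range _)⟩) n
  have hB0 : (Bn 0).1 = B := rfl
  have hBs : ∀ n, (Bn (n + 1)).1 = (Bn n).1 ∪ range (G n (Bn n)) := fun n => rfl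
  refine ⟨fun n => G n (Bn n), fun n => hG1 n (Bn n), fun n => ?_⟩
  have hBn : ∀ n, (Bn n).1 = B ∪ ⋃ k ∈ {k | k < n}, range (G k (Bn k)) := by
    intro n
    induction n with
    | zero =>
      rw [hB0]
      ext x
      simp
    | succ n ih =>
      rw [hBs, ih]
      ext x
      simp only [mem_union, mem_iUnion, mem_ofPred_eq, exists_prop]
      constructor
      · rintro ((h | ⟨k, hk, h⟩) | h)
        · exact Or.inl h
        · exact Or.inr ⟨k, by omega, h⟩
        · exact Or.inr ⟨n, by omega, h⟩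
      · rintro (h | ⟨k, hk, h⟩)
        · exact Or.inl (Or.inl h)
        · rcases Nat.lt_succ_iff_lt_or_eq.1 hk with h4 | h4
          · exact Or.inl (Or.inr ⟨k, h4, h⟩)
          · subst h4
            exact Or.inr h
  rw [← hBn]
  exact hG2 n (Bn n)

end Pool.Agent.MST
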