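import Pool.Agent.MST.StB

/-!
MST, module SQI: rules for equality of strong types (helper36)
-/

set_option autoImplicit false

namespace Pool.Agent.MST

open FirstOrder.Language Set
open scoped FirstOrder

/-- [SQI] -/
theorem thm_SQI (hFEQ : St_FEQ) : St_SQI := by
  intro L M _
  obtain ⟨-, hpb, hfm, -⟩ := hFEQ L M
  have h1 : ∀ (α : Type) (a b c : α → M), Sq L a a ∧ (Sq L a b → Sq L b a) ∧
      (Sq L a b → Sq L b c → Sq L a c) := by
    intro α a b c
    refine ⟨fun E hE => hE.refl a, fun h E hE => hE.symm _ _ (h E hE), fun h h' E hE =>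
      hE.trans _ _ _ (h E hE) (h' E hE)⟩
  have h2 : ∀ (α β : Type) (a a' : α → M) (f : β → α), Sq L a a' → Sq L (a ∘ f) (a' ∘ f) := by
    intro α β a a' f h E hE
    exact (er_pbE f E a a').1 (h _ (hpb β α f E hE))
  have h3 : ∀ (α : Type) (a a' : α → M), Sq L a a' →
      ∀ φ : L.Formula α, φ.Realize a ↔ φ.Realize a' := by
    intro α a a' h φ
    exact (er_fmE φ a a').1 (h _ (hfm α φ))
  have h4 : ∀ (ι : Type) (A A' : ι → M), SqI L A A' → ∀ (α : Type) [Finite α] (f : α → ι),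
      Sq L (A ∘ f) (A' ∘ f) := by
    intro ι A A' h α _ f
    obtain ⟨n, ⟨e⟩⟩ := Finite.exists_equiv_fin α
    have h5 := h2 _ _ _ _ e (h n (f ∘ e.symm))
    have h6 : ∀ B : ι → M, (B ∘ (f ∘ e.symm)) ∘ e = B ∘ f := by
      intro B
      funext i
      simp
    rwa [h6, h6] at h5
  refine ⟨h1, h2, h3, h4, ?_, ?_, ?_⟩
  · intro ι A A' h φ
    classical
    have h5 := h3 _ _ _ (h4 ι A A' h φ.freeVarFinset Subtype.val) (φ.restrictFreeVar id)
    have h6 : ∀ B : ι → M, FirstOrder.Language.Formula.Realize (φ.restrictFreeVar id)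
        (B ∘ Subtype.val : φ.freeVarFinset → M) ↔ φ.Realize B := by
      intro B
      exact FirstOrder.Language.BoundedFormula.realize_restrictFreeVar B (fun a => rfl)
    rwa [h6, h6] at h5
  · intro ι κ A A' f h n g
    exact h n (f ∘ g)
  · intro ι A B C
    refine ⟨fun n f => (h1 _ _ (B ∘ f) (C ∘ f)).1, fun h n f => (h1 _ _ _ (C ∘ f)).2.1 (h n f),
      fun h h' n f => (h1 _ _ _ _).2.2 (h n f) (h' n f)⟩

end Pool.Agent.MST
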