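import Pool.Agent.MST.StB

/-!
MST: independent families and strong types (helper76).
-/

set_option autoImplicit false

namespace Pool.Agent.MST

open FirstOrder.Language Set
open scoped FirstOrder

theorem SQJ_split {ι κ : Type} {n : ℕ} (f : Fin n → ι ⊕ κ) :
    ∃ (α β : Type) (_ : Finite α) (_ : Finite β) (fa : α → ι) (fb : β → κ) (e : Fin n → α ⊕ β),
      f = Sum.map fa fb ∘ e := by
  classical
  have h0 : ∀ i, ¬ ((f i).isLeft = true) → (f i).isRight = true := by
    intro i h
    rcases hx : f i with x | x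
    · rw [hx] at h
      exact absurd rfl h
    · rfl
  refine ⟨{i : Fin n // (f i).isLeft = true}, {i : Fin n // (f i).isRight = true}, inferInstance,
    inferInstance, fun i => (f i.1).getLeft i.2, fun i => (f i.1).getRight i.2,
    fun i => if h : (f i).isLeft = true then Sum.inl ⟨i, h⟩ else Sum.inr ⟨i, h0 i h⟩, ?_⟩
  funext i
  by_cases h : (f i).isLeft = true
  · simp only [Function.comp_apply, dif_pos h, Sum.map_inl, Sum.inl_getLeft]
  · simp only [Function.comp_apply, dif_neg h, Sum.map_inr, Sum.inr_getRight]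

theorem thm_SQJ (hC : St_CAL) (hF : St_FRS) (hS : St_SQI) : St_SQJ := by
  intro L U V _ _ j hc
  obtain ⟨-, -, -, hC4, hC5⟩ := hC L U V j hc
  obtain ⟨-, -, -, -, hF5⟩ := hF L U V j hc
  obtain ⟨-, hS2, -, hS4, -⟩ := hS L V
  have key : ∀ {ι κ α β : Type} (fa : α → ι) (fb : β → κ) (X : ι → V) (Y : κ → V),
      Sum.elim X Y ∘ Sum.map fa fb = Sum.elim (X ∘ fa) (Y ∘ fb) := by
    intro ι κ α β fa fb X Y
    exact Sum.elim_comp_map
  constructor
  · intro ι κ A A' B B' hA hB h h' n f
    obtain ⟨α, β, _, _, fa, fb, e, rfl⟩ := SQJ_split f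
    have h1 : Sq L (Sum.elim (A ∘ fa) (B ∘ fb)) (Sum.elim (A' ∘ fa) (B' ∘ fb)) :=
      hC4 α β (A ∘ fa) (A' ∘ fa) (B ∘ fb) (B' ∘ fb)
        (hF5 _ _ h α β _ _ (fun i => mem_range_self (fa i)) (fun i => mem_range_self (fb i)))
        (hF5 _ _ h' α β _ _ (fun i => mem_range_self (fa i)) (fun i => mem_range_self (fb i)))
        (hS4 ι A A' hA α fa) (hS4 κ B B' hB β fb)
    have h2 := hS2 _ _ _ _ e h1
    rw [← Function.comp_assoc, ← Function.comp_assoc, key, key]
    exact h2
  · intro ι κ A A' B B' hAB h m n a b ha hb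
    choose fa hfa using ha
    choose fb hfb using hb
    have ea : a = A' ∘ fa := funext fun i => (hfa i).symm
    have eb : b = B' ∘ fb := funext fun i => (hfb i).symm
    subst ea
    subst eb
    have h1 := hS4 _ _ _ hAB (Fin m ⊕ Fin n) (Sum.map fa fb)
    rw [key, key] at h1
    exact hC5 _ _ _ _ _ _ h1
      (hF5 _ _ h _ _ _ _ (fun i => mem_range_self (fa i)) (fun i => mem_range_self (fb i)))

end Pool.Agent.MST
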