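import Pool.Agent.MST.StA

/-!
MST, module TAL: rules for the tensor product.
-/

set_option autoImplicit false

namespace Pool.Agent.MST

open FirstOrder.Language Set
open scoped FirstOrder

section TAL

variable {L : FirstOrder.Language.{0, 0}} {M : Type} [L.Structure M] {α β γ : Type}

private theorem swap_elim (a : α → M) (b : β → M) :
    (Sum.elim b a : β ⊕ α → M) ∘ (Sum.swap : α ⊕ β → β ⊕ α) = Sum.elim a b := by
  funext x
  rcases x with x | x <;> rfl

private theorem inl_elim (a : α → M) (b : β → M) :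
    (Sum.elim a b : α ⊕ β → M) ∘ (Sum.inl : α → α ⊕ β) = a := rfl

private theorem inr_elim (a : α → M) (b : β → M) :
    (Sum.elim a b : α ⊕ β → M) ∘ (Sum.inr : β → α ⊕ β) = b := rfl

private theorem map_elim {α' β' : Type} (f : α' → α) (g : β' → β) (a : α → M) (b : β → M) :
    (Sum.elim a b : α ⊕ β → M) ∘ (Sum.map f g) = Sum.elim (a ∘ f) (b ∘ g) := by
  funext x
  rcases x with x | x <;> rfl

private theorem assoc_elim (a : α → M) (b : β → M) (c : γ → M) :
    (Sum.elim a (Sum.elim b c) : α ⊕ (β ⊕ γ) → M) ∘ (Equiv.sumAssoc α β γ) =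
      Sum.elim (Sum.elim a b) c := by
  funext x
  rcases x with (x | x) | x <;> rfl

/-- [TAL] Rules for the tensor product. -/
theorem thm_TAL (hDEF : St_DEF) (hHAR : St_HAR) (hRXT : St_RXT) (hTEN : St_TEN) : St_TAL := by
  intro L M _ hM α β _ _ p q hp hq
  refine ⟨?_, ?_, ?_, ?_, ?_⟩
  · -- commutativity
    ext s
    have h1 : fib q {v : β ⊕ α → M | v ∘ (Sum.swap : α ⊕ β → β ⊕ α) ∈ s} = bfi q s := by
      ext a
      rw [mem_fib, mem_bfi]
      have h2 : {b : β → M | Sum.elim b a ∈ {v : β ⊕ α → M |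
          v ∘ (Sum.swap : α ⊕ β → β ⊕ α) ∈ s}} = {b : β → M | Sum.elim a b ∈ s} := by
        ext b
        rw [mem_ofPred_eq, mem_ofPred_eq, mem_ofPred_eq, swap_elim]
      rw [h2]
    constructor
    · intro h
      refine ⟨h.1, h.1.pre _, ?_⟩
      rw [h1]
      exact (hHAR L M hM α β p q hp hq s h.1).2.1 h.2
    · intro h
      refine ⟨h.1, (hHAR L M hM α β p q hp hq s h.1).2.2 ?_⟩
      have h2 := h.2.2
      rw [h1] at h2
      exact h2
  · -- the first factor
    have h1 := (hRXT L M (α ⊕ β) α Sum.inl (ten L p q)).1 ((hTEN L M hM α β p q).1 hp hq)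
    refine (IsTy.eq_of_subset hp h1 fun s hs => ?_).symm
    refine ⟨hp.dfn s hs, (hp.dfn s hs).pre _, ?_⟩
    have h2 : fib p {v : α ⊕ β → M | v ∘ (Sum.inl : α → α ⊕ β) ∈ s} = Set.univ := by
      ext b
      exact ⟨fun _ => mem_univ _, fun _ => hs⟩
    rw [h2]
    exact hq.univ
  · -- the second factor
    have h1 := (hRXT L M (α ⊕ β) β Sum.inr (ten L p q)).1 ((hTEN L M hM α β p q).1 hp hq)
    refine (IsTy.eq_of_subset hq h1 fun s hs => ?_).symm
    refine ⟨hq.dfn s hs, (hq.dfn s hs).pre _, ?_⟩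
    have h2 : s ⊆ fib p {v : α ⊕ β → M | v ∘ (Sum.inr : β → α ⊕ β) ∈ s} := by
      intro b hb
      rw [mem_fib]
      have h3 : {a : α → M | Sum.elim a b ∈ {v : α ⊕ β → M |
          v ∘ (Sum.inr : β → α ⊕ β) ∈ s}} = Set.univ := by
        ext a
        exact ⟨fun _ => mem_univ _, fun _ => hb⟩
      rw [h3]
      exact hp.univ
    exact hq.mono hs h2 (hDEF L M hM α β p hp _ ((hq.dfn s hs).pre _))
  · -- reindexing
    intro α' β' _ _ f g
    ext s
    have hpf := (hRXT L M α α' f p).1 hp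
    have h1 : ∀ hs : Dfp L s, {w : β → M | w ∘ g ∈ fib (rx L f p) s} =
        fib p {v : α ⊕ β → M | v ∘ (Sum.map f g) ∈ s} := by
      intro hs
      ext w
      rw [mem_ofPred_eq, mem_fib, mem_fib]
      have h2 : {v : α → M | v ∘ f ∈ {a : α' → M | Sum.elim a (w ∘ g) ∈ s}} =
          {a : α → M | Sum.elim a w ∈ {v : α ⊕ β → M | v ∘ (Sum.map f g) ∈ s}} := by
        ext v
        rw [mem_ofPred_eq, mem_ofPred_eq, mem_ofPred_eq, mem_ofPred_eq, map_elim]
      constructor
      · intro h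
        have h3 := h.2
        rw [h2] at h3
        exact h3
      · intro h
        refine ⟨hs.fst _, ?_⟩
        rw [h2]
        exact h
    constructor
    · intro h
      refine ⟨h.1, h.1.pre _, ?_⟩
      have h2 := h.2.2
      rw [h1 h.1] at h2
      exact h2
    · intro h
      refine ⟨h.1, hDEF L M hM α' β' _ hpf s h.1, ?_⟩
      rw [h1 h.1]
      exact h.2.2
  · -- associativity
    intro γ _ r hr
    ext s
    have h1 : ∀ hs : Dfp L s, fib (ten L p q) s =
        fib q (fib p {v : α ⊕ (β ⊕ γ) → M | v ∘ (Equiv.sumAssoc α β γ) ∈ s}) := by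
      intro hs
      ext c
      rw [mem_fib, mem_fib]
      have h2 : fib p {v : α ⊕ β → M | Sum.elim v c ∈ s} =
          {b : β → M | Sum.elim b c ∈ fib p {v : α ⊕ (β ⊕ γ) → M |
            v ∘ (Equiv.sumAssoc α β γ) ∈ s}} := by
        ext b
        rw [mem_fib, mem_ofPred_eq, mem_fib]
        have h3 : {a : α → M | Sum.elim a b ∈ {v : α ⊕ β → M | Sum.elim v c ∈ s}} =
            {a : α → M | Sum.elim a (Sum.elim b c) ∈ {v : α ⊕ (β ⊕ γ) → M |
              v ∘ (Equiv.sumAssoc α β γ) ∈ s}} := by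
          ext a
          rw [mem_ofPred_eq, mem_ofPred_eq, mem_ofPred_eq, mem_ofPred_eq, assoc_elim]
        rw [h3]
      constructor
      · intro h
        have h3 := h.2
        rw [h2] at h3
        exact h3
      · intro h
        refine ⟨hs.fst c, ?_⟩
        rw [h2]
        exact h
    constructor
    · intro h
      have hs2 : Dfp L {v : α ⊕ (β ⊕ γ) → M | v ∘ (Equiv.sumAssoc α β γ) ∈ s} := h.1.pre _
      refine ⟨h.1, hs2, hDEF L M hM α (β ⊕ γ) p hp _ hs2, ?_⟩
      rw [← h1 h.1]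
      exact h.2
    · intro h
      refine ⟨h.1, ?_⟩
      rw [h1 h.1]
      exact h.2.2.2

end TAL

end Pool.Agent.MST
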