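import Pool.Agent.MST.StA

/-!
MST, module TEN: the tensor product is a type, bounded if the factors are.
-/

set_option autoImplicit false

namespace Pool.Agent.MST

open FirstOrder.Language Set
open scoped FirstOrder

section TEN

variable {L : FirstOrder.Language.{0, 0}} {M : Type} [L.Structure M] {α β γ δ : Type}

private theorem elim_assoc (a : α → M) (b : β → M) (c : γ → M) :
    (Sum.elim a (Sum.elim b c) : α ⊕ (β ⊕ γ) → M) ∘ (Equiv.sumAssoc α β γ) =
      Sum.elim (Sum.elim a b) c := by
  funext x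
  rcases x with (x | x) | x <;> rfl

private theorem ty (hDEF : St_DEF) (hM : Stb L M) [Finite α] [Finite β]
    {p : Set (Set (α → M))} {q : Set (Set (β → M))} (hp : IsTy L p) (hq : IsTy L q) :
    IsTy L (ten L p q) where
  dfn s hs := hs.1
  ne h := by
    have h1 : fib p (∅ : Set (α ⊕ β → M)) = ∅ := by
      ext b
      constructor
      · intro h2
        have h3 : {a : α → M | Sum.elim a b ∈ (∅ : Set (α ⊕ β → M))} = ∅ := by
          ext a
          simp
        have h4 : {a : α → M | Sum.elim a b ∈ (∅ : Set (α ⊕ β → M))} ∈ p := h2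
        rw [h3] at h4
        exact absurd h4 hp.ne
      · intro h2
        exact absurd h2 (notMem_empty b)
    have h5 := h.2
    rw [h1] at h5
    exact hq.ne h5
  inter s hs t ht := by
    refine ⟨hs.1.inter ht.1, ?_⟩
    rw [fib_inter hp hs.1 ht.1]
    exact hq.inter _ hs.2 _ ht.2
  em s hs := by
    rcases hq.em _ (hDEF L M hM α β p hp s hs) with h | h
    · exact Or.inl ⟨hs, h⟩
    · refine Or.inr ⟨hs.compl, ?_⟩
      rw [fib_compl hp hs]
      exact h

/-- [TEN] The tensor product is a type, bounded if the factors are. -/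
theorem thm_TEN (hDEF : St_DEF) : St_TEN := by
  intro L M _ hM α β _ _ p q
  refine ⟨ty hDEF hM, fun hp hq => ⟨ty hDEF hM hp.ty hq.ty, ?_⟩⟩
  intro γ _ φ
  set φ' : L.Formula (α ⊕ (β ⊕ γ)) := φ.relabel (Equiv.sumAssoc α β γ) with hφ'
  set D : Set (β ⊕ γ → M) := fib p (rs M φ') with hD
  obtain ⟨n, δ, e, hδ⟩ := hDEF L M hM α (β ⊕ γ) p hp.ty (rs M φ') (Dfp.rs φ')
  rw [← hD] at hδ
  set δ' : L.Formula (β ⊕ (γ ⊕ Fin n)) := δ.relabel (Equiv.sumAssoc β γ (Fin n)) with hδ'
  set G : Set (γ ⊕ Fin n → M) := fib q (rs M δ') with hG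
  set T : Set (γ → M) := fib (ten L p q) (rs M φ) with hT
  -- description of `T`
  have hTG : ∀ c, c ∈ T ↔ Sum.elim c e ∈ G := by
    intro c
    have h1 : fib p {v : α ⊕ β → M | Sum.elim v c ∈ rs M φ} =
        {b : β → M | Sum.elim b (Sum.elim c e) ∈ rs M δ'} := by
      ext b
      rw [mem_fib, mem_ofPred_eq]
      have h2 : {a : α → M | Sum.elim a b ∈ {v : α ⊕ β → M | Sum.elim v c ∈ rs M φ}} =
          {a : α → M | Sum.elim a (Sum.elim b c) ∈ rs M φ'} := by
        ext a
        rw [mem_ofPred_eq, mem_ofPred_eq, mem_ofPred_eq]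
        change φ.Realize (Sum.elim (Sum.elim a b) c) ↔ φ'.Realize (Sum.elim a (Sum.elim b c))
        rw [hφ', FirstOrder.Language.Formula.realize_relabel, elim_assoc]
      rw [h2]
      have h3 : {a : α → M | Sum.elim a (Sum.elim b c) ∈ rs M φ'} ∈ p ↔ Sum.elim b c ∈ D := Iff.rfl
      rw [h3, hδ]
      change _ ↔ δ'.Realize (Sum.elim b (Sum.elim c e))
      rw [hδ', FirstOrder.Language.Formula.realize_relabel, elim_assoc]
    constructor
    · intro h
      have h2 := h.2
      rw [h1] at h2
      exact h2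
    · intro h
      refine ⟨(Dfp.rs φ).fst c, ?_⟩
      rw [h1]
      exact h
  have hDe : D = {w : β ⊕ γ → M | δ.Realize (Sum.elim w e)} := by
    ext w
    exact hδ w
  -- the determination of the conjugates
  set Φ : Set (β ⊕ γ → M) × Set (γ ⊕ Fin n → M) → Set (γ → M) := fun P =>
    {c | ∃ e' : Fin n → M, (∀ w, w ∈ P.1 ↔ δ.Realize (Sum.elim w e')) ∧ Sum.elim c e' ∈ P.2}
    with hΦ
  have key : ∀ g : M ≃[L] M, act g T = Φ (act g D, act g G) := by
    intro g
    have hDg : ∀ w, w ∈ act g D ↔ δ.Realize (Sum.elim w (fun i => g (e i))) := by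
      intro w
      rw [hDe, act_of g δ e]
      rfl
    have hc : ∀ c, c ∈ act g T ↔ Sum.elim c (fun i => g (e i)) ∈ act g G := by
      intro c
      rw [mem_act, hTG, mem_act]
      have h1 : (fun i => g.symm ((Sum.elim c (fun i => g (e i)) : γ ⊕ Fin n → M) i)) =
          Sum.elim (fun i => g.symm (c i)) e := by
        funext x
        rcases x with x | x
        · rfl
        · exact g.symm_apply_apply (e x)
      rw [h1]
    ext c
    constructor
    · intro h
      exact ⟨fun i => g (e i), hDg, (hc c).1 h⟩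
    · rintro ⟨e', he', h⟩
      refine (hc c).2 ?_
      have h1 : ∀ e'' : Fin n → M, Sum.elim c e'' ∈ act g G ↔
          {b : β → M | δ.Realize (Sum.elim (Sum.elim b c) e'')} ∈ acT g q := by
        intro e''
        rw [hG, ← fib_acT_rs, mem_fib]
        have h2 : {b : β → M | Sum.elim b (Sum.elim c e'') ∈ rs M δ'} =
            {b : β → M | δ.Realize (Sum.elim (Sum.elim b c) e'')} := by
          ext b
          rw [mem_ofPred_eq, mem_ofPred_eq]
          change δ'.Realize (Sum.elim b (Sum.elim c e'')) ↔ _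
          rw [hδ', FirstOrder.Language.Formula.realize_relabel, elim_assoc]
        rw [h2]
      have h3 : {b : β → M | δ.Realize (Sum.elim (Sum.elim b c) e')} =
          {b : β → M | δ.Realize (Sum.elim (Sum.elim b c) (fun i => g (e i)))} := by
        ext b
        rw [mem_ofPred_eq, mem_ofPred_eq, ← hDg]
        exact (he' (Sum.elim b c)).symm
      rw [h1, ← h3, ← h1]
      exact h
  refine (((hp.fin (β ⊕ γ) φ').prod (hq.fin (γ ⊕ Fin n) δ')).image Φ).subset ?_
  rintro _ ⟨g, rfl⟩
  exact ⟨(act g D, act g G), ⟨⟨g, rfl⟩, ⟨g, rfl⟩⟩, (key g).symm⟩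

end TEN

end Pool.Agent.MST
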