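import Pool.Agent.MST.StA

/-!
MST: uniqueness of the bounded extension of a strong type (module UNF).
-/

set_option autoImplicit false

namespace Pool.Agent.MST

open FirstOrder.Language Set
open scoped FirstOrder
open Pool.Agent.WOM (tp Mon IsEl IsoM Fam)

theorem thm_UNF (hDEF : St_DEF) (hHAR : St_HAR) (hFEV : St_FEV) (hBDE : St_BDE)
    (hEXF : St_EXF) : St_UNF := by
  intro L U V _ _ j hC α _ a p p' hp hp' hap hap'
  refine IsTy.eq_of_subset hp.ty hp'.ty fun s hs => ?_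
  obtain ⟨n, φ, b, hφ⟩ := hp.ty.dfn s hs
  obtain ⟨q, hq, hbq⟩ := hEXF L U V j hC (Fin n) (j ∘ b)
  have hst := hC.cu.stb
  have hs' : s = {x | Sum.elim x b ∈ rs U φ} := by
    ext x
    exact hφ x
  -- sections of finite equivalence relations at `b`
  have hqE : ∀ E : L.Formula (Fin n ⊕ Fin n), FE U E → {y | er E y b} ∈ q := fun E hE =>
    hbq E hE b ((emb_er j E b b).2 (hE.refl b))
  have hbD : b ∈ fib p (rs U φ) := by
    rw [mem_fib, ← hs']
    exact hs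
  obtain ⟨E, hE, hEi⟩ := hBDE L U hC.cu α (Fin n) p hp φ
  have hDq : fib p (rs U φ) ∈ q := by
    refine hq.ty.mono (hqE E hE) (fun y hy => ?_)
      (hDEF L U hst α (Fin n) p hp.ty (rs U φ) (Dfp.rs φ))
    exact (hEi y b hy).2 hbD
  obtain ⟨hD'd, hD'⟩ := hHAR L U hst α (Fin n) p q hp.ty hq.ty (rs U φ) (Dfp.rs φ)
  have hD'p : bfi q (rs U φ) ∈ p := hD'.1 hDq
  have hbf : ∀ x : α → U, x ∈ bfi q (rs U φ) ↔
      x ∈ fib q (rs U (φ.relabel Sum.swap : L.Formula (Fin n ⊕ α))) := by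
    intro x
    rw [mem_bfi, mem_fib]
    have h : {y : Fin n → U | Sum.elim x y ∈ rs U φ} = {y : Fin n → U | Sum.elim y x ∈
        rs U (φ.relabel Sum.swap : L.Formula (Fin n ⊕ α))} := by
      ext y
      have h2 : (Sum.elim y x : Fin n ⊕ α → U) ∘ Sum.swap = Sum.elim x y := by
        funext z
        rcases z with z | z <;> rfl
      change φ.Realize _ ↔ (φ.relabel Sum.swap : L.Formula (Fin n ⊕ α)).Realize _
      rw [FirstOrder.Language.Formula.realize_relabel, h2]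
    rw [h]
  obtain ⟨E', hE', hEi'⟩ := hBDE L U hC.cu (Fin n) α q hq (φ.relabel Sum.swap)
  obtain ⟨h1, h2, -⟩ := hFEV L U V j α E'
  obtain ⟨u, hu⟩ := h2 (h1.1 hE') a
  have hup := hap E' hE' u hu
  have hup' := hap' E' hE' u hu
  obtain ⟨x₀, hx₀, hx₀'⟩ := hp.ty.nonempty (hp.ty.inter _ hup _ hD'p)
  have hD'p' : bfi q (rs U φ) ∈ p' := by
    refine hp'.ty.mono hup' (fun x hx => ?_) hD'd
    rw [hbf]
    exact (hEi' x x₀ (hE'.trans _ _ _ hx (hE'.symm _ _ hx₀))).2 ((hbf x₀).1 hx₀')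
  obtain ⟨-, hD''⟩ := hHAR L U hst α (Fin n) p' q hp'.ty hq.ty (rs U φ) (Dfp.rs φ)
  have hD''q := hD''.2 hD'p'
  obtain ⟨E'', hE'', hEi''⟩ := hBDE L U hC.cu α (Fin n) p' hp' φ
  obtain ⟨y₀, hy₀, hy₀'⟩ := hq.ty.nonempty (hq.ty.inter _ (hqE E'' hE'') _ hD''q)
  have hb := (hEi'' y₀ b hy₀).1 hy₀'
  rw [mem_fib, ← hs'] at hb
  exact hb

end Pool.Agent.MST
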