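import Pool.Agent.MST.StB

/-!
MST: without coding of arrays there are free unions (helper82).
-/

set_option autoImplicit false

namespace Pool.Agent.MST

open FirstOrder.Language Set
open scoped FirstOrder
open Pool.Agent.WOM (IsEl)

/-- relabelling of the variables -/
private theorem UNM_rel {L : FirstOrder.Language.{0, 0}} {V α β : Type} [L.Structure V]
    (φ : L.Formula α) (σ : α → β) (v : β → V) (w : α → V) (h : v ∘ σ = w) :
    (φ.relabel σ).Realize v ↔ φ.Realize w := by
  rw [FirstOrder.Language.Formula.realize_relabel, h]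

theorem thm_UNM (hE : St_ELX) (hF : St_FRS) (hS : St_SQI) (hL : St_ELS) (hH : St_HEI)
    (hC : St_COH) (hA : St_ARR) : St_UNM := by
  intro L U V _ _ j hc hNC M N hMc hNc hM hN hMN
  classical
  obtain ⟨-, hE2, -⟩ := hE L V
  obtain ⟨hF1, hF2, -, -, -⟩ := hF L U V j hc
  obtain ⟨-, -, -, -, hS5, hS6, -⟩ := hS L V
  refine hE2 _ fun n φ m hm b hb => ?_
  by_contra hcon
  push Not at hcon
  -- split the parameters
  obtain ⟨s, ⟨e1⟩⟩ : ∃ s, Nonempty ({i : Fin n // m i ∈ M} ≃ Fin s) :=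
    ⟨_, ⟨Fintype.equivFin _⟩⟩
  obtain ⟨t, ⟨e2⟩⟩ : ∃ t, Nonempty ({i : Fin n // m i ∉ M} ≃ Fin t) :=
    ⟨_, ⟨Fintype.equivFin _⟩⟩
  let m1 : Fin s → M := fun i => ⟨m (e1.symm i).1, (e1.symm i).2⟩
  let m2 : Fin t → N := fun i => ⟨m (e2.symm i).1, (hm _).resolve_left (e2.symm i).2⟩
  let σ : Unit ⊕ Fin n → (Fin s ⊕ Fin t) ⊕ Unit := Sum.elim (fun _ => Sum.inr ())
    (fun i => if h : m i ∈ M then Sum.inl (Sum.inl (e1 ⟨i, h⟩)) else
      Sum.inl (Sum.inr (e2 ⟨i, h⟩)))
  let ψ : L.Formula ((Fin s ⊕ Fin t) ⊕ Unit) := φ.relabel σ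
  have hψ : ∀ z : V, ψ.Realize (Sum.elim (Sum.elim (fun i => (m1 i : V)) (fun i => (m2 i : V)))
      (fun _ => z)) ↔ φ.Realize (Sum.elim (fun _ => z) m) := by
    intro z
    refine UNM_rel φ σ _ _ ?_
    funext x
    rcases x with x | i
    · rfl
    · by_cases h : m i ∈ M
      · have h1 : σ (Sum.inr i) = Sum.inl (Sum.inl (e1 ⟨i, h⟩)) := by
          show (if h : m i ∈ M then _ else _) = _
          rw [dif_pos h]
        show Sum.elim (Sum.elim (fun i => (m1 i : V)) (fun i => (m2 i : V))) (fun _ => z)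
          (σ (Sum.inr i)) = m i
        rw [h1]
        show m (e1.symm (e1 ⟨i, h⟩)).1 = m i
        rw [Equiv.symm_apply_apply]
      · have h1 : σ (Sum.inr i) = Sum.inl (Sum.inr (e2 ⟨i, h⟩)) := by
          show (if h : m i ∈ M then _ else _) = _
          rw [dif_neg h]
        show Sum.elim (Sum.elim (fun i => (m1 i : V)) (fun i => (m2 i : V))) (fun _ => z)
          (σ (Sum.inr i)) = m i
        rw [h1]
        show m (e2.symm (e2 ⟨i, h⟩)).1 = m i
        rw [Equiv.symm_apply_apply]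
  obtain ⟨A, B, d, hd1, hd2⟩ := hA L U V j hc M N hMc hNc hMN b
  -- transfer to the copies
  have tr : ∀ (i k : ℕ) (q : (M ⊕ N) ⊕ Unit),
      ψ.Realize (Sum.elim (Sum.elim (fun i => (m1 i : V)) (fun i => (m2 i : V)))
        (fun _ => Sum.elim (Sum.elim (fun x : M => (x : V)) (fun x : N => (x : V)))
          (fun _ : Unit => b) q)) ↔
      ψ.Realize (Sum.elim (Sum.elim (fun x => A i (m1 x)) (fun x => B k (m2 x)))
        (fun _ => Sum.elim (Sum.elim (A i) (B k)) (fun _ : Unit => d i k) q)) := by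
    intro i k q
    let τ : (Fin s ⊕ Fin t) ⊕ Unit → (M ⊕ N) ⊕ Unit :=
      Sum.elim (Sum.elim (fun x => Sum.inl (Sum.inl (m1 x))) (fun x => Sum.inl (Sum.inr (m2 x))))
        (fun _ => q)
    have h1 := hS5 _ _ _ (hd1 i k) (ψ.relabel τ)
    rw [UNM_rel ψ τ _ (Sum.elim (Sum.elim (fun i => (m1 i : V)) (fun i => (m2 i : V)))
      (fun _ => Sum.elim (Sum.elim (fun x : M => (x : V)) (fun x : N => (x : V)))
        (fun _ : Unit => b) q)) (by funext x; rcases x with (x | x) | x <;> rfl),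
      UNM_rel ψ τ _ (Sum.elim (Sum.elim (fun x => A i (m1 x)) (fun x => B k (m2 x)))
        (fun _ => Sum.elim (Sum.elim (A i) (B k)) (fun _ : Unit => d i k) q))
        (by funext x; rcases x with (x | x) | x <;> rfl)] at h1
    exact h1
  have f1 : ∀ i k, ψ.Realize (Sum.elim (Sum.elim (fun x => A i (m1 x)) (fun x => B k (m2 x)))
      (fun _ => d i k)) := by
    intro i k
    refine (tr i k (Sum.inr ())).1 ?_
    exact (hψ b).2 hb
  have f2 : ∀ i k, ∀ z ∈ range (A i), ¬ ψ.Realize (Sum.elim (Sum.elim (fun x => A i (m1 x))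
      (fun x => B k (m2 x))) (fun _ => z)) := by
    rintro i k _ ⟨x, rfl⟩ h
    have h1 := (tr i k (Sum.inl (Sum.inl x))).2 h
    exact hcon x (Or.inl x.2) ((hψ x).1 h1)
  have f3 : ∀ i k, ∀ z ∈ range (B k), ¬ ψ.Realize (Sum.elim (Sum.elim (fun x => A i (m1 x))
      (fun x => B k (m2 x))) (fun _ => z)) := by
    rintro i k _ ⟨x, rfl⟩ h
    have h1 := (tr i k (Sum.inl (Sum.inr x))).2 h
    exact hcon x (Or.inr x.2) ((hψ x).1 h1)
  -- the copies are elementary submodels
  have g1 : ∀ i, IsEl L (range (A i)) := by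
    intro i
    have h1 := hS6 _ _ _ _ (fun x : M => (Sum.inl (Sum.inl x) : (M ⊕ N) ⊕ Unit)) (hd1 i 0)
    have h2 : SqI L (fun x : M => (x : V)) (A i) := h1
    refine (hL L V M (fun x : M => (x : V)) (A i) h2).1 ?_
    have h3 : range (fun x : M => (x : V)) = M := Subtype.range_coe
    rw [h3]
    exact hM
  have g2 : ∀ k, IsEl L (range (B k)) := by
    intro k
    have h1 := hS6 _ _ _ _ (fun x : N => (Sum.inl (Sum.inr x) : (M ⊕ N) ⊕ Unit)) (hd1 0 k)
    have h2 : SqI L (fun x : N => (x : V)) (B k) := h1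
    refine (hL L V N (fun x : N => (x : V)) (B k) h2).1 ?_
    have h3 : range (fun x : N => (x : V)) = N := Subtype.range_coe
    rw [h3]
    exact hN
  -- coding of an array
  refine hNC s t ψ (fun i x => A i (m1 x)) (fun k x => B k (m2 x)) d fun i k l h => ?_
  constructor
  · intro hr
    by_contra hne
    by_cases hil : i = l
    · subst hil
      have hkh : k ≠ h := fun e => hne ⟨rfl, e⟩
      have i1 : FrS j (range fun x => B k (m2 x)) (range (A i) ∪ range fun _ : Unit => d i h) := by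
        refine hF1 _ _ (hF2 _ _ _ _ ?_ ?_ (hd2 i h))
        · rintro v (hv | ⟨_, rfl⟩)
          · exact Or.inl (Or.inl hv)
          · exact Or.inr rfl
        · rintro _ ⟨x, rfl⟩
          exact Or.inr ⟨k, hkh, mem_range_self _⟩
      let ρ : (Fin s ⊕ Fin t) ⊕ Unit → Fin t ⊕ (Unit ⊕ Fin s) :=
        Sum.elim (Sum.elim (fun x => Sum.inr (Sum.inr x)) (fun x => Sum.inl x))
          (fun x => Sum.inr (Sum.inl x))
      obtain ⟨b', hb', h2⟩ := hH L U V j hc (range (A i)) (g1 i) (Fin t) Unit (Fin s)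
        (fun x => B k (m2 x)) (fun _ => d i h) (fun x => A i (m1 x)) (fun _ => mem_range_self _)
        i1 (ψ.relabel ρ) ((UNM_rel ψ ρ _ _ (by
          funext x; rcases x with (x | x) | x <;> rfl)).2 hr)
      refine f2 i k (b' ()) (hb' ()) ((UNM_rel ψ ρ _ _ ?_).1 h2)
      funext x
      rcases x with (x | x) | x <;> rfl
    · by_cases hkh : k = h
      · subst hkh
        have i1 : FrS j (range fun x => A i (m1 x))
            (range (B k) ∪ range fun _ : Unit => d l k) := by
          refine hF1 _ _ (hF2 _ _ _ _ ?_ ?_ (hd2 l k))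
          · rintro v (hv | ⟨_, rfl⟩)
            · exact Or.inl (Or.inr hv)
            · exact Or.inr rfl
          · rintro _ ⟨x, rfl⟩
            exact Or.inl ⟨i, hil, mem_range_self _⟩
        let ρ : (Fin s ⊕ Fin t) ⊕ Unit → Fin s ⊕ (Unit ⊕ Fin t) :=
          Sum.elim (Sum.elim (fun x => Sum.inl x) (fun x => Sum.inr (Sum.inr x)))
            (fun x => Sum.inr (Sum.inl x))
        obtain ⟨b', hb', h2⟩ := hH L U V j hc (range (B k)) (g2 k) (Fin s) Unit (Fin t)
          (fun x => A i (m1 x)) (fun _ => d l k) (fun x => B k (m2 x)) (fun _ => mem_range_self _)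
          i1 (ψ.relabel ρ) ((UNM_rel ψ ρ _ _ (by
            funext x; rcases x with (x | x) | x <;> rfl)).2 hr)
        refine f3 i k (b' ()) (hb' ()) ((UNM_rel ψ ρ _ _ ?_).1 h2)
        funext x
        rcases x with (x | x) | x <;> rfl
      · have i1 : FrS j (range fun _ : Unit => d l h)
            (range (A i) ∪ range fun x => B k (m2 x)) := by
          refine hF2 _ _ _ _ ?_ ?_ (hd2 l h)
          · rintro _ ⟨_, rfl⟩
            exact Or.inr rfl
          · rintro v (hv | ⟨x, rfl⟩)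
            · exact Or.inl ⟨i, hil, hv⟩
            · exact Or.inr ⟨k, hkh, mem_range_self _⟩
        let ρ : (Fin s ⊕ Fin t) ⊕ Unit → Unit ⊕ (Fin t ⊕ Fin s) :=
          Sum.elim (Sum.elim (fun x => Sum.inr (Sum.inr x)) (fun x => Sum.inr (Sum.inl x)))
            (fun x => Sum.inl x)
        obtain ⟨b', hb', h2⟩ := hC L U V j hc (range (A i)) (g1 i) Unit (Fin t) (Fin s)
          (fun _ => d l h) (fun x => B k (m2 x)) (fun x => A i (m1 x)) (fun _ => mem_range_self _)
          i1 (ψ.relabel ρ) ((UNM_rel ψ ρ _ _ (by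
            funext x; rcases x with (x | x) | x <;> rfl)).2 hr)
        refine f2 i k (b' ()) (hb' ()) ((UNM_rel ψ ρ _ _ ?_).1 h2)
        funext x
        rcases x with (x | x) | x <;> rfl
  · rintro ⟨rfl, rfl⟩
    exact f1 i k

end Pool.Agent.MST
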