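import Pool.Agent.MST.SAW
import Pool.Agent.MST.SAU
import Pool.Agent.MST.CTD
import Pool.Agent.MST.ELX
import Pool.Agent.MST.LAD
import Pool.Agent.MST.DEF
import Pool.Agent.MST.HAR
import Pool.Agent.MST.BDX
import Pool.Agent.MST.FEQ
import Pool.Agent.MST.FEV
import Pool.Agent.MST.BDE
import Pool.Agent.MST.LIM
import Pool.Agent.MST.EXF
import Pool.Agent.MST.UNF
import Pool.Agent.MST.RXT
import Pool.Agent.MST.FRB
import Pool.Agent.MST.TEN
import Pool.Agent.MST.TAL
import Pool.Agent.MST.CAL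
import Pool.Agent.MST.INV
import Pool.Agent.MST.FRS
import Pool.Agent.MST.SQI
import Pool.Agent.MST.SQJ
import Pool.Agent.MST.ELS
import Pool.Agent.MST.EXT
import Pool.Agent.MST.DLT
import Pool.Agent.MST.HEI
import Pool.Agent.MST.COH
import Pool.Agent.MST.NDV
import Pool.Agent.MST.SEQ
import Pool.Agent.MST.IND
import Pool.Agent.MST.ARR
import Pool.Agent.MST.UNM
import Pool.Agent.MST.BAS
import Pool.Agent.MST.ATM
import Pool.Agent.MST.APQ
import Pool.Agent.MST.ISA
import Pool.Agent.MST.FMI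
import Pool.Agent.MST.MOD
import Pool.Agent.MST.ADJ
import Pool.Agent.MST.ADK
import Pool.Agent.MST.MLA
import Pool.Agent.MST.GLM
import Pool.Agent.MST.ECL
import Pool.Agent.MST.PRA
import Pool.Agent.MST.ENU
import Pool.Agent.MST.PRF
import Pool.Agent.MST.GLU
import Pool.Agent.MST.CNB
import Pool.Agent.MST.CNA
import Pool.Agent.MST.CNT
import Pool.Agent.MST.CMS
import Pool.Agent.MST.HYP
import Pool.Agent.MST.MAT
import Pool.Agent.MST.MTOP
import Pool.Agent.WOM.ULT
import Pool.Agent.WOM.SUBM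
import Pool.Agent.WOM.HOMG
import Pool.Agent.WOM.INC
import Pool.Agent.WOM.NSM
import Pool.Agent.WOM.MEAS
import Pool.Agent.WOM.REAL
import Pool.Agent.WOM.DEF1
import Pool.Agent.WOM.DEFF

/-!
MST: assembly of the modules (helper47).
-/

set_option autoImplicit false

namespace Pool.Agent.MST

theorem all_SAW : St_SAW := thm_SAW
theorem all_SAU : St_SAU := thm_SAU
theorem all_CTD : St_CTD := thm_CTD
theorem all_ELX : St_ELX := thm_ELX
theorem all_LAD : St_LAD := thm_LAD
theorem all_DEF : St_DEF := thm_DEF all_LAD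
theorem all_HAR : St_HAR := thm_HAR all_LAD all_DEF
theorem all_BDX : St_BDX := thm_BDX all_CTD all_DEF
theorem all_FEQ : St_FEQ := thm_FEQ
theorem all_FEV : St_FEV := thm_FEV all_ELX
theorem all_BDE : St_BDE := thm_BDE all_DEF all_SAU
theorem all_LIM : St_LIM := thm_LIM all_CTD all_SAU all_FEQ all_FEV
theorem all_EXF : St_EXF := thm_EXF all_SAU all_BDX all_LIM
theorem all_UNF : St_UNF := thm_UNF all_DEF all_HAR all_FEV all_BDE all_EXF
theorem all_RXT : St_RXT := thm_RXT
theorem all_FRB : St_FRB := thm_FRB all_FEQ all_FEV all_RXT all_EXF all_UNF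
theorem all_TEN : St_TEN := thm_TEN all_DEF
theorem all_TAL : St_TAL := thm_TAL all_DEF all_HAR all_RXT all_TEN
theorem all_CAL : St_CAL := thm_CAL all_RXT all_FRB all_TAL
theorem all_INV : St_INV := thm_INV all_DEF all_LIM all_RXT all_FRB all_TEN all_TAL
theorem all_FRS : St_FRS := thm_FRS all_RXT all_FRB all_CAL
theorem all_SQI : St_SQI := thm_SQI all_FEQ
theorem all_SQJ : St_SQJ := thm_SQJ all_CAL all_FRS all_SQI
theorem all_ELS : St_ELS := thm_ELS all_ELX all_SQI
theorem all_EXT : St_EXT := thm_EXT all_FEQ all_FEV all_UNF all_RXT all_FRB all_TEN all_TAL all_FRS all_SQI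
theorem all_DLT : St_DLT := thm_DLT all_DEF all_FEQ all_FEV all_BDE all_FRB
theorem all_HEI : St_HEI := thm_HEI all_ELX all_FRS all_DLT
theorem all_COH : St_COH := thm_COH all_ELX all_LAD all_FRS all_DLT
theorem all_NDV : St_NDV := thm_NDV all_FEV all_BDE all_FRB
theorem all_SEQ : St_SEQ := thm_SEQ all_EXT all_SQI all_FRS
theorem all_IND : St_IND := thm_IND all_FRS
theorem all_ARR : St_ARR := thm_ARR all_FRS all_SQI all_SQJ all_EXT all_SEQ all_IND
theorem all_UNM : St_UNM := thm_UNM all_ELX all_FRS all_SQI all_ELS all_HEI all_COH all_ARR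
theorem all_BAS : St_BAS := thm_BAS all_DEF all_FEV all_BDE all_RXT all_FRB all_TEN all_FRS
theorem all_ATM : St_ATM := thm_ATM all_FRS
theorem all_APQ : St_APQ := thm_APQ all_CAL all_SQI all_FRS
theorem all_ISA : St_ISA := thm_ISA all_INV all_FRS all_SQI
theorem all_FMI : St_FMI := thm_FMI all_ISA
theorem all_MOD : St_MOD := thm_MOD all_ELX all_COH all_FRS
theorem all_ADJ : St_ADJ := thm_ADJ all_ELX all_SQI all_SQJ all_ELS all_SEQ all_FRS all_MOD
theorem all_ADK : St_ADK := thm_ADK all_FRS all_IND all_ATM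
theorem all_MLA : St_MLA := thm_MLA all_ADK
theorem all_GLM : St_GLM := thm_GLM all_CAL all_FRS all_SQI all_ATM
theorem all_ECL : St_ECL := thm_ECL
theorem all_PRA : St_PRA := thm_PRA all_APQ all_ATM all_ADJ all_ADK all_MLA all_ECL
theorem all_ENU : St_ENU := thm_ENU
theorem all_PRF : St_PRF := thm_PRF all_ELX all_FMI all_ENU all_PRA
theorem all_GLU : St_GLU := thm_GLU all_ATM all_APQ all_BAS all_SQI all_GLM
theorem all_CNB : St_CNB := thm_CNB all_APQ all_ADJ all_ADK all_MLA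
theorem all_CNA : St_CNA := thm_CNA
theorem all_CNT : St_CNT := thm_CNT all_ELX all_ATM all_APQ all_GLU all_PRF all_CNB all_CNA
theorem all_CMS : St_CMS := thm_CMS all_ELX
theorem all_HYP : St_HYP := thm_HYP all_ELX all_NDV all_FRS all_CMS
theorem all_MAT : St_MAT := thm_MAT all_ELX

theorem all_MST : St_MST :=
  thm_MTOP (WOM.thm_ULT (WOM.thm_DEF1 WOM.thm_DEFF)) (WOM.thm_SUBM (WOM.thm_DEF1 WOM.thm_DEFF))
    (WOM.thm_HOMG (WOM.thm_DEF1 WOM.thm_DEFF))
    (WOM.thm_INC WOM.thm_MEAS (WOM.thm_REAL WOM.thm_MEAS))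
    (WOM.thm_NSM WOM.thm_MEAS (WOM.thm_REAL WOM.thm_MEAS)) all_SAW all_UNM all_CNT all_HYP all_MAT

end Pool.Agent.MST
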