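import Pool.Agent.MST.Base
import Pool.Agent.Helper18.EH.Ramsey

/-!
MST: Ramsey's theorem for pairs and finitely many colours (helper47).
-/

set_option autoImplicit false

namespace Pool.Agent.MST

/-- Ramsey's theorem for pairs, for sequences and finitely many colours -/
theorem ramF {κ : Type} [Finite κ] (c : ℕ → ℕ → κ) : ∃ f : ℕ → ℕ, StrictMono f ∧
    ∃ k : κ, ∀ m n, m < n → c (f m) (f n) = k := by
  classical
  obtain ⟨B, -, hB, k, hk⟩ := Helper18.EH.ramsey 2
    (fun s : Finset ℕ => c (sInf (s : Set ℕ)) (sSup (s : Set ℕ))) Set.univ Set.infinite_univ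
  refine ⟨Nat.nth (· ∈ B), Nat.nth_strictMono hB, k, fun m n hmn => ?_⟩
  have h1 : Nat.nth (· ∈ B) m < Nat.nth (· ∈ B) n := Nat.nth_strictMono hB hmn
  have h2 := hk {Nat.nth (· ∈ B) m, Nat.nth (· ∈ B) n} (by
    intro x hx
    simp only [Finset.coe_insert, Finset.coe_singleton, Set.mem_insert_iff,
      Set.mem_singleton_iff] at hx
    rcases hx with rfl | rfl
    · exact Nat.nth_mem_of_infinite hB m
    · exact Nat.nth_mem_of_infinite hB n) (Finset.card_pair h1.ne)
  have h3 : sInf (({Nat.nth (· ∈ B) m, Nat.nth (· ∈ B) n} : Finset ℕ) : Set ℕ) =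
      Nat.nth (· ∈ B) m := by
    rw [Finset.coe_insert, Finset.coe_singleton, csInf_pair]
    exact min_eq_left h1.le
  have h4 : sSup (({Nat.nth (· ∈ B) m, Nat.nth (· ∈ B) n} : Finset ℕ) : Set ℕ) =
      Nat.nth (· ∈ B) n := by
    rw [Finset.coe_insert, Finset.coe_singleton, csSup_pair]
    exact max_eq_right h1.le
  rw [h3, h4] at h2
  exact h2

end Pool.Agent.MST
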