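import Pool.Agent.MST.StC
import Pool.Agent.MST.RamF

/-!
MST: superflat structures are stable and monadically stable (Podewski and Ziegler), statements
with proofs in the docstrings (helper47).
-/

set_option autoImplicit false

namespace Pool.Agent.MST

open FirstOrder.Language Set
open scoped FirstOrder

/-! ### Graphs -/

section graphs

variable {M : Type}

/-- lazy walks of length `r` from `x` to `y` which avoid `S` -/
def Wk (A : M → M → Prop) (S : Set M) (r : ℕ) (x y : M) : Prop :=
  ∃ w : ℕ → M, w 0 = x ∧ w r = y ∧ (∀ i < r, w i = w (i + 1) ∨ A (w i) (w (i + 1))) ∧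
    ∀ i ≤ r, w i ∉ S

/-- a subdivision of the complete graph with vertices `v 0, ..., v (n-1)`: its edges are replaced
by paths with at most `m` inner vertices, the lists `p i k` -/
def SubK (A : M → M → Prop) (m n : ℕ) : Prop :=
  ∃ (v : Fin n → M) (p : Fin n → Fin n → List M), Function.Injective v ∧
    (∀ i k, i < k → (p i k).length ≤ m ∧ List.IsChain A (v i :: (p i k ++ [v k])) ∧
      ∀ l, v l ∉ p i k) ∧
    ∀ i k i' k', i < k → i' < k' → (i, k) ≠ (i', k') → List.Disjoint (p i k) (p i' k')

end graphs

/-- [SUN] (1h) Sunflowers of walks.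
PROOF.  `ramF` for the colour of `(i, k)`: the function `Fin (r+1) × Fin (r+1) → Bool` (or `Prop`)
`(s, t) ↦ (w i s = w k t)`: a strictly increasing `f` with constant colour.  `J i = f (i + 1)`.  Let `s ≤ r`.
If the colour of `(s, t)` is true for some `t`, then `w (f 0) s = w (f k) t` for all `k ≥ 1`, so `w (f k) t` is
constant for `k ≥ 1`, `= x`, and `w (f k) s = w (f (k+1)) t = x` for all `k ≥ 1`: first alternative.  If it is true for
`(t, s)` for some `t`: `w (f 0) t = w (f k) s` for all `k ≥ 1`: first alternative.  Otherwise the second. -/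
def St_SUN : Prop :=
  ∀ (M : Type) (r : ℕ) (w : ℕ → ℕ → M), ∃ J : ℕ → ℕ, StrictMono J ∧ ∀ s ≤ r,
    (∀ i k, w (J i) s = w (J k) s) ∨ (∀ i k, i ≠ k → ∀ t ≤ r, w (J i) s ≠ w (J k) t)

/-- [WPL] (1h) From walks to paths.
PROOF.  Strong induction on `r` for all `x`, `y`.  `x ≠ y`, so `r ≥ 1`.  Let `i < r` be the last index
`≤ r` with `w i = x` (exists: `0`), so `w (i + 1) ≠ x`, hence `A x (w (i + 1))`.  Let `k ≤ r` be the least index
`> i` with `w k = y`.  If `k = i + 1` take `p = []`.  Otherwise apply the induction hypothesis to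
`w (i + 1) ≠ y` and the walk `w (i + 1), ..., w k` (length `k - i - 1 < r`): `p'`; take `p = w (i + 1) :: p'`.  It does not
contain `x` because the `w l`, `l > i`, are different from `x` (all elements of `p'` are of this form). -/
def St_WPL : Prop :=
  ∀ (M : Type) (A : M → M → Prop) (r : ℕ) (w : ℕ → M),
    (∀ i < r, w i = w (i + 1) ∨ A (w i) (w (i + 1))) → w 0 ≠ w r →
    ∃ p : List M, p.length + 1 ≤ r ∧ List.IsChain A (w 0 :: (p ++ [w r])) ∧
      (∀ z ∈ p, ∃ i ≤ r, z = w i) ∧ w 0 ∉ p ∧ w r ∉ p

/-- [HBA] (2h; WPL) Many hubs give a subdivided complete graph.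
PROOF.  For every `l` and every vertex `x ≠ z l` there is at most one `k` such that `x` is one of the
`W l k s`, `s ≤ r` (fan property).  Hence for every finite set `X` of vertices, for all but finitely many
`k`: for all `l`, the walk `W l k` meets `X` at most in `z l`.  Enumerate the pairs `i < l` of `Fin n`, and
choose for them one after the other different indices `k(i, l)` such that `W i k`, `W l k`
(`k = k(i, l)`) and ALL the other `W l' k` avoid `X` = all `z`'s and all vertices of all the walks
`W l' k'` (`l' < n`) for the `k'` chosen before, except that `W l' k` may contain `z l'`; moreover `c k` is not one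
of the `z l` (`c k = W l k r`; if `c k = z l'`, `z l'` lies in `W l k`, `l ≠ l'`: excluded for all but finitely
many `k`, use two different `l`; if `n ≤ 1` the claim is trivial).  The walk from `z i` along `W i k` to `c k`
and back along `W l k` to `z l` has length `2 r`; WPL gives the path `p i l` (at most `2 r` inner
vertices).  Its inner vertices are on `W i k` or `W l k` and different from `z i`, `z l`, so they are
different from all `z`'s, and for different pairs they are different. -/
def St_HBA : Prop :=
  ∀ (M : Type) (A : M → M → Prop), (∀ x y, A x y → A y x) → ∀ (r n : ℕ) (z : Fin n → M)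
    (c : ℕ → M) (W : Fin n → ℕ → ℕ → M), Function.Injective z →
    (∀ l k, W l k 0 = z l ∧ W l k r = c k ∧
      ∀ i < r, W l k i = W l k (i + 1) ∨ A (W l k i) (W l k (i + 1))) →
    (∀ l k k', k ≠ k' → ∀ s ≤ r, ∀ t ≤ r, W l k s = W l k' t → W l k s = z l) →
    SubK A (2 * r) n

/-- [HBC] (1.5h; SUN) Existence of hubs.
PROOF.  Take the walks `w_k` from `c 0 a_k` to `c (k + 1) b_k` (given for `0 < k + 1`), pass to an infinite
set of `k` with constant `b_k = b`, and by SUN to a subsequence which is a sunflower for the positions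
`s ≤ r`.  By pigeonhole also `a_k` is constant, so position `0` is constant.  Let `s0 ≤ r` be the last position
for which the first alternative of SUN holds, `z` the constant value of `w_k s0`; `z ∉ S`.
`W k t = w_k (min (s0 + t) r)`: a walk of length `r` from `z` to `c (..) b` which avoids `S`.  If
`W k s = W k' t`, `k ≠ k'`, then position `s0 + s` (capped) is not of the second kind (second alternative with
`t`), so it is `s0` or (capped) `r`; if it is `s0` the value is `z`; if it is a position `> s0` then it is of the
second kind: contradiction. -/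
def St_HBC : Prop :=
  ∀ (M : Type) (A : M → M → Prop) (r d : ℕ) (c : ℕ → Fin d → M) (S : Set M),
    (∀ i k, i < k → ∃ a b, Wk A S r (c i a) (c k b)) →
    ∃ z : M, z ∉ S ∧ ∃ (b : Fin d) (J : ℕ → ℕ) (W : ℕ → ℕ → M), StrictMono J ∧
      (∀ k, W k 0 = z ∧ W k r = c (J k) b ∧
        ∀ i < r, W k i = W k (i + 1) ∨ A (W k i) (W k (i + 1))) ∧
      ∀ k k', k ≠ k' → ∀ s ≤ r, ∀ t ≤ r, W k s = W k' t → W k s = z

/-- [SEP] (2h; HBA, HBC) Separation.
PROOF.  Suppose not.  Then for every finite `S` and every strictly increasing `J` there is a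
subsequence `J'` such that for ALL `i < k` some `c (J' i) a`, `c (J' k) b` are connected by a walk of length
`r` avoiding `S` (`ram`: the other alternative is what we want).  So by HBC there are a hub `z ∉ S`, `b`
and a further subsequence.  Let `N = d * n + 1` (`n` with `¬ SubK A (2 * r) n`).  Recursively we get different
hubs `z_1, ..., z_N` (`S` = the previous ones), with coordinates `b_l ∈ Fin d` and nested subsequences; all
of them are hubs for the last subsequence (restrict the `W`).  `n` of them have the same coordinate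
`b`: HBA for these, with `c k := c (J k) b`, gives `SubK A (2 * r) n`: contradiction. -/
def St_SEP : Prop :=
  ∀ (M : Type) (A : M → M → Prop), (∀ x y, A x y → A y x) → (∀ m, ∃ n, ¬ SubK A m n) →
    ∀ (r d : ℕ) (c : ℕ → Fin d → M), ∃ (S : Set M) (J : ℕ → ℕ), S.Finite ∧ StrictMono J ∧
      ∀ i k, i < k → ∀ a b, ¬ Wk A S r (c (J i) a) (c (J k) b)

/-- [SPD] (1.2h; SEP) Separation for all radii at the same time.
PROOF.  Iterate SEP: nested strictly increasing sequences `J_0 = id`, `J_(m+1) = J_m ∘ J'_m`, where
`J'_m`, `S'_m` are given by SEP for `A m`, `r = m`, `c ∘ J_m`; `S m` = union of `S'_0, ..., S'_m`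
(a walk which avoids `S m` avoids `S'_m`).  Diagonal sequence `J i = J_(i+1) i` (strictly increasing; for
`i ≥ m` the indices `J i` are values of `J_(m+1)` at increasing places). -/
def St_SPD : Prop :=
  ∀ (M : Type) (A : ℕ → M → M → Prop), (∀ m x y, A m x y → A m y x) →
    (∀ l m, ∃ n, ¬ SubK (A l) m n) → ∀ (d : ℕ) (c : ℕ → Fin d → M),
    ∃ (S : ℕ → Set M) (J : ℕ → ℕ), (∀ m, (S m).Finite) ∧ Monotone S ∧ StrictMono J ∧
      ∀ m i k, m ≤ i → i < k → ∀ a b, ¬ Wk (A m) (S m) m (c (J i) a) (c (J k) b)

/-! ### Structures -/

section structures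

variable {L : FirstOrder.Language.{0, 0}}

variable (L) in
/-- the relation symbols -/
abbrev Sy : Type := (n : ℕ) × L.Relations n

/-- adjacency in the Gaifman graph of the set `F` of relation symbols -/
def adj (F : Set (Sy L)) {M : Type} [L.Structure M] (x y : M) : Prop :=
  x ≠ y ∧ ∃ R ∈ F, ∃ t : Fin R.1 → M,
    FirstOrder.Language.Structure.RelMap R.2 t ∧ x ∈ range t ∧ y ∈ range t

variable (L) in
/-- superflat structures -/
def Sfl (M : Type) [L.Structure M] : Prop :=
  (∀ n, IsEmpty (L.Functions n)) ∧
  ∀ F : Set (Sy L), F.Finite → ∀ m, ∃ n, ¬ SubK (adj F : M → M → Prop) m n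

/-- connected by a walk outside `S` -/
def Cn (F : ℕ → Set (Sy L)) {V : Type} [L.Structure V] (S : Set V) (x y : V) : Prop :=
  ∃ m r, Wk (adj (F m)) S r x y

variable (L) in
/-- same type over `S` -/
def TyE {V : Type} [L.Structure V] (S : Set V) {α : Type} (x y : α → V) : Prop :=
  ∀ (n : ℕ) (φ : L.Formula (α ⊕ Fin n)) (s : Fin n → V), (∀ b, s b ∈ S) →
    (φ.Realize (Sum.elim x s) ↔ φ.Realize (Sum.elim y s))

/-- the back-and-forth relation: same elements of `S`, same components outside `S`, same types over
`S` of the parts of the tuples in one component -/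
structure BI (F : ℕ → Set (Sy L)) {V : Type} [L.Structure V] (S : Set V) {ι : Type}
    (v v' : ι → V) : Prop where
  par : ∀ i, v i ∈ S ∨ v' i ∈ S → v i = v' i
  cls : ∀ i k, Cn F S (v i) (v k) ↔ Cn F S (v' i) (v' k)
  typ : ∀ (i : ι) (α : Type) [Finite α] (f : α → ι), (∀ a, Cn F S (v i) (v (f a))) →
    TyE L S (v ∘ f) (v' ∘ f)

end structures

/-- [WKF] (1.2h) Walks are definable.
PROOF.  `adj F` is defined by a formula in two variables: `x ≠ y` and the disjunction (`F` finite:
`Formula.iSup` over the finite type `F`) of `∃ t (R(t) ∧ ⋁ i, t i = x ∧ ⋁ i, t i = y)` (`iExs (Fin R.1)`).  Walks: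
induction on `r`, or `∃ w : Fin (r + 1) → M` with the conjunctions (`iInf`). -/
def St_WKF : Prop :=
  ∀ (L : FirstOrder.Language.{0, 0}) (F : Set (Sy L)), F.Finite → ∀ r n : ℕ,
    ∃ φ : L.Formula ((Unit ⊕ Unit) ⊕ Fin n), ∀ (M : Type) [L.Structure M] (x y : M)
      (s : Fin n → M),
      φ.Realize (Sum.elim (Sum.elim (fun _ => x) (fun _ => y)) s) ↔ Wk (adj F) (range s) r x y

/-- [CNE] (0.8h) Connectedness outside `S` is an equivalence relation outside `S`; one step.
PROOF.  Reverse and concatenate walks (`adj` is symmetric; `adj (F m)` is monotone in `m`; walks may be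
prolonged by the last vertex).  A tuple in a relation: two different entries outside `S` are adjacent for
`F m`, `R ∈ F m`: a walk of length `1`. -/
def St_CNE : Prop :=
  ∀ (L : FirstOrder.Language.{0, 0}) (F : ℕ → Set (Sy L)), Monotone F → (⋃ m, F m) = univ →
    ∀ (V : Type) [L.Structure V] (S : Set V),
    (∀ x, Cn F S x x ↔ x ∉ S) ∧ (∀ x y, Cn F S x y → Cn F S y x) ∧
    (∀ x y z, Cn F S x y → Cn F S y z → Cn F S x z) ∧
    (∀ (n : ℕ) (R : L.Relations n) (t : Fin n → V), FirstOrder.Language.Structure.RelMap R t →
      ∀ i k, t i ∉ S → t k ∉ S → Cn F S (t i) (t k))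

/-- [TWO] (2.5h; SAW, SPD, WKF) Two separated tuples of the same type in a ladder.
PROOF.  `F m` finite, increasing, with union everything (`L` countable).  SPD for `A m = adj (F m)`, `c i` =
the tuple `(a i, b i)` (reindexed to `Fin d`): `S_m ⊆ M`, `J`.  SAW: `V`, elementary extension `g : M → V`;
`S m` = image of `S_m`.  Unknown tuples `x, x'` (variables `(Fin m ⊕ Fin n) ⊕ (Fin m ⊕ Fin n)`), parameters in
the union of the `S m` (countable); formulas: `φ(x_l, x'_r)`, `¬ φ(x'_l, x_r)`; for all `m`, `a`, `b`: no walk
for `F m`, of length `m`, avoiding `S m`, from `x a` to `x' b` (WKF); for all formulas `θ(x, s)`, `s` in the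
union of the `S m`: `θ(x, s) ↔ θ(x', s)`.  Finitely many of them are satisfied by `g ∘ c (J i)`, `g ∘ c (J k)` for
suitable `i < k`: finitely many `m`, all `≤ m0`; among the infinitely many indices `≥ m0` there are two
`i < k` with the same truth values of the finitely many `θ` (pigeonhole); `φ(a (J i), b (J k))` as
`J i < J k`, `¬ φ(a (J k), b (J i))`.  (Transfer of the formulas from `M` to `V`: `emb_real`.) -/
def St_TWO : Prop :=
  ∀ (L : FirstOrder.Language.{0, 0}), Countable L.Symbols → ∀ (M : Type) [L.Structure M], Sfl L M →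
    ∀ (m n : ℕ) (φ : L.Formula (Fin m ⊕ Fin n)) (a : ℕ → Fin m → M) (b : ℕ → Fin n → M),
    (∀ i k, φ.Realize (Sum.elim (a i) (b k)) ↔ i < k) →
    ∃ (V : Type) (_ : L.Structure V) (F : ℕ → Set (Sy L)) (S : ℕ → Set V)
      (c c' : Fin m ⊕ Fin n → V), SatW L V ∧ Monotone F ∧ (⋃ m, F m) = univ ∧
      (∀ m, (F m).Finite) ∧ (∀ m, (S m).Finite) ∧ Monotone S ∧
      φ.Realize (Sum.elim (c ∘ Sum.inl) (c' ∘ Sum.inr)) ∧
      ¬ φ.Realize (Sum.elim (c' ∘ Sum.inl) (c ∘ Sum.inr)) ∧
      (∀ m a b, ¬ Wk (adj (F m)) (S m) m (c a) (c' b)) ∧ TyE L (⋃ m, S m) c c'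

/-- [BNA] (2h; CNE, WKF) Extension of the back-and-forth relation, near case.
PROOF.  `Cn F S (v i) z`: a walk `w : Fin (r + 1) → V` for `F m` from `v i` to `z` outside `S`.
`K = {k // Cn F S (v i) (v k)}` (finite type), `f : K → ι` the inclusion; `TyE L S (v ∘ f) (v' ∘ f)` (BI, `typ`).
`SatW` with the variables `Fin (r + 1)`, the parameters `K ⊕ S` (values of `v' ∘ f`, and the elements of the
countable set `S`): realise all formulas `θ(w, v ∘ f, s)` which are true, with `v' ∘ f` in place of `v ∘ f`
(finitely many: `∃ w` of their conjunction is a formula true of `v ∘ f` over `S`, so of `v' ∘ f`): `w'`;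
`z' = w' r`.  Then `w' 0 = v' i`, consecutive elements are equal or adjacent for `F m` (`F m` finite: a
formula, WKF with `r = 1`, or directly), `w' l ≠ s` for all `s ∈ S`: so `Cn F S (v' i) z'`, `z' ∉ S`.  `BI` for
`Sum.elim v z`, `Sum.elim v' z'`: `par` clear; `cls`: `z` is in the component of `v k` iff `k ∈ K` iff `v' k` is in
the component of `v' i` iff in that of `z'` (CNE); `typ`: for an index in `K` or the new one, the tuples are
reindexings of `(v ∘ f, z)`, `(v' ∘ f, z')`; for an index in another component nothing changes. -/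
def St_BNA : Prop :=
  ∀ (L : FirstOrder.Language.{0, 0}) (F : ℕ → Set (Sy L)), Monotone F → (⋃ m, F m) = univ →
    (∀ m, (F m).Finite) → ∀ (V : Type) [L.Structure V], SatW L V → ∀ S : Set V, S.Countable →
    ∀ (ι : Type) [Finite ι] (v v' : ι → V), BI F S v v' → ∀ (i : ι) (z : V), Cn F S (v i) z →
      ∃ z' : V, BI F S (Sum.elim v (fun _ : Unit => z)) (Sum.elim v' (fun _ : Unit => z'))

/-- [BNB] (2h; CNE, BNA) Extension of the back-and-forth relation, far case.
PROOF.  `z ∉ S` is not connected to any `v i`.  It is enough to find `z' ∉ S` with the same type as `z` over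
`S` (`TyE` for the tuples indexed by `Unit`) which is not connected to any `v' i`: then `BI` for the extended
tuples is clear (for the new index only the tuples with values in the new index count).  Suppose there
is none.  Let `P` be the set of the `u ∈ V` with the same type as `z` over `S` (so `u ∉ S`), modulo `Cn F S`.
Every class in `P` is the class of some `v' i` (assumption).  Let `K` be the set of the `i` such that some `u`
of this type is connected to `v i`; by BNA (for `BI v v'`; the type of `z'` there is the type of `z` over `S`: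
`typ` for the new index) and by BNA for `BI v' v` (BI is symmetric), `K` is also the set of the `i` such
that some `u` of this type is connected to `v' i`.  So `P` is the set of the classes of the `v' i`, `i ∈ K`;
the classes of the `v i`, `i ∈ K`, are equally many (`cls`) and belong to `P`, and the class of `z` is in `P`
and is none of them: contradiction, because `K` is finite. -/
def St_BNB : Prop :=
  ∀ (L : FirstOrder.Language.{0, 0}) (F : ℕ → Set (Sy L)), Monotone F → (⋃ m, F m) = univ →
    (∀ m, (F m).Finite) → ∀ (V : Type) [L.Structure V], SatW L V → ∀ S : Set V, S.Countable →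
    ∀ (ι : Type) [Finite ι] (v v' : ι → V), BI F S v v' → ∀ z : V, z ∉ S →
      (∀ i, ¬ Cn F S (v i) z) →
      ∃ z' : V, BI F S (Sum.elim v (fun _ : Unit => z)) (Sum.elim v' (fun _ : Unit => z'))

/-- [BNF] (2h; CNE, BNA, BNB) The back-and-forth relation preserves all formulas.
PROOF.  BI is symmetric and stable under reindexing (`v ∘ g`, `v' ∘ g`).  Extension by `z ∈ S`: `z' = z`.  So for
every `z` there is `z'` with `BI (v, z) (v', z')`, and conversely.  Induction on the bounded formula
`ψ : L.BoundedFormula ι k`, for all `v, v' : ι → V`, `x, x' : Fin k → V` with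
`BI F S (Sum.elim v x) (Sum.elim v' x')`: equality and relation symbols: the terms are variables (`L` has no
functions); a relation `R(t)` with `t` = entries of `(v, x)`: the entries outside `S` lie in one component
(CNE), so `typ` (with the entries in `S` as parameters, `par`) shows that `R` holds for the corresponding
entries of `(v', x')`; an equality: both in `S` (`par`) or in one component (`typ`).  Quantifier: the
extension property. -/
def St_BNF : Prop :=
  ∀ (L : FirstOrder.Language.{0, 0}), (∀ n, IsEmpty (L.Functions n)) →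
    ∀ (F : ℕ → Set (Sy L)), Monotone F → (⋃ m, F m) = univ →
    (∀ m, (F m).Finite) → ∀ (V : Type) [L.Structure V], SatW L V → ∀ S : Set V, S.Countable →
    ∀ (ι : Type) [Finite ι] (v v' : ι → V), BI F S v v' → ∀ φ : L.Formula ι,
      φ.Realize v ↔ φ.Realize v'

/-- [FLS] (1.5h; TWO, WKF, CNE, BNF) Superflat structures are stable.
PROOF.  Let `φ` have a ladder; TWO.  `S = ⋃ S m`.  `v = Sum.elim c c'`, `v' = Sum.elim c' c`; `BI F S v v'`:
`par`: `c a = s ∈ S` iff `c' a = s` (TyE for the formula `x a = s`).  `c a`, `c' b` are never connected outside `S`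
(a walk for `F m` of length `r` outside `S` gives one for `F q` of length `q`, `q = max m r`, avoiding `S q`).
`c a`, `c b` connected outside `S` iff `c' a`, `c' b` are: a walk `w` from `c a` to `c b` outside `S`; realise the
type of `(w, c)` over `S` by `(w', c')` (`SatW`, as in BNA; finitely many formulas: TyE).  `typ`: a component
contains only entries of `c` or only entries of `c'`, TyE.  BNF: `φ(c_l, c'_r) ↔ φ(c'_l, c_r)`:
contradiction. -/
def St_FLS : Prop :=
  ∀ (L : FirstOrder.Language.{0, 0}), Countable L.Symbols → ∀ (M : Type) [L.Structure M],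
    Sfl L M → Stb L M

/-- [FLM] (1.5h; FLS) Superflat structures are monadically stable.
PROOF.  Let `L'` be `L` with one more unary relation symbol (`L.sum` of a language with one unary
relation symbol, e.g. `FirstOrder.Language.mk₂ Empty Empty Empty Unit Empty`), countable, and make `M` an
`L'`-structure with the predicate `P`.  It is superflat: the unary symbol gives no adjacent pairs, so for
finite `F'` the relation `adj F'` is `adj F`, `F` the (finite) set of the old symbols in `F'`.  By FLS it has
no ladder, in particular none for the `L'`-formula `∃ z (P(z) ∧ φ(x, y, z))` (`iExs Unit`;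
`LHom.onFormula` for `φ`, `LHom.realize_onFormula`). -/
def St_FLM : Prop :=
  ∀ (L : FirstOrder.Language.{0, 0}), Countable L.Symbols → ∀ (M : Type) [L.Structure M],
    Sfl L M → MSt L M

end Pool.Agent.MST
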