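import Pool.Agent.MST.Base
import Pool.Agent.MST.StF

/-!
MST, [BNA]: extension of the back-and-forth relation, near case (helper96).
-/

set_option autoImplicit false

namespace Pool.Agent.MST

open FirstOrder.Language Set
open scoped FirstOrder

section

variable {L : FirstOrder.Language.{0, 0}} {V : Type} [L.Structure V] {S : Set V}

/-- reindexing -/
private theorem BNA_comp {α β : Type} {x y : α → V} (h : TyE L S x y) (f : β → α) :
    TyE L S (x ∘ f) (y ∘ f) := by
  intro n φ s hs
  have h1 := h n (φ.relabel (Sum.map f id)) s hs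
  rw [FirstOrder.Language.Formula.realize_relabel, FirstOrder.Language.Formula.realize_relabel] at h1
  have h2 : ∀ u : α → V, (Sum.elim u s : α ⊕ Fin n → V) ∘ (Sum.map f id) =
      Sum.elim (u ∘ f) s := by
    intro u
    funext c
    rcases c with c | c <;> rfl
  rwa [h2, h2] at h1

/-- parameters indexed by any type -/
private theorem BNA_inf {α σ : Type} {x y : α → V} (h : TyE L S x y) (e : σ → V)
    (he : ∀ b, e b ∈ S) (φ : L.Formula (α ⊕ σ)) :
    φ.Realize (Sum.elim x e) ↔ φ.Realize (Sum.elim y e) := by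
  classical
  have hfin : Finite {b : σ // (Sum.inr b : α ⊕ σ) ∈ φ.freeVarFinset} := by
    refine Finite.of_injective
      (fun b => (⟨Sum.inr b.1, b.2⟩ : {c : α ⊕ σ // c ∈ φ.freeVarFinset})) ?_
    intro b b' hb
    have h1 : (Sum.inr b.1 : α ⊕ σ) = Sum.inr b'.1 := congrArg Subtype.val hb
    exact Subtype.ext (Sum.inr.inj h1)
  obtain ⟨n, ⟨ε⟩⟩ := Finite.exists_equiv_fin
    {b : σ // (Sum.inr b : α ⊕ σ) ∈ φ.freeVarFinset}
  let g : φ.freeVarFinset → α ⊕ Fin n := fun c =>
    match c with
    | ⟨Sum.inl a, _⟩ => Sum.inl a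
    | ⟨Sum.inr b, hb⟩ => Sum.inr (ε ⟨b, hb⟩)
  let s : Fin n → V := fun k => e (ε.symm k).1
  have h2 : ∀ u : α → V,
      FirstOrder.Language.Formula.Realize
        (FirstOrder.Language.Formula.relabel g (φ.restrictFreeVar id : L.Formula φ.freeVarFinset))
        (Sum.elim u s : α ⊕ Fin n → V) ↔ φ.Realize (Sum.elim u e) := by
    intro u
    rw [FirstOrder.Language.Formula.realize_relabel]
    have h3 : (Sum.elim u s : α ⊕ Fin n → V) ∘ g =
        (Sum.elim u e : α ⊕ σ → V) ∘ Subtype.val := by
      funext c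
      rcases c with ⟨c | c, hc⟩
      · rfl
      · show e (ε.symm (ε ⟨c, hc⟩)).1 = e c
        rw [Equiv.symm_apply_apply]
    rw [h3]
    exact FirstOrder.Language.BoundedFormula.realize_restrictFreeVar _ (fun a => rfl)
  have h4 := h n (FirstOrder.Language.Formula.relabel g
    (φ.restrictFreeVar id : L.Formula φ.freeVarFinset)) s (fun k => he _)
  rwa [h2, h2] at h4

/-- extension of types over `S` -/
private theorem BNA_ext (hV : SatW L V) (hS : S.Countable) {κ γ : Type} [Finite κ] [Finite γ]
    {x x' : κ → V} (h : TyE L S x x') (y : γ → V) :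
    ∃ y' : γ → V, TyE L S (Sum.elim x y) (Sum.elim x' y') := by
  have hSc : Countable S := hS.to_subtype
  obtain ⟨y', hy'⟩ := hV γ (κ ⊕ S) (Sum.elim x' Subtype.val)
    {θ | θ.Realize (Sum.elim y (Sum.elim x Subtype.val))} (by
      intro G hG hGf
      have hGfin : Finite G := hGf.to_subtype
      have h1 : ((((FirstOrder.Language.Formula.iInf (fun θ : G => (θ : L.Formula (γ ⊕ (κ ⊕ S))))
          )).relabel Sum.swap : L.Formula ((κ ⊕ S) ⊕ γ)).iExs γ).Realize
          (Sum.elim x Subtype.val : κ ⊕ S → V) := by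
        rw [FirstOrder.Language.Formula.realize_iExs]
        refine ⟨y, ?_⟩
        rw [FirstOrder.Language.Formula.realize_relabel]
        have h2 : (fun a => Sum.elim (Sum.elim x Subtype.val : κ ⊕ S → V) y a) ∘ Sum.swap =
            Sum.elim y (Sum.elim x Subtype.val) := by
          funext c
          rcases c with c | c <;> rfl
        rw [h2, FirstOrder.Language.Formula.realize_iInf]
        exact fun θ => hG θ.2
      rw [BNA_inf h Subtype.val (fun b => b.2), FirstOrder.Language.Formula.realize_iExs] at h1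
      obtain ⟨u, hu⟩ := h1
      refine ⟨u, fun θ hθ => ?_⟩
      rw [FirstOrder.Language.Formula.realize_relabel] at hu
      have h2 : (fun a => Sum.elim (Sum.elim x' Subtype.val : κ ⊕ S → V) u a) ∘ Sum.swap =
          Sum.elim u (Sum.elim x' Subtype.val) := by
        funext c
        rcases c with c | c <;> rfl
      rw [h2, FirstOrder.Language.Formula.realize_iInf] at hu
      exact hu ⟨θ, hθ⟩)
  refine ⟨y', fun n φ s hs => ?_⟩
  let g : (κ ⊕ γ) ⊕ Fin n → γ ⊕ (κ ⊕ S) :=
    Sum.elim (Sum.elim (fun k => Sum.inr (Sum.inl k)) (fun c => Sum.inl c))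
      (fun b => Sum.inr (Sum.inr ⟨s b, hs b⟩))
  have hg : ∀ (u : κ → V) (w : γ → V), (Sum.elim w (Sum.elim u Subtype.val) : γ ⊕ (κ ⊕ S) → V) ∘ g =
      Sum.elim (Sum.elim u w) s := by
    intro u w
    funext c
    rcases c with (c | c) | c <;> rfl
  constructor
  · intro h1
    have h2 : (φ.relabel g).Realize (Sum.elim y (Sum.elim x Subtype.val) : γ ⊕ (κ ⊕ S) → V) := by
      rw [FirstOrder.Language.Formula.realize_relabel, hg]
      exact h1
    have h3 := hy' (φ.relabel g) h2
    rwa [FirstOrder.Language.Formula.realize_relabel, hg] at h3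
  · intro h1
    by_contra h0
    have h2 : (φ.relabel g).not.Realize
        (Sum.elim y (Sum.elim x Subtype.val) : γ ⊕ (κ ⊕ S) → V) := by
      rw [FirstOrder.Language.Formula.realize_not, FirstOrder.Language.Formula.realize_relabel, hg]
      exact h0
    have h3 := hy' (φ.relabel g).not h2
    rw [FirstOrder.Language.Formula.realize_not, FirstOrder.Language.Formula.realize_relabel, hg]
      at h3
    exact h3 h1

/-- equality with a parameter -/
private theorem BNA_eqS {α : Type} {x y : α → V} (h : TyE L S x y) (a : α) {s : V} (hs : s ∈ S) :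
    x a = s ↔ y a = s := by
  have h1 := h 1 ((FirstOrder.Language.Term.var (Sum.inl a)).equal
    (FirstOrder.Language.Term.var (Sum.inr 0))) (fun _ => s) (fun _ => hs)
  rw [FirstOrder.Language.Formula.realize_equal, FirstOrder.Language.Formula.realize_equal] at h1
  exact h1

/-- equality of entries -/
private theorem BNA_eqv {α : Type} {x y : α → V} (h : TyE L S x y) (a b : α) :
    x a = x b ↔ y a = y b := by
  have h1 := h 0 ((FirstOrder.Language.Term.var (Sum.inl a)).equal
    (FirstOrder.Language.Term.var (Sum.inl b))) Fin.elim0 (fun b => b.elim0)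
  rw [FirstOrder.Language.Formula.realize_equal, FirstOrder.Language.Formula.realize_equal] at h1
  exact h1

/-- steps of walks -/
private theorem BNA_step (hW : St_WKF) {F : Set (Sy L)} (hF : F.Finite) {α : Type} {x y : α → V}
    (h : TyE L S x y) (a b : α) (h0 : x a = x b ∨ adj F (x a) (x b)) :
    y a = y b ∨ adj F (y a) (y b) := by
  obtain ⟨φ, hφ⟩ := hW L F hF 1 0
  let g : (Unit ⊕ Unit) ⊕ Fin 0 → α ⊕ Fin 0 :=
    Sum.elim (Sum.elim (fun _ => Sum.inl a) (fun _ => Sum.inl b)) (fun c => c.elim0)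
  have h1 := h 0 (φ.relabel g) Fin.elim0 (fun b => b.elim0)
  have hg : ∀ u : α → V, (Sum.elim u Fin.elim0 : α ⊕ Fin 0 → V) ∘ g =
      Sum.elim (Sum.elim (fun _ => u a) (fun _ => u b)) Fin.elim0 := by
    intro u
    funext c
    rcases c with (c | c) | c
    · rfl
    · rfl
    · exact c.elim0
  rw [FirstOrder.Language.Formula.realize_relabel, FirstOrder.Language.Formula.realize_relabel,
    hg, hg, hφ, hφ] at h1
  have h2 : Wk (adj F) (range (Fin.elim0 : Fin 0 → V)) 1 (x a) (x b) := by
    refine ⟨fun l => if l = 0 then x a else x b, by simp, by simp, ?_, ?_⟩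
    · intro l hl
      have : l = 0 := by omega
      subst this
      simpa using h0
    · rintro l _ ⟨c, _⟩
      exact c.elim0
  obtain ⟨w, hw0, hw1, hw2, -⟩ := h1.1 h2
  have h3 := hw2 0 (by omega)
  rw [hw0, hw1] at h3
  exact h3

end

theorem thm_BNA (hC : St_CNE) (hW : St_WKF) : St_BNA := by
  intro L F hFm hFu hFf V _ hV S hS ι _ v v' hB i z hz
  obtain ⟨cR, cS, cT, -⟩ := hC L F hFm hFu V S
  have hzz : Cn F S z z := cT _ _ _ (cS _ _ hz) hz
  have hii : Cn F S (v i) (v i) := cT _ _ _ hz (cS _ _ hz)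
  obtain ⟨m, r, w, hw0, hwr, hwA, hwS⟩ := id hz
  let K : Type := {k : ι // Cn F S (v i) (v k)}
  have hT : TyE L S (v ∘ (Subtype.val : K → ι)) (v' ∘ (Subtype.val : K → ι)) :=
    hB.typ i K Subtype.val (fun a => a.2)
  obtain ⟨W', hT'⟩ := BNA_ext hV hS hT (fun l : Fin (r + 1) => w l)
  have hW0 : W' 0 = v' i := by
    have h := BNA_eqv hT' (Sum.inr 0) (Sum.inl ⟨i, hii⟩)
    exact h.1 hw0
  let z' : V := W' (Fin.last r)
  have hzw : Wk (adj (F m)) S r (v' i) z' := by
    refine ⟨fun l => if h : l < r + 1 then W' ⟨l, h⟩ else z', ?_, ?_, ?_, ?_⟩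
    · show (if h : 0 < r + 1 then W' ⟨0, h⟩ else z') = v' i
      rw [dif_pos (Nat.succ_pos r)]
      exact hW0
    · show (if h : r < r + 1 then W' ⟨r, h⟩ else z') = z'
      rw [dif_pos (Nat.lt_succ_self r)]
      rfl
    · intro l hl
      show (if h : l < r + 1 then W' ⟨l, h⟩ else z') =
          (if h : l + 1 < r + 1 then W' ⟨l + 1, h⟩ else z') ∨
        adj (F m) (if h : l < r + 1 then W' ⟨l, h⟩ else z')
          (if h : l + 1 < r + 1 then W' ⟨l + 1, h⟩ else z')
      rw [dif_pos (show l < r + 1 by omega), dif_pos (show l + 1 < r + 1 by omega)]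
      exact BNA_step hW (hFf m) hT' (Sum.inr ⟨l, by omega⟩) (Sum.inr ⟨l + 1, by omega⟩) (hwA l hl)
    · intro l hl hs
      have hs' : W' ⟨l, by omega⟩ ∈ S := by
        have h : (if h : l < r + 1 then W' ⟨l, h⟩ else z') ∈ S := hs
        rwa [dif_pos (show l < r + 1 by omega)] at h
      have h := BNA_eqS hT' (Sum.inr ⟨l, by omega⟩) hs'
      have h2 : w l = W' ⟨l, by omega⟩ := h.2 rfl
      exact hwS l hl (h2 ▸ hs')
  have hz' : Cn F S (v' i) z' := ⟨m, r, hzw⟩
  have hzz' : Cn F S z' z' := cT _ _ _ (cS _ _ hz') hz'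
  have hzS : z ∉ S := (cR z).1 hzz
  have hzS' : z' ∉ S := (cR z').1 hzz'
  have hcl : ∀ k, Cn F S (v k) z ↔ Cn F S (v' k) z' := by
    intro k
    constructor
    · intro h
      exact cT _ _ _ ((hB.cls k i).1 (cT _ _ _ h (cS _ _ hz))) hz'
    · intro h
      exact cT _ _ _ ((hB.cls k i).2 (cT _ _ _ h (cS _ _ hz'))) hz
  refine ⟨z', ⟨?_, ?_, ?_⟩⟩
  · rintro (k | k) h
    · exact hB.par k h
    · rcases h with h | h
      · exact absurd h hzS
      · exact absurd h hzS'
  · rintro (k | k) (l | l)
    · exact hB.cls k l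
    · exact hcl k
    · exact ⟨fun h => cS _ _ ((hcl l).1 (cS _ _ h)), fun h => cS _ _ ((hcl l).2 (cS _ _ h))⟩
    · exact ⟨fun _ => hzz', fun _ => hzz⟩
  · intro a α _ g hg
    by_cases ha : Cn F S (Sum.elim v (fun _ : Unit => z) a) (v i)
    · have hgc : ∀ b, ∃ c : K ⊕ Fin (r + 1),
          Sum.elim v (fun _ : Unit => z) (g b) =
            Sum.elim (v ∘ (Subtype.val : K → ι)) (fun l : Fin (r + 1) => w l) c ∧
          Sum.elim v' (fun _ : Unit => z') (g b) =
            Sum.elim (v' ∘ (Subtype.val : K → ι)) W' c := by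
        intro b
        have hb := hg b
        rcases hgb : g b with k | k
        · rw [hgb] at hb
          exact ⟨Sum.inl ⟨k, cT _ _ _ (cS _ _ ha) hb⟩, rfl, rfl⟩
        · exact ⟨Sum.inr (Fin.last r), hwr.symm, rfl⟩
      choose h h1 h2 using hgc
      have e1 : (Sum.elim v (fun _ : Unit => z)) ∘ g =
          (Sum.elim (v ∘ (Subtype.val : K → ι)) (fun l : Fin (r + 1) => w l)) ∘ h := by
        funext b
        exact h1 b
      have e2 : (Sum.elim v' (fun _ : Unit => z')) ∘ g =
          (Sum.elim (v' ∘ (Subtype.val : K → ι)) W') ∘ h := by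
        funext b
        exact h2 b
      rw [e1, e2]
      exact BNA_comp hT' h
    · rcases a with k0 | k0
      · have hgc : ∀ b, ∃ k : ι, g b = Sum.inl k := by
          intro b
          have hb := hg b
          rcases hgb : g b with k | k
          · exact ⟨k, rfl⟩
          · rw [hgb] at hb
            exact absurd (cT _ _ _ hb (cS _ _ hz)) ha
        choose g0 hg0 using hgc
        have e0 : g = Sum.inl ∘ g0 := by
          funext b
          exact hg0 b
        subst e0
        exact hB.typ k0 α g0 hg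
      · exact absurd (cS _ _ hz) ha

end Pool.Agent.MST
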