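import Pool.Agent.MST.StF

/-!
MST: module BNB (helper78): extension of the back-and-forth relation, far case.
-/

set_option autoImplicit false

namespace Pool.Agent.MST

open FirstOrder.Language Set
open scoped FirstOrder

section

variable {L : FirstOrder.Language.{0, 0}} {V : Type} [L.Structure V]

private theorem BNB_tyS {S : Set V} {α : Type} {x y : α → V} (h : TyE L S x y) : TyE L S y x :=
  fun n φ s hs => (h n φ s hs).symm

private theorem BNB_tyT {S : Set V} {α : Type} {x y z : α → V} (h : TyE L S x y)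
    (h' : TyE L S y z) : TyE L S x z :=
  fun n φ s hs => (h n φ s hs).trans (h' n φ s hs)

/-- reindexing -/
private theorem BNB_tyR {S : Set V} {α β : Type} {x y : α → V} (h : TyE L S x y) (g : β → α) :
    TyE L S (x ∘ g) (y ∘ g) := by
  intro n φ s hs
  have h1 := h n (φ.relabel (Sum.map g id)) s hs
  rw [FirstOrder.Language.Formula.realize_relabel, FirstOrder.Language.Formula.realize_relabel]
    at h1
  have e : ∀ w : α → V, Sum.elim w s ∘ Sum.map g id = Sum.elim (w ∘ g) s := by
    intro w
    funext i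
    cases i <;> rfl
  rw [e, e] at h1
  exact h1

private theorem BNB_nmem {S : Set V} {z u : V}
    (h : TyE L S (fun _ : Unit => z) (fun _ : Unit => u)) (hz : z ∉ S) : u ∉ S := by
  intro hu
  have h1 := h 1 (FirstOrder.Language.Term.equal
    (FirstOrder.Language.Term.var (Sum.inl ())) (FirstOrder.Language.Term.var (Sum.inr 0)))
    (fun _ => u) (fun _ => hu)
  rw [FirstOrder.Language.Formula.realize_equal, FirstOrder.Language.Formula.realize_equal] at h1
  have h2 : z = u := h1.2 rfl
  exact hz (h2 ▸ hu)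

private theorem BNB_biS {F : ℕ → Set (Sy L)} {S : Set V} {ι : Type} {v v' : ι → V}
    (h : BI F S v v') : BI F S v' v where
  par i hi := (h.par i hi.symm).symm
  cls i k := (h.cls i k).symm
  typ i α _ f hf := BNB_tyS (h.typ i α f (fun a => (h.cls i (f a)).2 (hf a)))

/-- the extension of the relation by an element in a new component -/
private theorem BNB_ext (hC : St_CNE) {F : ℕ → Set (Sy L)} (hF : Monotone F)
    (hU : (⋃ m, F m) = univ) {S : Set V} {ι : Type} {v v' : ι → V} (h : BI F S v v') {z u : V}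
    (hz : z ∉ S) (hvz : ∀ i, ¬ Cn F S (v i) z)
    (ht : TyE L S (fun _ : Unit => z) (fun _ : Unit => u)) (hvu : ∀ i, ¬ Cn F S (v' i) u) :
    BI F S (Sum.elim v (fun _ : Unit => z)) (Sum.elim v' (fun _ : Unit => u)) := by
  obtain ⟨hr, hs, _, _⟩ := hC L F hF hU V S
  have hu : u ∉ S := BNB_nmem ht hz
  refine ⟨?_, ?_, ?_⟩
  · rintro (i | i) hi
    · exact h.par i hi
    · exact absurd hi (not_or.2 ⟨hz, hu⟩)
  · rintro (i | i) (k | k)
    · exact h.cls i k
    · exact iff_of_false (hvz i) (hvu i)
    · exact iff_of_false (fun q => hvz k (hs _ _ q)) (fun q => hvu k (hs _ _ q))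
    · exact iff_of_true ((hr z).2 hz) ((hr u).2 hu)
  · rintro (i | i) α _ f hf
    · have hg : ∀ a, ∃ k, f a = Sum.inl k := by
        intro a
        have h1 := hf a
        rcases hfa : f a with k | k
        · exact ⟨k, rfl⟩
        · rw [hfa] at h1
          exact absurd h1 (hvz i)
      choose g hg using hg
      have e1 : Sum.elim v (fun _ : Unit => z) ∘ f = v ∘ g := by
        funext a
        simp only [Function.comp_apply, hg, Sum.elim_inl]
      have e2 : Sum.elim v' (fun _ : Unit => u) ∘ f = v' ∘ g := by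
        funext a
        simp only [Function.comp_apply, hg, Sum.elim_inl]
      rw [e1, e2]
      refine h.typ i α g (fun a => ?_)
      have h1 := hf a
      rw [hg] at h1
      exact h1
    · have hg : ∀ a, f a = Sum.inr () := by
        intro a
        have h1 := hf a
        rcases hfa : f a with k | k
        · rw [hfa] at h1
          exact absurd (hs _ _ h1) (hvz k)
        · rfl
      have e1 : Sum.elim v (fun _ : Unit => z) ∘ f = (fun _ : Unit => z) ∘ (fun _ : α => ()) := by
        funext a
        simp only [Function.comp_apply, hg, Sum.elim_inr]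
      have e2 : Sum.elim v' (fun _ : Unit => u) ∘ f = (fun _ : Unit => u) ∘ (fun _ : α => ()) := by
        funext a
        simp only [Function.comp_apply, hg, Sum.elim_inr]
      rw [e1, e2]
      exact BNB_tyR ht _

end

/-- [BNB] -/
theorem thm_BNB (hC : St_CNE) (hA : St_BNA) : St_BNB := by
  intro L F hF hU hfin V _ hsat S hS ι _ v v' h z hz hvz
  obtain ⟨hr, hs, htr, _⟩ := hC L F hF hU V S
  by_cases hcon : ∃ u : V, TyE L S (fun _ : Unit => z) (fun _ : Unit => u) ∧
      ∀ i, ¬ Cn F S (v' i) u
  · obtain ⟨u, hu, hvu⟩ := hcon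
    exact ⟨u, BNB_ext hC hF hU h hz hvz hu hvu⟩
  exfalso
  push Not at hcon
  -- the elements of this type near `v' i` have copies near `v i`
  have key : ∀ i u, TyE L S (fun _ : Unit => z) (fun _ : Unit => u) → Cn F S (v' i) u →
      ∃ u' : V, TyE L S (fun _ : Unit => z) (fun _ : Unit => u') ∧ Cn F S (v i) u' := by
    intro i u hu hi
    obtain ⟨u', hb⟩ := hA L F hF hU hfin V hsat S hS ι v' v (BNB_biS h) i u hi
    have huS : u ∉ S := BNB_nmem hu hz
    refine ⟨u', BNB_tyT hu ?_, (hb.cls (Sum.inl i) (Sum.inr ())).1 hi⟩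
    exact hb.typ (Sum.inr ()) Unit (fun _ => Sum.inr ()) (fun _ => (hr u).2 huS)
  -- the components of the elements of this type, seen from `v'`
  let K : Type := {i : ι // ∃ u : V, TyE L S (fun _ : Unit => z) (fun _ : Unit => u) ∧
    Cn F S (v i) u}
  have hz' : TyE L S (fun _ : Unit => z) (fun _ : Unit => z) := fun _ _ _ _ => Iff.rfl
  have hK : ∀ u : V, TyE L S (fun _ : Unit => z) (fun _ : Unit => u) →
      ∃ k : K, Cn F S (v' k.1) u := by
    intro u hu
    obtain ⟨i, hi⟩ := hcon u hu
    exact ⟨⟨i, key i u hu hi⟩, hi⟩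
  obtain ⟨s0, hs0⟩ := hK z hz'
  choose w hw1 hw2 using fun k : K => k.2
  choose s hsw using fun k : K => hK (w k) (hw1 k)
  -- `s` is injective modulo connectedness
  have inj : ∀ k l : K, Cn F S (v (s k).1) (v (s l).1) → Cn F S (v k.1) (v l.1) := by
    intro k l hkl
    have h1 : Cn F S (v' (s k).1) (v' (s l).1) := (h.cls _ _).1 hkl
    have h2 : Cn F S (w k) (w l) :=
      htr _ _ _ (hs _ _ (hsw k)) (htr _ _ _ h1 (hsw l))
    exact htr _ _ _ (hw2 k) (htr _ _ _ h2 (hs _ _ (hw2 l)))
  -- iterate
  have hself : ∀ k : K, Cn F S (v k.1) (v k.1) := fun k =>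
    htr _ _ _ (hw2 k) (hs _ _ (hw2 k))
  have back : ∀ a b : ℕ, Cn F S (v (s^[a] s0).1) (v (s^[a + b] s0).1) →
      Cn F S (v s0.1) (v (s^[b] s0).1) := by
    intro a
    induction a with
    | zero =>
      intro b hb
      rw [zero_add] at hb
      exact hb
    | succ a ih =>
      intro b hb
      apply ih b
      apply inj
      have e : a + 1 + b = (a + b) + 1 := by omega
      rw [e, Function.iterate_succ_apply', Function.iterate_succ_apply'] at hb
      exact hb
  obtain ⟨a, b, hab, he⟩ := Finite.exists_ne_map_eq_of_infinite (fun n : ℕ => s^[n] s0)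
  have fin : ∀ a b : ℕ, a < b → s^[a] s0 = s^[b] s0 → False := by
    intro a b hab he
    obtain ⟨c, rfl⟩ : ∃ c, b = a + (c + 1) := ⟨b - a - 1, by omega⟩
    have h1 : Cn F S (v (s^[a] s0).1) (v (s^[a + (c + 1)] s0).1) := by
      rw [← he]
      exact hself _
    have h2 := back a (c + 1) h1
    rw [Function.iterate_succ_apply'] at h2
    have h3 : Cn F S (v' s0.1) (v' (s (s^[c] s0)).1) := (h.cls _ _).1 h2
    have h4 : Cn F S z (w (s^[c] s0)) :=
      htr _ _ _ (hs _ _ hs0) (htr _ _ _ h3 (hsw _))
    exact hvz _ (htr _ _ _ (hw2 _) (hs _ _ h4))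
  rcases lt_or_gt_of_ne hab with h5 | h5
  · exact fin a b h5 he
  · exact fin b a h5 he.symm

end Pool.Agent.MST
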