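import Pool.Agent.MST.StF

/-!
MST, module BNF: the back-and-forth relation preserves all formulas (helper41).
-/

set_option autoImplicit false

namespace Pool.Agent.MST

open FirstOrder.Language Set
open scoped FirstOrder

private theorem BNF_symm {L : FirstOrder.Language.{0, 0}} {F : ℕ → Set (Sy L)} {V : Type}
    [L.Structure V] {S : Set V} {ι : Type} {v v' : ι → V} (h : BI F S v v') : BI F S v' v where
  par i hi := (h.par i hi.symm).symm
  cls i k := (h.cls i k).symm
  typ i α _ f hf := by
    intro n φ s hs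
    exact (h.typ i α f (fun a => (h.cls i (f a)).2 (hf a)) n φ s hs).symm

private theorem BNF_re {L : FirstOrder.Language.{0, 0}} {F : ℕ → Set (Sy L)} {V : Type}
    [L.Structure V] {S : Set V} {ι κ : Type} {v v' : ι → V} (h : BI F S v v') (g : κ → ι) :
    BI F S (v ∘ g) (v' ∘ g) where
  par i hi := h.par (g i) hi
  cls i k := h.cls (g i) (g k)
  typ i α _ f hf := h.typ (g i) α (g ∘ f) hf

private theorem BNF_ext (h1 : St_CNE) (h2 : St_BNA) (h3 : St_BNB)
    (L : FirstOrder.Language.{0, 0}) (F : ℕ → Set (Sy L)) (hF : Monotone F)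
    (hU : (⋃ m, F m) = univ) (hf : ∀ m, (F m).Finite) (V : Type) [L.Structure V]
    (hV : SatW L V) (S : Set V) (hS : S.Countable) (ι : Type) [Finite ι] (v v' : ι → V)
    (h : BI F S v v') (z : V) :
    ∃ z' : V, BI F S (Sum.elim v (fun _ : Unit => z)) (Sum.elim v' (fun _ : Unit => z')) := by
  obtain ⟨c1, c2, c3, -⟩ := h1 L F hF hU V S
  have cn1 : ∀ x y, Cn F S x y → x ∉ S := fun x y hxy => (c1 x).1 (c3 x y x hxy (c2 x y hxy))
  have cn2 : ∀ x y, Cn F S x y → y ∉ S := fun x y hxy => cn1 y x (c2 x y hxy)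
  by_cases hz : z ∈ S
  · refine ⟨z, ?_, ?_, ?_⟩
    · rintro (i | i) hi
      · exact h.par i hi
      · rfl
    · rintro (i | i) (k | k)
      · exact h.cls i k
      · exact ⟨fun hh => absurd hz (cn2 _ _ hh), fun hh => absurd hz (cn2 _ _ hh)⟩
      · exact ⟨fun hh => absurd hz (cn1 _ _ hh), fun hh => absurd hz (cn1 _ _ hh)⟩
      · exact Iff.rfl
    · intro i α _ f hfa
      rcases isEmpty_or_nonempty α with hα | ⟨⟨a0⟩⟩
      · have e : (Sum.elim v (fun _ : Unit => z) ∘ f : α → V) =
            (Sum.elim v' (fun _ : Unit => z) ∘ f : α → V) := by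
          funext a
          exact (hα.false a).elim
        rw [e]
        intro n φ s _
        exact Iff.rfl
      · rcases i with i | i
        · have e : ∀ a, ∃ k, f a = Sum.inl k := by
            intro a
            rcases hh : f a with k | k
            · exact ⟨k, rfl⟩
            · have h5 := hfa a
              rw [hh] at h5
              exact absurd hz (cn2 _ _ h5)
          choose f' hf' using e
          have e1 : (Sum.elim v (fun _ : Unit => z) ∘ f : α → V) = v ∘ f' := by
            funext a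
            simp [hf' a]
          have e2 : (Sum.elim v' (fun _ : Unit => z) ∘ f : α → V) = v' ∘ f' := by
            funext a
            simp [hf' a]
          rw [e1, e2]
          refine h.typ i α f' fun a => ?_
          have h5 := hfa a
          rw [hf' a] at h5
          exact h5
        · exact absurd hz (cn1 _ _ (hfa a0))
  · by_cases hn : ∃ i, Cn F S (v i) z
    · obtain ⟨i, hi⟩ := hn
      exact h2 L F hF hU hf V hV S hS ι v v' h i z hi
    · exact h3 L F hF hU hf V hV S hS ι v v' h z hz (fun i hi => hn ⟨i, hi⟩)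

private theorem BNF_eq {L : FirstOrder.Language.{0, 0}} {F : ℕ → Set (Sy L)} {V : Type}
    [L.Structure V] {S : Set V} (c1 : ∀ x, Cn F S x x ↔ x ∉ S) {κ : Type} {w w' : κ → V}
    (h : BI F S w w') (a b : κ) (hab : w a = w b) : w' a = w' b := by
  by_cases ha : w a ∈ S
  · rw [← h.par a (Or.inl ha), ← h.par b (Or.inl (hab ▸ ha)), hab]
  · have h1 := h.typ a Bool (fun t => if t = true then a else b) (by
      intro t
      cases t
      · show Cn F S (w a) (w b)
        rw [← hab]
        exact (c1 _).2 ha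
      · exact (c1 _).2 ha)
    have h2 := h1 0 (FirstOrder.Language.Term.equal
      (FirstOrder.Language.Term.var (Sum.inl true)) (FirstOrder.Language.Term.var (Sum.inl false)))
      Fin.elim0 (fun t => t.elim0)
    rw [FirstOrder.Language.Formula.realize_equal, FirstOrder.Language.Formula.realize_equal] at h2
    exact h2.1 hab

private theorem BNF_rel {L : FirstOrder.Language.{0, 0}} {F : ℕ → Set (Sy L)} {V : Type}
    [L.Structure V] {S : Set V}
    (c4 : ∀ (n : ℕ) (R : L.Relations n) (t : Fin n → V),
      FirstOrder.Language.Structure.RelMap R t →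
      ∀ i k, t i ∉ S → t k ∉ S → Cn F S (t i) (t k)) {κ : Type} {w w' : κ → V}
    (h : BI F S w w') (n : ℕ) (R : L.Relations n) (a : Fin n → κ)
    (hR : FirstOrder.Language.Structure.RelMap R (w ∘ a)) :
    FirstOrder.Language.Structure.RelMap R (w' ∘ a) := by
  classical
  by_cases hJ : ∃ j0, w (a j0) ∉ S
  · obtain ⟨j0, hj0⟩ := hJ
    obtain ⟨m, ⟨e⟩⟩ := Finite.exists_equiv_fin {j : Fin n // w (a j) ∈ S}
    have h1 := h.typ (a j0) {j : Fin n // w (a j) ∉ S} (fun j => a j.1) (fun j =>
      c4 n R (w ∘ a) hR j0 j.1 hj0 j.2)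
    have h2 := h1 m (FirstOrder.Language.Relations.formula R (fun j =>
      if hj : w (a j) ∈ S then FirstOrder.Language.Term.var (Sum.inr (e ⟨j, hj⟩))
      else FirstOrder.Language.Term.var (Sum.inl ⟨j, hj⟩))) (fun b => w (a (e.symm b).1))
      (fun b => (e.symm b).2)
    rw [FirstOrder.Language.Formula.realize_rel, FirstOrder.Language.Formula.realize_rel] at h2
    have e1 : (fun j => FirstOrder.Language.Term.realize
        (Sum.elim (w ∘ fun j : {j : Fin n // w (a j) ∉ S} => a j.1)
          (fun b => w (a (e.symm b).1)))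
        (if hj : w (a j) ∈ S then FirstOrder.Language.Term.var (Sum.inr (e ⟨j, hj⟩))
          else FirstOrder.Language.Term.var (Sum.inl ⟨j, hj⟩) :
            L.Term ({j : Fin n // w (a j) ∉ S} ⊕ Fin m))) = w ∘ a := by
      funext j
      split_ifs with hj
      · simp
      · simp
    have e2 : (fun j => FirstOrder.Language.Term.realize
        (Sum.elim (w' ∘ fun j : {j : Fin n // w (a j) ∉ S} => a j.1)
          (fun b => w (a (e.symm b).1)))
        (if hj : w (a j) ∈ S then FirstOrder.Language.Term.var (Sum.inr (e ⟨j, hj⟩))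
          else FirstOrder.Language.Term.var (Sum.inl ⟨j, hj⟩) :
            L.Term ({j : Fin n // w (a j) ∉ S} ⊕ Fin m))) = w' ∘ a := by
      funext j
      split_ifs with hj
      · simp [h.par (a j) (Or.inl hj)]
      · simp
    rw [e1, e2] at h2
    exact h2.1 hR
  · push Not at hJ
    have e : w' ∘ a = w ∘ a := by
      funext j
      exact (h.par (a j) (Or.inl (hJ j))).symm
    rw [e]
    exact hR

private theorem BNF_term {L : FirstOrder.Language.{0, 0}} (hL : ∀ n, IsEmpty (L.Functions n))
    {κ : Type} (t : L.Term κ) : ∃ a, t = FirstOrder.Language.Term.var a := by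
  cases t with
  | var a => exact ⟨a, rfl⟩
  | func f _ => exact ((hL _).false f).elim

private theorem BNF_snoc {V ι : Type} {n : ℕ} (v : ι → V) (x : Fin n → V) (z : V) :
    (Sum.elim (Sum.elim v x) (fun _ : Unit => z) : (ι ⊕ Fin n) ⊕ Unit → V) ∘
      (Sum.elim (fun i => Sum.inl (Sum.inl i))
        (fun j : Fin (n + 1) => Fin.lastCases (motive := fun _ => (ι ⊕ Fin n) ⊕ Unit)
          (Sum.inr ()) (fun j => Sum.inl (Sum.inr j)) j)) =
      (Sum.elim v (Fin.snoc x z : Fin (n + 1) → V) : ι ⊕ Fin (n + 1) → V) := by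
  funext a
  rcases a with a | a
  · rfl
  · refine Fin.lastCases ?_ (fun j => ?_) a
    · simp
    · simp

theorem thm_BNF (h1 : St_CNE) (h2 : St_BNA) (h3 : St_BNB) : St_BNF := by
  intro L hL F hF hU hf V _ hV S hS ι _ v v' h φ
  obtain ⟨c1, c2, c3, c4⟩ := h1 L F hF hU V S
  have main : ∀ (n : ℕ) (ψ : L.BoundedFormula ι n) (v v' : ι → V) (x x' : Fin n → V),
      BI F S (Sum.elim v x) (Sum.elim v' x') → (ψ.Realize v x ↔ ψ.Realize v' x') := by
    intro n ψ
    induction ψ with
    | falsum =>
      intro v v' x x' _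
      exact Iff.rfl
    | @equal n t1 t2 =>
      intro v v' x x' hB
      obtain ⟨a, rfl⟩ := BNF_term hL t1
      obtain ⟨b, rfl⟩ := BNF_term hL t2
      exact ⟨BNF_eq c1 hB a b, BNF_eq c1 (BNF_symm hB) a b⟩
    | @rel n l R ts =>
      intro v v' x x' hB
      choose a ha using fun j => BNF_term hL (ts j)
      have e : ∀ w : ι ⊕ Fin n → V, (fun j => (ts j).realize w) = w ∘ a := by
        intro w
        funext j
        rw [ha j]
        rfl
      show FirstOrder.Language.Structure.RelMap R (fun j => (ts j).realize (Sum.elim v x)) ↔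
        FirstOrder.Language.Structure.RelMap R (fun j => (ts j).realize (Sum.elim v' x'))
      rw [e, e]
      exact ⟨BNF_rel c4 hB l R a, BNF_rel c4 (BNF_symm hB) l R a⟩
    | @imp n ψ1 ψ2 ih1 ih2 =>
      intro v v' x x' hB
      rw [FirstOrder.Language.BoundedFormula.realize_imp,
        FirstOrder.Language.BoundedFormula.realize_imp, ih1 v v' x x' hB, ih2 v v' x x' hB]
    | @all n ψ ih =>
      have key : ∀ (v v' : ι → V) (x x' : Fin n → V), BI F S (Sum.elim v x) (Sum.elim v' x') →
          (∀ z, ψ.Realize v (Fin.snoc x z)) → ∀ z', ψ.Realize v' (Fin.snoc x' z') := by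
        intro v v' x x' hB hz z'
        obtain ⟨z, hz'⟩ := BNF_ext h1 h2 h3 L F hF hU hf V hV S hS (ι ⊕ Fin n) _ _
          (BNF_symm hB) z'
        have h5 := BNF_re (BNF_symm hz') (Sum.elim (fun i => Sum.inl (Sum.inl i))
          (fun j : Fin (n + 1) => Fin.lastCases (motive := fun _ => (ι ⊕ Fin n) ⊕ Unit)
            (Sum.inr ()) (fun j => Sum.inl (Sum.inr j)) j))
        rw [BNF_snoc, BNF_snoc] at h5
        exact (ih v v' _ _ h5).1 (hz z)
      intro v v' x x' hB
      rw [FirstOrder.Language.BoundedFormula.realize_all,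
        FirstOrder.Language.BoundedFormula.realize_all]
      exact ⟨key v v' x x' hB, key v' v x' x (BNF_symm hB)⟩
  have h6 := BNF_re h (Sum.elim id (fun j : Fin 0 => j.elim0) : ι ⊕ Fin 0 → ι)
  have e : ∀ w : ι → V, w ∘ (Sum.elim id (fun j : Fin 0 => j.elim0) : ι ⊕ Fin 0 → ι) =
      Sum.elim w (default : Fin 0 → V) := by
    intro w
    funext a
    rcases a with a | a
    · rfl
    · exact a.elim0
  rw [e, e] at h6
  exact main 0 φ v v' default default h6

end Pool.Agent.MST
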