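import Pool.Agent.MST.StF

/-!
MST, [CNE]: connectedness outside `S` is an equivalence relation outside `S`; one step.
-/

set_option autoImplicit false

namespace Pool.Agent.MST

open FirstOrder.Language Set
open scoped FirstOrder

private theorem CNE_adj_symm {L : FirstOrder.Language.{0, 0}} (F : Set (Sy L)) {M : Type}
    [L.Structure M] {x y : M} (h : adj F x y) : adj F y x := by
  obtain ⟨h1, R, hR, t, h2, h3, h4⟩ := h
  exact ⟨h1.symm, R, hR, t, h2, h4, h3⟩

private theorem CNE_adj_mono {L : FirstOrder.Language.{0, 0}} {F F' : Set (Sy L)} (hF : F ⊆ F')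
    {M : Type} [L.Structure M] {x y : M} (h : adj F x y) : adj F' x y := by
  obtain ⟨h1, R, hR, t, h2, h3, h4⟩ := h
  exact ⟨h1, R, hF hR, t, h2, h3, h4⟩

private theorem CNE_wk_symm {M : Type} {A : M → M → Prop} (hA : ∀ x y, A x y → A y x)
    {S : Set M} {r : ℕ} {x y : M} (h : Wk A S r x y) : Wk A S r y x := by
  obtain ⟨w, h0, h1, h2, h3⟩ := h
  refine ⟨fun i => w (r - i), ?_, ?_, fun i hi => ?_, fun i _ => h3 _ (Nat.sub_le r i)⟩
  · show w (r - 0) = y
    rw [Nat.sub_zero, h1]
  · show w (r - r) = x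
    rw [Nat.sub_self, h0]
  · show w (r - i) = w (r - (i + 1)) ∨ A (w (r - i)) (w (r - (i + 1)))
    have e : r - i = r - (i + 1) + 1 := by omega
    rw [e]
    rcases h2 (r - (i + 1)) (by omega) with h | h
    · exact Or.inl h.symm
    · exact Or.inr (hA _ _ h)

private theorem CNE_wk_trans {M : Type} {A : M → M → Prop} {S : Set M} {r r' : ℕ} {x y z : M}
    (h : Wk A S r x y) (h' : Wk A S r' y z) : Wk A S (r + r') x z := by
  obtain ⟨w, h0, h1, h2, h3⟩ := h
  obtain ⟨w', h0', h1', h2', h3'⟩ := h'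
  have hw : ∀ i, r ≤ i → (if i ≤ r then w i else w' (i - r)) = w' (i - r) := by
    intro i hi
    by_cases h : i ≤ r
    · have e : i = r := le_antisymm h hi
      rw [if_pos h, e, Nat.sub_self, h1, h0']
    · rw [if_neg h]
  refine ⟨fun i => if i ≤ r then w i else w' (i - r), ?_, ?_, fun i hi => ?_, fun i hi => ?_⟩
  · show (if 0 ≤ r then w 0 else w' (0 - r)) = x
    rw [if_pos (Nat.zero_le r), h0]
  · show (if r + r' ≤ r then w (r + r') else w' (r + r' - r)) = z
    rw [hw _ (Nat.le_add_right r r'), Nat.add_sub_cancel_left, h1']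
  · show (if i ≤ r then w i else w' (i - r)) = (if i + 1 ≤ r then w (i + 1) else w' (i + 1 - r)) ∨
      A (if i ≤ r then w i else w' (i - r)) (if i + 1 ≤ r then w (i + 1) else w' (i + 1 - r))
    by_cases h : i + 1 ≤ r
    · rw [if_pos h, if_pos (by omega : i ≤ r)]
      exact h2 i (by omega)
    · rw [hw i (by omega), hw (i + 1) (by omega), show i + 1 - r = i - r + 1 by omega]
      exact h2' (i - r) (by omega)
  · show (if i ≤ r then w i else w' (i - r)) ∉ S
    by_cases h : i ≤ r
    · rw [if_pos h]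
      exact h3 i h
    · rw [if_neg h]
      exact h3' _ (by omega)

private theorem CNE_wk_mono {M : Type} {A A' : M → M → Prop} (hA : ∀ x y, A x y → A' x y)
    {S : Set M} {r : ℕ} {x y : M} (h : Wk A S r x y) : Wk A' S r x y := by
  obtain ⟨w, h0, h1, h2, h3⟩ := h
  exact ⟨w, h0, h1, fun i hi => (h2 i hi).imp id (hA _ _), h3⟩

theorem thm_CNE : St_CNE := by
  intro L F hF hU V _ S
  have hr : ∀ x, x ∉ S → Cn F S x x := fun x hx =>
    ⟨0, 0, fun _ => x, rfl, rfl, fun i hi => absurd hi (Nat.not_lt_zero i), fun _ _ => hx⟩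
  refine ⟨fun x => ⟨?_, hr x⟩, ?_, ?_, ?_⟩
  · rintro ⟨m, r, w, h0, -, -, h3⟩
    rw [← h0]
    exact h3 0 (Nat.zero_le r)
  · rintro x y ⟨m, r, h⟩
    exact ⟨m, r, CNE_wk_symm (fun x y h => CNE_adj_symm _ h) h⟩
  · rintro x y z ⟨m, r, h⟩ ⟨m', r', h'⟩
    exact ⟨max m m', r + r', CNE_wk_trans
      (CNE_wk_mono (fun x y h => CNE_adj_mono (hF (le_max_left m m')) h) h)
      (CNE_wk_mono (fun x y h => CNE_adj_mono (hF (le_max_right m m')) h) h')⟩
  · intro n R t ht i k hi hk
    by_cases hik : t i = t k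
    · rw [hik]
      exact hr _ hk
    · have h1 : (⟨n, R⟩ : Sy L) ∈ ⋃ m, F m := by
        rw [hU]
        exact mem_univ _
      obtain ⟨m, hm⟩ := mem_iUnion.1 h1
      refine ⟨m, 1, fun j => if j = 0 then t i else t k, if_pos rfl, if_neg one_ne_zero,
        fun j hj => ?_, fun j hj => ?_⟩
      · obtain rfl : j = 0 := by omega
        right
        show adj (F m) (if 0 = 0 then t i else t k) (if 0 + 1 = 0 then t i else t k)
        rw [if_pos rfl, if_neg (by omega)]
        exact ⟨hik, ⟨n, R⟩, hm, t, ht, mem_range_self i, mem_range_self k⟩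
      · show (if j = 0 then t i else t k) ∉ S
        split_ifs
        · exact hi
        · exact hk

end Pool.Agent.MST
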