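import Pool.Agent.MST.StF

/-!
MST, module FLM: superflat structures are monadically stable.
-/

set_option autoImplicit false

namespace Pool.Agent.MST

open FirstOrder.Language Set
open scoped FirstOrder

/-- the language with one unary relation symbol -/
private def FLM_L : FirstOrder.Language.{0, 0} := ⟨fun _ => Empty, fun n => {_u : Unit // n = 1}⟩

/-- the unary relation symbol is interpreted by `P` -/
@[reducible] private def FLM_S {M : Type} (P : Set M) : FLM_L.Structure M where
  funMap := fun {_} f => (show Empty from f).elim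
  RelMap := fun {n} _ x => ∃ i : Fin n, x i ∈ P

private theorem FLM_countable (L : FirstOrder.Language.{0, 0}) (hc : Countable L.Symbols) :
    Countable (L.sum FLM_L).Symbols := by
  have hR : Countable (Σ n, L.Relations n) :=
    Function.Injective.countable (f := fun r : (Σ n, L.Relations n) => (Sum.inr r : L.Symbols))
      Sum.inr_injective
  have hF : Countable (Σ n, L.Functions n) :=
    Function.Injective.countable (f := fun r : (Σ n, L.Functions n) => (Sum.inl r : L.Symbols))
      Sum.inl_injective
  have hR' : ∀ n, Countable (L.Relations n) := fun n =>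
    Function.Injective.countable (f := fun r : L.Relations n => (⟨n, r⟩ : Σ n, L.Relations n))
      sigma_mk_injective
  have hF' : ∀ n, Countable (L.Functions n) := fun n =>
    Function.Injective.countable (f := fun r : L.Functions n => (⟨n, r⟩ : Σ n, L.Functions n))
      sigma_mk_injective
  have h1 : ∀ n, Countable ((L.sum FLM_L).Relations n) := fun n => by
    have : Countable (FLM_L.Relations n) :=
      inferInstanceAs (Countable {_u : Unit // n = 1})
    have := hR' n
    exact inferInstanceAs (Countable (L.Relations n ⊕ FLM_L.Relations n))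
  have h2 : ∀ n, Countable ((L.sum FLM_L).Functions n) := fun n => by
    have : Countable (FLM_L.Functions n) := inferInstanceAs (Countable Empty)
    have := hF' n
    exact inferInstanceAs (Countable (L.Functions n ⊕ FLM_L.Functions n))
  exact inferInstanceAs (Countable ((Σ n, (L.sum FLM_L).Functions n) ⊕
    (Σ n, (L.sum FLM_L).Relations n)))

theorem thm_FLM (hFLS : St_FLS) : St_FLM := by
  intro L hc M iM hS P m n φ a b hab
  let iP : FLM_L.Structure M := FLM_S P
  have hS' : Sfl (L.sum FLM_L) M := by
    refine ⟨fun k => ?_, fun F' hF' q => ?_⟩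
    · have h1 := hS.1 k
      have h2 : IsEmpty (FLM_L.Functions k) := inferInstanceAs (IsEmpty Empty)
      exact inferInstanceAs (IsEmpty (L.Functions k ⊕ FLM_L.Functions k))
    · let F : Set (Sy L) := {R | (⟨R.1, Sum.inl R.2⟩ : Sy (L.sum FLM_L)) ∈ F'}
      have hinj : Function.Injective
          (fun R : Sy L => (⟨R.1, Sum.inl R.2⟩ : Sy (L.sum FLM_L))) := by
        rintro ⟨k, r⟩ ⟨l, s⟩ h
        obtain ⟨h1, h2⟩ := Sigma.mk.inj_iff.1 h
        dsimp only at h1
        subst h1
        have h3 := Sum.inl_injective (eq_of_heq h2)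
        dsimp only at h3
        rw [h3]
      have hF : F.Finite := hF'.preimage hinj.injOn
      obtain ⟨p, hp⟩ := hS.2 F hF q
      refine ⟨p, ?_⟩
      have e : (adj F' : M → M → Prop) = (adj F : M → M → Prop) := by
        funext x y
        apply propext
        constructor
        · rintro ⟨hxy, ⟨k, R⟩, hR, t, ht, hx, hy⟩
          rcases R with r | r
          · exact ⟨hxy, ⟨k, r⟩, hR, t, ht, hx, hy⟩
          · exfalso
            have hk : k = 1 := r.2
            subst hk
            obtain ⟨i, rfl⟩ := hx
            obtain ⟨l, rfl⟩ := hy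
            exact hxy (congrArg t (Subsingleton.elim _ _))
        · rintro ⟨hxy, ⟨k, R⟩, hR, t, ht, hx, hy⟩
          exact ⟨hxy, ⟨k, Sum.inl R⟩, hR, t, ht, hx, hy⟩
      rw [e]
      exact hp
  have hst := hFLS (L.sum FLM_L) (FLM_countable L hc) M hS'
  let pr : (L.sum FLM_L).Relations 1 := Sum.inr (⟨(), rfl⟩ : {_u : Unit // 1 = 1})
  let ψ0 : (L.sum FLM_L).Formula ((Fin m ⊕ Fin n) ⊕ Unit) :=
    (pr.formula fun _ => Term.var (Sum.inr ())) ⊓ (LHom.sumInl.onFormula φ)
  refine hst m n (ψ0.iExs Unit) a b fun i k => ?_
  rw [Formula.realize_iExs, ← hab i k]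
  constructor
  · rintro ⟨z, hz⟩
    rw [Formula.realize_inf, Formula.realize_rel, LHom.realize_onFormula] at hz
    obtain ⟨⟨_, h1⟩, h2⟩ := hz
    refine ⟨z (), h1, ?_⟩
    exact h2
  · rintro ⟨z, hz, h⟩
    refine ⟨fun _ => z, ?_⟩
    rw [Formula.realize_inf, Formula.realize_rel, LHom.realize_onFormula]
    exact ⟨⟨0, hz⟩, h⟩

end Pool.Agent.MST
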