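import Pool.Agent.MST.StF

/-!
MST [FLS]: superflat structures are stable (helper40).
-/

set_option autoImplicit false

namespace Pool.Agent.MST

open FirstOrder.Language Set
open scoped FirstOrder

section

variable {L : FirstOrder.Language.{0, 0}}

private theorem FLS_symm {V : Type} [L.Structure V] {S : Set V} {α : Type} {x y : α → V}
    (h : TyE L S x y) : TyE L S y x := fun n φ s hs => (h n φ s hs).symm

private theorem FLS_comp {V : Type} [L.Structure V] {S : Set V} {α β : Type} {x y : α → V}
    (g : β → α) (h : TyE L S x y) : TyE L S (x ∘ g) (y ∘ g) := by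
  intro n φ s hs
  have h1 := h n (φ.relabel (Sum.map g id)) s hs
  rw [Formula.realize_relabel, Formula.realize_relabel] at h1
  have e : ∀ z : α → V, Sum.elim z s ∘ Sum.map g id = Sum.elim (z ∘ g) s := fun z => by
    funext i
    rcases i with i | i <;> rfl
  rw [e, e] at h1
  exact h1

private theorem FLS_par {V : Type} [L.Structure V] {S : Set V} {α : Type} {x y : α → V}
    (h : TyE L S x y) (a : α) (ha : x a ∈ S ∨ y a ∈ S) : x a = y a := by
  have key : ∀ u v : α → V, TyE L S u v → u a ∈ S → u a = v a := by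
    intro u v huv hu
    have h1 := huv 1 ((Term.var (Sum.inl a)).equal (Term.var (Sum.inr 0))) (fun _ => u a)
      (fun _ => hu)
    rw [Formula.realize_equal, Formula.realize_equal] at h1
    have h2 : v a = u a := h1.1 rfl
    exact h2.symm
  rcases ha with ha | ha
  · exact key x y h ha
  · exact (key y x (FLS_symm h) ha).symm

/-- connected elements of the first tuple -/
private theorem FLS_cls (hW : St_WKF) {F : ℕ → Set (Sy L)} (hF : ∀ m, (F m).Finite) {V : Type}
    [L.Structure V] (hV : SatW L V) {S : Set V} (hS : S.Countable) {κ : Type} {c c' : κ → V}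
    (h : TyE L S c c') (a b : κ) (hab : Cn F S (c a) (c b)) : Cn F S (c' a) (c' b) := by
  classical
  obtain ⟨m, r, w, hw0, hwr, hw1, hw2⟩ := hab
  have hSc : Countable S := hS.to_subtype
  -- one step
  obtain ⟨σ, hσ⟩ := hW L (F m) (hF m) 1 0
  have hσ1 : ∀ x y : V, (x = y ∨ adj (F m) x y) →
      σ.Realize (Sum.elim (Sum.elim (fun _ => x) (fun _ => y)) Fin.elim0) := by
    intro x y hxy
    rw [hσ V x y Fin.elim0]
    refine ⟨fun i => if i = 0 then x else y, by simp, by simp, ?_, ?_⟩
    · intro i hi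
      have : i = 0 := by omega
      subst this
      simpa using hxy
    · rintro i - ⟨k, -⟩
      exact k.elim0
  have hσ2 : ∀ x y : V, σ.Realize (Sum.elim (Sum.elim (fun _ => x) (fun _ => y)) Fin.elim0) →
      (x = y ∨ adj (F m) x y) := by
    intro x y hxy
    rw [hσ V x y Fin.elim0] at hxy
    obtain ⟨u, hu0, hu1, hu2, -⟩ := hxy
    have := hu2 0 (by norm_num)
    rwa [hu0, hu1] at this
  -- the formulas
  let d : (Unit ⊕ Unit) ⊕ S → V :=
    Sum.elim (Sum.elim (fun _ => c' a) (fun _ => c' b)) (fun s => (s : V))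
  let g : (Bool ⊕ Fin r) ⊕ (Fin (r + 1) × S) → L.Formula (Fin (r + 1) ⊕ ((Unit ⊕ Unit) ⊕ S)) :=
    fun j => match j with
    | Sum.inl (Sum.inl true) => (Term.var (Sum.inl 0)).equal (Term.var (Sum.inr (Sum.inl (Sum.inl ()))))
    | Sum.inl (Sum.inl false) =>
        (Term.var (Sum.inl (Fin.last r))).equal (Term.var (Sum.inr (Sum.inl (Sum.inr ()))))
    | Sum.inl (Sum.inr i) => σ.relabel
        (Sum.elim (Sum.elim (fun _ => Sum.inl i.castSucc) (fun _ => Sum.inl i.succ)) Fin.elim0)
    | Sum.inr p => ((Term.var (Sum.inl p.1)).equal (Term.var (Sum.inr (Sum.inr p.2)))).not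
  have hg : ∀ x : Fin (r + 1) → V,
      (∀ j, (g j).Realize (Sum.elim x d) ↔ match j with
        | Sum.inl (Sum.inl true) => x 0 = c' a
        | Sum.inl (Sum.inl false) => x (Fin.last r) = c' b
        | Sum.inl (Sum.inr i) => x i.castSucc = x i.succ ∨ adj (F m) (x i.castSucc) (x i.succ)
        | Sum.inr p => x p.1 ≠ p.2) := by
    intro x j
    rcases j with (b | i) | p
    · rcases b with _ | _
      · show Formula.Realize (Term.equal _ _) _ ↔ _
        rw [Formula.realize_equal]
        rfl
      · show Formula.Realize (Term.equal _ _) _ ↔ _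
        rw [Formula.realize_equal]
        rfl
    · show Formula.Realize (Formula.relabel _ _) _ ↔ _
      rw [Formula.realize_relabel]
      have e : (Sum.elim x d) ∘ (Sum.elim (Sum.elim (fun _ : Unit => Sum.inl i.castSucc)
          (fun _ : Unit => Sum.inl i.succ)) Fin.elim0) =
          Sum.elim (Sum.elim (fun _ => x i.castSucc) (fun _ => x i.succ)) Fin.elim0 := by
        funext z
        rcases z with (z | z) | z
        · rfl
        · rfl
        · exact z.elim0
      rw [e]
      exact ⟨hσ2 _ _, hσ1 _ _⟩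
    · show Formula.Realize (Formula.not _) _ ↔ _
      rw [Formula.realize_not, Formula.realize_equal]
      rfl
  obtain ⟨x, hx⟩ := hV (Fin (r + 1)) ((Unit ⊕ Unit) ⊕ S) d (range g) (by
    intro G hG hGf
    obtain ⟨t, -, ht, htG⟩ := Set.exists_subset_image_finite_and.1
      (⟨G, by rwa [image_univ], hGf, rfl⟩ : ∃ t ⊆ g '' univ, t.Finite ∧ t = G)
    -- the parameters in `G`
    have ht' : {p : Fin (r + 1) × S | (Sum.inr p : (Bool ⊕ Fin r) ⊕ (Fin (r + 1) × S)) ∈ t}.Finite :=
      ht.preimage Sum.inr_injective.injOn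
    have : Finite {p : Fin (r + 1) × S | (Sum.inr p : (Bool ⊕ Fin r) ⊕ (Fin (r + 1) × S)) ∈ t} :=
      ht'.to_subtype
    obtain ⟨n, ⟨e⟩⟩ := Finite.exists_equiv_fin
      {p : Fin (r + 1) × S | (Sum.inr p : (Bool ⊕ Fin r) ⊕ (Fin (r + 1) × S)) ∈ t}
    let s : Fin n → V := fun k => ((e.symm k).1.2 : V)
    have hs : ∀ k, s k ∈ S := fun k => (e.symm k).1.2.2
    obtain ⟨ψ, hψ⟩ := hW L (F m) (hF m) r n
    have e1 : ∀ z : κ → V, Sum.elim z s ∘ Sum.map (Sum.elim (fun _ : Unit => a)
        (fun _ : Unit => b)) id = Sum.elim (Sum.elim (fun _ => z a) (fun _ => z b)) s := by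
      intro z
      funext i
      rcases i with (i | i) | i <;> rfl
    have h1 := h n (ψ.relabel (Sum.map (Sum.elim (fun _ => a) (fun _ => b)) id)) s hs
    rw [Formula.realize_relabel, Formula.realize_relabel, e1, e1, hψ V, hψ V] at h1
    obtain ⟨u, hu0, hur, hu1, hu2⟩ := h1.1 ⟨w, hw0, hwr, hw1, fun i hi => fun hh => by
      obtain ⟨k, hk⟩ := hh
      exact hw2 i hi (hk ▸ hs k)⟩
    refine ⟨fun i => u i, ?_⟩
    rintro θ hθ
    rw [← htG] at hθ
    obtain ⟨j, hj, rfl⟩ := hθ
    rw [hg]
    rcases j with (b' | i) | p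
    · rcases b' with _ | _
      · exact hur
      · exact hu0
    · exact hu1 i i.2
    · show u p.1 ≠ p.2
      intro hh
      have hk : s (e ⟨p, hj⟩) = p.2 := by
        show ((e.symm (e ⟨p, hj⟩)).1.2 : V) = p.2
        rw [e.symm_apply_apply]
      exact hu2 p.1 (Nat.lt_succ_iff.1 p.1.2) ⟨e ⟨p, hj⟩, by rw [hk, hh]⟩)
  have hx' := fun j => (hg x j).1 (hx (g j) ⟨j, rfl⟩)
  have x1 : x 0 = c' a := hx' (Sum.inl (Sum.inl true))
  have x2 : x (Fin.last r) = c' b := hx' (Sum.inl (Sum.inl false))
  have x3 : ∀ i : Fin r, x i.castSucc = x i.succ ∨ adj (F m) (x i.castSucc) (x i.succ) :=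
    fun i => hx' (Sum.inl (Sum.inr i))
  have x4 : ∀ (i : Fin (r + 1)) (z : S), x i ≠ z := fun i z => hx' (Sum.inr (i, z))
  refine ⟨m, r, fun i => x ⟨min i r, by omega⟩, ?_, ?_, ?_, ?_⟩
  · rw [← x1]
    show x ⟨min 0 r, _⟩ = x 0
    exact congrArg x (Fin.ext (Nat.zero_min r))
  · rw [← x2]
    show x ⟨min r r, _⟩ = x (Fin.last r)
    exact congrArg x (Fin.ext (Nat.min_self r))
  · intro i hi
    have h3 := x3 ⟨i, hi⟩
    have e1 : (⟨min i r, by omega⟩ : Fin (r + 1)) = (⟨i, hi⟩ : Fin r).castSucc := by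
      ext
      simp
      omega
    have e2 : (⟨min (i + 1) r, by omega⟩ : Fin (r + 1)) = (⟨i, hi⟩ : Fin r).succ := by
      ext
      simp
      omega
    show x ⟨min i r, _⟩ = x ⟨min (i + 1) r, _⟩ ∨
      adj (F m) (x ⟨min i r, _⟩) (x ⟨min (i + 1) r, _⟩)
    rw [e1, e2]
    exact h3
  · intro i hi hh
    exact x4 _ ⟨_, hh⟩ rfl

end

theorem thm_FLS (h1 : St_TWO) (h2 : St_WKF) (h3 : St_CNE) (h4 : St_BNF) : St_FLS := by
  intro L hL M _ hM m n φ a b hab
  obtain ⟨V, _, F, S, c, c', hV, hFm, hFu, hFf, hSf, hSm, hφ1, hφ2, hsep, hty⟩ :=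
    h1 L hL M hM m n φ a b hab
  have hTc : (⋃ m, S m).Countable := countable_iUnion fun m => (hSf m).countable
  obtain ⟨-, hsym, -, -⟩ := h3 L F hFm hFu V (⋃ m, S m)
  -- the two tuples are not connected
  have hne : ∀ i k, ¬ Cn F (⋃ m, S m) (c i) (c' k) := by
    rintro i k ⟨m', r, w, hw0, hwr, hw1, hw2⟩
    refine hsep (max m' r) i k ⟨fun l => w (min l r), ?_, ?_, ?_, ?_⟩
    · simpa using hw0
    · have : min (max m' r) r = r := by omega
      show w (min (max m' r) r) = _
      rw [this]
      exact hwr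
    · intro l _
      show w (min l r) = w (min (l + 1) r) ∨ _
      by_cases hl : l < r
      · have e1 : min l r = l := by omega
        have e2 : min (l + 1) r = l + 1 := by omega
        show w (min l r) = w (min (l + 1) r) ∨ adj (F (max m' r)) (w (min l r)) (w (min (l + 1) r))
        rw [e1, e2]
        rcases hw1 l hl with h | ⟨h, R, hR, t, ht⟩
        · exact Or.inl h
        · exact Or.inr ⟨h, R, hFm (le_max_left m' r) hR, t, ht⟩
      · have e1 : min l r = r := by omega
        have e2 : min (l + 1) r = r := by omega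
        rw [e1, e2]
        exact Or.inl rfl
    · intro l _ hh
      exact hw2 (min l r) (min_le_right _ _) (mem_iUnion.2 ⟨_, hh⟩)
  have hne' : ∀ i k, ¬ Cn F (⋃ m, S m) (c' k) (c i) := fun i k h => hne i k (hsym _ _ h)
  have hcl : ∀ i k, Cn F (⋃ m, S m) (c i) (c k) ↔ Cn F (⋃ m, S m) (c' i) (c' k) := fun i k =>
    ⟨FLS_cls h2 hFf hV hTc hty i k, FLS_cls h2 hFf hV hTc (FLS_symm hty) i k⟩
  have hBI : BI F (⋃ m, S m) (Sum.elim c c') (Sum.elim c' c) := by
    refine ⟨?_, ?_, ?_⟩
    · rintro (i | i) hi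
      · exact FLS_par hty i hi
      · exact FLS_par (FLS_symm hty) i hi
    · rintro (i | i) (k | k)
      · exact hcl i k
      · exact ⟨fun h => absurd h (hne i k), fun h => absurd h (hne' k i)⟩
      · exact ⟨fun h => absurd h (hne' k i), fun h => absurd h (hne i k)⟩
      · exact (hcl i k).symm
    · rintro (i | i) α _ f hf
      · have hg : ∀ a, ∃ k, f a = Sum.inl k := by
          intro a
          rcases hk : f a with k | k
          · exact ⟨k, rfl⟩
          · have := hf a
            rw [hk] at this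
            exact absurd this (hne i k)
        choose g hg using hg
        have e1 : Sum.elim c c' ∘ f = c ∘ g := by
          funext a
          show Sum.elim c c' (f a) = _
          rw [hg]
          rfl
        have e2 : Sum.elim c' c ∘ f = c' ∘ g := by
          funext a
          show Sum.elim c' c (f a) = _
          rw [hg]
          rfl
        rw [e1, e2]
        exact FLS_comp g hty
      · have hg : ∀ a, ∃ k, f a = Sum.inr k := by
          intro a
          rcases hk : f a with k | k
          · have := hf a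
            rw [hk] at this
            exact absurd this (hne' k i)
          · exact ⟨k, rfl⟩
        choose g hg using hg
        have e1 : Sum.elim c c' ∘ f = c' ∘ g := by
          funext a
          show Sum.elim c c' (f a) = _
          rw [hg]
          rfl
        have e2 : Sum.elim c' c ∘ f = c ∘ g := by
          funext a
          show Sum.elim c' c (f a) = _
          rw [hg]
          rfl
        rw [e1, e2]
        exact FLS_comp g (FLS_symm hty)
  have h5 := h4 L hM.1 F hFm hFu hFf V hV (⋃ m, S m) hTc _ _ _ hBI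
    (φ.relabel (Sum.elim (fun i => Sum.inl (Sum.inl i)) (fun k => Sum.inr (Sum.inr k))))
  rw [Formula.realize_relabel, Formula.realize_relabel] at h5
  have e1 : Sum.elim c c' ∘ (Sum.elim (fun i => Sum.inl (Sum.inl i))
      (fun k => Sum.inr (Sum.inr k))) = Sum.elim (c ∘ Sum.inl) (c' ∘ Sum.inr) := by
    funext z
    rcases z with z | z <;> rfl
  have e2 : Sum.elim c' c ∘ (Sum.elim (fun i => Sum.inl (Sum.inl i))
      (fun k => Sum.inr (Sum.inr k))) = Sum.elim (c' ∘ Sum.inl) (c ∘ Sum.inr) := by
    funext z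
    rcases z with z | z <;> rfl
  rw [e1, e2] at h5
  exact hφ2 (h5.1 hφ1)

end Pool.Agent.MST
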