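import Pool.Agent.MST.StF

/-!
MST [HBA]: many hubs give a subdivided complete graph (helper1).
-/

set_option autoImplicit false

namespace Pool.Agent.MST

open Set

/-- [HBA], see `St_HBA`. -/
theorem thm_HBA (hWPL : St_WPL) : St_HBA := by
  classical
  intro M A hA r n z c W hz hW hfan
  -- vertices of a walk
  set Vis : Fin n → ℕ → Set M := fun l k => {x | ∃ s ≤ r, x = W l k s} with hVis
  have hfin : ∀ l k, (Vis l k).Finite := by
    intro l k
    refine ((Set.finite_Iic r).image (W l k)).subset ?_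
    rintro x ⟨s, hs, rfl⟩
    exact ⟨s, hs, rfl⟩
  have hfan' : ∀ l k k' x, k ≠ k' → x ∈ Vis l k → x ∈ Vis l k' → x = z l := by
    rintro l k k' x hk ⟨s, hs, rfl⟩ ⟨t, ht, h⟩
    exact hfan l k k' hk s hs t ht h
  -- bad indices
  have hbad : ∀ X : Set M, X.Finite →
      {k : ℕ | ∃ l, ∃ x ∈ X, x ∈ Vis l k ∧ x ≠ z l}.Finite := by
    intro X hX
    have h1 : {k : ℕ | ∃ l, ∃ x ∈ X, x ∈ Vis l k ∧ x ≠ z l} =
        ⋃ l : Fin n, ⋃ x ∈ X, {k : ℕ | x ∈ Vis l k ∧ x ≠ z l} := by
      ext k
      simp only [mem_iUnion, mem_ofPred_eq, exists_prop]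
    rw [h1]
    refine Set.finite_iUnion fun l => hX.biUnion fun x _ => ?_
    refine Set.Subsingleton.finite ?_
    rintro k ⟨hk, hx⟩ k' ⟨hk', -⟩
    by_contra hne
    exact hx (hfan' l k k' x hne hk hk')
  -- the sequence of indices
  obtain ⟨κ, hκ1, hκ2⟩ := exists_seq_of_forall_finset_exists
    (fun k : ℕ => ∀ l, ∀ x ∈ Vis l k, x ∈ range z → x = z l)
    (fun k k' : ℕ => ∀ l l', ∀ x, x ∈ Vis l k → x ∈ Vis l' k' → x = z l')
    (by
      intro s _
      set X : Set M := range z ∪ ⋃ k ∈ s, ⋃ l : Fin n, Vis l k with hX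
      have hXf : X.Finite := by
        refine (Set.finite_range z).union ?_
        exact s.finite_toSet.biUnion fun k _ => Set.finite_iUnion fun l => hfin l k
      obtain ⟨k, hk⟩ := (hbad X hXf).exists_notMem
      refine ⟨k, fun l x hx hxz => ?_, fun k' hk' l l' x hx hx' => ?_⟩
      · by_contra hne
        exact hk ⟨l, x, Or.inl hxz, hx, hne⟩
      · by_contra hne
        exact hk ⟨l', x, Or.inr (mem_biUnion hk' (mem_iUnion.2 ⟨l, hx⟩)), hx', hne⟩)
  -- an enumeration of the pairs
  obtain ⟨e, he⟩ : ∃ e : Fin n × Fin n → ℕ, Function.Injective e :=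
    ⟨_, (Encodable.encode_injective (α := Fin n × Fin n))⟩
  have hex : ∀ i k : Fin n, ∃ p : List M, i < k →
      (p.length ≤ 2 * r ∧ List.IsChain A (z i :: (p ++ [z k])) ∧ (∀ l, z l ∉ p)) ∧
      ∀ x ∈ p, ∃ l, x ∈ Vis l (κ (e (i, k))) := by
    intro i k
    by_cases hik : i < k
    swap
    · exact ⟨[], fun h => absurd h hik⟩
    set K := κ (e (i, k)) with hK
    have hne : z i ≠ z k := fun h => hik.ne (hz h)
    have hr : r ≠ 0 := by
      rintro rfl
      apply hne
      rw [← (hW i K).1, (hW i K).2.1, ← (hW k K).2.1, (hW k K).1]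
    set w : ℕ → M := fun t => if t ≤ r then W i K t else W k K (2 * r - t) with hw
    have hw0 : w 0 = z i := by
      simp only [hw, Nat.zero_le, if_true]
      exact (hW i K).1
    have hw2 : w (2 * r) = z k := by
      have h1 : ¬ 2 * r ≤ r := by omega
      simp only [hw, if_neg h1, Nat.sub_self]
      exact (hW k K).1
    have hstep : ∀ t < 2 * r, w t = w (t + 1) ∨ A (w t) (w (t + 1)) := by
      intro t ht
      rcases lt_trichotomy t r with h | h | h
      · have h1 : t ≤ r := h.le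
        have h2 : t + 1 ≤ r := h
        simp only [hw, if_pos h1, if_pos h2]
        exact (hW i K).2.2 t h
      · subst h
        have h2 : ¬ t + 1 ≤ t := by omega
        simp only [hw, le_refl, if_true, if_neg h2]
        rw [(hW i K).2.1, ← (hW k K).2.1]
        have h3 := (hW k K).2.2 (t - 1) (by omega)
        have h4 : t - 1 + 1 = t := by omega
        have h5 : 2 * t - (t + 1) = t - 1 := by omega
        rw [h4] at h3
        rw [h5]
        rcases h3 with h3 | h3
        · exact Or.inl h3.symm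
        · exact Or.inr (hA _ _ h3)
      · have h1 : ¬ t ≤ r := by omega
        have h2 : ¬ t + 1 ≤ r := by omega
        simp only [hw, if_neg h1, if_neg h2]
        have h3 := (hW k K).2.2 (2 * r - (t + 1)) (by omega)
        have h4 : 2 * r - (t + 1) + 1 = 2 * r - t := by omega
        rw [h4] at h3
        rcases h3 with h3 | h3
        · exact Or.inl h3.symm
        · exact Or.inr (hA _ _ h3)
    obtain ⟨p, hp1, hp2, hp3, hp4, hp5⟩ := hWPL M A (2 * r) w hstep (by rw [hw0, hw2]; exact hne)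
    rw [hw0] at hp2 hp4
    rw [hw2] at hp2 hp5
    have hVp : ∀ x ∈ p, x ∈ Vis i K ∨ x ∈ Vis k K := by
      intro x hx
      obtain ⟨t, ht, rfl⟩ := hp3 x hx
      by_cases h1 : t ≤ r
      · refine Or.inl ⟨t, h1, ?_⟩
        simp only [hw, if_pos h1]
      · refine Or.inr ⟨2 * r - t, by omega, ?_⟩
        simp only [hw, if_neg h1]
    refine ⟨p, fun _ => ⟨⟨by omega, hp2, fun l hl => ?_⟩, fun x hx => ?_⟩⟩
    · rcases hVp _ hl with h1 | h1
      · have h2 := hκ1 (e (i, k)) i _ h1 ⟨l, rfl⟩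
        rw [h2] at hl
        exact hp4 hl
      · have h2 := hκ1 (e (i, k)) k _ h1 ⟨l, rfl⟩
        rw [h2] at hl
        exact hp5 hl
    · rcases hVp x hx with h1 | h1
      · exact ⟨i, h1⟩
      · exact ⟨k, h1⟩
  choose p hp using hex
  refine ⟨z, p, hz, fun i k hik => (hp i k hik).1, fun i k i' k' hik hik' hne => ?_⟩
  intro x hx hx'
  obtain ⟨a, ha⟩ := (hp i k hik).2 x hx
  obtain ⟨a', ha'⟩ := (hp i' k' hik').2 x hx'
  have hee : e (i, k) ≠ e (i', k') := fun h => hne (he h)
  rcases lt_or_gt_of_ne hee with h | h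
  · have h1 := hκ2 _ _ h a a' x ha ha'
    rw [h1] at hx'
    exact (hp i' k' hik').1.2.2 a' hx'
  · have h1 := hκ2 _ _ h a' a x ha' ha
    rw [h1] at hx
    exact (hp i k hik).1.2.2 a hx

end Pool.Agent.MST
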