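import Pool.Agent.MST.StF

/-!
MST [HBC]: existence of hubs.
-/

set_option autoImplicit false

namespace Pool.Agent.MST

private theorem HBC_sub {α : Type} [Finite α] (f : ℕ → α) :
    ∃ (a : α) (g : ℕ → ℕ), StrictMono g ∧ ∀ i, f (g i) = a := by
  classical
  obtain ⟨a, ha⟩ := Finite.exists_infinite_fiber f
  refine ⟨a, Nat.orderEmbeddingOfSet (f ⁻¹' {a}), (Nat.orderEmbeddingOfSet _).strictMono,
    fun i => ?_⟩
  have h : Nat.orderEmbeddingOfSet (f ⁻¹' {a}) i ∈ f ⁻¹' {a} := by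
    have h1 := Nat.orderEmbeddingOfSet_range (f ⁻¹' {a})
    exact h1.subset ⟨i, rfl⟩
  exact h

/-- HBC: existence of hubs. -/
theorem thm_HBC (hSUN : St_SUN) : St_HBC := by
  classical
  intro M A r d c S h
  have h1 : ∀ k : ℕ, ∃ (p : Fin d × Fin d) (w : ℕ → M), w 0 = c 0 p.1 ∧ w r = c (k + 1) p.2 ∧
      (∀ i < r, w i = w (i + 1) ∨ A (w i) (w (i + 1))) ∧ ∀ i ≤ r, w i ∉ S := by
    intro k
    obtain ⟨a, b, w, hw⟩ := h 0 (k + 1) (Nat.succ_pos k)
    exact ⟨(a, b), w, hw⟩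
  choose p w hw0 hwr hws hwS using h1
  obtain ⟨q, f, hf, hfq⟩ := HBC_sub p
  obtain ⟨J, hJ, hs⟩ := hSUN M r (fun k => w (f k))
  have hc0 : ∀ i k, w (f (J i)) 0 = w (f (J k)) 0 := fun i k => by
    rw [hw0, hw0, hfq, hfq]
  -- the last constant position
  obtain ⟨s0, hs0r, hs0, hmax⟩ : ∃ s0 ≤ r, (∀ i k, w (f (J i)) s0 = w (f (J k)) s0) ∧
      ∀ s ≤ r, (∀ i k, w (f (J i)) s = w (f (J k)) s) → s ≤ s0 := by
    have hne : ((Finset.range (r + 1)).filter fun s =>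
        ∀ i k, w (f (J i)) s = w (f (J k)) s).Nonempty :=
      ⟨0, Finset.mem_filter.2 ⟨Finset.mem_range.2 (Nat.succ_pos r), hc0⟩⟩
    have hm := Finset.max'_mem _ hne
    rw [Finset.mem_filter, Finset.mem_range] at hm
    refine ⟨_, Nat.lt_succ_iff.1 hm.1, hm.2, fun s hs hc => ?_⟩
    exact Finset.le_max' _ s (Finset.mem_filter.2 ⟨Finset.mem_range.2 (Nat.lt_succ_iff.2 hs), hc⟩)
  refine ⟨w (f (J 0)) s0, hwS _ s0 hs0r, q.2, fun k => f (J k) + 1,
    fun k t => w (f (J k)) (min (s0 + t) r), fun i k hik => Nat.succ_lt_succ (hf (hJ hik)),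
    fun k => ⟨?_, ?_, fun i hi => ?_⟩, fun k k' hk s hs' t ht he => ?_⟩
  · show w (f (J k)) (min (s0 + 0) r) = _
    rw [Nat.add_zero, Nat.min_eq_left hs0r]
    exact hs0 k 0
  · show w (f (J k)) (min (s0 + r) r) = c (f (J k) + 1) q.2
    rw [Nat.min_eq_right (Nat.le_add_left r s0), hwr, hfq]
  · show w (f (J k)) (min (s0 + i) r) = w (f (J k)) (min (s0 + (i + 1)) r) ∨
      A (w (f (J k)) (min (s0 + i) r)) (w (f (J k)) (min (s0 + (i + 1)) r))
    rcases Nat.lt_or_ge (s0 + i) r with h2 | h2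
    · rw [Nat.min_eq_left h2.le, Nat.min_eq_left (show s0 + (i + 1) ≤ r from h2)]
      exact hws _ _ h2
    · left
      rw [Nat.min_eq_right h2, Nat.min_eq_right (by omega)]
  · have hp : min (s0 + s) r ≤ r := Nat.min_le_right _ _
    have hq : min (s0 + t) r ≤ r := Nat.min_le_right _ _
    rcases hs (min (s0 + s) r) hp with h2 | h2
    · have h3 := hmax _ hp h2
      have h4 : min (s0 + s) r = s0 := by omega
      show w (f (J k)) (min (s0 + s) r) = w (f (J 0)) s0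
      rw [h4]
      exact hs0 k 0
    · exact absurd he (h2 k k' hk _ hq)

end Pool.Agent.MST
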