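import Pool.Agent.MST.Base
import Pool.Agent.Helper18.EH.Ramsey

/-!
MST: Ramsey's theorem for pairs (helper47).
-/

set_option autoImplicit false

namespace Pool.Agent.MST

/-- Ramsey's theorem for pairs, for sequences -/
theorem ram (c : ℕ → ℕ → Prop) : ∃ f : ℕ → ℕ, StrictMono f ∧
    ((∀ m n, m < n → c (f m) (f n)) ∨ (∀ m n, m < n → ¬ c (f m) (f n))) := by
  classical
  obtain ⟨B, -, hB, k, hk⟩ := Helper18.EH.ramsey 2
    (fun s : Finset ℕ => ∃ x y, s = {x, y} ∧ x < y ∧ c x y) Set.univ Set.infinite_univ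
  refine ⟨Nat.nth (· ∈ B), Nat.nth_strictMono hB, ?_⟩
  have h : ∀ m n, m < n → (c (Nat.nth (· ∈ B) m) (Nat.nth (· ∈ B) n) ↔ k) := by
    intro m n hmn
    have h1 : Nat.nth (· ∈ B) m < Nat.nth (· ∈ B) n := Nat.nth_strictMono hB hmn
    have h2 := hk {Nat.nth (· ∈ B) m, Nat.nth (· ∈ B) n} (by
      intro x hx
      simp only [Finset.coe_insert, Finset.coe_singleton, Set.mem_insert_iff,
        Set.mem_singleton_iff] at hx
      rcases hx with rfl | rfl
      · exact Nat.nth_mem_of_infinite hB m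
      · exact Nat.nth_mem_of_infinite hB n) (Finset.card_pair h1.ne)
    rw [← h2]
    constructor
    · intro h3
      exact ⟨_, _, rfl, h1, h3⟩
    · rintro ⟨x, y, h3, h4, h5⟩
      have hx : x ∈ ({Nat.nth (· ∈ B) m, Nat.nth (· ∈ B) n} : Finset ℕ) := by
        rw [h3]; exact Finset.mem_insert_self _ _
      have hy : y ∈ ({Nat.nth (· ∈ B) m, Nat.nth (· ∈ B) n} : Finset ℕ) := by
        rw [h3]; exact Finset.mem_insert_of_mem (Finset.mem_singleton_self _)
      rw [Finset.mem_insert, Finset.mem_singleton] at hx hy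
      rcases hx with rfl | rfl <;> rcases hy with rfl | rfl
      · exact absurd h4 (lt_irrefl _)
      · exact h5
      · exact absurd (h4.trans h1) (lt_irrefl _)
      · exact absurd h4 (lt_irrefl _)
  by_cases hk' : k
  · exact Or.inl fun m n hmn => (h m n hmn).2 hk'
  · exact Or.inr fun m n hmn h1 => hk' ((h m n hmn).1 h1)

end Pool.Agent.MST
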