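import Pool.Agent.MST.StF
import Pool.Agent.MST.Ram

/-!
MST: separation (module SEP).
-/

set_option autoImplicit false

namespace Pool.Agent.MST

open FirstOrder.Language Set
open scoped FirstOrder

/-- hubs for the sequence `c` -/
private def SEP_Hub {M : Type} (A : M → M → Prop) (r : ℕ) (c : ℕ → M) (z : M)
    (W : ℕ → ℕ → M) : Prop :=
  (∀ k, W k 0 = z ∧ W k r = c k ∧ ∀ i < r, W k i = W k (i + 1) ∨ A (W k i) (W k (i + 1))) ∧
    ∀ k k', k ≠ k' → ∀ s ≤ r, ∀ t ≤ r, W k s = W k' t → W k s = z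

private theorem SEP_one (hBC : St_HBC) {M : Type} (A : M → M → Prop) (r d : ℕ)
    (c : ℕ → Fin d → M)
    (hneg : ¬ ∃ (S : Set M) (J : ℕ → ℕ), S.Finite ∧ StrictMono J ∧
      ∀ i k, i < k → ∀ a b, ¬ Wk A S r (c (J i) a) (c (J k) b))
    (S : Set M) (hS : S.Finite) (J : ℕ → ℕ) (hJ : StrictMono J) :
    ∃ z : M, z ∉ S ∧ ∃ (b : Fin d) (J' : ℕ → ℕ) (W : ℕ → ℕ → M), StrictMono J' ∧
      SEP_Hub A r (fun k => c (J (J' k)) b) z W := by
  obtain ⟨f, hf, h | h⟩ := ram fun i k => ∃ a b, Wk A S r (c (J i) a) (c (J k) b)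
  · obtain ⟨z, hz, b, J', W, hJ', h1, h2⟩ := hBC M A r d (fun i => c (J (f i))) S h
    exact ⟨z, hz, b, fun k => f (J' k), W, hf.comp hJ', h1, h2⟩
  · exfalso
    apply hneg
    refine ⟨S, fun i => J (f i), hS, hJ.comp hf, fun i k hik a b hw => ?_⟩
    exact h i k hik ⟨a, b, hw⟩

private theorem SEP_many (hBC : St_HBC) {M : Type} (A : M → M → Prop) (r d : ℕ)
    (c : ℕ → Fin d → M)
    (hneg : ¬ ∃ (S : Set M) (J : ℕ → ℕ), S.Finite ∧ StrictMono J ∧
      ∀ i k, i < k → ∀ a b, ¬ Wk A S r (c (J i) a) (c (J k) b)) (N : ℕ) :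
    ∃ (z : Fin N → M) (b : Fin N → Fin d) (J : ℕ → ℕ) (W : Fin N → ℕ → ℕ → M),
      Function.Injective z ∧ StrictMono J ∧
      ∀ l, SEP_Hub A r (fun k => c (J k) (b l)) (z l) (W l) := by
  induction N with
  | zero =>
    exact ⟨Fin.elim0, Fin.elim0, id, Fin.elim0, fun x => x.elim0, strictMono_id,
      fun l => l.elim0⟩
  | succ N ih =>
    obtain ⟨z, b, J, W, hz, hJ, hW⟩ := ih
    obtain ⟨z', hz', b', J', W', hJ', hW'⟩ :=
      SEP_one hBC A r d c hneg (range z) (finite_range z) J hJ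
    refine ⟨Fin.cons z' z, Fin.cons b' b, fun k => J (J' k),
      Fin.cons W' (fun l k => W l (J' k)), Fin.cons_injective_iff.2 ⟨hz', hz⟩, hJ.comp hJ', ?_⟩
    intro l
    refine Fin.cases ?_ (fun l => ?_) l
    · exact hW'
    · simp only [Fin.cons_succ]
      refine ⟨fun k => (hW l).1 (J' k), fun k k' hk s hs t ht h => ?_⟩
      exact (hW l).2 (J' k) (J' k') (fun he => hk (hJ'.injective he)) s hs t ht h

theorem thm_SEP (hBA : St_HBA) (hBC : St_HBC) : St_SEP := by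
  intro M A hA hn r d c
  by_contra hneg
  obtain ⟨n, hn⟩ := hn (2 * r)
  obtain ⟨z, b, J, W, hz, hJ, hW⟩ := SEP_many hBC A r d c hneg (d * n + 1)
  obtain ⟨y, hy⟩ := Fintype.exists_lt_card_fiber_of_mul_lt_card (f := b) (n := n) (by
    rw [Fintype.card_fin, Fintype.card_fin]
    omega)
  let e := Finset.orderEmbOfCardLe (Finset.univ.filter fun l => b l = y) hy.le
  have he : ∀ i, b (e i) = y := fun i =>
    (Finset.mem_filter.1 (Finset.orderEmbOfCardLe_mem
      (Finset.univ.filter fun l => b l = y) hy.le i)).2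
  apply hn
  refine hBA M A hA r n (fun i => z (e i)) (fun k => c (J k) y) (fun i => W (e i))
    (hz.comp e.injective) ?_ ?_
  · intro l k
    have h1 := (hW (e l)).1 k
    rw [he l] at h1
    exact h1
  · intro l
    exact (hW (e l)).2

end Pool.Agent.MST
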