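import Pool.Agent.MST.StF

/-!
# MST [SPD]: separation for all radii at the same time
-/

set_option autoImplicit false

namespace Pool.Agent.MST

open Set

/-- walks which avoid a set avoid its subsets -/
private theorem SPD_mono {M : Type} (A : M → M → Prop) {S T : Set M} (hST : S ⊆ T) (r : ℕ)
    (x y : M) (h : Wk A T r x y) : Wk A S r x y := by
  obtain ⟨w, h0, h1, h2, h3⟩ := h
  exact ⟨w, h0, h1, h2, fun i hi hS => h3 i hi (hST hS)⟩

/-- [SPD], see `St_SPD`. -/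
theorem thm_SPD (h : St_SEP) : St_SPD := by
  intro M A hA hK d c
  have key : ∀ (m : ℕ) (J : {J : ℕ → ℕ // StrictMono J}),
      ∃ (S : Set M) (J' : {J : ℕ → ℕ // StrictMono J}), S.Finite ∧
        (∃ g : ℕ → ℕ, StrictMono g ∧ J'.1 = J.1 ∘ g) ∧
        ∀ i k, i < k → ∀ a b, ¬ Wk (A m) S m (c (J'.1 i) a) (c (J'.1 k) b) := by
    intro m J
    obtain ⟨S, J', hS, hJ', h1⟩ := h M (A m) (hA m) (hK m) m d (fun i => c (J.1 i))
    exact ⟨S, ⟨J.1 ∘ J', J.2.comp hJ'⟩, hS, ⟨J', hJ', rfl⟩, h1⟩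
  choose S' N hfin hsub hsep using key
  let Js : ℕ → {J : ℕ → ℕ // StrictMono J} :=
    fun m => Nat.rec ⟨id, strictMono_id⟩ (fun m J => N m J) m
  have hJs : ∀ m, Js (m + 1) = N m (Js m) := fun m => rfl
  have hnest : ∀ i k, i ≤ k → ∃ g : ℕ → ℕ, StrictMono g ∧ (Js k).1 = (Js i).1 ∘ g := by
    intro i k hik
    induction k, hik using Nat.le_induction with
    | base => exact ⟨id, strictMono_id, rfl⟩
    | succ k _ ih =>
      obtain ⟨g, hg, h1⟩ := ih
      obtain ⟨g', hg', h2⟩ := hsub k (Js k)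
      refine ⟨g ∘ g', hg.comp hg', ?_⟩
      rw [hJs k, h2, h1]
      rfl
  refine ⟨fun m => ⋃ l ∈ Iic m, S' l (Js l), fun i => (Js (i + 1)).1 i, ?_, ?_, ?_, ?_⟩
  · intro m
    exact (finite_Iic m).biUnion fun l _ => hfin l (Js l)
  · intro m m' hm
    exact biUnion_subset_biUnion_left (Iic_subset_Iic.2 hm)
  · refine strictMono_nat_of_lt_succ fun i => ?_
    obtain ⟨g, hg, h1⟩ := hnest (i + 1) (i + 1 + 1) (Nat.le_succ _)
    show (Js (i + 1)).1 i < (Js (i + 1 + 1)).1 (i + 1)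
    rw [h1]
    exact (Js (i + 1)).2 (lt_of_lt_of_le (Nat.lt_succ_self i) (hg.le_apply))
  · intro m i k hmi hik a b hW
    obtain ⟨g1, hg1, e1⟩ := hnest (m + 1) (i + 1) (Nat.succ_le_succ hmi)
    obtain ⟨g2, hg2, e2⟩ := hnest (i + 1) (k + 1) (Nat.succ_le_succ hik.le)
    have hlt : g1 i < g1 (g2 k) := hg1 (lt_of_lt_of_le hik hg2.le_apply)
    have h3 := hsep m (Js m) (g1 i) (g1 (g2 k)) hlt a b
    apply h3
    have h4 : (Js (i + 1)).1 i = (N m (Js m)).1 (g1 i) := by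
      rw [e1, hJs m]
      rfl
    have h5 : (Js (k + 1)).1 k = (N m (Js m)).1 (g1 (g2 k)) := by
      rw [e2, e1, hJs m]
      rfl
    rw [← h4, ← h5]
    refine SPD_mono (A m) ?_ m _ _ hW
    exact subset_biUnion_of_mem (u := fun l => S' l (Js l)) (mem_Iic.2 le_rfl)

end Pool.Agent.MST
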