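import Pool.Agent.MST.StF
import Pool.Agent.MST.RamF

/-!
MST: sunflowers of walks (SUN).
-/

set_option autoImplicit false

namespace Pool.Agent.MST

theorem thm_SUN : St_SUN := by
  classical
  intro M r w
  obtain ⟨f, hf, κ, hκ⟩ := ramF (κ := Fin (r + 1) × Fin (r + 1) → Bool)
    (fun i k q => decide (w i q.1 = w k q.2))
  have H : ∀ m n, m < n → ∀ (s t : ℕ) (hs : s ≤ r) (ht : t ≤ r),
      (w (f m) s = w (f n) t ↔
        κ (⟨s, Nat.lt_succ_of_le hs⟩, ⟨t, Nat.lt_succ_of_le ht⟩) = true) := by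
    intro m n hmn s t hs ht
    rw [← hκ m n hmn]
    simp
  refine ⟨fun i => f (i + 1), fun i k h => hf (Nat.succ_lt_succ h), fun s hs => ?_⟩
  by_cases h1 : ∃ (t : ℕ) (ht : t ≤ r),
      κ (⟨s, Nat.lt_succ_of_le hs⟩, ⟨t, Nat.lt_succ_of_le ht⟩) = true
  · obtain ⟨t, ht, h1⟩ := h1
    left
    have h2 : ∀ i, w (f (i + 1)) s = w (f 0) s := by
      intro i
      have h3 := (H (i + 1) (i + 2) (Nat.lt_succ_self _) s t hs ht).2 h1
      have h4 := (H 0 (i + 2) (Nat.succ_pos _) s t hs ht).2 h1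
      exact h3.trans h4.symm
    intro i k
    exact (h2 i).trans (h2 k).symm
  · by_cases h2 : ∃ (t : ℕ) (ht : t ≤ r),
        κ (⟨t, Nat.lt_succ_of_le ht⟩, ⟨s, Nat.lt_succ_of_le hs⟩) = true
    · obtain ⟨t, ht, h2⟩ := h2
      left
      have h3 : ∀ i, w (f 0) t = w (f (i + 1)) s := fun i =>
        (H 0 (i + 1) (Nat.succ_pos _) t s ht hs).2 h2
      intro i k
      exact (h3 i).symm.trans (h3 k)
    · right
      intro i k hik t ht h3
      rcases lt_or_gt_of_ne hik with h4 | h4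
      · exact h1 ⟨t, ht, (H (i + 1) (k + 1) (Nat.succ_lt_succ h4) s t hs ht).1 h3⟩
      · exact h2 ⟨t, ht, (H (k + 1) (i + 1) (Nat.succ_lt_succ h4) t s ht hs).1 h3.symm⟩

end Pool.Agent.MST
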