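import Pool.Agent.MST.StF

/-!
MST [TWO]: two separated tuples of the same type in a ladder.
-/

set_option autoImplicit false

namespace Pool.Agent.MST

open FirstOrder.Language Set
open scoped FirstOrder

private theorem TWO_real {L : FirstOrder.Language.{0, 0}} {V : Type} [L.Structure V]
    {α β : Type} (φ : L.Formula α) (ρ : α → β) (v : β → V) (w : α → V) (h : ∀ i, v (ρ i) = w i) :
    (φ.relabel ρ).Realize v ↔ φ.Realize w := by
  rw [FirstOrder.Language.Formula.realize_relabel]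
  have h1 : v ∘ ρ = w := funext h
  rw [h1]

private theorem TWO_F {L : FirstOrder.Language.{0, 0}} (hL : Countable L.Symbols) :
    ∃ F : ℕ → Set (Sy L), Monotone F ∧ (⋃ m, F m) = univ ∧ ∀ m, (F m).Finite := by
  have h1 : Countable (Sy L) := by
    have h2 : Function.Injective (fun R : Sy L => (Sum.inr R : L.Symbols)) := Sum.inr_injective
    exact h2.countable
  obtain ⟨f, hf⟩ := Countable.exists_injective_nat (Sy L)
  refine ⟨fun m => {R | f R ≤ m}, fun m m' hm R hR => ?_, ?_, fun m => ?_⟩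
  · exact le_trans (show f R ≤ m from hR) hm
  · ext R
    constructor
    · intro _
      exact mem_univ _
    · intro _
      exact mem_iUnion.2 ⟨f R, show f R ≤ f R from le_rfl⟩
  · exact Finite.preimage hf.injOn (finite_Iic m)

private theorem TWO_adj {L : FirstOrder.Language.{0, 0}} (F : Set (Sy L)) {M : Type}
    [L.Structure M] (x y : M) (h : adj F x y) : adj F y x := by
  obtain ⟨h1, R, hR, t, ht, hx, hy⟩ := h
  exact ⟨h1.symm, R, hR, t, ht, hy, hx⟩

theorem thm_TWO (hSAW : St_SAW) (hSPD : St_SPD) (hWKF : St_WKF) : St_TWO := by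
  intro L hL M _ hM m n φ a b hab
  -- `M` is nonempty
  have hne : Nonempty M := by
    by_contra h
    rw [not_nonempty_iff] at h
    have h1 : (Sum.elim (a 0) (b 1) : Fin m ⊕ Fin n → M) = Sum.elim (a 1) (b 0) :=
      funext fun x => isEmptyElim ((Sum.elim (a 0) (b 1) : Fin m ⊕ Fin n → M) x)
    have h2 := (hab 0 1).2 (by norm_num)
    rw [h1] at h2
    exact absurd ((hab 1 0).1 h2) (by norm_num)
  obtain ⟨F, hFm, hFu, hFf⟩ := TWO_F hL
  set e : Fin m ⊕ Fin n ≃ Fin (m + n) := finSumFinEquiv with he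
  set cc : ℕ → Fin m ⊕ Fin n → M := fun i => Sum.elim (a i) (b i) with hcc
  obtain ⟨S0, J, hSf, hSm, hJ, hW⟩ := hSPD M (fun m => adj (F m)) (fun m x y h => TWO_adj (F m) x y h)
    (fun l m' => hM.2 (F l) (hFf l) m') (m + n) (fun i => cc i ∘ e.symm)
  obtain ⟨V, _, hV, ⟨g⟩⟩ := hSAW L hL M hne
  set S : ℕ → Set V := fun k => g '' S0 k with hS
  have hSF : ∀ k, (S k).Finite := fun k => (hSf k).image g
  have hcount : Countable (⋃ k, S k : Set V) :=
    (countable_iUnion fun k => (hSF k).countable).to_subtype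
  set U : Ultrafilter ℕ := Filter.hyperfilter ℕ with hU
  have hbig : ∀ k : ℕ, ∀ᶠ i in (U : Filter ℕ), k ≤ i := by
    intro k
    have h1 : ∀ᶠ i in Filter.cofinite, k ≤ i := by
      rw [Nat.cofinite_eq_atTop]
      exact Filter.eventually_ge_atTop k
    exact h1.filter_mono Filter.hyperfilter_le_cofinite
  have hbig2 : ∀ k : ℕ, ∀ᶠ i in (U : Filter ℕ), k < i := fun k => hbig (k + 1)
  set E : ℕ → ℕ → ((Fin m ⊕ Fin n) ⊕ (Fin m ⊕ Fin n)) ⊕ (⋃ k, S k : Set V) → V :=
    fun i k => Sum.elim (Sum.elim (fun p => g (cc (J i) p)) (fun p => g (cc (J k) p)))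
      (fun s => (s : V)) with hE
  obtain ⟨x, hx⟩ := hV ((Fin m ⊕ Fin n) ⊕ (Fin m ⊕ Fin n)) (⋃ k, S k : Set V)
    (fun s => (s : V)) {ψ | ∀ᶠ i in (U : Filter ℕ), ∀ᶠ k in (U : Filter ℕ), ψ.Realize (E i k)} (by
      intro G hG hGf
      have h1 : ∀ᶠ i in (U : Filter ℕ), ∀ᶠ k in (U : Filter ℕ), ∀ ψ ∈ G, ψ.Realize (E i k) := by
        have h2 : ∀ᶠ i in (U : Filter ℕ), ∀ ψ ∈ G, ∀ᶠ k in (U : Filter ℕ), ψ.Realize (E i k) :=
          (Filter.eventually_all_finite hGf).2 fun ψ hψ => hG hψ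
        filter_upwards [h2] with i hi
        exact (Filter.eventually_all_finite hGf).2 hi
      obtain ⟨i, hi⟩ := h1.exists
      obtain ⟨k, hk⟩ := hi.exists
      exact ⟨_, hk⟩)
  refine ⟨V, inferInstance, F, S, x ∘ Sum.inl, x ∘ Sum.inr, hV, hFm, hFu, hFf, hSF,
    fun k k' hk => image_mono (hSm hk), ?_, ?_, ?_, ?_⟩
  · -- the first instance of `φ`
    set ρ : Fin m ⊕ Fin n → ((Fin m ⊕ Fin n) ⊕ (Fin m ⊕ Fin n)) ⊕ (⋃ k, S k : Set V) :=
      Sum.elim (fun l => Sum.inl (Sum.inl (Sum.inl l))) (fun r => Sum.inl (Sum.inr (Sum.inr r)))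
      with hρ
    have h1 := hx (φ.relabel ρ) (by
      show ∀ᶠ i in (U : Filter ℕ), ∀ᶠ k in (U : Filter ℕ), (φ.relabel ρ).Realize (E i k)
      refine Filter.Eventually.of_forall fun i => ?_
      filter_upwards [hbig2 i] with k hk
      rw [TWO_real φ ρ (E i k) (g ∘ Sum.elim (a (J i)) (b (J k))) (by rintro (l | r) <;> rfl),
        emb_real]
      exact (hab _ _).2 (hJ hk))
    exact (TWO_real φ ρ _ _ (by rintro (l | r) <;> rfl)).1 h1
  · -- the second instance of `φ`
    set ρ : Fin m ⊕ Fin n → ((Fin m ⊕ Fin n) ⊕ (Fin m ⊕ Fin n)) ⊕ (⋃ k, S k : Set V) :=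
      Sum.elim (fun l => Sum.inl (Sum.inr (Sum.inl l))) (fun r => Sum.inl (Sum.inl (Sum.inr r)))
      with hρ
    have h1 := hx (φ.relabel ρ).not (by
      show ∀ᶠ i in (U : Filter ℕ), ∀ᶠ k in (U : Filter ℕ), (φ.relabel ρ).not.Realize (E i k)
      refine Filter.Eventually.of_forall fun i => ?_
      filter_upwards [hbig2 i] with k hk
      rw [FirstOrder.Language.Formula.realize_not,
        TWO_real φ ρ (E i k) (g ∘ Sum.elim (a (J k)) (b (J i))) (by rintro (l | r) <;> rfl),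
        emb_real]
      intro h2
      exact absurd ((hab _ _).1 h2) (not_lt.2 (hJ hk).le))
    rw [FirstOrder.Language.Formula.realize_not] at h1
    exact fun h2 => h1 ((TWO_real φ ρ _ _ (by rintro (l | r) <;> rfl)).2 h2)
  · -- no walks
    intro q p p' hwk
    have hfin : Finite (S0 q) := (hSf q).to_subtype
    obtain ⟨N, ⟨f⟩⟩ := Finite.exists_equiv_fin (S0 q)
    set s0 : Fin N → M := fun i => ((f.symm i : S0 q) : M) with hs0
    have hr0 : range s0 = S0 q := by
      ext z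
      constructor
      · rintro ⟨i, rfl⟩
        exact (f.symm i).2
      · intro hz
        exact ⟨f ⟨z, hz⟩, by simp [hs0]⟩
    have hr1 : range (g ∘ s0) = S q := by
      rw [range_comp, hr0]
    obtain ⟨W, hWr⟩ := hWKF L (F q) (hFf q) q N
    set ρ : (Unit ⊕ Unit) ⊕ Fin N →
        ((Fin m ⊕ Fin n) ⊕ (Fin m ⊕ Fin n)) ⊕ (⋃ k, S k : Set V) :=
      Sum.elim (Sum.elim (fun _ => Sum.inl (Sum.inl p)) (fun _ => Sum.inl (Sum.inr p')))
        (fun i => Sum.inr ⟨g (s0 i), mem_iUnion.2 ⟨q, mem_image_of_mem g (f.symm i).2⟩⟩) with hρ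
    have h1 := hx (W.relabel ρ).not (by
      show ∀ᶠ i in (U : Filter ℕ), ∀ᶠ k in (U : Filter ℕ), (W.relabel ρ).not.Realize (E i k)
      filter_upwards [hbig q] with i hi
      filter_upwards [hbig2 i] with k hk
      rw [FirstOrder.Language.Formula.realize_not,
        TWO_real W ρ (E i k) (g ∘ Sum.elim (Sum.elim (fun _ => cc (J i) p)
          (fun _ => cc (J k) p')) s0) (by rintro ((l | l) | r) <;> rfl), emb_real, hWr, hr0]
      have h2 := hW q i k hi hk (e p) (e p')
      simpa using h2)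
    rw [FirstOrder.Language.Formula.realize_not] at h1
    apply h1
    rw [TWO_real W ρ _ (Sum.elim (Sum.elim (fun _ => (x ∘ Sum.inl) p)
      (fun _ => (x ∘ Sum.inr) p')) (g ∘ s0)) (by rintro ((l | l) | r) <;> rfl), hWr, hr1]
    exact hwk
  · -- the same type
    intro N θ s hs
    set ρ : (Fin m ⊕ Fin n) ⊕ Fin N →
        ((Fin m ⊕ Fin n) ⊕ (Fin m ⊕ Fin n)) ⊕ (⋃ k, S k : Set V) :=
      Sum.elim (fun p => Sum.inl (Sum.inl p)) (fun i => Sum.inr ⟨s i, hs i⟩) with hρ
    set ρ' : (Fin m ⊕ Fin n) ⊕ Fin N →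
        ((Fin m ⊕ Fin n) ⊕ (Fin m ⊕ Fin n)) ⊕ (⋃ k, S k : Set V) :=
      Sum.elim (fun p => Sum.inl (Sum.inr p)) (fun i => Sum.inr ⟨s i, hs i⟩) with hρ'
    have h1 := hx ((θ.relabel ρ).iff (θ.relabel ρ')) (by
      show ∀ᶠ i in (U : Filter ℕ), ∀ᶠ k in (U : Filter ℕ),
        ((θ.relabel ρ).iff (θ.relabel ρ')).Realize (E i k)
      have h2 : ∀ i k, ((θ.relabel ρ).iff (θ.relabel ρ')).Realize (E i k) ↔
          (θ.Realize (Sum.elim (fun p => g (cc (J i) p)) s) ↔
            θ.Realize (Sum.elim (fun p => g (cc (J k) p)) s)) := by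
        intro i k
        rw [FirstOrder.Language.Formula.realize_iff,
          TWO_real θ ρ (E i k) (Sum.elim (fun p => g (cc (J i) p)) s)
            (by rintro (l | r) <;> rfl),
          TWO_real θ ρ' (E i k) (Sum.elim (fun p => g (cc (J k) p)) s)
            (by rintro (l | r) <;> rfl)]
      simp only [h2]
      by_cases h3 : ∀ᶠ i in (U : Filter ℕ), θ.Realize (Sum.elim (fun p => g (cc (J i) p)) s)
      · filter_upwards [h3] with i hi
        filter_upwards [h3] with k hk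
        exact ⟨fun _ => hk, fun _ => hi⟩
      · rw [← Ultrafilter.eventually_not] at h3
        filter_upwards [h3] with i hi
        filter_upwards [h3] with k hk
        exact ⟨fun h => absurd h hi, fun h => absurd h hk⟩)
    rw [FirstOrder.Language.Formula.realize_iff,
      TWO_real θ ρ _ (Sum.elim (x ∘ Sum.inl) s) (by rintro (l | r) <;> rfl),
      TWO_real θ ρ' _ (Sum.elim (x ∘ Sum.inr) s) (by rintro (l | r) <;> rfl)] at h1
    exact h1

end Pool.Agent.MST
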