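import Pool.Agent.MST.StF

/-!
MST [WKF]: walks are definable (helper31).
-/

set_option autoImplicit false

namespace Pool.Agent.MST

open FirstOrder.Language Set
open scoped FirstOrder

/-- adjacency is definable -/
private theorem WKF_adj {L : FirstOrder.Language.{0, 0}} (F : Set (Sy L)) (hF : F.Finite) :
    ∃ χ : L.Formula (Unit ⊕ Unit), ∀ (M : Type) [L.Structure M] (v : Unit ⊕ Unit → M),
      χ.Realize v ↔ adj F (v (Sum.inl ())) (v (Sum.inr ())) := by
  have hfin : Finite F := hF.to_subtype
  refine ⟨(FirstOrder.Language.Term.equal (FirstOrder.Language.Term.var (Sum.inl ()))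
      (FirstOrder.Language.Term.var (Sum.inr ()))).not ⊓
    FirstOrder.Language.Formula.iSup (fun R : F =>
      ((FirstOrder.Language.Relations.formula R.1.2
          (fun i => FirstOrder.Language.Term.var (Sum.inr i)) ⊓
        (FirstOrder.Language.Formula.iSup (fun i : Fin R.1.1 =>
            FirstOrder.Language.Term.equal (FirstOrder.Language.Term.var (Sum.inr i))
              (FirstOrder.Language.Term.var (Sum.inl (Sum.inl ())))) ⊓
          FirstOrder.Language.Formula.iSup (fun i : Fin R.1.1 =>
            FirstOrder.Language.Term.equal (FirstOrder.Language.Term.var (Sum.inr i))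
              (FirstOrder.Language.Term.var (Sum.inl (Sum.inr ())))))) :
          L.Formula ((Unit ⊕ Unit) ⊕ Fin R.1.1)).iExs (Fin R.1.1)), fun M _ v => ?_⟩
  rw [FirstOrder.Language.Formula.realize_inf, FirstOrder.Language.Formula.realize_not,
    FirstOrder.Language.Formula.realize_equal, FirstOrder.Language.Formula.realize_iSup]
  refine and_congr Iff.rfl ?_
  constructor
  · rintro ⟨R, hR⟩
    rw [FirstOrder.Language.Formula.realize_iExs] at hR
    obtain ⟨t, ht⟩ := hR
    rw [FirstOrder.Language.Formula.realize_inf, FirstOrder.Language.Formula.realize_inf,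
      FirstOrder.Language.Formula.realize_rel, FirstOrder.Language.Formula.realize_iSup,
      FirstOrder.Language.Formula.realize_iSup] at ht
    obtain ⟨h1, ⟨i, hi⟩, ⟨k, hk⟩⟩ := ht
    rw [FirstOrder.Language.Formula.realize_equal] at hi hk
    exact ⟨R.1, R.2, t, h1, ⟨i, hi⟩, ⟨k, hk⟩⟩
  · rintro ⟨R, hR, t, h1, ⟨i, hi⟩, ⟨k, hk⟩⟩
    refine ⟨⟨R, hR⟩, ?_⟩
    rw [FirstOrder.Language.Formula.realize_iExs]
    refine ⟨t, ?_⟩
    rw [FirstOrder.Language.Formula.realize_inf, FirstOrder.Language.Formula.realize_inf,
      FirstOrder.Language.Formula.realize_rel, FirstOrder.Language.Formula.realize_iSup,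
      FirstOrder.Language.Formula.realize_iSup]
    refine ⟨h1, ⟨i, ?_⟩, ⟨k, ?_⟩⟩
    · rw [FirstOrder.Language.Formula.realize_equal]
      exact hi
    · rw [FirstOrder.Language.Formula.realize_equal]
      exact hk

/-- **[WKF]** walks are definable (helper31) -/
theorem thm_WKF : St_WKF := by
  classical
  intro L F hF r n
  obtain ⟨χ, hχ⟩ := WKF_adj F hF
  refine ⟨((FirstOrder.Language.Term.equal
        (FirstOrder.Language.Term.var (Sum.inr (0 : Fin (r + 1))))
        (FirstOrder.Language.Term.var (Sum.inl (Sum.inl (Sum.inl ())))) ⊓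
      (FirstOrder.Language.Term.equal
        (FirstOrder.Language.Term.var (Sum.inr (Fin.last r)))
        (FirstOrder.Language.Term.var (Sum.inl (Sum.inl (Sum.inr ())))) ⊓
      (FirstOrder.Language.Formula.iInf (fun i : Fin r =>
        FirstOrder.Language.Term.equal
          (FirstOrder.Language.Term.var (Sum.inr i.castSucc))
          (FirstOrder.Language.Term.var (Sum.inr i.succ)) ⊔
        χ.relabel (Sum.elim (fun _ => Sum.inr i.castSucc) (fun _ => Sum.inr i.succ))) ⊓
      FirstOrder.Language.Formula.iInf (fun p : Fin (r + 1) × Fin n =>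
        (FirstOrder.Language.Term.equal
          (FirstOrder.Language.Term.var (Sum.inr p.1))
          (FirstOrder.Language.Term.var (Sum.inl (Sum.inr p.2)))).not)))) :
      L.Formula (((Unit ⊕ Unit) ⊕ Fin n) ⊕ Fin (r + 1))).iExs (Fin (r + 1)), fun M _ x y s => ?_⟩
  rw [FirstOrder.Language.Formula.realize_iExs]
  have key : ∀ w : Fin (r + 1) → M,
      ((FirstOrder.Language.Term.equal
        (FirstOrder.Language.Term.var (Sum.inr (0 : Fin (r + 1))))
        (FirstOrder.Language.Term.var (Sum.inl (Sum.inl (Sum.inl ())))) ⊓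
      (FirstOrder.Language.Term.equal
        (FirstOrder.Language.Term.var (Sum.inr (Fin.last r)))
        (FirstOrder.Language.Term.var (Sum.inl (Sum.inl (Sum.inr ())))) ⊓
      (FirstOrder.Language.Formula.iInf (fun i : Fin r =>
        FirstOrder.Language.Term.equal
          (FirstOrder.Language.Term.var (Sum.inr i.castSucc))
          (FirstOrder.Language.Term.var (Sum.inr i.succ)) ⊔
        χ.relabel (Sum.elim (fun _ => Sum.inr i.castSucc) (fun _ => Sum.inr i.succ))) ⊓
      FirstOrder.Language.Formula.iInf (fun p : Fin (r + 1) × Fin n =>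
        (FirstOrder.Language.Term.equal
          (FirstOrder.Language.Term.var (Sum.inr p.1))
          (FirstOrder.Language.Term.var (Sum.inl (Sum.inr p.2)))).not)))) :
      L.Formula (((Unit ⊕ Unit) ⊕ Fin n) ⊕ Fin (r + 1))).Realize
        (Sum.elim (Sum.elim (Sum.elim (fun _ => x) (fun _ => y)) s) w) ↔
      w 0 = x ∧ w (Fin.last r) = y ∧
        (∀ i : Fin r, w i.castSucc = w i.succ ∨ adj F (w i.castSucc) (w i.succ)) ∧
        ∀ p : Fin (r + 1) × Fin n, ¬ w p.1 = s p.2 := by
    intro w
    rw [FirstOrder.Language.Formula.realize_inf, FirstOrder.Language.Formula.realize_inf,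
      FirstOrder.Language.Formula.realize_inf, FirstOrder.Language.Formula.realize_equal,
      FirstOrder.Language.Formula.realize_equal, FirstOrder.Language.Formula.realize_iInf,
      FirstOrder.Language.Formula.realize_iInf]
    refine and_congr Iff.rfl (and_congr Iff.rfl (and_congr (forall_congr' fun i => ?_)
      (forall_congr' fun p => ?_)))
    · rw [FirstOrder.Language.Formula.realize_sup, FirstOrder.Language.Formula.realize_equal,
        FirstOrder.Language.Formula.realize_relabel, hχ]
      rfl
    · rw [FirstOrder.Language.Formula.realize_not, FirstOrder.Language.Formula.realize_equal]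
      rfl
  refine (exists_congr key).trans ?_
  constructor
  · rintro ⟨w, h0, h1, h2, h3⟩
    refine ⟨fun i => if h : i < r + 1 then w ⟨i, h⟩ else x, ?_, ?_, fun i hi => ?_,
      fun i hi => ?_⟩
    · show (if h : 0 < r + 1 then w ⟨0, h⟩ else x) = x
      rw [dif_pos (Nat.succ_pos r)]
      exact h0
    · show (if h : r < r + 1 then w ⟨r, h⟩ else x) = y
      rw [dif_pos (Nat.lt_succ_self r)]
      exact h1
    · show (if h : i < r + 1 then w ⟨i, h⟩ else x) =
          (if h : i + 1 < r + 1 then w ⟨i + 1, h⟩ else x) ∨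
        adj F (if h : i < r + 1 then w ⟨i, h⟩ else x)
          (if h : i + 1 < r + 1 then w ⟨i + 1, h⟩ else x)
      rw [dif_pos (by omega), dif_pos (by omega)]
      exact h2 ⟨i, hi⟩
    · show (if h : i < r + 1 then w ⟨i, h⟩ else x) ∉ range s
      rw [dif_pos (by omega)]
      rintro ⟨k, hk⟩
      exact h3 (⟨i, by omega⟩, k) hk.symm
  · rintro ⟨w, h0, h1, h2, h3⟩
    refine ⟨fun i => w i.val, h0, ?_, fun i => ?_, fun p h => ?_⟩
    · show w (Fin.last r).val = y
      rw [Fin.val_last]
      exact h1
    · exact h2 i.val i.isLt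
    · exact h3 p.1.val (Nat.lt_succ_iff.1 p.1.isLt) ⟨p.2, h.symm⟩

end Pool.Agent.MST
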