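import Pool.Agent.MST.StF

/-!
MST [WPL]: from walks to paths.
-/

set_option autoImplicit false

namespace Pool.Agent.MST

private theorem WPL_aux (M : Type) (A : M → M → Prop) : ∀ (N r : ℕ), r ≤ N → ∀ w : ℕ → M,
    (∀ i < r, w i = w (i + 1) ∨ A (w i) (w (i + 1))) → w 0 ≠ w r →
    ∃ p : List M, p.length + 1 ≤ r ∧ List.IsChain A (w 0 :: (p ++ [w r])) ∧
      (∀ z ∈ p, ∃ i ≤ r, z = w i) ∧ w 0 ∉ p ∧ w r ∉ p := by
  classical
  intro N
  induction N with
  | zero =>
    intro r hr w _ hne
    obtain rfl : r = 0 := by omega
    exact absurd rfl hne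
  | succ N ih =>
    intro r hr w hw hne
    obtain ⟨i, hi⟩ : ∃ i, i = Nat.findGreatest (fun i => w i = w 0) r := ⟨_, rfl⟩
    have hi1 : w i = w 0 := by
      rw [hi]
      exact Nat.findGreatest_spec (P := fun i => w i = w 0) (Nat.zero_le r) rfl
    have hi2 : i ≤ r := by
      rw [hi]
      exact Nat.findGreatest_le r
    have hi3 : ∀ l, i < l → l ≤ r → w l ≠ w 0 := by
      intro l h1 h2
      rw [hi] at h1
      exact Nat.findGreatest_is_greatest h1 h2
    have hi4 : i < r := by
      rcases Nat.lt_or_ge i r with h | h
      · exact h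
      · obtain rfl : i = r := le_antisymm hi2 h
        exact absurd hi1.symm hne
    have hA : A (w 0) (w (i + 1)) := by
      rcases hw i hi4 with h | h
      · exact absurd (h.symm.trans hi1) (hi3 (i + 1) (by omega) (by omega))
      · rwa [hi1] at h
    by_cases hy : w (i + 1) = w r
    · refine ⟨[], by simp only [List.length_nil]; omega, ?_, ?_, ?_, ?_⟩
      · rw [hy] at hA
        simpa using hA
      · intro z hz
        simp at hz
      · simp
      · simp
    · obtain ⟨p, h1, h2, h3, h4, h5⟩ := ih (r - i - 1) (by omega) (fun j => w (i + 1 + j))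
        (fun j hj => by
          have := hw (i + 1 + j) (by omega)
          rwa [show i + 1 + j + 1 = i + 1 + (j + 1) by ring] at this)
        (by
          show w (i + 1 + 0) ≠ w (i + 1 + (r - i - 1))
          rw [show i + 1 + (r - i - 1) = r by omega]
          exact hy)
      have e : i + 1 + (r - i - 1) = r := by omega
      simp only [e, add_zero] at h2 h4 h5
      refine ⟨w (i + 1) :: p, by simp only [List.length_cons]; omega, ?_, ?_, ?_, ?_⟩
      · rw [List.cons_append, List.isChain_cons_cons]
        exact ⟨hA, h2⟩
      · intro z hz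
        rcases List.mem_cons.mp hz with rfl | hz
        · exact ⟨i + 1, by omega, rfl⟩
        · obtain ⟨j, hj, rfl⟩ := h3 z hz
          exact ⟨i + 1 + j, by omega, rfl⟩
      · intro hz
        rcases List.mem_cons.mp hz with h | hz
        · exact hi3 (i + 1) (by omega) (by omega) h.symm
        · obtain ⟨j, hj, h⟩ := h3 _ hz
          exact hi3 (i + 1 + j) (by omega) (by omega) h.symm
      · intro hz
        rcases List.mem_cons.mp hz with h | hz
        · exact hy h.symm
        · exact h5 hz

theorem thm_WPL : St_WPL := fun M A r w hw hne => WPL_aux M A r r le_rfl w hw hne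

end Pool.Agent.MST
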