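import Pool.Agent.MST.ALL
import Pool.Agent.MST.SUN
import Pool.Agent.MST.WPL
import Pool.Agent.MST.HBA
import Pool.Agent.MST.HBC
import Pool.Agent.MST.SEP
import Pool.Agent.MST.SPD
import Pool.Agent.MST.WKF
import Pool.Agent.MST.CNE
import Pool.Agent.MST.TWO
import Pool.Agent.MST.BNA
import Pool.Agent.MST.BNB
import Pool.Agent.MST.BNF
import Pool.Agent.MST.FLS
import Pool.Agent.MST.FLM

/-!
MST: superflat structures are stable and monadically stable; the theorem with the three
alternatives (helper47).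
-/

set_option autoImplicit false

namespace Pool.Agent.MST

open FirstOrder.Language Set
open scoped FirstOrder
open Pool.Agent.WOM (CtT PerfT ThS)

theorem all_SEP : St_SEP := thm_SEP (thm_HBA thm_WPL) (thm_HBC thm_SUN)
theorem all_TWO : St_TWO := thm_TWO all_SAW (thm_SPD all_SEP) thm_WKF
theorem all_BNA : St_BNA := thm_BNA thm_CNE thm_WKF
theorem all_BNF : St_BNF := thm_BNF thm_CNE all_BNA (thm_BNB thm_CNE all_BNA)
theorem all_FLS : St_FLS := thm_FLS all_TWO thm_WKF thm_CNE all_BNF
theorem all_FLM : St_FLM := thm_FLM all_FLS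

/-- monadic stability contains stability -/
theorem MSt.stb {L : FirstOrder.Language.{0, 0}} {M : Type} [L.Structure M] [Nonempty M]
    (h : MSt L M) : Stb L M := by
  intro m n φ a b hab
  refine h univ m n (φ.relabel Sum.inl) a b fun i k => ?_
  have h1 : ∀ z : M, (φ.relabel Sum.inl : L.Formula ((Fin m ⊕ Fin n) ⊕ Unit)).Realize
      (Sum.elim (Sum.elim (a i) (b k)) (fun _ => z)) ↔ φ.Realize (Sum.elim (a i) (b k)) := by
    intro z
    rw [FirstOrder.Language.Formula.realize_relabel]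
    rfl
  rw [← hab i k]
  constructor
  · rintro ⟨z, -, hz⟩
    exact (h1 z).1 hz
  · intro hz
    obtain ⟨z⟩ := (inferInstance : Nonempty M)
    exact ⟨z, mem_univ z, (h1 z).2 hz⟩

/-- the theorem with the three alternatives -/
theorem all_three (L : FirstOrder.Language.{0, 0}) (hc : Countable L.Symbols) (T : L.Theory)
    (hT : ∀ S : L.Structure ℕ, @FirstOrder.Language.Theory.Model L ℕ S T →
      @Sfl L ℕ S ∨ @MSt L ℕ S ∨ (@Stb L ℕ S ∧ ∀ S' : L.Structure ℕ,
        @FirstOrder.Language.Theory.Model L ℕ S' (ThS L S) → @FUn L ℕ S')) :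
    CtT L T ∨ PerfT L T := by
  refine all_MST L hc T fun S hS => ?_
  rcases hT S hS with h | h | h
  · exact ⟨@all_FLS L hc ℕ S h, Or.inl (@all_FLM L hc ℕ S h)⟩
  · exact ⟨@MSt.stb L ℕ S _ h, Or.inl h⟩
  · exact ⟨h.1, Or.inr h.2⟩

end Pool.Agent.MST
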