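import Pool.Agent.MST.StB

/-!
MST, module CAL: the calculus of independence for tuples.
-/

set_option autoImplicit false

namespace Pool.Agent.MST

open FirstOrder.Language Set
open scoped FirstOrder

section CAL

variable {L : FirstOrder.Language.{0, 0}} {M : Type} [L.Structure M] {α β γ : Type}

private theorem CAL_swap (a : α → M) (b : β → M) :
    (Sum.elim b a : β ⊕ α → M) = (Sum.elim a b : α ⊕ β → M) ∘ (Sum.swap : β ⊕ α → α ⊕ β) := by
  funext x
  rcases x with x | x <;> rfl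

private theorem CAL_map {α' β' : Type} (f : α' → α) (g : β' → β) (a : α → M) (b : β → M) :
    (Sum.elim (a ∘ f) (b ∘ g) : α' ⊕ β' → M) = (Sum.elim a b : α ⊕ β → M) ∘ (Sum.map f g) := by
  funext x
  rcases x with x | x <;> rfl

private theorem CAL_assoc (a : α → M) (b : β → M) (c : γ → M) :
    (Sum.elim a (Sum.elim b c) : α ⊕ (β ⊕ γ) → M) =
      (Sum.elim (Sum.elim a b) c : (α ⊕ β) ⊕ γ → M) ∘ (Equiv.sumAssoc α β γ).symm := by
  funext x
  rcases x with x | x | x <;> rfl

/-- reindexing along a bijection and back -/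
private theorem CAL_back (e : β ≃ α) (X : Set (Set (α → M))) (hX : ∀ s ∈ X, Dfp L s) :
    rx L e.symm (rx L e X) = X := by
  ext s
  have h : {v : α → M | v ∘ e ∈ {w : β → M | w ∘ e.symm ∈ s}} = s := by
    ext v
    have h1 : (v ∘ e) ∘ e.symm = v := by
      funext i
      simp
    rw [mem_ofPred_eq, mem_ofPred_eq, h1]
  constructor
  · rintro ⟨-, -, h2⟩
    rwa [h] at h2
  · intro hs
    have hd := hX s hs
    refine ⟨hd, hd.pre e.symm, ?_⟩
    rw [h]
    exact hs

end CAL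

/-- [CAL] The calculus of independence for tuples. -/
theorem thm_CAL (_ : St_RXT) (hFRB : St_FRB) (hTAL : St_TAL) : St_CAL := by
  intro L U V _ _ j hC
  have hst : Stb L U := hC.cu.stb
  have ty : ∀ (α : Type) [Finite α] (a : α → V), IsTy L (fr j a) :=
    fun α _ a => (hFRB L U V j hC α a).1.ty
  have rxf : ∀ (α β : Type) [Finite α] [Finite β] (a : α → V) (f : β → α),
      fr j (a ∘ f) = rx L f (fr j a) :=
    fun α β _ _ a f => (hFRB L U V j hC α a).2.2.2.2.2 β f
  have sq : ∀ (α : Type) [Finite α] (a a' : α → V), Sq L a a' ↔ fr j a = fr j a' :=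
    fun α _ a a' => (hFRB L U V j hC α a).2.2.2.2.1 a'
  have two : ∀ (α β α' β' : Type) [Finite α] [Finite β] [Finite α'] [Finite β'] (a : α → V)
      (b : β → V) (f : α' → α) (g : β' → β), Fr j a b → Fr j (a ∘ f) (b ∘ g) := by
    intro α β α' β' _ _ _ _ a b f g h
    unfold Fr at h ⊢
    rw [CAL_map f g a b, rxf _ _ _ (Sum.map f g), h, rxf _ _ a f, rxf _ _ b g]
    exact ((hTAL L U hst α β (fr j a) (fr j b) (ty _ a) (ty _ b)).2.2.2.1 α' β' f g).symm
  refine ⟨?_, two, ?_, ?_, ?_⟩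
  · intro α β _ _ a b h
    unfold Fr at h ⊢
    rw [CAL_swap a b, rxf _ _ _ Sum.swap, h]
    exact ((hTAL L U hst β α (fr j b) (fr j a) (ty _ b) (ty _ a)).1).symm
  · intro α β γ _ _ _ a b c h1 h2
    have h3 : Fr j b c := two (α ⊕ β) γ β γ (Sum.elim a b) c Sum.inr id h2
    unfold Fr at h1 h2 h3 ⊢
    rw [h3, CAL_assoc a b c, rxf _ _ _ (Equiv.sumAssoc α β γ).symm, h2, h1,
      (hTAL L U hst α β (fr j a) (fr j b) (ty _ a) (ty _ b)).2.2.2.2 γ (fr j c) (ty _ c)]
    exact CAL_back (L := L) (Equiv.sumAssoc α β γ) _ fun s hs => hs.1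
  · intro α β _ _ a a' b b' h h' h1 h2
    rw [sq] at h1 h2 ⊢
    unfold Fr at h h'
    rw [h, h', h1, h2]
  · intro α β _ _ a a' b b' h1 h
    rw [sq] at h1
    unfold Fr at h ⊢
    have e1 : fr j a = fr j a' := by
      have e : fr j ((Sum.elim a b) ∘ Sum.inl) = fr j ((Sum.elim a' b') ∘ Sum.inl) := by
        rw [rxf _ _ _ Sum.inl, rxf _ _ (Sum.elim a' b') Sum.inl, h1]
      exact e
    have e2 : fr j b = fr j b' := by
      have e : fr j ((Sum.elim a b) ∘ Sum.inr) = fr j ((Sum.elim a' b') ∘ Sum.inr) := by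
        rw [rxf _ _ _ Sum.inr, rxf _ _ (Sum.elim a' b') Sum.inr, h1]
      exact e
    rw [← h1, h, e1, e2]

end Pool.Agent.MST
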