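import Pool.Agent.WOM.StB

/-!
MST: Vaught's conjecture for stable theories with free unions (helper47).  Definitions.
The paper proof is in the team store (`MST_helper47.md`).

Throughout, `U` is the countable saturated model, `V` a larger saturated elementary extension
(`j : U ↪ₑ[L] V`), index types `α`, `β`, ... of tuples are finite, `Sum.elim a b` is the tuple `(a, b)`.
-/

set_option autoImplicit false

namespace Pool.Agent.MST

open FirstOrder.Language Set
open scoped FirstOrder
open Pool.Agent.WOM (tp Mon IsEl IsoM Fam CtT PerfT ThS Small)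

/-! ### One structure -/

section one

variable (L : FirstOrder.Language.{0, 0})

/-- no formula has an infinite ladder -/
def Stb (M : Type) [L.Structure M] : Prop :=
  ∀ (m n : ℕ) (φ : L.Formula (Fin m ⊕ Fin n)) (a : ℕ → Fin m → M) (b : ℕ → Fin n → M),
    ¬ ∀ i j, φ.Realize (Sum.elim (a i) (b j)) ↔ i < j

/-- sets of tuples definable with parameters -/
def Dfp {M : Type} [L.Structure M] {α : Type} (s : Set (α → M)) : Prop :=
  ∃ (n : ℕ) (φ : L.Formula (α ⊕ Fin n)) (b : Fin n → M), ∀ v, v ∈ s ↔ φ.Realize (Sum.elim v b)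

/-- complete types over `M`, as sets of definable sets -/
structure IsTy {M : Type} [L.Structure M] {α : Type} (p : Set (Set (α → M))) : Prop where
  dfn : ∀ s ∈ p, Dfp L s
  ne : ∅ ∉ p
  inter : ∀ s ∈ p, ∀ t ∈ p, s ∩ t ∈ p
  em : ∀ s, Dfp L s → s ∈ p ∨ sᶜ ∈ p

variable {L}

/-- the definition scheme of `p`: the set of `b` with `s(x, b)` in `p` -/
def fib {M α β : Type} (p : Set (Set (α → M))) (s : Set (α ⊕ β → M)) : Set (β → M) :=
  {b | {a | Sum.elim a b ∈ s} ∈ p}

/-- the same for a type in the second group of variables -/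
def bfi {M α β : Type} (q : Set (Set (β → M))) (s : Set (α ⊕ β → M)) : Set (α → M) :=
  {a | {b | Sum.elim a b ∈ s} ∈ q}

/-- the set defined by a formula without parameters -/
def rs (M : Type) [L.Structure M] {α : Type} (φ : L.Formula α) : Set (α → M) :=
  {v | φ.Realize v}

/-- image of a set of tuples under an automorphism -/
def act {M : Type} [L.Structure M] {α : Type} (g : M ≃[L] M) (s : Set (α → M)) : Set (α → M) :=
  {v | (fun i => g.symm (v i)) ∈ s}

/-- image of a type under an automorphism -/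
def acT {M : Type} [L.Structure M] {α : Type} (g : M ≃[L] M) (p : Set (Set (α → M))) :
    Set (Set (α → M)) :=
  {s | act g.symm s ∈ p}

variable (L) in
/-- bounded types: every definition scheme has finitely many conjugates -/
structure Bd {M : Type} [L.Structure M] {α : Type} (p : Set (Set (α → M))) : Prop where
  ty : IsTy L p
  fin : ∀ (β : Type) [Finite β] (φ : L.Formula (α ⊕ β)),
    {D : Set (β → M) | ∃ g : M ≃[L] M, D = act g (fib p (rs M φ))}.Finite

/-- the relation defined by `E` -/
def er {M : Type} [L.Structure M] {α : Type} (E : L.Formula (α ⊕ α)) (x y : α → M) : Prop :=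
  E.Realize (Sum.elim x y)

/-- `E` defines an equivalence relation with finitely many classes in `M` -/
structure FE (M : Type) [L.Structure M] {α : Type} (E : L.Formula (α ⊕ α)) : Prop where
  refl : ∀ x : α → M, er E x x
  symm : ∀ x y : α → M, er E x y → er E y x
  trans : ∀ x y z : α → M, er E x y → er E y z → er E x z
  fin : ∃ F : Set (α → M), F.Finite ∧ ∀ x, ∃ y ∈ F, er E x y

/-- pull back of `E` along `f : α → β` -/
def pbE {α β : Type} (f : α → β) (E : L.Formula (α ⊕ α)) : L.Formula (β ⊕ β) :=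
  E.relabel (Sum.map f f)

/-- the equivalence relation of `φ` -/
def fmE {α : Type} (φ : L.Formula α) : L.Formula (α ⊕ α) :=
  (φ.relabel Sum.inl).iff (φ.relabel Sum.inr)

/-- projection of `E` to the first variables -/
noncomputable def prE {α β : Type} [Finite β] (E : L.Formula ((α ⊕ β) ⊕ (α ⊕ β))) :
    L.Formula (α ⊕ α) :=
  ((E.relabel (Sum.elim
      (Sum.elim (fun a => Sum.inl (Sum.inl (Sum.inl a))) (fun b => Sum.inl (Sum.inr b)))
      (Sum.elim (fun a => Sum.inl (Sum.inl (Sum.inr a))) (fun b => Sum.inr b)) :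
        (α ⊕ β) ⊕ (α ⊕ β) → ((α ⊕ α) ⊕ β) ⊕ β)).iExs β).iAlls β ⊓
  ((E.relabel (Sum.elim
      (Sum.elim (fun a => Sum.inl (Sum.inl (Sum.inl a))) (fun b => Sum.inr b))
      (Sum.elim (fun a => Sum.inl (Sum.inl (Sum.inr a))) (fun b => Sum.inl (Sum.inr b))) :
        (α ⊕ β) ⊕ (α ⊕ β) → ((α ⊕ α) ⊕ β) ⊕ β)).iExs β).iAlls β

variable (L)

/-- image of a type under reindexing of the variables -/
def rx {M : Type} [L.Structure M] {α β : Type} (f : β → α) (p : Set (Set (α → M))) :
    Set (Set (β → M)) :=
  {s | Dfp L s ∧ {v : α → M | v ∘ f ∈ s} ∈ p}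

/-- tensor product of types -/
def ten {M : Type} [L.Structure M] {α β : Type} (p : Set (Set (α → M))) (q : Set (Set (β → M))) :
    Set (Set (α ⊕ β → M)) :=
  {s | Dfp L s ∧ fib p s ∈ q}

/-- same strong type over the empty set -/
def Sq {M : Type} [L.Structure M] {α : Type} (a a' : α → M) : Prop :=
  ∀ E : L.Formula (α ⊕ α), FE M E → er E a a'

/-- same strong type, for infinite tuples -/
def SqI {M : Type} [L.Structure M] {ι : Type} (A A' : ι → M) : Prop :=
  ∀ (n : ℕ) (f : Fin n → ι), Sq L (A ∘ f) (A' ∘ f)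

/-- saturation for countably many variables and countably many parameters -/
def SatW (M : Type) [L.Structure M] : Prop :=
  ∀ (ι κ : Type) [Countable ι] [Countable κ] (c : κ → M) (F : Set (L.Formula (ι ⊕ κ))),
    (∀ G ⊆ F, G.Finite → ∃ x : ι → M, ∀ φ ∈ G, φ.Realize (Sum.elim x c)) →
    ∃ x : ι → M, ∀ φ ∈ F, φ.Realize (Sum.elim x c)

/-- the context for the small model -/
structure CU (U : Type) [L.Structure U] : Prop where
  ctL : Countable L.Symbols
  mon : Mon L U
  stb : Stb L U

end one

/-- the context for the two models -/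
structure Cx (L : FirstOrder.Language.{0, 0}) (U V : Type) [L.Structure U] [L.Structure V] :
    Prop where
  cu : CU L U
  stV : Stb L V
  sat : SatW L V

/-! ### The large model -/

section two

variable {L : FirstOrder.Language.{0, 0}} {U V : Type} [L.Structure U] [L.Structure V]
  (j : U ↪ₑ[L] V)

/-- the strong type of `a` is the one of `p` -/
def Hs {α : Type} (a : α → V) (p : Set (Set (α → U))) : Prop :=
  ∀ E : L.Formula (α ⊕ α), FE U E → ∀ u : α → U, er E a (j ∘ u) → {x | er E x u} ∈ p

/-- the free extension of the strong type of `a` to `U` -/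
def fr {α : Type} (a : α → V) : Set (Set (α → U)) :=
  {s | ∃ p : Set (Set (α → U)), Bd L p ∧ Hs j a p ∧ s ∈ p}

/-- independence of tuples over the empty set -/
def Fr {α β : Type} (a : α → V) (b : β → V) : Prop :=
  fr j (Sum.elim a b) = ten L (fr j a) (fr j b)

/-- independence of sets over the empty set -/
def FrS (X Y : Set V) : Prop :=
  ∀ (m n : ℕ) (a : Fin m → V) (b : Fin n → V), (∀ i, a i ∈ X) → (∀ i, b i ∈ Y) → Fr j a b

/-- free unions -/
def UN : Prop :=
  ∀ M N : Set V, M.Countable → N.Countable → IsEl L M → IsEl L N → FrS j M N → IsEl L (M ∪ N)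

/-- trivial elements -/
def Trv (x : V) : Prop := FrS j {x} {x}

/-- indecomposable sets -/
def Idc (K : Set V) : Prop := K.Nonempty ∧ ∀ X ⊆ K, FrS j X (K \ X) → X = ∅ ∨ X = K

/-- the atoms of `M` -/
def At (M : Set V) : Set (Set V) := {K | K ⊆ M ∧ FrS j K (M \ K) ∧ Idc j K}

/-- without trivial elements -/
def NTr (K : Set V) : Prop := ∀ x ∈ K, ¬ Trv j x

variable (L) in
/-- same strong type of sets -/
def App (K K' : Set V) : Prop :=
  ∃ f : K ≃ K', SqI L (fun k : K => (k : V)) (fun k : K => ((f k : K') : V))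

/-- multiplicity of `K` in `M` -/
noncomputable def mul (M K : Set V) : ℕ∞ := {K' ∈ At j M | App L K K'}.encard

variable (L) in
/-- countable elementary submodels -/
def CM (M : Set V) : Prop := M.Countable ∧ IsEl L M

/-- the nontrivial atoms of all countable elementary submodels -/
def Tau : Set (Set V) := {K | ∃ M, CM L M ∧ K ∈ At j M ∧ NTr j K}

variable (L V) in
/-- no coding of arrays -/
def NC : Prop :=
  ∀ (m n : ℕ) (φ : L.Formula ((Fin m ⊕ Fin n) ⊕ Unit)) (a : ℕ → Fin m → V) (b : ℕ → Fin n → V)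
    (c : ℕ → ℕ → V),
    ¬ ∀ i k l h, φ.Realize (Sum.elim (Sum.elim (a i) (b k)) (fun _ => c l h)) ↔ (i = l ∧ k = h)

variable (L V) in
/-- countably many countable elementary submodels up to isomorphism -/
def CtV : Prop := ∃ g : ℕ → Set V, ∀ M : Set V, CM L M → ∃ n, IsoM L M (g n)

variable (L V) in
/-- perfectly many countable elementary submodels -/
def PfV : Prop := ∃ u : (ℕ → Bool) → ℕ → V, Fam L u ∧
  ∀ x y, IsoM L (range (u x)) (range (u y)) → x = y

end two

/-! ### Dividing, free unions and monadic stability in a structure -/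

section hyp

variable {L : FirstOrder.Language.{0, 0}} {M : Type} [L.Structure M]

/-- `φ(x, b)` divides over the empty set: for some `k` there are arbitrarily long sequences of
tuples, satisfying any given formula true of `b`, such that any `k` of the instances of `φ` are
inconsistent -/
def Div {m n : ℕ} (φ : L.Formula (Fin m ⊕ Fin n)) (b : Fin n → M) : Prop :=
  ∃ k : ℕ, ∀ θ : L.Formula (Fin n), θ.Realize b → ∀ N : ℕ, ∃ c : Fin N → Fin n → M,
    (∀ i, θ.Realize (c i)) ∧
    ∀ I : Finset (Fin N), I.card = k → ¬ ∃ x : Fin m → M, ∀ i ∈ I, φ.Realize (Sum.elim x (c i))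

variable (L) in
/-- independence over the empty set, by dividing -/
def IndD (X Y : Set M) : Prop :=
  ∀ (m n : ℕ) (φ : L.Formula (Fin m ⊕ Fin n)) (a : Fin m → M) (b : Fin n → M),
    (∀ i, a i ∈ X) → (∀ i, b i ∈ Y) → φ.Realize (Sum.elim a b) → ¬ Div φ b

variable (L M) in
/-- unions of two independent elementary submodels are elementary submodels -/
def FUn : Prop :=
  ∀ X Y : Set M, IsEl L X → IsEl L Y → IndD L X Y → IsEl L (X ∪ Y)

variable (L M) in
/-- no ladder for the formulas `∃ z ∈ P, φ(x, y, z)` -/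
def MSt : Prop :=
  ∀ (P : Set M) (m n : ℕ) (φ : L.Formula ((Fin m ⊕ Fin n) ⊕ Unit)) (a : ℕ → Fin m → M)
    (b : ℕ → Fin n → M),
    ¬ ∀ i k, (∃ z ∈ P, φ.Realize (Sum.elim (Sum.elim (a i) (b k)) (fun _ => z))) ↔ i < k

end hyp

/-- THE THEOREM -/
def St_MST : Prop :=
  ∀ (L : FirstOrder.Language.{0, 0}), Countable L.Symbols → ∀ (T : L.Theory),
    (∀ S : L.Structure ℕ, @FirstOrder.Language.Theory.Model L ℕ S T →
      @Stb L ℕ S ∧ (@MSt L ℕ S ∨ ∀ S' : L.Structure ℕ,
        @FirstOrder.Language.Theory.Model L ℕ S' (ThS L S) → @FUn L ℕ S')) →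
    CtT L T ∨ PerfT L T

end Pool.Agent.MST
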