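import Pool.Agent.MST.StC

/-!
MST, module FMI: the set of the finite multiplicities is an isomorphism invariant.
-/

set_option autoImplicit false

namespace Pool.Agent.MST

open FirstOrder.Language Set
open scoped FirstOrder
open Pool.Agent.WOM (tp Mon IsEl IsoM Fam CtT PerfT ThS)

section FMI

variable {L : FirstOrder.Language.{0, 0}} {U V : Type} [L.Structure U] [L.Structure V]
  {j : U ↪ₑ[L] V} {M M' : Set V}

private theorem FMI_img (e : M ≃ M') {X : Set V} (hX : X ⊆ M) :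
    img e.symm (img e X) = X := by
  ext x
  constructor
  · rintro ⟨y, ⟨z, hz, h1⟩, h2⟩
    have h3 : e z = y := Subtype.ext h1
    rw [← h3, Equiv.symm_apply_apply] at h2
    rw [← h2]
    exact hz
  · intro hx
    exact ⟨e ⟨x, hX hx⟩, ⟨⟨x, hX hx⟩, hx, rfl⟩, by rw [Equiv.symm_apply_apply]⟩

private theorem FMI_img' (e : M ≃ M') {X : Set V} (hX : X ⊆ M') :
    img e (img e.symm X) = X := FMI_img e.symm hX

private theorem FMI_le (hISA : St_ISA) (hC : Cx L U V) (e : M ≃ M')
    (he : ∀ (n : ℕ) (a : Fin n → M),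
      tp (L := L) (fun i => ((a i : M) : V)) = tp (fun i => ((e (a i) : M') : V)))
    (he' : ∀ (n : ℕ) (a : Fin n → M'),
      tp (L := L) (fun i => ((a i : M') : V)) = tp (fun i => ((e.symm (a i) : M) : V))) :
    FM j M ⊆ FM j M' := by
  obtain ⟨a1, a2, a3⟩ := hISA L U V j hC M M' e he
  obtain ⟨b1, b2, b3⟩ := hISA L U V j hC M' M e.symm he'
  rintro n ⟨K, hK, hN, hm⟩
  refine ⟨img e K, a1 K hK, a2 K hK hN, ?_⟩
  rw [← hm]
  unfold mul
  have h1 : {K' ∈ At j M' | App L (img e K) K'} = img e '' {K' ∈ At j M | App L K K'} := by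
    ext K'
    constructor
    · rintro ⟨h2, h3⟩
      refine ⟨img e.symm K', ⟨b1 K' h2, ?_⟩, FMI_img' e h2.1⟩
      have h4 := b3 (img e K) K' (a1 K hK).1 h2.1 h3
      rwa [FMI_img e hK.1] at h4
    · rintro ⟨K'', ⟨h2, h3⟩, rfl⟩
      exact ⟨a1 K'' h2, a3 K K'' hK.1 h2.1 h3⟩
  rw [h1]
  refine Set.InjOn.encard_image ?_
  intro X hX Y hY hXY
  rw [← FMI_img e hX.1.1, ← FMI_img e hY.1.1, hXY]

end FMI

theorem thm_FMI (h1 : St_ISA) : St_FMI := by
  rintro L U V _ _ j hC M M' ⟨e, he⟩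
  have he' : ∀ (n : ℕ) (a : Fin n → M'),
      tp (L := L) (fun i => ((a i : M') : V)) = tp (fun i => ((e.symm (a i) : M) : V)) := by
    intro n a
    have h := he n (fun i => e.symm (a i))
    simp only [Equiv.apply_symm_apply] at h
    exact h.symm
  refine subset_antisymm (FMI_le h1 hC e he he') (FMI_le h1 hC e.symm he' ?_)
  exact he

end Pool.Agent.MST
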