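import Pool.Agent.MST.Ram

/-!
MST: statements of the first part (helper47), with proofs in the docstrings: saturation, stable
formulas, bounded types, strong types, tensor products.
-/

set_option autoImplicit false

namespace Pool.Agent.MST

open FirstOrder.Language Set
open scoped FirstOrder
open Pool.Agent.WOM (tp Mon IsEl IsoM Fam)

/-! ### Saturation -/

/-- [SAW] (1.5h) Saturated elementary extensions for countably many variables and parameters.
PROOF.  `V` = the ultrapower of `U` for `Filter.hyperfilter ℕ` (`Filter.Product`, structure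
`Ultraproduct`; Los: `Ultraproduct.realize_formula_cast`), compare `Pool/Agent/WOM/ULT.lean`.  `j` = constant
sequences, elementary by Los.  Saturation: `F` is countable (`L` countable, `ι ⊕ κ` countable); `F = ∅` is
trivial (`V` is nonempty); `F = {φ_0, φ_1, ...}`; choose representatives `c(n) : κ → U` of `c : κ → V`.
`X_k = {n ≥ k : some x : ι → U satisfies φ_0(x, c(n)), ..., φ_k(x, c(n))}` is in the ultrafilter: take `x : ι → V`
with `φ_0, ..., φ_k` (finite subset of `F`), representatives `x(n)`, Los.  For `n ∈ X_0` let `k ≤ n` be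
maximal with `n ∈ X_k` and `x(n)` a witness (the `X_k` decrease).  `x = [x(n)]` satisfies all `φ_k` (Los, for
`n ∈ X_k` the witness satisfies `φ_k`). -/
def St_SAW : Prop :=
  ∀ (L : FirstOrder.Language.{0, 0}), Countable L.Symbols → ∀ (U : Type) [L.Structure U], Nonempty U →
    ∃ (V : Type) (_ : L.Structure V), SatW L V ∧ Nonempty (U ↪ₑ[L] V)

/-- [SAU] (1.5h) Saturation and homogeneity of `U` for finite tuples.
PROOF.  First part: reindex to `α = Fin k` (and `β = Fin n`), induction on `k` for all finite parameter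
tuples: for `k + 1` the sets `{x_0 | ∃ x' : Fin k → U, all formulas of G hold at (x_0, x', b)}`, `G ⊆ F` finite,
are definable over `range b` and have the finite intersection property, so `Mon.sat` gives `x_0` in all
of them; then the induction hypothesis with the parameters `(x_0, b)`.  (Definability over `range b`:
`Set.Definable`, `WOM.St_DEFF`/`St_DEF1` are proved: `Pool/Agent/WOM/DEFF.lean`, `DEF1.lean`.)  Second part:
`Mon.hom` with a bijection of `α` and `Fin n` (relabel the formulas). -/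
def St_SAU : Prop :=
  ∀ (L : FirstOrder.Language.{0, 0}) (U : Type) [L.Structure U], Mon L U →
    (∀ (α β : Type) [Finite α] [Finite β] (b : β → U) (F : Set (L.Formula (α ⊕ β))),
      (∀ G ⊆ F, G.Finite → ∃ x : α → U, ∀ φ ∈ G, φ.Realize (Sum.elim x b)) →
      ∃ x : α → U, ∀ φ ∈ F, φ.Realize (Sum.elim x b)) ∧
    (∀ (α : Type) [Finite α] (a b : α → U), (∀ φ : L.Formula α, φ.Realize a ↔ φ.Realize b) →
      ∃ g : U ≃[L] U, ∀ i, g (a i) = b i)

/-- [CTD] (0.7h) Countability of the formulas and of the definable sets.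
PROOF.  `L.Formula α` is countable for countable `L.Symbols` and `α` (`BoundedFormula.card_le`, or see how
it is done in `Pool/Agent/WOM/ULT.lean`).  A definable set is given by `n`, a formula in `α ⊕ Fin n` and a
tuple in `Fin n → M`: countably many. -/
def St_CTD : Prop :=
  ∀ (L : FirstOrder.Language.{0, 0}), Countable L.Symbols →
    (∀ (α : Type) [Countable α], Countable (L.Formula α)) ∧
    (∀ (M : Type) [L.Structure M] [Countable M] (α : Type) [Countable α],
      {s : Set (α → M) | Dfp L s}.Countable)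

/-! ### Elementary submodels -/

/-- [ELX] (2h) Elementary submodels: tuples of variables; a criterion; infinite; images of
elementary embeddings; unions of chains; Loewenheim-Skolem.
PROOF.  (1) induction on the number of variables (`β = Fin k`): `∃ x_0 ∃ x' φ(x_0, x', m)` gives `x_0 ∈ M`
(`IsEl` for the set of these `x_0`, it is definable over `M` by `definable_iff_exists_formula_sum` or
`WOM.St_DEFF` and `Definable.mono`), then the induction hypothesis.  (2) a set definable over `M` is of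
the form `{x | φ(x, m)}` with a finite tuple `m` in `M`.  (3) If `M` is finite, `M = {m_1, .., m_k}`, then
`x ≠ m_1, ..., x ≠ m_k` has a solution in `V`, so in `M`.  (4) (2) and `emb_ex`.  (5) (2): a finite tuple of the
union lies in some `M n`, use (1).  (6) Close `X` off: countably many formulas and finite tuples of
parameters, one witness each, `ω` steps; criterion (2).  (For empty `V` all is trivial.) -/
def St_ELX : Prop :=
  ∀ (L : FirstOrder.Language.{0, 0}) (V : Type) [L.Structure V],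
    (∀ M : Set V, IsEl L M → ∀ (β γ : Type) [Finite β] [Finite γ] (φ : L.Formula (β ⊕ γ)) (m : γ → V),
      (∀ i, m i ∈ M) → (∃ x : β → V, φ.Realize (Sum.elim x m)) →
      ∃ x : β → V, (∀ i, x i ∈ M) ∧ φ.Realize (Sum.elim x m)) ∧
    (∀ M : Set V, (∀ (n : ℕ) (φ : L.Formula (Unit ⊕ Fin n)) (m : Fin n → V), (∀ i, m i ∈ M) →
      ∀ x : V, φ.Realize (Sum.elim (fun _ => x) m) →
        ∃ x ∈ M, φ.Realize (Sum.elim (fun _ => x) m)) → IsEl L M) ∧
    (Infinite V → ∀ M : Set V, IsEl L M → M.Infinite) ∧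
    (∀ (U : Type) [L.Structure U] (j : U ↪ₑ[L] V), IsEl L (range j)) ∧
    (∀ M : ℕ → Set V, Monotone M → (∀ n, IsEl L (M n)) → IsEl L (⋃ n, M n)) ∧
    (Countable L.Symbols → ∀ X : Set V, X.Countable → ∃ M : Set V, X ⊆ M ∧ CM L M)

/-! ### Stable formulas -/

/-- [LAD] (0.7h) Ladders in sets definable with parameters.
PROOF.  `s = {v | φ(v, c)}`, `c` in `Fin k → M`; reindex `α = Fin m`, `β ⊕ Fin k = Fin n`, the second tuples are
`(b j, c)`.  The first statement is `Stb`.  `i ≤ j` is `i < j + 1`: use the sequences `a (i + 1)`, `b j` (`i + 1 ≤ j` iff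
`i < j`).  `j < i` and `j ≤ i`: complements (`¬ φ`). -/
def St_LAD : Prop :=
  ∀ (L : FirstOrder.Language.{0, 0}) (M : Type) [L.Structure M], Stb L M →
    ∀ (α β : Type) [Finite α] [Finite β] (s : Set (α ⊕ β → M)), Dfp L s →
    ∀ (a : ℕ → α → M) (b : ℕ → β → M),
      (¬ ∀ i k, Sum.elim (a i) (b k) ∈ s ↔ i < k) ∧ (¬ ∀ i k, Sum.elim (a i) (b k) ∈ s ↔ i ≤ k) ∧
      (¬ ∀ i k, Sum.elim (a i) (b k) ∈ s ↔ k < i) ∧ (¬ ∀ i k, Sum.elim (a i) (b k) ∈ s ↔ k ≤ i)

/-- [DEF] (2h; LAD) Types are definable.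
PROOF.  Suppose `D = fib p s` is not definable.  Claim: for all `n` and `a_0, ..., a_(n-1)` there are `b ∈ D`,
`c ∉ D` with `(a_i, b) ∈ s ↔ (a_i, c) ∈ s` for all `i < n`.  (Otherwise `D` is the union of the finitely many
cells of the partition by the definable sets `{b | (a_i, b) ∈ s}` which meet `D`: definable, `Dfp.biUnion`,
`Dfp.snd`.)  Recursively choose `b_n, c_n` for `a_0, ..., a_(n-1)` and then `a_n` in the set
`{a | (a, b_i) ∈ s and (a, c_i) ∉ s for all i ≤ n}`, which belongs to `p` (finite intersection; `b_i ∈ D`,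
`c_i ∉ D`), so it is not empty.  Then `(a_i, b_k) ∈ s`, `(a_i, c_k) ∉ s` for `k ≤ i`, and
`(a_i, b_k) ∈ s ↔ (a_i, c_k) ∈ s` for `i < k`.  By `ram` there is a strictly increasing `f` such that
`(a_(f i), b_(f k)) ∈ s` for all `i < k`, or for no `i < k`.  In the first case `(a_(f i), c_(f k)) ∈ s ↔ i < k`, in
the second case `(a_(f i), b_(f k)) ∈ s ↔ k ≤ i`: contradiction to LAD. -/
def St_DEF : Prop :=
  ∀ (L : FirstOrder.Language.{0, 0}) (M : Type) [L.Structure M], Stb L M →
    ∀ (α β : Type) [Finite α] [Finite β] (p : Set (Set (α → M))), IsTy L p →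
    ∀ s : Set (α ⊕ β → M), Dfp L s → Dfp L (fib p s)

/-- [HAR] (1.5h; LAD, DEF) Symmetry (Harrington's lemma).
PROOF.  `fib p s` and `bfi q s` are definable (DEF; `bfi q s = fib q {v : β ⊕ α → M | v ∘ Sum.swap ∈ s}`).
It is enough to show: `fib p s ∈ q` implies `bfi q s ∈ p` for all `s` (the converse: apply this to `sᶜ`,
`fib_compl`, and the same for `bfi`).  Let `D = fib p s ∈ q` and `D' = bfi q s ∉ p`.
Recursively choose `b_n ∈ D` with `(a_i, b_n) ∉ s` for all `i < n` [the `a_i` are not in `D'`, so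
`{b | (a_i, b) ∉ s} ∈ q`], and `a_n ∉ D'` with `(a_n, b_i) ∈ s` for all `i ≤ n` [`b_i ∈ D`, and the complement of
`D'` is in `p`].  So `(a_i, b_k) ∈ s ↔ k ≤ i`: contradiction to LAD. -/
def St_HAR : Prop :=
  ∀ (L : FirstOrder.Language.{0, 0}) (M : Type) [L.Structure M], Stb L M →
    ∀ (α β : Type) [Finite α] [Finite β] (p : Set (Set (α → M))) (q : Set (Set (β → M))),
    IsTy L p → IsTy L q → ∀ s : Set (α ⊕ β → M), Dfp L s →
      Dfp L (bfi q s) ∧ (fib p s ∈ q ↔ bfi q s ∈ p)

/-! ### Bounded types -/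

/-- [BDX] (3h; CTD, DEF) Bounded types exist.
PROOF.  `X` = `Ultrafilter (α → U)`, compact Hausdorff; `g : U ≃[L] U` acts by
`D ↦ D.map (fun v i => g (v i))`, continuous.  `X_c` = the ultrafilters which contain `rs U φ` for all `φ` with
`φ.Realize c`: closed, invariant (`act_rs`), contains `pure c`.  Zorn (`zorn_superset`-like; intersections of
chains of nonempty closed sets are nonempty by compactness): a minimal nonempty closed invariant
`Y ⊆ X_c`.  For a formula `φ` in `α ⊕ β` (`β` finite) and `D ∈ X` let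
`Tr D = {b : β → U | {a | φ(a, b)} ∈ D}`.  The definable members of `D` form a type `ty D` (`IsTy`), and
`Tr D = fib (ty D) (rs U φ)`, so `Tr D` is definable (DEF) and there are countably many possible `Tr D`
(CTD).  For every `T` the set `{D ∈ Y | Tr D = T}` is closed.  By Baire in the compact space `Y`
(`nonempty_interior_of_iUnion_of_closed`) there are `T` and an open `W ⊆ X` with `W ∩ Y ≠ ∅` and
`Tr D = T` for all `D ∈ W ∩ Y`.  `Y` minus the union of the translates of `W` is closed, invariant and not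
`Y`, so it is empty.  Compactness: `Y ⊆ g_1 W ∪ ... ∪ g_k W`.  As `Tr (g D) = act g (Tr D)`, every
`Tr D`, `D ∈ Y`, is one of `act (g_i) T`: finitely many.  For `D ∈ Y` the conjugates of
`fib (ty D) (rs U φ)` are `Tr (g D)`, `g D ∈ Y`.  So `p = ty D` is bounded for any `D ∈ Y`. -/
def St_BDX : Prop :=
  ∀ (L : FirstOrder.Language.{0, 0}) (U : Type) [L.Structure U], CU L U →
    ∀ (α : Type) [Finite α] (c : α → U), ∃ p : Set (Set (α → U)),
      Bd L p ∧ ∀ φ : L.Formula α, φ.Realize c → rs U φ ∈ p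

/-- [FEQ] (1h) Closure properties of finite equivalence relations.
PROOF.  `er_inf`, `er_pbE`, `er_fmE`, `er_prE`.  Finiteness of the number of classes: a relation `E` with
`fin` has a finite set `F` of representatives; the relation in question is implied by equality of a
map into a finite set: for `E ⊓ E'` the pair of classes (elements of `F × F'`), for `pbE f E` the class
of `x ∘ f`, for `fmE φ` the truth value of `φ`, for `prE E` the set of the classes `y ∈ F` such that
`E((x, z), y)` for some `z`.  (Finitely many values: choose a preimage for each value.) -/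
def St_FEQ : Prop :=
  ∀ (L : FirstOrder.Language.{0, 0}) (M : Type) [L.Structure M],
    (∀ (α : Type) (E E' : L.Formula (α ⊕ α)), FE M E → FE M E' → FE M (E ⊓ E')) ∧
    (∀ (α β : Type) (f : α → β) (E : L.Formula (α ⊕ α)), FE M E → FE M (pbE f E)) ∧
    (∀ (α : Type) (φ : L.Formula α), FE M (fmE φ)) ∧
    (∀ (α β : Type) [Finite β] (E : L.Formula ((α ⊕ β) ⊕ (α ⊕ β))), FE M E → FE M (prE E))

/-- [FEV] (1.5h; ELX) Finite equivalence relations in `U`, `V` and elementary submodels.
PROOF.  For fixed `k` the property `E is an equivalence relation, and there are y_1, ..., y_k such that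
every x is equivalent to one of them` is expressed by formulas: for reflexivity etc. use `iAlls` over
`α`, `α ⊕ α`, `α ⊕ α ⊕ α`, for the last part the formula `iExs (Fin k × α)` of `iAlls α` of `Formula.iSup`; all
without free variables (`α ⊕ Empty`, or free variables in `Empty`).  `emb_real` transfers them between `U`
and `V`.  Representatives: `∃ y_1 ... y_k ∀ x ⋁ E(x, y_i)` holds in `V`, so by elementarity (`emb_ex`, for `M`:
ELX (1)) there are such `y_i` in `range j`, in `M`. -/
def St_FEV : Prop :=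
  ∀ (L : FirstOrder.Language.{0, 0}) (U V : Type) [L.Structure U] [L.Structure V] (j : U ↪ₑ[L] V)
    (α : Type) [Finite α] (E : L.Formula (α ⊕ α)),
    (FE U E ↔ FE V E) ∧
    (FE V E → ∀ v : α → V, ∃ u : α → U, er E v (j ∘ u)) ∧
    (FE V E → ∀ M : Set V, IsEl L M → ∀ v : α → V, ∃ m : α → V, (∀ i, m i ∈ M) ∧ er E v m)

/-- [BDE] (2h; DEF, SAU) The definition schemes of a bounded type are invariant under finite
equivalence relations.
PROOF.  `D = fib p (rs U φ)` is definable: `D = {y | δ(y, c)}`, `c : Fin m → U`.  By `act_of` the conjugates of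
`D` are the sets `D(c') = {y | δ(y, c')}`, `c' = g c`.  Let `k` be their number (`Bd.fin`).  Claim: there is a
formula `ρ` with `ρ(c)` such that there are at most `k` different sets `D(c')` with `ρ(c')`.  Otherwise, for
every formula `ρ` with `ρ(c)` there are `c'_0, ..., c'_k` satisfying `ρ` with pairwise different `D(c'_i)`
(`∃ y ¬ (δ(y, c'_i) ↔ δ(y, c'_l))` is a formula).  By saturation (SAU, variables `Fin (k+1) × Fin m`; a finite
set of the `ρ` is replaced by its conjunction) there are `c'_0, ..., c'_k` which satisfy all formulas true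
of `c`, with pairwise different `D(c'_i)`; by homogeneity (SAU) these are `k + 1` different conjugates of
`D`: contradiction.  Now `E(y, y')` := `∀ w (ρ(w) → (δ(y, w) ↔ δ(y', w)))`: an equivalence relation, implied by
equality of the set of those of the (at most `k`) sets `D(c')`, `ρ(c')`, which contain `y`: at most `2^k`
classes.  `D` is `E`-invariant because of `ρ(c)`. -/
def St_BDE : Prop :=
  ∀ (L : FirstOrder.Language.{0, 0}) (U : Type) [L.Structure U], CU L U →
    ∀ (α β : Type) [Finite α] [Finite β] (p : Set (Set (α → U))), Bd L p → ∀ φ : L.Formula (α ⊕ β),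
    ∃ E : L.Formula (β ⊕ β), FE U E ∧
      ∀ y y' : β → U, er E y y' → (y ∈ fib p (rs U φ) ↔ y' ∈ fib p (rs U φ))

/-- [LIM] (3h; CTD, SAU, FEQ, FEV) Limits of conjugates of a bounded type.
PROOF.  `F_0, F_1, ...` an enumeration of all `E` with `FE U E` (CTD; `fmE ⊤` is one), `E_n` = conjunction of
`F_0, ..., F_n` (FEQ).  The finitely many `E_n`-classes cover `U^α`, so one is in `r`
(`IsTy.biUnion_mem`): `{x | E_n(x, w)} ∈ r`.  For finitely many `φ` with `φ(a)` the set of the
`x` with `E_n(x, w)` and `φ(x)` is in `r`, so not empty: by saturation (SAU) there is `v_n ∈ U^α` with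
`E_n(v_n, w)`, so `{x | E_n(x, v_n)} ∈ r`, and with `φ(v_n)` for all `φ` with `φ(a)`.  By FEV `E_n(a, j w')` for
some `w'` in `U`; for finitely many `φ` with `φ(a)` some `x ∈ U^α` has `E_n(x, w')` and `φ(x)` (`emb_ex`), so by
saturation there is `u_n ∈ U^α` with `E_n(a, j u_n)` and `φ(u_n)` for all `φ` with `φ(a)`.  Homogeneity: `g_n` with
`g_n v_n = u_n`.  `r_n = acT (g_n) r`, a type with `{x | E_n(x, u_n)} ∈ r_n` (`act_er`).  `r'` = the set of the
definable `s` with `s ∈ r_n` for almost all `n` (for `Filter.hyperfilter ℕ`): a type.  For a formula `φ` in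
`α ⊕ β` the sets `fib r_n (rs U φ) = act (g_n) (fib r (rs U φ))` (`fib_acT_rs`) take finitely many values
(`Bd.fin`), so one value `D'` is taken for almost all `n`, and `fib r' (rs U φ) = D'` is a conjugate of
`fib r (rs U φ)`; for three formulas take a common `n`.  A conjugate of a conjugate is a conjugate, so `r'`
is bounded.  `Hs j a r'`: `FE U E`, `E(a, j u)`; `E = F_i`, so `E_n` implies `E` for `n ≥ i` (`er_inf`, in
`U` and in `V`); `E_n(a, j u_n)` gives `E(u, u_n)` (`emb_er`), so `{x | E_n(x, u_n)} ⊆ {x | E(x, u)}`, which is in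
`r_n` for all `n ≥ i`. -/
def St_LIM : Prop :=
  ∀ (L : FirstOrder.Language.{0, 0}) (U V : Type) [L.Structure U] [L.Structure V] (j : U ↪ₑ[L] V),
    Cx L U V → ∀ (α : Type) [Finite α] (r : Set (Set (α → U))) (a : α → V), Bd L r →
    (∀ φ : L.Formula α, φ.Realize a → rs U φ ∈ r) →
    ∃ r' : Set (Set (α → U)), Bd L r' ∧ Hs j a r' ∧
      ∀ (β₁ β₂ β₃ : Type) [Finite β₁] [Finite β₂] [Finite β₃] (φ₁ : L.Formula (α ⊕ β₁))
        (φ₂ : L.Formula (α ⊕ β₂)) (φ₃ : L.Formula (α ⊕ β₃)), ∃ g : U ≃[L] U,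
        fib r' (rs U φ₁) = act g (fib r (rs U φ₁)) ∧
        fib r' (rs U φ₂) = act g (fib r (rs U φ₂)) ∧
        fib r' (rs U φ₃) = act g (fib r (rs U φ₃))

/-- [EXF] (0.7h; SAU, BDX, LIM) Every strong type has a bounded extension.
PROOF.  For finitely many `φ` with `φ(a)` some `x ∈ U^α` satisfies them (`emb_ex`, without parameters), so by
saturation (SAU) some `c ∈ U^α` satisfies all `φ` with `φ(a)`.  BDX for `c`, then LIM. -/
def St_EXF : Prop :=
  ∀ (L : FirstOrder.Language.{0, 0}) (U V : Type) [L.Structure U] [L.Structure V] (j : U ↪ₑ[L] V),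
    Cx L U V → ∀ (α : Type) [Finite α] (a : α → V), ∃ p : Set (Set (α → U)), Bd L p ∧ Hs j a p

/-- [UNF] (2h; DEF, HAR, FEV, BDE, EXF) Uniqueness of the bounded extension of a strong type.
PROOF.  By `IsTy.eq_of_subset` let `s ∈ p`, `s = {x | φ(x, b)}`, `b : Fin n → U`.  EXF: `q` bounded,
`Hs j (j ∘ b) q`.  `D = fib p (rs U φ)` contains `b` and is invariant for some `E` with `FE U E` (BDE);
`{y | E(y, b)}` is in `q` (`Hs` with `u = b`, `emb_er`, `refl`) and contained in `D`, which is definable (DEF):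
`D ∈ q`.  HAR: `D' = bfi q (rs U φ) ∈ p`.  `D' = fib q (rs U φ')` for `φ'` = `φ` relabelled along `Sum.swap`, so
it is invariant for some `E'` with `FE U E'` (BDE for `q`).  FEV: `u ∈ U^α` with `E'(a, j u)`.  The set
`{x | E'(x, u)}` is in `p` and in `p'` (`Hs`).  It meets `D'` (both are in `p`), so it is contained in `D'`, so
`D' ∈ p'` (`D'` is definable).  HAR: `D'' = fib p' (rs U φ) ∈ q`.  It is invariant for some `E''` (BDE for
`p'`), `{y | E''(y, b)} ∈ q` meets `D''`, so `b ∈ D''`: `s ∈ p'`. -/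
def St_UNF : Prop :=
  ∀ (L : FirstOrder.Language.{0, 0}) (U V : Type) [L.Structure U] [L.Structure V] (j : U ↪ₑ[L] V),
    Cx L U V → ∀ (α : Type) [Finite α] (a : α → V) (p p' : Set (Set (α → U))),
    Bd L p → Bd L p' → Hs j a p → Hs j a p' → p = p'

/-- [RXT] (1h) Reindexing of types.
PROOF.  `Dfp.pre`.  `{v | v ∘ f ∈ s}` commutes with Boolean operations.  For a formula `φ` in
`β ⊕ γ`, `fib (rx f p) (rs φ) = fib p (rs φ')` with `φ' = φ.relabel (Sum.map f id)` (`Dfp.of` for the
definability). -/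
def St_RXT : Prop :=
  ∀ (L : FirstOrder.Language.{0, 0}) (M : Type) [L.Structure M] (α β : Type) [Finite α] [Finite β]
    (f : β → α) (p : Set (Set (α → M))),
    (IsTy L p → IsTy L (rx L f p)) ∧ (Bd L p → Bd L (rx L f p)) ∧
    (IsTy L p → rx L (id : α → α) p = p) ∧
    (IsTy L p → ∀ (γ : Type) (g : γ → β), rx L g (rx L f p) = rx L (f ∘ g) p) ∧
    (IsTy L p → ∀ (γ : Type) [Finite γ] (φ : L.Formula (β ⊕ γ)),
      fib (rx L f p) (rs M φ) = fib p (rs M (φ.relabel (Sum.map f id) : L.Formula (α ⊕ γ))))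

/-- [FRB] (1.5h; FEQ, FEV, RXT, EXF, UNF) Properties of `fr`.
PROOF.  EXF, UNF: exactly one bounded `p` has `Hs j a p`, and `fr j a = p`.  `rs U φ ∈ fr j a ↔ φ(a)`: FEV for
`fmE φ` (FEQ) gives `u` with `φ(a) ↔ φ(j u) ↔ φ(u)` and `{x | φ(x) ↔ φ(u)} ∈ fr j a`; so if `φ(a)` then
`rs U φ ∈ fr j a`, and if not then `rs U φ.not ∈ fr j a`.  `Sq a a'` implies `Hs j a' (fr j a)`: `FE U E`,
`E(a', j u)`; `FE V E` (FEV), `E(a, a')`, so `E(a, j u)`.  Conversely let `fr j a = fr j a' = p` and `FE V E`;
`u`, `u'` with `E(a, j u)`, `E(a', j u')` (FEV): `{x | E(x, u)}` and `{x | E(x, u')}` are in `p`, so they meet, `E(u, u')`,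
so `E(a, a')`.  The last statement: `rx f (fr j a)` is bounded (RXT) and has `Hs j (a ∘ f)`: if `FE U E`,
`E(a ∘ f, j u)`, take `w` with `(pbE f E)(a, j w)` (FEQ, FEV); then `{x | E(x ∘ f, w ∘ f)} ∈ fr j a` and
`E(w ∘ f, u)`. -/
def St_FRB : Prop :=
  ∀ (L : FirstOrder.Language.{0, 0}) (U V : Type) [L.Structure U] [L.Structure V] (j : U ↪ₑ[L] V),
    Cx L U V → ∀ (α : Type) [Finite α] (a : α → V),
    Bd L (fr j a) ∧ Hs j a (fr j a) ∧
    (∀ p : Set (Set (α → U)), Bd L p → Hs j a p → fr j a = p) ∧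
    (∀ φ : L.Formula α, rs U φ ∈ fr j a ↔ φ.Realize a) ∧
    (∀ a' : α → V, Sq L a a' ↔ fr j a = fr j a') ∧
    (∀ (β : Type) [Finite β] (f : β → α), fr j (a ∘ f) = rx L f (fr j a))

/-! ### Tensor products -/

/-- [TEN] (2h; DEF) The tensor product is a type, bounded if the factors are.
PROOF.  Type: `fib_inter`, `fib_compl`, DEF.  Boundedness: `φ` in `(α ⊕ β) ⊕ γ`, `φ'` = `φ` relabelled to
`α ⊕ (β ⊕ γ)`; `D = fib p (rs U φ')` is definable, `D = {w | δ(w, e)}`, `δ` in `(β ⊕ γ) ⊕ Fin k`; `δ'` = `δ`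
relabelled to `β ⊕ (γ ⊕ Fin k)`, `G = fib q (rs U δ')`.  `c ∈ T := fib (ten p q) (rs U φ)` iff
`{b | (b, c) ∈ D} ∈ q` iff `(c, e) ∈ G`.  For `g ∈ Aut U`: `c ∈ act g T` iff `(g⁻¹ c, e) ∈ G` iff
`(c, g e) ∈ act g G = fib (acT g q) (rs U δ')` iff `{b | δ(b, c, g e)} ∈ acT g q`.  So
`act g T = {c | ∃ e', (∀ w, w ∈ act g D ↔ δ(w, e')) ∧ (c, e') ∈ act g G}`: `⊆` with `e' = g e` (`act_of`), `⊇`
because `{b | δ(b, c, e')} = {b | (b, c) ∈ act g D} = {b | δ(b, c, g e)}`.  Hence `act g T` is determined by the pair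
`(act g D, act g G)`: finitely many pairs. -/
def St_TEN : Prop :=
  ∀ (L : FirstOrder.Language.{0, 0}) (M : Type) [L.Structure M], Stb L M →
    ∀ (α β : Type) [Finite α] [Finite β] (p : Set (Set (α → M))) (q : Set (Set (β → M))),
    (IsTy L p → IsTy L q → IsTy L (ten L p q)) ∧ (Bd L p → Bd L q → Bd L (ten L p q))

/-- [TAL] (2h; DEF, HAR, RXT, TEN) Rules for the tensor product.
PROOF.  Both sides are types (TEN, RXT), so by `IsTy.eq_of_subset` one inclusion is enough.
Commutativity is HAR (`bfi q s = fib q {v | v ∘ swap ∈ s}`).  Associativity: unfold,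
`s ∈ (p ⊗ q) ⊗ r` iff `{c | {b | {a | (a,b,c) ∈ s} ∈ p} ∈ q} ∈ r` on both sides.  `rx inl`: for `s ⊆ U^α` the
set `fib p {v | v ∘ inl ∈ s}` is everything (if `s ∈ p`).  `rx inr`: `fib p {v | v ∘ inr ∈ s} = s` (`univ ∈ p`,
`∅ ∉ p`).  Reindexing: `fib (rx f p) s = {b | {a | (a ∘ f, b) ∈ s} ∈ p}`; unfold. -/
def St_TAL : Prop :=
  ∀ (L : FirstOrder.Language.{0, 0}) (M : Type) [L.Structure M], Stb L M →
    (∀ (α β : Type) [Finite α] [Finite β] (p : Set (Set (α → M))) (q : Set (Set (β → M))),
      IsTy L p → IsTy L q →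
      ten L p q = rx L (Sum.swap : α ⊕ β → β ⊕ α) (ten L q p) ∧
      rx L (Sum.inl : α → α ⊕ β) (ten L p q) = p ∧ rx L (Sum.inr : β → α ⊕ β) (ten L p q) = q ∧
      (∀ (α' β' : Type) [Finite α'] [Finite β'] (f : α' → α) (g : β' → β),
        ten L (rx L f p) (rx L g q) = rx L (Sum.map f g) (ten L p q)) ∧
      (∀ (γ : Type) [Finite γ] (r : Set (Set (γ → M))), IsTy L r →
        ten L (ten L p q) r = rx L (Equiv.sumAssoc α β γ) (ten L p (ten L q r))))

end Pool.Agent.MST
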