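import Pool.Agent.MST.StA

/-!
MST: statements of the second part (helper47), with proofs in the docstrings: independence,
extensions, heirs and coheirs, free unions.
-/

set_option autoImplicit false

namespace Pool.Agent.MST

open FirstOrder.Language Set
open scoped FirstOrder
open Pool.Agent.WOM (tp Mon IsEl IsoM Fam)

/-! ### Independence of tuples -/

/-- [CAL] (1.5h; RXT, FRB, TAL) The calculus of independence for tuples.
PROOF.  `p = fr j a`, `q = fr j b`, ... are types (FRB).  (1) `fr (b a) = rx swap (fr (a b)) =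
rx swap (p ⊗ q) = q ⊗ p` (FRB with `f = Sum.swap`, TAL).  (2) FRB with `Sum.map f g`, TAL.  (3) `fr ((a b) c) =
fr (a b) ⊗ r = (p ⊗ q) ⊗ r = rx assoc (p ⊗ (q ⊗ r))`, so `fr (a (b c)) = rx assoc.symm (fr ((a b) c)) = p ⊗ (q ⊗ r)`
(RXT), and the marginal (`Sum.inr`) gives `fr (b c) = q ⊗ r`.  (4) `Sq` is equality of `fr` (FRB), and
`fr (a b) = p ⊗ q`.  (5) `fr (a b) = fr (a' b')`; the marginals are equal. -/
def St_CAL : Prop :=
  ∀ (L : FirstOrder.Language.{0, 0}) (U V : Type) [L.Structure U] [L.Structure V] (j : U ↪ₑ[L] V),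
    Cx L U V →
    (∀ (α β : Type) [Finite α] [Finite β] (a : α → V) (b : β → V), Fr j a b → Fr j b a) ∧
    (∀ (α β α' β' : Type) [Finite α] [Finite β] [Finite α'] [Finite β'] (a : α → V) (b : β → V)
      (f : α' → α) (g : β' → β), Fr j a b → Fr j (a ∘ f) (b ∘ g)) ∧
    (∀ (α β γ : Type) [Finite α] [Finite β] [Finite γ] (a : α → V) (b : β → V) (c : γ → V),
      Fr j a b → Fr j (Sum.elim a b) c → Fr j a (Sum.elim b c)) ∧
    (∀ (α β : Type) [Finite α] [Finite β] (a a' : α → V) (b b' : β → V),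
      Fr j a b → Fr j a' b' → Sq L a a' → Sq L b b' → Sq L (Sum.elim a b) (Sum.elim a' b')) ∧
    (∀ (α β : Type) [Finite α] [Finite β] (a a' : α → V) (b b' : β → V),
      Sq L (Sum.elim a b) (Sum.elim a' b') → Fr j a b → Fr j a' b')

/-- [INV] (2h; DEF, LIM, RXT, FRB, TEN, TAL) Independence depends only on the type over the empty set.
PROOF.  `r = fr j (a b)`; `rs U φ ∈ r` for all `φ` with `φ(a', b')` (FRB, hypothesis).  LIM for `r` and
`(a', b')`: `r'` bounded with `Hs j (a' b') r'`, so `r' = fr j (a' b')` (FRB).  `p = fr j a`, `q = fr j b`, `p' = fr j a'`,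
`q' = fr j b'` are the marginals (`rx` along `Sum.inl`, `Sum.inr`) of `r = ten p q` and of `r'`.  To show
`r' = ten p' q'`; both are types (TEN), so let `s ∈ ten p' q'`, `s = {v | φ(v, u)}`, `φ` in `(α ⊕ β) ⊕ Fin n`.
`φ'` = `φ` relabelled to `α ⊕ (β ⊕ Fin n)`; `D = fib p (rs U φ')` is definable: `D = {w | δ(w, e)}`, `δ` in
`(β ⊕ Fin n) ⊕ Fin k`; `δ'` = `δ` relabelled to `β ⊕ (Fin n ⊕ Fin k)`.  LIM with the three formulas `φ`,
`φ'` (relabelled along `Sum.map inl id` to `(α ⊕ β) ⊕ (β ⊕ Fin n)`), `δ'` (relabelled along `Sum.map inr id` to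
`(α ⊕ β) ⊕ (Fin n ⊕ Fin k)`) and RXT (last part): there is `g` with `fib r' φ = act g (fib r φ)`,
`fib p' φ' = act g D`, `fib q' δ' = act g (fib q δ')`.  Now `s ∈ ten p' q'` iff
`{y | (y, u) ∈ fib p' φ'} ∈ q'` iff `{y | δ(y, u, g e)} ∈ q'` (`act_of`) iff `(u, g e) ∈ fib q' δ'` iff
`(g⁻¹ u, e) ∈ fib q δ'` iff `{y | (y, g⁻¹ u) ∈ D} ∈ q` iff `{v | φ(v, g⁻¹ u)} ∈ ten p q = r` iff
`g⁻¹ u ∈ fib r φ` iff `u ∈ fib r' φ` iff `s ∈ r'`. -/
def St_INV : Prop :=
  ∀ (L : FirstOrder.Language.{0, 0}) (U V : Type) [L.Structure U] [L.Structure V] (j : U ↪ₑ[L] V),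
    Cx L U V → ∀ (α β : Type) [Finite α] [Finite β] (a a' : α → V) (b b' : β → V),
    (∀ φ : L.Formula (α ⊕ β), φ.Realize (Sum.elim a b) ↔ φ.Realize (Sum.elim a' b')) →
    Fr j a b → Fr j a' b'

/-- [FRS] (1.5h; RXT, FRB, CAL) The calculus of independence for sets.
PROOF.  (5) `α` is in bijection with `Fin m`, `β` with `Fin n`; CAL (2).  (1), (2) clear.  (3) `a` in `X`, `d`
in `Y ∪ Z`, `d : Fin n → V`: let `β = {i // d i ∈ Y}`, `γ = {i // d i ∉ Y}`; `Fr a (d|β)`,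
`Fr (a, d|β) (d|γ)` (by (5)), so `Fr a (d|β, d|γ)` (CAL (3)), and reindex (CAL (2)).  (4) `a : Fin 0 → V`: a type
`P` over `U` in the variables `Fin 0 ⊕ Fin n` is determined by `rx inr P` (`s ∈ P` iff
`{w | Sum.elim Fin.elim0 w ∈ s} ∈ rx inr P`), and `rx inr` of both sides is `fr j b` (FRB, TAL). -/
def St_FRS : Prop :=
  ∀ (L : FirstOrder.Language.{0, 0}) (U V : Type) [L.Structure U] [L.Structure V] (j : U ↪ₑ[L] V),
    Cx L U V →
    (∀ X Y : Set V, FrS j X Y → FrS j Y X) ∧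
    (∀ X Y X' Y' : Set V, X' ⊆ X → Y' ⊆ Y → FrS j X Y → FrS j X' Y') ∧
    (∀ X Y Z : Set V, FrS j X Y → FrS j (X ∪ Y) Z → FrS j X (Y ∪ Z)) ∧
    (∀ Y : Set V, FrS j ∅ Y) ∧
    (∀ X Y : Set V, FrS j X Y → ∀ (α β : Type) [Finite α] [Finite β] (a : α → V) (b : β → V),
      (∀ i, a i ∈ X) → (∀ i, b i ∈ Y) → Fr j a b)

/-- [SQI] (1.5h; FEQ) Rules for equality of strong types.
PROOF.  (1) `FE`.  (2) `pbE` (FEQ, `er_pbE`).  (3) `fmE` (FEQ, `er_fmE`).  (4) `α` is in bijection with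
`Fin n`, (2).  (5) the formula `φ` has finitely many free variables: `φ.restrictFreeVar id` is a formula
in the finite type `φ.freeVarFinset` (`realize_restrictFreeVar`), use (4) for its inclusion into `ι`, and
(3).  (6), (7) clear. -/
def St_SQI : Prop :=
  ∀ (L : FirstOrder.Language.{0, 0}) (M : Type) [L.Structure M],
    (∀ (α : Type) (a b c : α → M), Sq L a a ∧ (Sq L a b → Sq L b a) ∧
      (Sq L a b → Sq L b c → Sq L a c)) ∧
    (∀ (α β : Type) (a a' : α → M) (f : β → α), Sq L a a' → Sq L (a ∘ f) (a' ∘ f)) ∧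
    (∀ (α : Type) (a a' : α → M), Sq L a a' → ∀ φ : L.Formula α, φ.Realize a ↔ φ.Realize a') ∧
    (∀ (ι : Type) (A A' : ι → M), SqI L A A' → ∀ (α : Type) [Finite α] (f : α → ι),
      Sq L (A ∘ f) (A' ∘ f)) ∧
    (∀ (ι : Type) (A A' : ι → M), SqI L A A' → ∀ φ : L.Formula ι, φ.Realize A ↔ φ.Realize A') ∧
    (∀ (ι κ : Type) (A A' : ι → M) (f : κ → ι), SqI L A A' → SqI L (A ∘ f) (A' ∘ f)) ∧
    (∀ (ι : Type) (A B C : ι → M), SqI L A A ∧ (SqI L A B → SqI L B A) ∧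
      (SqI L A B → SqI L B C → SqI L A C))

/-- [SQJ] (1.2h; CAL, FRS, SQI) Independent families and strong types.
PROOF.  Let `f : Fin n → ι ⊕ κ`; split `Fin n` into the finite types of the `i` with `f i` in the left and in
the right summand, and reindex (SQI (2)).  (1) CAL (4) with FRS (5) and SQI (4).  (2) CAL (5): for tuples
`a'` in `range A'`, `b'` in `range B'` choose indices. -/
def St_SQJ : Prop :=
  ∀ (L : FirstOrder.Language.{0, 0}) (U V : Type) [L.Structure U] [L.Structure V] (j : U ↪ₑ[L] V),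
    Cx L U V →
    (∀ (ι κ : Type) (A A' : ι → V) (B B' : κ → V), SqI L A A' → SqI L B B' →
      FrS j (range A) (range B) → FrS j (range A') (range B') →
      SqI L (Sum.elim A B) (Sum.elim A' B')) ∧
    (∀ (ι κ : Type) (A A' : ι → V) (B B' : κ → V), SqI L (Sum.elim A B) (Sum.elim A' B') →
      FrS j (range A) (range B) → FrS j (range A') (range B'))

/-- [ELS] (0.7h; ELX, SQI) Strong types of elementary submodels.
PROOF.  Criterion ELX (2): let `φ(x, m')` hold in `V`, `m' = A' ∘ f`.  By SQI (4), (3) `∃ x φ(x, A ∘ f)` holds, so there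
is `x = A i` in `range A` (ELX (1)), and `φ(A i, A ∘ f)` gives `φ(A' i, A' ∘ f)`.  Equality is a formula, so
`A'` is injective if `A` is. -/
def St_ELS : Prop :=
  ∀ (L : FirstOrder.Language.{0, 0}) (M : Type) [L.Structure M] (ι : Type) (A A' : ι → M),
    SqI L A A' →
    (IsEl L (range A) → IsEl L (range A')) ∧ (Function.Injective A → Function.Injective A')

/-- [EXT] (3h; FEQ, FEV, UNF, RXT, FRB, TEN, TAL, FRS, SQI) Extension of strong types by independent
ones.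
PROOF.  Unknown `C' : κ → V`, parameters `A'`, `B`, `j(U)` (countable).  CONDITIONS: for all `m n`,
`F : Fin m → ι ⊕ κ`, `l : Fin n → B`, `E` with `FE U E` in `(Fin m ⊕ Fin n) ⊕ (Fin m ⊕ Fin n)` and `u` in `U`
with `{x | E(x, u)} ∈ fr (AC ∘ F) ⊗ fr (l)` (`AC = Sum.elim A C`): `E((A'C' ∘ F, l), j u)`.
If they hold then for all `F`, `l` the bounded type `r = fr (AC ∘ F) ⊗ fr (l)` (TEN) has `Hs j (A'C' ∘ F, l) r`: if
`FE U E` and `E((A'C' ∘ F, l), j w)`, take `u` with `{x | E(x, u)} ∈ r` (`IsTy.biUnion_mem`), the condition gives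
`E(w, u)`, so `{x | E(x, w)} = {x | E(x, u)} ∈ r`.  By FRB (uniqueness) `fr (A'C' ∘ F, l) = r`; the marginal
(RXT, TAL, FRB) is `fr (A'C' ∘ F) = fr (AC ∘ F)`, so `Sq (AC ∘ F) (A'C' ∘ F)`, and `Fr (A'C' ∘ F) l`.
SATISFIABILITY (`SatW` with variables `κ` and parameters `ι ⊕ (B ⊕ U)`): given finitely many conditions
`(F_i, l_i, E_i, u_i)` let `I0 ⊆ ι`, `K0 ⊆ κ`, `B0 ⊆ B` be finite sets containing all indices that occur, as
finite types; `α = (I0 ⊕ K0) ⊕ B0`, `r = fr (A|I0, C|K0) ⊗ fr (B0)`.  `(F_i, l_i)` is a reindexing `σ_i` into `α`; `E` =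
conjunction of the `pbE σ_i E_i` (FEQ), `u ∈ U^α` with `{x | E(x, u)} ∈ r`.  By RXT, TAL, FRB
`rx σ_i r = fr (AC ∘ F_i) ⊗ fr (l_i)`, so `{x | E_i(x ∘ σ_i, u_i)} ∈ r` meets `{x | E(x, u)}`: `E_i(u ∘ σ_i, u_i)`.
So it is enough to find `y : K0 → V` with `E((A'|I0, y, B0), j u)`.  `fr (A'|I0, B0) = fr (A'|I0) ⊗ fr (B0) =
fr (A|I0) ⊗ fr (B0)` = the marginal of `r` for the variables `I0 ⊕ B0`.  Let `E'` = `E` relabelled to
`((I0 ⊕ B0) ⊕ K0)`, `E1 = prE E'` (FEQ).  FEV: `w` in `U` with `E1((A'|I0, B0), j w)`; `{(x, z) | E1((x,z), w)}` is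
in `fr (A'|I0, B0)`, the marginal of `r`.  So there is a point `(x0, y0, z0)` of `U^α` with `E1((x0, z0), w)` and
`E((x0, y0, z0), u)`.  Then `E1(j(x0, z0), (A'|I0, B0))` in `V` (FEV, `emb_er`); by `er_prE` for `j y0` there is
`y` with `E(j(x0, y0, z0), (A'|I0, y, B0))`, and `E(j(x0, y0, z0), j u)`. -/
def St_EXT : Prop :=
  ∀ (L : FirstOrder.Language.{0, 0}) (U V : Type) [L.Structure U] [L.Structure V] (j : U ↪ₑ[L] V),
    Cx L U V → ∀ (ι κ : Type) [Countable ι] [Countable κ] (A A' : ι → V) (C : κ → V) (B : Set V),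
    B.Countable → SqI L A A' → FrS j (range A') B →
    ∃ C' : κ → V, SqI L (Sum.elim A C) (Sum.elim A' C') ∧ FrS j (range (Sum.elim A' C')) B

/-! ### Heirs and coheirs -/

/-- [DLT] (1.5h; DEF, FEQ, FEV, BDE, FRB) Definability over an elementary submodel for independent
tuples.
PROOF.  `D = fib (fr j a) (rs U φ)`, `E` from BDE, `D` is `E`-invariant.  If `Fr j a w` then `φ(a, w)` iff
`rs U φ ∈ fr j (a w) = fr j a ⊗ fr j w` iff `D ∈ fr j w` iff `E(w, j u)` for some `u ∈ D`: let `u0` with `E(w, j u0)`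
(FEV), `{x | E(x, u0)} ∈ fr j w`; if `D ∈ fr j w` it meets `D`, so `u0 ∈ D`; if `u ∈ D`, `E(w, j u)`, then
`{x | E(x, u)} ∈ fr j w` is contained in `D`, which is definable.  `E` has finitely many classes: choose
finitely many `u_1, ..., u_k ∈ D` representing the classes contained in `D`, and `m_i` in `M` with
`E(j u_i, m_i)` (FEV).  `δ(w, e)` = `⋁ E(w, m_i)` (`Formula.iSup`), `e` the tuple of all `m_i`
(`Fin k × β`, in bijection with some `Fin n`). -/
def St_DLT : Prop :=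
  ∀ (L : FirstOrder.Language.{0, 0}) (U V : Type) [L.Structure U] [L.Structure V] (j : U ↪ₑ[L] V),
    Cx L U V → ∀ (α β : Type) [Finite α] [Finite β] (a : α → V) (φ : L.Formula (α ⊕ β)) (M : Set V),
    IsEl L M → ∃ (n : ℕ) (δ : L.Formula (β ⊕ Fin n)) (e : Fin n → V), (∀ i, e i ∈ M) ∧
      ∀ w : β → V, Fr j a w → (φ.Realize (Sum.elim a w) ↔ δ.Realize (Sum.elim w e))

/-- [HEI] (0.7h; ELX, FRS, DLT) Heirs.
PROOF.  DLT for `c`, `φ`: `δ`, `e` in `M`.  `Fr j c (b, m)` (FRS (5)), so `δ((b, m), e)`.  ELX (1): some `b'` in `M` has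
`δ((b', m), e)`.  `Fr j c (b', m)`, so `φ(c, (b', m))`. -/
def St_HEI : Prop :=
  ∀ (L : FirstOrder.Language.{0, 0}) (U V : Type) [L.Structure U] [L.Structure V] (j : U ↪ₑ[L] V),
    Cx L U V → ∀ M : Set V, IsEl L M → ∀ (α β γ : Type) [Finite α] [Finite β] [Finite γ]
    (c : α → V) (b : β → V) (m : γ → V), (∀ i, m i ∈ M) → FrS j (range c) (M ∪ range b) →
    ∀ φ : L.Formula (α ⊕ (β ⊕ γ)), φ.Realize (Sum.elim c (Sum.elim b m)) →
      ∃ b' : β → V, (∀ i, b' i ∈ M) ∧ φ.Realize (Sum.elim c (Sum.elim b' m))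

/-- [COH] (1.5h; ELX, LAD, FRS, DLT) Coheirs.
PROOF.  DLT for `a`, `φ`: `φ(a, w) ↔ δ(w, e)` for all `w` with `Fr j a w`, `e` in `M`.  Suppose no `a'` in `M` has
`φ(a', k, m)`.  Choose recursively `k_n` in `M` with `δ((k_n, m), e)` and `¬ φ(a_i, k_n, m)` for all `i < n` [ELX (1):
`k` has these properties: `Fr j a (k, m)` and `φ(a, k, m)`; the `a_i` are in `M`], and `a_n` in `M` with
`φ(a_n, k_i, m)` for all `i ≤ n` [ELX (1): `a` has these properties: `Fr j a (k_i, m)`, `δ((k_i, m), e)`].  So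
`φ(a_i, k_l, m) ↔ l ≤ i`: contradiction to LAD (the set `{v | φ(.., m)}` is definable with parameters,
`Dfp.of` after relabelling). -/
def St_COH : Prop :=
  ∀ (L : FirstOrder.Language.{0, 0}) (U V : Type) [L.Structure U] [L.Structure V] (j : U ↪ₑ[L] V),
    Cx L U V → ∀ M : Set V, IsEl L M → ∀ (α κ γ : Type) [Finite α] [Finite κ] [Finite γ]
    (a : α → V) (k : κ → V) (m : γ → V), (∀ i, m i ∈ M) → FrS j (range a) (M ∪ range k) →
    ∀ φ : L.Formula (α ⊕ (κ ⊕ γ)), φ.Realize (Sum.elim a (Sum.elim k m)) →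
      ∃ a' : α → V, (∀ i, a' i ∈ M) ∧ φ.Realize (Sum.elim a' (Sum.elim k m))

/-- [NDV] (1.5h; FEV, BDE, FRB) Independent tuples do not divide.
PROOF.  `D = fib (fr j a) (rs U φ)`, `E` from BDE.  As in DLT `D ∈ fr j b`, and for `u` with `E(b, j u)` (FEV) the
class of `u` meets `D`, so it is contained in `D`.  Suppose `Div φ b` with `k`.  Let `θ(y)` be the formula
`∀ w_1 ... w_k (⋀ E(w_i, y) → ∃ x ⋀ φ(x, w_i))` (`w : Fin k × Fin n`, `iAlls`, `iExs`, `iInf`).  In `U` it holds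
for `u`: if all `E(w_i, u)` then `w_i ∈ D`, so `{x | φ(x, w_i)} ∈ fr j a` for all `i`, and the intersection is not
empty.  So it holds for `j u` and, as `E(b, j u)`, for `b`.  `E` has finitely many classes in `V` (FEV), with
finite set `F` of representatives.  `N > k * |F|`: `Div` gives `c : Fin N → Fin n → V` with `θ(c_i)`; by the
pigeonhole principle `k` of the `c_i` (a set `I` of `k` indices) lie in one class.  `θ(c_i)` for one `i ∈ I`
gives `x` with `φ(x, c_i)` for all `i ∈ I`: contradiction.  (`k = 0`: `I = ∅`, `V` is not empty.) -/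
def St_NDV : Prop :=
  ∀ (L : FirstOrder.Language.{0, 0}) (U V : Type) [L.Structure U] [L.Structure V] (j : U ↪ₑ[L] V),
    Cx L U V → ∀ (m n : ℕ) (φ : L.Formula (Fin m ⊕ Fin n)) (a : Fin m → V) (b : Fin n → V),
    Fr j a b → φ.Realize (Sum.elim a b) → ¬ Div φ b

/-! ### Independent sequences -/

/-- [SEQ] (1h; EXT, SQI, FRS) Sequences of independent copies.
PROOF.  EXT with `ι = Empty`: for every `n` and every countable `B'` there is `A' : ι n → V` with
`SqI L (A n) A'` and `FrS j (range A') B'` (SQI (6); `FrS j (range of the empty family) B'` is FRS (4)).  Choose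
such a function `G n B'`; `B_0 = B`, `B_(n+1) = B_n ∪ range (G n B_n)`, `A' n = G n B_n`. -/
def St_SEQ : Prop :=
  ∀ (L : FirstOrder.Language.{0, 0}) (U V : Type) [L.Structure U] [L.Structure V] (j : U ↪ₑ[L] V),
    Cx L U V → ∀ (B : Set V), B.Countable → ∀ (ι : ℕ → Type) [∀ n, Countable (ι n)]
    (A : ∀ n, ι n → V), ∃ A' : ∀ n, ι n → V,
      (∀ n, SqI L (A n) (A' n)) ∧ ∀ n, FrS j (range (A' n)) (B ∪ ⋃ k ∈ {k | k < n}, range (A' k))

/-- [IND] (1.2h; FRS) Independent sequences are jointly independent.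
PROOF.  Finite tuples lie in finite subunions, so (by definition of `FrS`) it is enough to show by
induction on `N`: for disjoint `I`, `J` contained in `{k | k < N}`, `P | Q` with `P = ⋃ n ∈ I, X n`,
`Q = B ∪ ⋃ n ∈ J, X n`.  Step: if `N ∈ I`, `P = P' ∪ X N`: `P' | Q` and `X N | P' ∪ Q`, so `Q | P'`,
`Q ∪ P' | X N`, hence `Q | P' ∪ X N` (FRS (3)).  If `N ∈ J`, `Q = Q' ∪ X N`: `P | Q'`, `P ∪ Q' | X N`, so
`P | Q' ∪ X N`. -/
def St_IND : Prop :=
  ∀ (L : FirstOrder.Language.{0, 0}) (U V : Type) [L.Structure U] [L.Structure V] (j : U ↪ₑ[L] V),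
    Cx L U V → ∀ (B : Set V) (X : ℕ → Set V), (∀ n, FrS j (X n) (B ∪ ⋃ k ∈ {k | k < n}, X k)) →
    ∀ I J : Set ℕ, Disjoint I J → FrS j (⋃ n ∈ I, X n) (B ∪ ⋃ n ∈ J, X n)

/-! ### Monadically stable theories have free unions -/

/-- [ARR] (2h; FRS, SQI, SQJ, EXT, SEQ, IND) Arrays of copies.
PROOF.  SEQ with `B = ∅`, `ι n = M ⊕ N` and the constant family `Sum.elim val val`: `A' n`; `A i` = `A' (2i) ∘ inl`,
`B k` = `A' (2k+1) ∘ inr`.  By IND (for the sets `range (A' n)`) and FRS (2): `range (A i) | range (B k)`, and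
`range (A i) ∪ range (B k) | O_ik` := the set in the statement.  SQI (6): `SqI val (A i)`, `SqI val (B k)`; SQJ (1):
`SqI (val, val) (A i, B k)`.  EXT for these, `C = b`, `B = O_ik`: `d i k`. -/
def St_ARR : Prop :=
  ∀ (L : FirstOrder.Language.{0, 0}) (U V : Type) [L.Structure U] [L.Structure V] (j : U ↪ₑ[L] V),
    Cx L U V → ∀ M N : Set V, M.Countable → N.Countable → FrS j M N → ∀ b : V,
    ∃ (A : ℕ → M → V) (B : ℕ → N → V) (d : ℕ → ℕ → V),
      (∀ i k, SqI L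
        (Sum.elim (Sum.elim (fun x : M => (x : V)) (fun x : N => (x : V))) (fun _ : Unit => b))
        (Sum.elim (Sum.elim (A i) (B k)) (fun _ : Unit => d i k))) ∧
      ∀ i k, FrS j (range (A i) ∪ range (B k) ∪ {d i k})
        {v | (∃ l, l ≠ i ∧ v ∈ range (A l)) ∨ (∃ h, h ≠ k ∧ v ∈ range (B h))}

/-- [UNM] (2h; ELX, FRS, SQI, ELS, HEI, COH, ARR) Without coding of arrays there are free unions.
PROOF.  Criterion ELX (2) for `M ∪ N`: let `φ(x, m)` hold for `x = b` in `V`, `m` in `M ∪ N`, and suppose it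
holds for no `x ∈ M ∪ N`.  Split the parameters: `m1` in `M`, `m2` in `N` (reindex to
`ψ(m1, m2, z)`, `ψ` in `(Fin s ⊕ Fin t) ⊕ Unit`).  ARR: `A i`, `B k`, `d i k`; let `a_i`, `b_k` be the copies of
`m1`, `m2` in `A i`, `B k`.  Claim: `ψ(a_i, b_k, d_lh)` iff `(i, k) = (l, h)`: contradiction to `NC`.  `⇐`: SQI
(4), (3).  `⇒`: first, no `z` in `range (A i)` or in `range (B k)` satisfies `ψ(a_i, b_k, z)` (SQI again: `z = A i x` would
give `ψ(m1, m2, x)`).  `range (A i)`, `range (B k)` are elementary submodels (ELS).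
Case `l = i`, `h ≠ k`: `range (B k) | range (A i) ∪ {d_ih}` (ARR for `i, h`, FRS (1), (2)), so HEI with
`M := range (A i)`, `c := b_k`, `b := d_ih`, `m := a_i` gives `z ∈ range (A i)` with `ψ(a_i, b_k, z)`.
Case `l ≠ i`, `h = k`: the same with `A` and `B` exchanged.
Case `l ≠ i`, `h ≠ k`: `{d_lh} | range (A i) ∪ range (B k)`, so COH with `M := range (A i)`, `a := d_lh`,
`k := b_k`, `m := a_i` gives such a `z ∈ range (A i)`. -/
def St_UNM : Prop :=
  ∀ (L : FirstOrder.Language.{0, 0}) (U V : Type) [L.Structure U] [L.Structure V] (j : U ↪ₑ[L] V),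
    Cx L U V → NC L V → UN j

end Pool.Agent.MST
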